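import Pool.Agent.H.MP_d7db32_ag.Eq.FvA

/-!
# MP_d7db32_ag, Eq/Apx: the approximating forms have equivariant expressions of size `n`
-/

set_option autoImplicit false

namespace PadDet.Eq

open MvPolynomial Matrix

/-- The substitution whose image of the matrix of variables is `c ((x - xᵀ) + ε (x + xᵀ))`. -/
private noncomputable def Apx_g (n : ℕ) (c ε : ℂ) : Matrix (Fin n × Fin n) (Fin n × Fin n) ℂ :=
  Matrix.of fun p v => c * ((if v = p then 1 else 0) - (if v = p.swap then 1 else 0) +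
    ε * ((if v = p then 1 else 0) + (if v = p.swap then 1 else 0)))

private theorem Apx_mulVec {n : ℕ} (c ε : ℂ) (z : Fin n × Fin n → ℂ) (p : Fin n × Fin n) :
    (Apx_g n c ε *ᵥ z) p = c * (z p - z p.swap + ε * (z p + z p.swap)) := by
  have hs : ∀ q : Fin n × Fin n, ∑ v, (if v = q then (1 : ℂ) else 0) * z v = z q := by
    intro q
    simp
  have h1 : (Apx_g n c ε *ᵥ z) p = ∑ v, (c * (1 + ε) * ((if v = p then (1 : ℂ) else 0) * z v) +
      c * (ε - 1) * ((if v = p.swap then (1 : ℂ) else 0) * z v)) := by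
    simp only [Matrix.mulVec, dotProduct, Apx_g, Matrix.of_apply]
    exact Finset.sum_congr rfl fun v _ => by ring
  rw [h1, Finset.sum_add_distrib, ← Finset.mul_sum, ← Finset.mul_sum, hs, hs]
  ring

private theorem Apx_unit {n : ℕ} {c ε : ℂ} (hc : c ≠ 0) (hε : ε ≠ 0) :
    IsUnit (Apx_g n c ε).det := by
  rw [isUnit_iff_ne_zero]
  intro h0
  obtain ⟨z, hz, h⟩ := Matrix.exists_mulVec_eq_zero_iff.2 h0
  apply hz
  ext p
  have h1 := congrFun h p
  have h2 := congrFun h p.swap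
  rw [Apx_mulVec] at h1 h2
  rw [Prod.swap_swap] at h2
  have h3 : z p - z p.swap + ε * (z p + z p.swap) = 0 := (mul_eq_zero.1 h1).resolve_left hc
  have h4 : z p.swap - z p + ε * (z p.swap + z p) = 0 := (mul_eq_zero.1 h2).resolve_left hc
  have h5 : ε * (2 * (z p + z p.swap)) = 0 := by linear_combination h3 + h4
  have h6 : z p + z p.swap = 0 := by
    have := (mul_eq_zero.1 h5).resolve_left hε
    exact (mul_eq_zero.1 this).resolve_left two_ne_zero
  have h7 : 2 * z p = 0 := by linear_combination h3 + (1 - ε) * h6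
  exact (mul_eq_zero.1 h7).resolve_left two_ne_zero

private theorem Apx_subst {n : ℕ} (c ε : ℂ) :
    subst (Apx_g n c ε) (detPoly n) =
      C (c ^ n) * ((mvPolynomialX (Fin n) (Fin n) ℂ - (mvPolynomialX (Fin n) (Fin n) ℂ)ᵀ) +
        (C ε : MvPolynomial (Fin n × Fin n) ℂ) •
        (mvPolynomialX (Fin n) (Fin n) ℂ + (mvPolynomialX (Fin n) (Fin n) ℂ)ᵀ)).det := by
  rw [subst_det]
  have h : (Matrix.of fun i j => ∑ v, C (Apx_g n c ε (i, j) v) * X v :
      Matrix (Fin n) (Fin n) (MvPolynomial (Fin n × Fin n) ℂ)) =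
      (C c : MvPolynomial (Fin n × Fin n) ℂ) •
        ((mvPolynomialX (Fin n) (Fin n) ℂ - (mvPolynomialX (Fin n) (Fin n) ℂ)ᵀ) +
        (C ε : MvPolynomial (Fin n × Fin n) ℂ) •
        (mvPolynomialX (Fin n) (Fin n) ℂ + (mvPolynomialX (Fin n) (Fin n) ℂ)ᵀ)) := by
    ext1 i j
    rw [Matrix.of_apply, Matrix.smul_apply, Matrix.add_apply, Matrix.smul_apply, Matrix.sub_apply,
      Matrix.add_apply, Matrix.transpose_apply, mvPolynomialX_apply, mvPolynomialX_apply,
      smul_eq_mul, smul_eq_mul]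
    have hs : ∀ q : Fin n × Fin n, ∑ v, C (if v = q then (1 : ℂ) else 0) *
        (X v : MvPolynomial (Fin n × Fin n) ℂ) = X q := by
      intro q
      rw [Finset.sum_eq_single q]
      · rw [if_pos rfl, map_one, one_mul]
      · intro v _ hv
        rw [if_neg hv, map_zero, zero_mul]
      · intro h; exact absurd (Finset.mem_univ _) h
    have h1 : ∀ v : Fin n × Fin n, (C (Apx_g n c ε (i, j) v) * X v : MvPolynomial (Fin n × Fin n) ℂ) =
        C (c * (1 + ε)) * (C (if v = (i, j) then (1 : ℂ) else 0) * X v) +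
        C (c * (ε - 1)) * (C (if v = (j, i) then (1 : ℂ) else 0) * X v) := by
      intro v
      have h2 : Apx_g n c ε (i, j) v = c * (1 + ε) * (if v = (i, j) then (1 : ℂ) else 0) +
          c * (ε - 1) * (if v = (j, i) then (1 : ℂ) else 0) := by
        simp only [Apx_g, Matrix.of_apply, Prod.swap_prod_mk]
        ring
      rw [h2, map_add, map_mul C (c * (1 + ε)), map_mul C (c * (ε - 1))]
      ring
    rw [Finset.sum_congr rfl fun v _ => h1 v, Finset.sum_add_distrib, ← Finset.mul_sum,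
      ← Finset.mul_sum, hs, hs]
    simp only [map_mul, map_add, map_sub, map_one]
    ring
  rw [h, Matrix.det_smul, Fintype.card_fin, map_pow]

/-- Transposed inverse. -/
private noncomputable def Apx_ti {n : ℕ} (g : GL (Fin n) ℂ) : GL (Fin n) ℂ where
  val := ((g⁻¹ : GL (Fin n) ℂ) : Matrix (Fin n) (Fin n) ℂ)ᵀ
  inv := (g : Matrix (Fin n) (Fin n) ℂ)ᵀ
  val_inv := by
    rw [← Matrix.transpose_mul, ← Units.val_mul, mul_inv_cancel, Units.val_one,
      Matrix.transpose_one]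
  inv_val := by
    rw [← Matrix.transpose_mul, ← Units.val_mul, inv_mul_cancel, Units.val_one,
      Matrix.transpose_one]

/-- The linear matrix of the approximating form. -/
private noncomputable def Apx_M (n : ℕ) (c ε : ℂ) :
    Matrix (Fin n) (Fin n) ℂ →ₗ[ℂ] Matrix (Fin n) (Fin n) ℂ where
  toFun Z := c • ((Z - Zᵀ) + ε • (Z + Zᵀ))
  map_add' Z W := by
    rw [Matrix.transpose_add]
    module
  map_smul' a Z := by
    rw [Matrix.transpose_smul, RingHom.id_apply]
    module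

/-- The approximating form has an equivariant expression of size `n`. -/
theorem apx_expr {n : ℕ} (c ε : ℂ) :
    ∃ (M : Matrix (Fin n) (Fin n) ℂ →ₗ[ℂ] Matrix (Fin n) (Fin n) ℂ)
      (ρ ρ' : (Subgroup.prod (⊤ : Subgroup (GL (Fin n) ℂ)) (⊥ : Subgroup ℂˣ)) →*
        GL (Fin n) ℂ),
      Expr n (C (c ^ n) *
        ((mvPolynomialX (Fin n) (Fin n) ℂ - (mvPolynomialX (Fin n) (Fin n) ℂ)ᵀ) +
        (C ε : MvPolynomial (Fin n × Fin n) ℂ) •
        (mvPolynomialX (Fin n) (Fin n) ℂ + (mvPolynomialX (Fin n) (Fin n) ℂ)ᵀ)).det)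
        (Subgroup.prod ⊤ ⊥) 0 M ρ ρ' := by
  refine ⟨Apx_M n c ε,
    { toFun := fun h => Apx_ti (h : GL (Fin n) ℂ × ℂˣ).1
      map_one' := ?_
      map_mul' := ?_ },
    { toFun := fun h => (h : GL (Fin n) ℂ × ℂˣ).1
      map_one' := rfl
      map_mul' := fun _ _ => rfl }, ?_, ?_⟩
  · apply Units.ext
    show (((1 : GL (Fin n) ℂ)⁻¹ : GL (Fin n) ℂ) : Matrix (Fin n) (Fin n) ℂ)ᵀ = 1
    rw [inv_one, Units.val_one, Matrix.transpose_one]
  · intro h h'
    apply Units.ext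
    show ((((h : GL (Fin n) ℂ × ℂˣ).1 * (h' : GL (Fin n) ℂ × ℂˣ).1)⁻¹ : GL (Fin n) ℂ) :
      Matrix (Fin n) (Fin n) ℂ)ᵀ = _
    rw [_root_.mul_inv_rev, Units.val_mul, Matrix.transpose_mul]
    rfl
  · intro Z
    rw [zero_add, map_mul, eval_C]
    show (c • ((Z - Zᵀ) + ε • (Z + Zᵀ))).det = _
    rw [Matrix.det_smul, Fintype.card_fin, (eval fun p : Fin n × Fin n => Z p.1 p.2).map_det]
    congr 2
    ext i j
    simp [mvPolynomialX_apply]
  · rintro ⟨⟨g, s⟩, hs⟩ Z
    have hs1 : s = 1 := by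
      have := hs.2
      simpa using this
    subst hs1
    rw [zero_add, zero_add]
    have h0 : act (g, 1) Z = (g : Matrix (Fin n) (Fin n) ℂ) * Z * (g : Matrix (Fin n) (Fin n) ℂ)ᵀ := by
      have : ((1 / 2 : ℂ) • (Z - Zᵀ) + (((1 : ℂˣ) : ℂ) / 2) • (Z + Zᵀ)) = Z := by
        rw [Units.val_one]
        module
      unfold act
      simp only [this]
    have h1 : ∀ Z : Matrix (Fin n) (Fin n) ℂ, Apx_M n c ε Z = c • ((Z - Zᵀ) + ε • (Z + Zᵀ)) :=
      fun _ => rfl
    show Apx_M n c ε (act (g, 1) Z) =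
      (g : Matrix (Fin n) (Fin n) ℂ) * Apx_M n c ε Z * (g : Matrix (Fin n) (Fin n) ℂ)ᵀ
    rw [h0, h1, h1]
    simp only [Matrix.transpose_mul, Matrix.transpose_transpose, Matrix.mul_smul, Matrix.smul_mul,
      Matrix.mul_add, Matrix.add_mul, Matrix.mul_sub, Matrix.sub_mul, Matrix.mul_assoc]

/-- The form is the limit of forms in the orbit with equivariant expressions of size `n`. -/
theorem apx (k : ℕ) : ∃ (N : ℕ)
    (h : ℕ → MvPolynomial (Fin (2 * k + 1) × Fin (2 * k + 1)) ℂ),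
    h 0 = skewForm (2 * k + 1) ∧ ∀ t : ℂ, t ≠ 0 →
      (∑ j ∈ Finset.range (N + 1), t ^ j • h j) ∈ orbit (2 * k + 1) ∧
      ∃ (M : Matrix (Fin (2 * k + 1)) (Fin (2 * k + 1)) ℂ →ₗ[ℂ]
          Matrix (Fin (2 * k + 1)) (Fin (2 * k + 1)) ℂ)
        (ρ ρ' : (Subgroup.prod (⊤ : Subgroup (GL (Fin (2 * k + 1)) ℂ)) (⊥ : Subgroup ℂˣ)) →*
          GL (Fin (2 * k + 1)) ℂ),
        Expr (2 * k + 1) (∑ j ∈ Finset.range (N + 1), t ^ j • h j) (Subgroup.prod ⊤ ⊥) 0 M ρ ρ' := by
  set A := mvPolynomialX (Fin (2 * k + 1)) (Fin (2 * k + 1)) ℂ -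
    (mvPolynomialX (Fin (2 * k + 1)) (Fin (2 * k + 1)) ℂ)ᵀ with hA
  set Y := mvPolynomialX (Fin (2 * k + 1)) (Fin (2 * k + 1)) ℂ +
    (mvPolynomialX (Fin (2 * k + 1)) (Fin (2 * k + 1)) ℂ)ᵀ with hY
  let D := (A.map Polynomial.C +
    (Polynomial.X : Polynomial (MvPolynomial (Fin (2 * k + 1) × Fin (2 * k + 1)) ℂ)) •
    Y.map Polynomial.C).det
  have hD1 : D.coeff 1 = skewForm (2 * k + 1) := coeff_one_det A Y
  have hDe : ∀ a : MvPolynomial (Fin (2 * k + 1) × Fin (2 * k + 1)) ℂ,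
      D.eval a = (A + a • Y).det := by
    intro a
    have := (Polynomial.evalRingHom a).map_det
      (A.map Polynomial.C +
        (Polynomial.X : Polynomial (MvPolynomial (Fin (2 * k + 1) × Fin (2 * k + 1)) ℂ)) •
        Y.map Polynomial.C)
    rw [Polynomial.coe_evalRingHom] at this
    show Polynomial.eval a D = _
    rw [this]
    congr 1
    ext1 i j
    simp
    exact mul_comm _ _
  have hdet : A.det = 0 := by
    have h1 : Aᵀ = - A := by
      rw [hA, Matrix.transpose_sub, Matrix.transpose_transpose, neg_sub]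
    have h2 : A.det = - A.det := by
      calc A.det = Aᵀ.det := (Matrix.det_transpose A).symm
        _ = (- A).det := by rw [h1]
        _ = (-1) ^ (2 * k + 1) * A.det := by rw [Matrix.det_neg, Fintype.card_fin]
        _ = - A.det := by
          rw [Odd.neg_one_pow ⟨k, rfl⟩]
          ring
    have h3 : (2 : MvPolynomial (Fin (2 * k + 1) × Fin (2 * k + 1)) ℂ) * A.det = 0 := by
      linear_combination h2
    exact (mul_eq_zero.1 h3).resolve_left two_ne_zero
  have hD0 : D.coeff 0 = 0 := by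
    rw [Polynomial.coeff_zero_eq_eval_zero, hDe, zero_smul, add_zero]
    exact hdet
  refine ⟨D.natDegree, fun j => D.coeff (j + 1), hD1, fun ε hε => ?_⟩
  obtain ⟨c, hc⟩ := IsAlgClosed.exists_pow_nat_eq (ε⁻¹) (n := 2 * k + 1) (by omega)
  have hc0 : c ≠ 0 := by
    rintro rfl
    rw [zero_pow (by omega)] at hc
    exact inv_ne_zero hε hc.symm
  have key : ∑ j ∈ Finset.range (D.natDegree + 1), ε ^ j • D.coeff (j + 1) =
      C (c ^ (2 * k + 1)) * (A + (C ε : MvPolynomial (Fin (2 * k + 1) × Fin (2 * k + 1)) ℂ) •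
        Y).det := by
    rw [hc, ← hDe,
      Polynomial.eval_eq_sum_range' (n := D.natDegree + 1 + 1) (by omega),
      Finset.sum_range_succ' _ (D.natDegree + 1), hD0, zero_mul, add_zero, Finset.mul_sum]
    refine Finset.sum_congr rfl fun j _ => ?_
    have h1 : (C ε⁻¹ : MvPolynomial (Fin (2 * k + 1) × Fin (2 * k + 1)) ℂ) * C ε = 1 := by
      rw [← map_mul, inv_mul_cancel₀ hε, map_one]
    rw [MvPolynomial.smul_eq_C_mul, map_pow, pow_succ]
    calc (C ε : MvPolynomial (Fin (2 * k + 1) × Fin (2 * k + 1)) ℂ) ^ j * D.coeff (j + 1)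
        = (C ε⁻¹ * C ε) * (C ε ^ j * D.coeff (j + 1)) := by rw [h1, one_mul]
      _ = _ := by ring
  show (∑ j ∈ Finset.range (D.natDegree + 1), ε ^ j • D.coeff (j + 1)) ∈ _ ∧ ∃ M ρ ρ',
    Expr (2 * k + 1) (∑ j ∈ Finset.range (D.natDegree + 1), ε ^ j • D.coeff (j + 1)) _ 0 M ρ ρ'
  rw [key]
  refine ⟨⟨Apx_g (2 * k + 1) c ε, Apx_unit hc0 hε, ?_⟩, apx_expr c ε⟩
  rw [Apx_subst]

end PadDet.Eq
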