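import Mathlib

/-!
# MP_d7db32_ag, Eq/Blk: a square block diagonal matrix with a block which is not square

`P` has corank at most one (`hk`), the first block `P₁` (rows `β`, columns `α`) has more columns than rows. `P₁` has a nonzero
kernel vector; extended by zero it is in `ker P`. A nonzero kernel vector of the second block, extended by zero, would be
independent of it: so the kernel of the second block is trivial. Two independent kernel vectors of `P₁` are impossible too: the kernel of
`P₁` has dimension at most one, so `rank P₁ ≥ card α - 1 ≥ card β ≥ rank P₁`: equalities, the rows of `P₁` are independent.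
-/

set_option autoImplicit false

namespace PadDet.Eq

open Matrix

/-- Extension by zero. -/
private noncomputable def Blk_ext {m : ℕ} (α : Fin m → Prop) [DecidablePred α] :
    ({a // α a} → ℂ) →ₗ[ℂ] (Fin m → ℂ) where
  toFun x := fun a => if h : α a then x ⟨a, h⟩ else 0
  map_add' x y := by
    ext a
    by_cases h : α a <;> simp [h]
  map_smul' c x := by
    ext a
    by_cases h : α a <;> simp [h]

private theorem Blk_ext_inj {m : ℕ} (α : Fin m → Prop) [DecidablePred α] {x : {a // α a} → ℂ}
    (h : Blk_ext α x = 0) : x = 0 := by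
  ext ⟨a, ha⟩
  have h1 := congrFun h a
  simpa [Blk_ext, ha] using h1

private theorem Blk_ext_mul {m : ℕ} (P : Matrix (Fin m) (Fin m) ℂ) (α β : Fin m → Prop)
    [DecidablePred α] [DecidablePred β] (hb : ∀ b a, P b a ≠ 0 → (β b ↔ α a))
    {x : {a // α a} → ℂ} (hx : (P.submatrix (fun b : {b // β b} => (b : Fin m))
      (fun a : {a // α a} => (a : Fin m))) *ᵥ x = 0) : P *ᵥ (Blk_ext α x) = 0 := by
  ext b
  rw [Pi.zero_apply, mulVec, dotProduct]
  have h1 : ∀ a, P b a * Blk_ext α x a = if h : α a then P b a * x ⟨a, h⟩ else 0 := by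
    intro a
    by_cases h : α a <;> simp [Blk_ext, h]
  rw [Finset.sum_congr rfl fun a _ => h1 a]
  by_cases hβ : β b
  · have h2 := congrFun hx ⟨b, hβ⟩
    rw [Pi.zero_apply, mulVec, dotProduct] at h2
    rw [← Fintype.sum_subtype_add_sum_subtype α]
    have h3 : ∑ a : {a // ¬ α a}, (if h : α (a : Fin m) then P b a * x ⟨a, h⟩ else 0) = 0 :=
      Finset.sum_eq_zero fun a _ => dif_neg a.2
    rw [h3, add_zero, ← h2]
    refine Finset.sum_congr rfl fun a _ => ?_
    rw [dif_pos a.2]
    rfl
  · refine Finset.sum_eq_zero fun a _ => ?_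
    by_cases h : α a
    · rw [dif_pos h]
      have h2 : P b a = 0 := by
        by_contra h3
        exact hβ ((hb b a h3).2 h)
      rw [h2, zero_mul]
    · rw [dif_neg h]

theorem blk {m : ℕ} (P : Matrix (Fin m) (Fin m) ℂ) (α β : Fin m → Prop) [DecidablePred α]
    [DecidablePred β] (hb : ∀ b a, P b a ≠ 0 → (β b ↔ α a))
    (hk : ∀ x y : Fin m → ℂ, P *ᵥ x = 0 → P *ᵥ y = 0 → ¬ LinearIndependent ℂ ![x, y])
    (hlt : Fintype.card {b // β b} < Fintype.card {a // α a}) :
    Fintype.card {a // α a} = Fintype.card {b // β b} + 1 ∧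
    (∀ u : {b // β b} → ℂ, u ᵥ* (P.submatrix (fun b : {b // β b} => (b : Fin m))
      (fun a : {a // α a} => (a : Fin m))) = 0 → u = 0) ∧
    ∀ x : {a // ¬ α a} → ℂ, (P.submatrix (fun b : {b // ¬ β b} => (b : Fin m))
      (fun a : {a // ¬ α a} => (a : Fin m))) *ᵥ x = 0 → x = 0 := by
  set P1 := P.submatrix (fun b : {b // β b} => (b : Fin m)) (fun a : {a // α a} => (a : Fin m))
    with hP1
  set P2 := P.submatrix (fun b : {b // ¬ β b} => (b : Fin m)) (fun a : {a // ¬ α a} => (a : Fin m))
    with hP2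
  have hrn := LinearMap.finrank_range_add_finrank_ker P1.mulVecLin
  rw [Module.finrank_fintype_fun_eq_card] at hrn
  have hr : Module.finrank ℂ (LinearMap.range P1.mulVecLin) ≤ Fintype.card {b // β b} := by
    have := Submodule.finrank_le (LinearMap.range P1.mulVecLin)
    rwa [Module.finrank_fintype_fun_eq_card] at this
  have hkpos : 0 < Module.finrank ℂ (LinearMap.ker P1.mulVecLin) := by omega
  have hnt : Nontrivial (LinearMap.ker P1.mulVecLin) := Module.finrank_pos_iff.1 hkpos
  obtain ⟨v0, hv0⟩ := exists_ne (0 : LinearMap.ker P1.mulVecLin)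
  have hv0k : P1 *ᵥ v0.1 = 0 := v0.2
  have hv0n : v0.1 ≠ 0 := fun h => hv0 (Subtype.ext h)
  have hkle : Module.finrank ℂ (LinearMap.ker P1.mulVecLin) ≤ 1 := by
    refine finrank_le_one v0 fun w => ?_
    have h1 := hk _ _ (Blk_ext_mul P α β hb hv0k) (Blk_ext_mul P α β hb (x := w.1) w.2)
    rw [LinearIndependent.pair_iff] at h1
    push Not at h1
    obtain ⟨s, t, h2, h3⟩ := h1
    rw [← map_smul, ← map_smul, ← map_add] at h2
    have h4 := Blk_ext_inj α h2
    have ht : t ≠ 0 := by
      intro ht
      rw [ht, zero_smul, add_zero] at h4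
      rcases smul_eq_zero.1 h4 with h5 | h5
      · exact h3 h5 ht
      · exact hv0n h5
    refine ⟨-(t⁻¹ * s), Subtype.ext ?_⟩
    rw [Submodule.coe_smul, neg_smul, mul_smul]
    have h5 : t⁻¹ • (s • v0.1 + t • w.1) = 0 := by rw [h4, smul_zero]
    rw [smul_add, smul_smul t⁻¹ t, inv_mul_cancel₀ ht, one_smul] at h5
    exact (eq_neg_of_add_eq_zero_right h5).symm
  refine ⟨by omega, ?_, ?_⟩
  · intro u hu
    have hfull : LinearMap.range P1.mulVecLin = ⊤ := by
      apply Submodule.eq_top_of_finrank_eq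
      rw [Module.finrank_fintype_fun_eq_card]
      omega
    ext i
    obtain ⟨x, hx⟩ : Pi.single i (1 : ℂ) ∈ LinearMap.range P1.mulVecLin := by rw [hfull]; trivial
    rw [mulVecLin_apply] at hx
    have h1 : u ⬝ᵥ Pi.single i (1 : ℂ) = u i := by simp
    rw [← h1, ← hx, dotProduct_mulVec, hu, zero_dotProduct, Pi.zero_apply]
  · intro x hx
    by_contra hx0
    have h1 := hk _ _ (Blk_ext_mul P α β hb hv0k)
      (Blk_ext_mul P (fun a => ¬ α a) (fun b => ¬ β b) (fun b a h => not_congr (hb b a h)) hx)
    apply h1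
    rw [LinearIndependent.pair_iff]
    intro s t h2
    have h3 : s • v0.1 = 0 := by
      ext ⟨a, ha⟩
      have h4 := congrFun h2 a
      simpa [Blk_ext, ha] using h4
    have h5 : t • x = 0 := by
      ext ⟨a, ha⟩
      have h4 := congrFun h2 a
      simpa [Blk_ext, ha] using h4
    exact ⟨(smul_eq_zero.1 h3).resolve_right hv0n, (smul_eq_zero.1 h5).resolve_right hx0⟩

end PadDet.Eq
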