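import Pool.Agent.H.MP_d7db32_ag.Eq.Def

/-!
# MP_d7db32_ag, Eq/Tri: a three-dimensional space of skew matrices of rank `2 k`

`tri k p` has the entries `± p 2`, `± p 1`, `± p 0` on the antidiagonals `i + j = 2 k - 1`, `2 k`, `2 k + 1` (`i, j` from `0`).
`tri_adj`: `adjugate i i = det (A.updateRow i (Pi.single i 1))` (`Matrix.adjugate_apply`); show that the matrix has trivial kernel
(`Matrix.exists_mulVec_eq_zero_iff`). If `p 2 ≠ 0`: `i = 2 k` (last): the last row gives `x (2 k) = 0`, row `j < 2 k` gives
`± p 2 * x (2 k - 1 - j) ± p 1 * x (2 k - j) ± p 0 * x (2 k + 1 - j) = 0`, so `x = 0` by induction. If `p 0 ≠ 0`: `i = 0`, the same in the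
other direction. If `p 0 = p 2 = 0`, `p 1 ≠ 0`: `i = k`, the matrix is monomial.
-/

set_option autoImplicit false

namespace PadDet.Eq

open Matrix

/-- The space of skew matrices. -/
def tri (k : ℕ) (p : Fin 3 → ℂ) : Matrix (Fin (2 * k + 1)) (Fin (2 * k + 1)) ℂ :=
  Matrix.of fun i j => (if i < j then 1 else if j < i then -1 else 0) *
    (if (i : ℕ) + j + 1 = 2 * k then p 2 else if (i : ℕ) + j = 2 * k then p 1
      else if (i : ℕ) + j = 2 * k + 1 then p 0 else 0)

theorem tri_skew (k : ℕ) (p : Fin 3 → ℂ) : (tri k p)ᵀ = -tri k p := by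
  ext i j
  rw [Matrix.transpose_apply, Matrix.neg_apply]
  unfold tri
  rw [Matrix.of_apply, Matrix.of_apply, add_comm (j : ℕ) (i : ℕ), ← neg_mul]
  congr 1
  rcases lt_trichotomy i j with h | h | h
  · rw [if_neg h.not_gt, if_pos h, if_pos h]
  · subst h
    simp
  · rw [if_pos h, if_neg h.not_gt, if_pos h, neg_neg]

theorem tri_lin (k : ℕ) (p : Fin 3 → ℂ) : tri k p = ∑ i, p i • tri k (Pi.single i 1) := by
  ext i j
  rw [Matrix.sum_apply]
  simp only [Matrix.smul_apply, tri, Matrix.of_apply, Fin.sum_univ_three, smul_eq_mul]
  simp only [Pi.single_apply]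
  split_ifs <;> simp_all

private theorem Tri_ker {k : ℕ} {p : Fin 3 → ℂ} (i : Fin (2 * k + 1))
    (h : ∀ x : Fin (2 * k + 1) → ℂ, x i = 0 → (∀ j, j ≠ i → (tri k p *ᵥ x) j = 0) → x = 0) :
    (tri k p).adjugate i i ≠ 0 := by
  rw [Matrix.adjugate_apply]
  intro h0
  obtain ⟨x, hx0, hx⟩ := Matrix.exists_mulVec_eq_zero_iff.2 h0
  refine hx0 (h x ?_ fun j hj => ?_)
  · have h1 := congrFun hx i
    rw [Matrix.mulVec, Matrix.updateRow_self, single_one_dotProduct] at h1
    exact h1
  · have h1 := congrFun hx j
    rw [Matrix.mulVec, Matrix.updateRow_ne hj] at h1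
    exact h1

private theorem Tri_row {k : ℕ} {p : Fin 3 → ℂ} {x : Fin (2 * k + 1) → ℂ}
    {j l : Fin (2 * k + 1)} (hjl : j ≠ l)
    (h0 : (tri k p *ᵥ x) j = 0)
    (hc : (if (j : ℕ) + l + 1 = 2 * k then p 2 else if (j : ℕ) + l = 2 * k then p 1
      else if (j : ℕ) + l = 2 * k + 1 then p 0 else 0) ≠ 0)
    (h : ∀ l', l' ≠ l → (if (j : ℕ) + l' + 1 = 2 * k then p 2 else if (j : ℕ) + l' = 2 * k then p 1
      else if (j : ℕ) + l' = 2 * k + 1 then p 0 else 0) = 0 ∨ x l' = 0) : x l = 0 := by
  rw [Matrix.mulVec, dotProduct, Finset.sum_eq_single l] at h0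
  · unfold tri at h0
    rw [Matrix.of_apply] at h0
    rcases mul_eq_zero.1 h0 with h1 | h1
    · exfalso
      rcases mul_eq_zero.1 h1 with h2 | h2
      · rcases lt_or_gt_of_ne hjl with h3 | h3
        · rw [if_pos h3] at h2
          exact one_ne_zero h2
        · rw [if_neg h3.not_gt, if_pos h3] at h2
          exact one_ne_zero (neg_eq_zero.1 h2)
      · exact hc h2
    · exact h1
  · intro l' _ hl'
    unfold tri
    rw [Matrix.of_apply]
    rcases h l' hl' with h1 | h1
    · rw [h1, mul_zero, zero_mul]
    · rw [h1, mul_zero]
  · intro hl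
    exact absurd (Finset.mem_univ l) hl

theorem tri_adj (k : ℕ) (p : Fin 3 → ℂ) (hp : p ≠ 0) : ∃ i, (tri k p).adjugate i i ≠ 0 := by
  by_cases hp2 : p 2 = 0
  · by_cases hp0 : p 0 = 0
    · -- `p 1 ≠ 0`
      have hp1 : p 1 ≠ 0 := by
        intro hp1
        apply hp
        ext i
        fin_cases i
        · exact hp0
        · exact hp1
        · exact hp2
      refine ⟨⟨k, by omega⟩, Tri_ker _ fun x hx h => ?_⟩
      ext l
      show x l = 0
      by_cases hl : l = ⟨k, by omega⟩
      · rw [hl]
        exact hx
      · have hl' : (l : ℕ) ≠ k := fun e => hl (Fin.ext e)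
        have hl2 := l.2
        refine Tri_row (j := ⟨2 * k - l, by omega⟩) ?_ (h _ ?_) ?_ ?_
        · intro e
          have e' := congrArg Fin.val e
          simp only at e'
          omega
        · intro e
          have e' := congrArg Fin.val e
          simp only at e'
          omega
        · rw [if_neg (by simp only; omega), if_pos (by simp only; omega)]
          exact hp1
        · intro l' hne
          left
          have hne' : (l' : ℕ) ≠ l := fun e => hne (Fin.ext e)
          have hl3 := l'.2
          split_ifs with h1 h2 h3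
          · exact hp2
          · exfalso
            simp only at h2
            omega
          · exact hp0
          · rfl
    · -- `p 0 ≠ 0`
      refine ⟨⟨0, by omega⟩, Tri_ker _ fun x hx h => ?_⟩
      have key : ∀ m : ℕ, ∀ hm : m < 2 * k + 1, x ⟨m, hm⟩ = 0 := by
        intro m
        induction m using Nat.strong_induction_on with
        | _ m ih =>
          intro hm
          rcases Nat.eq_zero_or_pos m with h0 | h0
          · subst h0
            exact hx
          · refine Tri_row (j := ⟨2 * k + 1 - m, by omega⟩) ?_ (h _ ?_) ?_ ?_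
            · intro e
              have e' := congrArg Fin.val e
              simp only at e'
              omega
            · intro e
              have e' := congrArg Fin.val e
              simp only at e'
              omega
            · rw [if_neg (by simp only; omega), if_neg (by simp only; omega),
                if_pos (by simp only; omega)]
              exact hp0
            · intro l' hne
              have hne' : (l' : ℕ) ≠ m := fun e => hne (Fin.ext e)
              have hl3 := l'.2
              by_cases h5 : (l' : ℕ) < m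
              · right
                exact ih l' h5 l'.2
              · left
                rw [if_neg (by simp only; omega), if_neg (by simp only; omega),
                  if_neg (by simp only; omega)]
      ext l
      exact key l l.2
  · -- `p 2 ≠ 0`
    refine ⟨⟨2 * k, by omega⟩, Tri_ker _ fun x hx h => ?_⟩
    have key : ∀ m : ℕ, ∀ hm : m < 2 * k + 1, x ⟨2 * k - m, by omega⟩ = 0 := by
      intro m
      induction m using Nat.strong_induction_on with
      | _ m ih =>
        intro hm
        rcases Nat.eq_zero_or_pos m with h0 | h0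
        · subst h0
          exact hx
        · refine Tri_row (j := ⟨m - 1, by omega⟩) ?_ (h _ ?_) ?_ ?_
          · intro e
            have e' := congrArg Fin.val e
            simp only at e'
            omega
          · intro e
            have e' := congrArg Fin.val e
            simp only at e'
            omega
          · rw [if_pos (by simp only; omega)]
            exact hp2
          · intro l' hne
            have hne' : (l' : ℕ) ≠ 2 * k - m := fun e => hne (Fin.ext e)
            have hl3 := l'.2
            by_cases h5 : 2 * k - m < (l' : ℕ)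
            · right
              have h6 := ih (2 * k - l') (by omega) (by omega)
              have h7 : (⟨2 * k - (2 * k - (l' : ℕ)), by omega⟩ : Fin (2 * k + 1)) = l' :=
                Fin.ext (by simp only; omega)
              rwa [h7] at h6
            · left
              rw [if_neg (by simp only; omega), if_neg (by simp only; omega),
                if_neg (by simp only; omega)]
    ext l
    show x l = 0
    have hl2 := l.2
    have h6 := key (2 * k - l) (by omega)
    have h7 : (⟨2 * k - (2 * k - (l : ℕ)), by omega⟩ : Fin (2 * k + 1)) = l :=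
      Fin.ext (by simp only; omega)
    rwa [h7] at h6

theorem Fv_add (k : ℕ) (A : Matrix (Fin (2 * k + 1)) (Fin (2 * k + 1)) ℂ) (hA : Aᵀ = -A)
    (i : Fin (2 * k + 1)) (τ : ℂ) :
    Fv (A + τ • Matrix.single i i 1) = τ * (2 ^ (2 * k + 1) * A.adjugate i i) := by
  have hs : (Matrix.single i i (1 : ℂ))ᵀ = Matrix.single i i 1 := Matrix.transpose_single i i 1
  have h1 : A + τ • Matrix.single i i 1 - (A + τ • Matrix.single i i 1)ᵀ = (2 : ℂ) • A := by
    rw [Matrix.transpose_add, Matrix.transpose_smul, hs, hA, two_smul]
    abel
  have h2 : A + τ • Matrix.single i i 1 + (A + τ • Matrix.single i i 1)ᵀ =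
      (2 * τ) • Matrix.single i i 1 := by
    rw [Matrix.transpose_add, Matrix.transpose_smul, hs, hA, mul_smul, two_smul]
    abel
  unfold Fv
  rw [h1, h2, Matrix.adjugate_smul, Fintype.card_fin, Matrix.mul_smul, Matrix.trace_smul,
    Matrix.smul_mul, Matrix.trace_smul, Matrix.trace_mul_single]
  simp only [smul_eq_mul, Nat.add_sub_cancel, MulOpposite.op_one, one_smul]
  ring

end PadDet.Eq
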