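import Pool.Agent.H.MP_d7db32_ag.Eq.S5
import Pool.Agent.H.MP_d7db32_ag.Eq.Tri

/-!
# MP_d7db32_ag, Eq/CaseD: the kernels of the constant matrix have only constant weights

`F = Fv`, `B_X(u, v) = u ⬝ M X v` on (left kernel) x (kernel). If one kernel has a nonconstant weight then both are spanned by an orbit
of `n` lines and `F X ≠ 0` iff `B_X` is nondegenerate. Then the diagonal part of `X` (or the part off the diagonal) does not contribute to
`B_X`, against `F (A + E_kk) ≠ 0 = F A = F E_kk` for suitable skew `A`.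
-/

set_option autoImplicit false

namespace PadDet.Eq

open Matrix

variable {n m : ℕ} {q c : ℂ} {L : Matrix (Fin m) (Fin m) ℂ}
  {M : Matrix (Fin n) (Fin n) ℂ →ₗ[ℂ] Matrix (Fin m) (Fin m) ℂ}
  {w w' : Fin m → Fin n → ℂ} {P P' : Equiv.Perm (Fin n) → Matrix (Fin m) (Fin m) ℂ}

theorem Fv_symm {n : ℕ} (hn : 2 ≤ n) (X : Matrix (Fin n) (Fin n) ℂ) (hX : Xᵀ = X) : Fv X = 0 := by
  unfold Fv
  have : Nontrivial (Fin n) := Fin.nontrivial_iff_two_le.2 hn
  rw [hX, sub_self, Matrix.adjugate_zero, Matrix.zero_mul, Matrix.trace_zero]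

theorem Fv_skew {n : ℕ} (X : Matrix (Fin n) (Fin n) ℂ) (hX : Xᵀ = -X) : Fv X = 0 := by
  unfold Fv
  rw [hX, add_neg_cancel, Matrix.mul_zero, Matrix.trace_zero]

theorem Fv_submatrix {n : ℕ} (X : Matrix (Fin n) (Fin n) ℂ) (σ : Equiv.Perm (Fin n)) :
    Fv (X.submatrix σ σ) = Fv X := by
  unfold Fv
  have h1 : (X.submatrix σ σ - (X.submatrix σ σ)ᵀ) = (X - Xᵀ).submatrix σ σ := by
    ext i j; rfl
  have h2 : (X.submatrix σ σ + (X.submatrix σ σ)ᵀ) = (X + Xᵀ).submatrix σ σ := by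
    ext i j; rfl
  rw [h1, h2, Matrix.adjugate_submatrix_equiv_self, Matrix.submatrix_mul_equiv]
  unfold Matrix.trace
  exact Equiv.sum_comp σ fun i => ((X - Xᵀ).adjugate * (X + Xᵀ)).diag i

/-- A skew matrix `A` with row and column `k₀` zero and `F (A + E_{k₀ k₀}) ≠ 0`. -/
theorem exists_skew (k : ℕ) (k₀ : Fin (2 * k + 1)) :
    ∃ A : Matrix (Fin (2 * k + 1)) (Fin (2 * k + 1)) ℂ, Aᵀ = -A ∧ (∀ i, A i k₀ = 0) ∧
      (∀ i, A k₀ i = 0) ∧ Fv (A + Matrix.single k₀ k₀ 1) ≠ 0 := by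
  let i₀ : Fin (2 * k + 1) := ⟨k, by omega⟩
  set T := tri k (Pi.single 1 1) with hT
  have hr : ∀ i, T i₀ i = 0 := by
    intro i
    rw [hT]
    unfold tri
    rw [Matrix.of_apply]
    have h0 : (Pi.single (1 : Fin 3) (1 : ℂ) : Fin 3 → ℂ) 2 = 0 := by simp
    have h2 : (Pi.single (1 : Fin 3) (1 : ℂ) : Fin 3 → ℂ) 0 = 0 := by simp
    rw [h0, h2]
    by_cases h : i = i₀
    · subst h
      simp
    · have hv : i.val ≠ k := fun h' => h (Fin.ext h')
      have hi₀ : i₀.val = k := rfl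
      rw [if_neg (c := (i₀ : ℕ) + (i : ℕ) = 2 * k) (by omega)]
      split_ifs <;> simp
  have hskew := tri_skew k (Pi.single 1 1)
  rw [← hT] at hskew
  have hc : ∀ i, T i i₀ = 0 := by
    intro i
    have h1 := congrFun (congrFun hskew i₀) i
    rw [Matrix.transpose_apply, Matrix.neg_apply, hr i, neg_zero] at h1
    exact h1
  obtain ⟨i, hi⟩ := tri_adj k (Pi.single 1 1) (by
    intro h
    have := congrFun h 1
    simp at this)
  rw [← hT] at hi
  have hii : i = i₀ := by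
    by_contra hne
    apply hi
    rw [Matrix.adjugate_apply]
    apply Matrix.det_eq_zero_of_row_eq_zero i₀
    intro j
    rw [Matrix.updateRow_ne (Ne.symm hne)]
    exact hr j
  subst hii
  have hF : Fv (T + Matrix.single i₀ i₀ 1) ≠ 0 := by
    have h1 := Fv_add k T hskew i₀ 1
    rw [one_smul, one_mul] at h1
    rw [h1]
    exact mul_ne_zero (pow_ne_zero _ two_ne_zero) hi
  let σ : Equiv.Perm (Fin (2 * k + 1)) := Equiv.swap i₀ k₀
  have hσ : σ k₀ = i₀ := Equiv.swap_apply_right _ _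
  refine ⟨T.submatrix σ σ, ?_, ?_, ?_, ?_⟩
  · ext a b
    have h1 := congrFun (congrFun hskew (σ a)) (σ b)
    exact h1
  · intro a
    show T (σ a) (σ k₀) = 0
    rw [hσ]
    exact hc _
  · intro a
    show T (σ k₀) (σ a) = 0
    rw [hσ]
    exact hr _
  · have h1 : T.submatrix σ σ + Matrix.single k₀ k₀ 1 = (T + Matrix.single i₀ i₀ 1).submatrix σ σ := by
      ext a b
      rw [Matrix.add_apply, Matrix.submatrix_apply, Matrix.submatrix_apply, Matrix.add_apply,
        Matrix.single_apply, Matrix.single_apply]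
      congr 1
      apply if_congr _ rfl rfl
      rw [← hσ, σ.injective.eq_iff, σ.injective.eq_iff]
    rw [h1, Fv_submatrix]
    exact hF

theorem q_facts {q : ℂ} (q3 : q ^ 3 = 1) (q1 : q ≠ 1) : q ≠ 0 ∧ q ^ 2 ≠ 1 ∧ q * q ≠ 1 := by
  have h0 : q ≠ 0 := by
    intro h
    rw [h] at q3
    norm_num at q3
  have h2 : q ^ 2 ≠ 1 := by
    intro h
    apply q1
    have : q ^ 3 = q ^ 2 * q := by ring
    rw [this, h, one_mul] at q3
    exact q3
  exact ⟨h0, h2, by rw [← pow_two]; exact h2⟩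

/-- Two indices other than two given ones; needs three indices. -/
theorem exists_third (hn : 3 ≤ n) (i j : Fin n) : ∃ t, t ≠ i ∧ t ≠ j := by
  classical
  have h1 : ({i, j} : Finset (Fin n)).card < (Finset.univ : Finset (Fin n)).card := by
    rw [Finset.card_univ, Fintype.card_fin]
    have : ({i, j} : Finset (Fin n)).card ≤ 2 := Finset.card_le_two
    omega
  obtain ⟨t, -, ht⟩ := Finset.exists_mem_notMem_of_card_lt_card h1
  simp only [Finset.mem_insert, Finset.mem_singleton, not_or] at ht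
  exact ⟨t, ht.1, ht.2⟩

/-- A constant weight related to the weight of `v j` by the variable `x_kl`. -/
theorem wt_const {q c₁ c₂ z : ℂ} (q3 : q ^ 3 = 1) (q1 : q ≠ 1) (hn : 3 ≤ n) (hc1 : c₁ ≠ 0)
    (j k l : Fin n)
    (h : ∀ t, z = (if k = t then q else 1) * (if l = t then q else 1) * wt1 c₁ c₂ j t) :
    (k = j ∧ l = j) ∨ (k ≠ l ∧ ∀ t, t ≠ j → t = k ∨ t = l) := by
  obtain ⟨q0, q2, qq⟩ := q_facts q3 q1
  have hoff : ∀ t, t ≠ j → k ≠ t → l ≠ t → z = c₁ := by
    intro t h1 h2 h3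
    have h4 := h t
    unfold wt1 at h4
    rw [if_neg h1, if_neg h2, if_neg h3] at h4
    simpa using h4
  by_cases hex : ∃ t, t ≠ j ∧ k ≠ t ∧ l ≠ t
  · obtain ⟨t, h1, h2, h3⟩ := hex
    have hz := hoff t h1 h2 h3
    subst hz
    left
    constructor
    · by_contra hkj
      have h4 := h k
      unfold wt1 at h4
      rw [if_pos rfl, if_neg hkj] at h4
      by_cases hl : l = k
      · rw [if_pos hl] at h4
        exact qq (mul_right_cancel₀ hc1 (by rw [one_mul]; exact h4.symm))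
      · rw [if_neg hl, mul_one] at h4
        exact q1 (mul_right_cancel₀ hc1 (by rw [one_mul]; exact h4.symm))
    · by_contra hlj
      have h4 := h l
      unfold wt1 at h4
      rw [if_pos rfl, if_neg hlj] at h4
      by_cases hk : k = l
      · rw [if_pos hk] at h4
        exact qq (mul_right_cancel₀ hc1 (by rw [one_mul]; exact h4.symm))
      · rw [if_neg hk, one_mul] at h4
        exact q1 (mul_right_cancel₀ hc1 (by rw [one_mul]; exact h4.symm))
  · push Not at hex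
    right
    constructor
    · intro hkl
      subst hkl
      obtain ⟨t, h1, h2⟩ := exists_third hn j k
      exact (h2 (hex t h1 (Ne.symm h2)).symm)
    · intro t ht
      by_cases h1 : k = t
      · exact Or.inl h1.symm
      · exact Or.inr (hex t ht h1).symm

/-- Equal common values: `x_kk` relates only `v k` and `u k`. -/
theorem wt_diag {q c₁ c₂ d₂ : ℂ} (q3 : q ^ 3 = 1) (q1 : q ≠ 1) (hc : c₂ ≠ c₁)
    (hd : d₂ ≠ c₁) (hc1 : c₁ ≠ 0) (i j k : Fin n)
    (h : ∀ t, wt1 c₁ d₂ i t = (if k = t then q else 1) * (if k = t then q else 1) * wt1 c₁ c₂ j t) :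
    i = k ∧ j = k := by
  obtain ⟨q0, q2, qq⟩ := q_facts q3 q1
  have hij : i = j := by
    by_contra hij
    have hk : k = i := by
      by_contra hk
      have h1 := h i
      unfold wt1 at h1
      rw [if_pos rfl, if_neg hk, if_neg hij] at h1
      exact hd (by simpa using h1)
    have hk2 : k = j := by
      by_contra hk
      have h1 := h j
      unfold wt1 at h1
      rw [if_pos rfl, if_neg hk, if_neg (Ne.symm hij)] at h1
      exact hc (by simpa using h1.symm)
    exact hij (hk.symm.trans hk2)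
  subst hij
  have hk : k = i := by
    by_contra hk
    have h1 := h k
    unfold wt1 at h1
    rw [if_pos rfl, if_neg hk, if_neg hk] at h1
    exact qq (mul_right_cancel₀ hc1 (by rw [one_mul]; exact h1.symm))
  exact ⟨hk.symm, hk.symm⟩

/-- Different common values: a diagonal variable forces `d₁ = q ^ 2 c₁`. -/
theorem wt_neD {q c₁ c₂ d₁ d₂ : ℂ} (hn : 3 ≤ n) (hcd : d₁ ≠ c₁) (i j k : Fin n)
    (h : ∀ t, wt1 d₁ d₂ i t = (if k = t then q else 1) * (if k = t then q else 1) * wt1 c₁ c₂ j t) :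
    d₁ = q * q * c₁ := by
  by_cases hk : k = i ∨ k = j
  · exfalso
    obtain ⟨t, h1, h2⟩ := exists_third hn i j
    have h3 := h t
    unfold wt1 at h3
    rw [if_neg h1, if_neg h2, if_neg (by
      rintro rfl
      rcases hk with h4 | h4
      · exact h1 h4
      · exact h2 h4)] at h3
    exact hcd (by simpa using h3)
  · push Not at hk
    have h3 := h k
    unfold wt1 at h3
    rw [if_neg hk.1, if_neg hk.2, if_pos rfl] at h3
    exact h3

/-- Different common values: a variable off the diagonal forces `d₁ = q c₁`. -/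
theorem wt_neO {q c₁ c₂ d₁ d₂ : ℂ} (hn : 3 ≤ n) (hcd : d₁ ≠ c₁)
    (i j k l : Fin n) (hkl : k ≠ l)
    (h : ∀ t, wt1 d₁ d₂ i t = (if k = t then q else 1) * (if l = t then q else 1) * wt1 c₁ c₂ j t) :
    d₁ = q * c₁ := by
  classical
  -- an index which is not `k, l` is `i` or `j`
  obtain ⟨s, hsk, hsl⟩ := exists_third hn k l
  have hs : s = i ∨ s = j := by
    by_contra hcon
    push Not at hcon
    have h1 := h s
    unfold wt1 at h1
    rw [if_neg hcon.1, if_neg hcon.2, if_neg (Ne.symm hsk), if_neg (Ne.symm hsl)] at h1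
    exact hcd (by simpa using h1)
  -- an index among `k, l` which is neither `i` nor `j`
  by_cases hex : ∃ t, (t = k ∨ t = l) ∧ t ≠ i ∧ t ≠ j
  · obtain ⟨t, ht, hti, htj⟩ := hex
    have h1 := h t
    unfold wt1 at h1
    rw [if_neg hti, if_neg htj] at h1
    rcases ht with rfl | rfl
    · rw [if_pos rfl, if_neg (Ne.symm hkl), mul_one] at h1
      exact h1
    · rw [if_neg hkl, if_pos rfl, one_mul] at h1
      exact h1
  · exfalso
    push Not at hex
    have hk : k = i ∨ k = j := by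
      by_contra hcon
      push Not at hcon
      exact hcon.2 (hex k (Or.inl rfl) hcon.1)
    have hl : l = i ∨ l = j := by
      by_contra hcon
      push Not at hcon
      exact hcon.2 (hex l (Or.inr rfl) hcon.1)
    rcases hk with h1 | h1 <;> rcases hl with h2 | h2
    · exact hkl (h1.trans h2.symm)
    · rcases hs with h3 | h3
      · exact hsk (h3.trans h1.symm)
      · exact hsl (h3.trans h2.symm)
    · rcases hs with h3 | h3
      · exact hsl (h3.trans h2.symm)
      · exact hsk (h3.trans h1.symm)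
    · exact hkl (h1.trans h2.symm)

theorem ker_part' (L : Matrix (Fin m) (Fin m) ℂ) (w w' : Fin m → Fin n → ℂ)
    (gL : ∀ b a, L b a ≠ 0 → w' b = w a) (ω : Fin n → ℂ) {x : Fin m → ℂ}
    (hx : L *ᵥ x = 0) : L *ᵥ wpart w ω x = 0 := by
  classical
  funext b
  have h0 := congrFun hx b
  simp only [Matrix.mulVec, dotProduct, Pi.zero_apply] at h0 ⊢
  by_cases hb : w' b = ω
  · rw [← h0]
    refine Finset.sum_congr rfl (fun a _ => ?_)
    rw [wpart_apply]
    by_cases hL : L b a = 0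
    · simp [hL]
    · rw [if_pos ((gL b a hL).symm.trans hb)]
  · refine Finset.sum_eq_zero (fun a _ => ?_)
    rw [wpart_apply]
    by_cases hL : L b a = 0
    · simp [hL]
    · rw [if_neg (fun h => hb ((gL b a hL).trans h)), mul_zero]

/-- Nonzero pairings have a nonzero term. -/
theorem pair_entry (A : Matrix (Fin m) (Fin m) ℂ) (y x : Fin m → ℂ) (h : y ⬝ᵥ (A *ᵥ x) ≠ 0) :
    ∃ b a, y b ≠ 0 ∧ A b a ≠ 0 ∧ x a ≠ 0 := by
  have h1 : ∑ b, y b * (A *ᵥ x) b ≠ 0 := h
  obtain ⟨b, -, hb⟩ := Finset.exists_ne_zero_of_sum_ne_zero h1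
  have h2 : ∑ a, A b a * x a ≠ 0 := right_ne_zero_of_mul hb
  obtain ⟨a, -, ha⟩ := Finset.exists_ne_zero_of_sum_ne_zero h2
  exact ⟨b, a, left_ne_zero_of_mul hb, left_ne_zero_of_mul ha, right_ne_zero_of_mul ha⟩

theorem pair_expand (M : Matrix (Fin n) (Fin n) ℂ →ₗ[ℂ] Matrix (Fin m) (Fin m) ℂ)
    (X : Matrix (Fin n) (Fin n) ℂ) (y x : Fin m → ℂ) :
    y ⬝ᵥ (M X *ᵥ x) = ∑ k, ∑ l, X k l * (y ⬝ᵥ (M (Matrix.single k l 1) *ᵥ x)) := by
  have h1 : ∀ k l, Matrix.single k l (X k l) = X k l • Matrix.single k l (1 : ℂ) := by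
    intro k l
    rw [Matrix.smul_single, smul_eq_mul, mul_one]
  conv_lhs => rw [Matrix.matrix_eq_sum_single X]
  rw [map_sum, Matrix.sum_mulVec, dotProduct_sum]
  refine Finset.sum_congr rfl (fun k _ => ?_)
  rw [map_sum, Matrix.sum_mulVec, dotProduct_sum]
  refine Finset.sum_congr rfl (fun l _ => ?_)
  rw [h1, map_smul, Matrix.smul_mulVec, dotProduct_smul, smul_eq_mul]

/-- The contradiction from two matrices with the same pairing. -/
theorem same_pairing {M : Matrix (Fin n) (Fin n) ℂ →ₗ[ℂ] Matrix (Fin m) (Fin m) ℂ}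
    (hnd : ∀ X' : Matrix (Fin n) (Fin n) ℂ, (c * Fv X' ≠ 0 ↔
      ∀ x, L *ᵥ x = 0 → (∀ y, y ᵥ* L = 0 → y ⬝ᵥ (M X' *ᵥ x) = 0) → x = 0))
    (v u : Fin n → Fin m → ℂ)
    (hv : ∀ x, L *ᵥ x = 0 → ∃ ξ : Fin n → ℂ, x = ∑ j, ξ j • v j)
    (hu : ∀ y, y ᵥ* L = 0 → ∃ ξ : Fin n → ℂ, y = ∑ j, ξ j • u j) (c0 : c ≠ 0)
    (X Y : Matrix (Fin n) (Fin n) ℂ)
    (h : ∀ i j, u i ⬝ᵥ (M X *ᵥ v j) = u i ⬝ᵥ (M Y *ᵥ v j)) (hX : Fv X ≠ 0) : Fv Y ≠ 0 := by
  have h1 : c * Fv Y ≠ 0 := by
    rw [hnd Y]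
    intro x hx hxy
    apply (hnd X).1 (mul_ne_zero c0 hX) x hx
    intro y hy
    rw [← hxy y hy]
    obtain ⟨ξ, rfl⟩ := hv x hx
    obtain ⟨η, rfl⟩ := hu y hy
    rw [Matrix.mulVec_sum, Matrix.mulVec_sum, dotProduct_sum, dotProduct_sum]
    refine Finset.sum_congr rfl (fun j _ => ?_)
    rw [sum_dotProduct, sum_dotProduct]
    refine Finset.sum_congr rfl (fun i _ => ?_)
    rw [Matrix.mulVec_smul, Matrix.mulVec_smul, dotProduct_smul, dotProduct_smul, smul_dotProduct,
      smul_dotProduct, h i j]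
  exact right_ne_zero_of_mul h1

/-- The kernel of the constant matrix has only constant weights. -/
theorem Cor.ker_const {k : ℕ} (hk : 1 ≤ k)
    {M : Matrix (Fin (2 * k + 1)) (Fin (2 * k + 1)) ℂ →ₗ[ℂ] Matrix (Fin m) (Fin m) ℂ}
    {w w' : Fin m → Fin (2 * k + 1) → ℂ}
    {P P' : Equiv.Perm (Fin (2 * k + 1)) → Matrix (Fin m) (Fin m) ℂ}
    (C : Cor (2 * k + 1) m q c L M w w' P P') {x : Fin m → ℂ}
    (hx : L *ᵥ x = 0) (hx0 : x ≠ 0) {ω : Fin (2 * k + 1) → ℂ} (hω : IsW w ω x)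
    (i j : Fin (2 * k + 1)) : ω i = ω j := by
  classical
  by_contra hij
  have hn3 : 3 ≤ 2 * k + 1 := by omega
  obtain ⟨q0, q2, qq⟩ := q_facts C.q3 C.q1
  let k₀ : Fin (2 * k + 1) := ⟨0, by omega⟩
  let j₀ : Fin (2 * k + 1) := ⟨1, by omega⟩
  have hjk : j₀ ≠ k₀ := by
    intro h
    have := congrArg Fin.val h
    simp [j₀, k₀] at this
  obtain ⟨A, hA, hA1, hA2, hAF⟩ := exists_skew k k₀
  set X := A + Matrix.single k₀ k₀ 1 with hXdef
  obtain ⟨c₁, c₂, v, hc, hr, hLv, hv0, hvw⟩ := C.line hk hAF hx hx0 hω hij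
  have hc1 : c₁ ≠ 0 := by
    obtain ⟨a, ha⟩ : ∃ a, v k₀ a ≠ 0 := by
      by_contra hcon
      push Not at hcon
      exact hv0 _ (funext hcon)
    have h1 := congrFun (hvw _ a ha) j₀
    unfold wt1 at h1
    rw [if_neg hjk] at h1
    rw [← h1]
    exact C.w0 _ _
  have hnd : ∀ X' : Matrix (Fin (2 * k + 1)) (Fin (2 * k + 1)) ℂ, (c * Fv X' ≠ 0 ↔
      ∀ x, L *ᵥ x = 0 → (∀ y, y ᵥ* L = 0 → y ⬝ᵥ (M X' *ᵥ x) = 0) → x = 0) :=
    fun X' => (s1 L (M X') (c * Fv X') (C.pow (by omega) X')).2 hr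
  -- a weight of the left kernel which is not constant
  obtain ⟨y, hy, hyX⟩ : ∃ y, y ᵥ* L = 0 ∧ y ⬝ᵥ (M X *ᵥ v j₀) ≠ 0 := by
    by_contra hcon
    push Not at hcon
    exact hv0 j₀ ((hnd X).1 (mul_ne_zero C.c0 hAF) (v j₀) (hLv j₀) hcon)
  obtain ⟨b, a, hyb, hba, hva⟩ := pair_entry _ _ _ hyX
  obtain ⟨k', l, hXkl, hMkl⟩ := C.M_entry X b a hba
  have hyT : Lᵀ *ᵥ y = 0 := by rw [Matrix.mulVec_transpose, hy]
  have hrel := C.gE b a k' l hMkl
  rw [hvw j₀ a hva] at hrel
  have hXe : ∀ s t, s ≠ t → (s = k₀ ∨ t = k₀) → X s t = 0 := by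
    intro s t hst h
    rw [hXdef, Matrix.add_apply, Matrix.single_apply_of_ne _ _ _ _ _ (by
      rintro ⟨h1, h2⟩
      exact hst (h1.symm.trans h2)), add_zero]
    rcases h with rfl | rfl
    · exact hA2 _
    · exact hA1 _
  have hAd : ∀ s, A s s = 0 := by
    intro s
    have h1 := congrFun (congrFun hA s) s
    rw [Matrix.transpose_apply, Matrix.neg_apply] at h1
    have h2 : (2 : ℂ) * A s s = 0 := by linear_combination h1
    exact (mul_eq_zero.1 h2).resolve_left two_ne_zero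
  have hnc : ∃ i j, w' b i ≠ w' b j := by
    by_contra hcon
    push Not at hcon
    rcases wt_const C.q3 C.q1 hn3 hc1 j₀ k' l (z := w' b 0)
      (fun t => by rw [hcon 0 t]; exact hrel t) with h1 | h1
    · apply hXkl
      rw [h1.1, h1.2, hXdef, Matrix.add_apply, Matrix.single_apply_of_ne _ _ _ _ _ (by
        rintro ⟨h2, -⟩
        exact hjk h2.symm), hAd, add_zero]
    · apply hXkl
      apply hXe k' l h1.1
      rcases h1.2 k₀ (Ne.symm hjk) with h2 | h2
      · exact Or.inl h2.symm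
      · exact Or.inr h2.symm
  obtain ⟨i₁, j₁, hij₁⟩ := hnc
  obtain ⟨e₁, e₂, u, he, hr', hLu, hu0, huw⟩ := C.tr.line hk hAF
    (ker_part' Lᵀ w' w (fun b a h => (C.gL a b h).symm) (w' b) hyT) (wpart_ne hyb)
    (ω := fun l => (w' b l)⁻¹) (fun b' hb' => by
      have := wpart_isW w' (w' b) y b' hb'
      simp only [this]) (i := i₁) (j := j₁) (fun h => hij₁ (inv_injective h))
  have huw' : ∀ i, IsW w' (wt1 e₁⁻¹ e₂⁻¹ i) (u i) := by
    intro i b hb
    have h1 := huw i b hb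
    funext t
    have h2 := congrFun h1 t
    have h3 : w' b t = (wt1 e₁ e₂ i t)⁻¹ := by rw [← h2, inv_inv]
    rw [h3]
    unfold wt1
    split_ifs <;> rfl
  have hd : e₂⁻¹ ≠ e₁⁻¹ := fun h => he (inv_injective h)
  set d₁ := e₁⁻¹ with hd₁
  set d₂ := e₂⁻¹ with hd₂
  have hrelB : ∀ i j k' l, u i ⬝ᵥ (M (Matrix.single k' l 1) *ᵥ v j) ≠ 0 → ∀ t,
      wt1 d₁ d₂ i t = (if k' = t then q else 1) * (if l = t then q else 1) * wt1 c₁ c₂ j t := by
    intro i j k' l h
    obtain ⟨b, a, hb, hba, ha⟩ := pair_entry _ _ _ h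
    have h1 := C.gE b a k' l hba
    rw [hvw j a ha, huw' i b hb] at h1
    exact h1
  have hvi := indep v _ (wt1_inj hc) hv0 hvw
  have hui := indep u _ (wt1_inj he) hu0 huw
  have hvs : ∀ x, L *ᵥ x = 0 → ∃ ξ : Fin (2 * k + 1) → ℂ, x = ∑ j, ξ j • v j :=
    fun x hx => ker_span v hvi hLv hr hx
  have hus : ∀ y, y ᵥ* L = 0 → ∃ ξ : Fin (2 * k + 1) → ℂ, y = ∑ j, ξ j • u j :=
    fun y hy => ker_span u hui hLu hr' (x := y) (by rw [Matrix.mulVec_transpose, hy])
  -- the diagonal variables do not contribute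
  have hdiag : ∀ k₁, (∀ i j, u i ⬝ᵥ (M (Matrix.single k₁ k₁ 1) *ᵥ v j) = 0) → False := by
    intro k₁ hz
    obtain ⟨A', hA', -, -, hAF'⟩ := exists_skew k k₁
    refine same_pairing hnd v u hvs hus C.c0 (A' + Matrix.single k₁ k₁ 1) A' ?_ hAF'
      (Fv_skew A' hA')
    intro i j
    rw [map_add, Matrix.add_mulVec, dotProduct_add, hz i j, add_zero]
  by_cases hdc : d₁ = c₁
  · -- equal common values
    have hF1 : Fv (1 : Matrix (Fin (2 * k + 1)) (Fin (2 * k + 1)) ℂ) = 0 :=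
      Fv_symm (by omega) 1 Matrix.transpose_one
    have hone : ∀ i j, u i ⬝ᵥ (M 1 *ᵥ v j) =
        if i = j then u i ⬝ᵥ (M (Matrix.single i i 1) *ᵥ v i) else 0 := by
      intro i j
      rw [pair_expand]
      have hterm : ∀ k' l, (1 : Matrix (Fin (2 * k + 1)) (Fin (2 * k + 1)) ℂ) k' l *
          (u i ⬝ᵥ (M (Matrix.single k' l 1) *ᵥ v j)) =
          if k' = i ∧ l = i ∧ i = j then u i ⬝ᵥ (M (Matrix.single i i 1) *ᵥ v i) else 0 := by
        intro k' l
        by_cases hkl : k' = l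
        · subst hkl
          rw [Matrix.one_apply_eq, one_mul]
          by_cases h0 : u i ⬝ᵥ (M (Matrix.single k' k' 1) *ᵥ v j) = 0
          · rw [h0]
            split_ifs with h1
            · obtain ⟨h2, -, h3⟩ := h1
              subst h2
              rw [← h3] at h0
              exact h0.symm
            · rfl
          · have h1 := hrelB i j k' k' h0
            rw [hdc] at h1
            obtain ⟨h2, h3⟩ := wt_diag C.q3 C.q1 hc (by rw [← hdc]; exact hd) hc1 i j k' h1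
            subst h2
            subst h3
            rw [if_pos ⟨rfl, rfl, rfl⟩]
        · rw [Matrix.one_apply_ne hkl, zero_mul, if_neg]
          rintro ⟨h1, h2, -⟩
          exact hkl (h1.trans h2.symm)
      simp_rw [hterm]
      by_cases h : i = j
      · subst h
        rw [if_pos rfl, Fintype.sum_eq_single i, Fintype.sum_eq_single i]
        · rw [if_pos ⟨rfl, rfl, rfl⟩]
        · intro l hl
          rw [if_neg]
          rintro ⟨-, h1, -⟩
          exact hl h1
        · intro k' hk'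
          refine Finset.sum_eq_zero (fun l _ => ?_)
          rw [if_neg]
          rintro ⟨h1, -, -⟩
          exact hk' h1
      · rw [if_neg h]
        refine Finset.sum_eq_zero (fun k' _ => Finset.sum_eq_zero (fun l _ => ?_))
        rw [if_neg]
        rintro ⟨-, -, h1⟩
        exact h h1
    -- some diagonal coefficient vanishes
    obtain ⟨k₁, hk₁⟩ : ∃ k₁, u k₁ ⬝ᵥ (M (Matrix.single k₁ k₁ 1) *ᵥ v k₁) = 0 := by
      by_contra hcon
      push Not at hcon
      have h1 : c * Fv (1 : Matrix (Fin (2 * k + 1)) (Fin (2 * k + 1)) ℂ) ≠ 0 := by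
        rw [hnd]
        intro x hx hxy
        obtain ⟨ξ, hξ⟩ := hvs x hx
        have h2 : ∀ i, ξ i = 0 := by
          intro i
          have h3 := hxy (u i) (by rw [← Matrix.mulVec_transpose]; exact hLu i)
          rw [hξ, Matrix.mulVec_sum, dotProduct_sum, Fintype.sum_eq_single i] at h3
          · rw [Matrix.mulVec_smul, dotProduct_smul, hone, if_pos rfl, smul_eq_mul] at h3
            exact (mul_eq_zero.1 h3).resolve_right (hcon i)
          · intro j hj
            rw [Matrix.mulVec_smul, dotProduct_smul, hone, if_neg (Ne.symm hj), smul_zero]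
        rw [hξ]
        simp [h2]
      exact h1 (by rw [hF1, mul_zero])
    apply hdiag k₁
    intro i j
    by_contra h0
    have h1 := hrelB i j k₁ k₁ h0
    rw [hdc] at h1
    obtain ⟨h2, h3⟩ := wt_diag C.q3 C.q1 hc (by rw [← hdc]; exact hd) hc1 i j k₁ h1
    subst h2
    subst h3
    exact h0 hk₁
  · -- different common values
    by_cases hall : ∀ k₁ i j, u i ⬝ᵥ (M (Matrix.single k₁ k₁ 1) *ᵥ v j) = 0
    · exact hdiag k₀ (hall k₀)
    · push Not at hall
      obtain ⟨k₁, i₂, j₂, h2⟩ := hall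
      have hD := wt_neD hn3 hdc i₂ j₂ k₁ (hrelB _ _ _ _ h2)
      have hO : ∀ i j k' l, k' ≠ l → u i ⬝ᵥ (M (Matrix.single k' l 1) *ᵥ v j) = 0 := by
        intro i j k' l hkl
        by_contra h0
        have h1 := wt_neO hn3 hdc i j k' l hkl (hrelB _ _ _ _ h0)
        rw [hD] at h1
        have h3 : q * q = q := mul_right_cancel₀ hc1 h1
        exact C.q1 (mul_left_cancel₀ q0 (by rw [mul_one]; exact h3))
      refine same_pairing hnd v u hvs hus C.c0 X (Matrix.single k₀ k₀ 1) ?_ hAF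
        (Fv_symm (by omega) _ (Matrix.transpose_single ..))
      intro i j
      rw [hXdef, map_add, Matrix.add_mulVec, dotProduct_add]
      have h3 : u i ⬝ᵥ (M A *ᵥ v j) = 0 := by
        rw [pair_expand]
        refine Finset.sum_eq_zero (fun k' _ => Finset.sum_eq_zero (fun l _ => ?_))
        by_cases hkl : k' = l
        · subst hkl
          rw [hAd, zero_mul]
        · rw [hO i j k' l hkl, mul_zero]
      rw [h3, zero_add]

/-- Both kernels of the constant matrix have only constant weights. -/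
theorem Cor.const {k : ℕ}
    {M : Matrix (Fin (2 * k + 1)) (Fin (2 * k + 1)) ℂ →ₗ[ℂ] Matrix (Fin m) (Fin m) ℂ}
    {w w' : Fin m → Fin (2 * k + 1) → ℂ}
    {P P' : Equiv.Perm (Fin (2 * k + 1)) → Matrix (Fin m) (Fin m) ℂ}
    (C : Cor (2 * k + 1) m q c L M w w' P P') :
    (∀ x ω, L *ᵥ x = 0 → x ≠ 0 → IsW w ω x → ∀ i j, ω i = ω j) ∧
    (∀ y ω, Lᵀ *ᵥ y = 0 → y ≠ 0 → IsW w' ω y → ∀ i j, ω i = ω j) := by
  rcases Nat.eq_zero_or_pos k with hk | hk
  · subst hk
    have h1 : ∀ (ω : Fin (2 * 0 + 1) → ℂ) (i j : Fin (2 * 0 + 1)), ω i = ω j := by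
      intro ω i j
      rw [show i = j from Fin.ext (by omega)]
    exact ⟨fun _ ω _ _ _ => h1 ω, fun _ ω _ _ _ => h1 ω⟩
  · refine ⟨fun x ω hx hx0 hω => C.ker_const hk hx hx0 hω, fun y ω hy hy0 hω i j => ?_⟩
    have h1 := C.tr.ker_const hk hy hy0 (ω := fun l => (ω l)⁻¹) (fun b hb => by
      have := hω b hb
      simp only [this]) i j
    exact inv_injective h1

end PadDet.Eq
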