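import Pool.Agent.H.MP_d7db32_ag.Eq.Def2

/-!
# MP_d7db32_ag, Eq/ChnA: a term of the determinant

Fix `X` with `Fv X ≠ 0`. Every entry of `L + N X` is an entry of `L` or an entry of `N X`: if `w' b = w a` then `N X b a = 0` (`gE`; `X` is the sum of its entries times
`single i j 1`; `single i 1 + single j 1 ≠ 0` since the sum of its entries is `2 ≠ 0` in `ZMod 3`), otherwise `L b a = 0`. So for a permutation `π`
`∏ a, (L + s • N X) (π a) a = s ^ (card {a | w' (π a) ≠ w a}) * ∏ a, (L + N X) (π a) a`, and `det (L + s • N X) = c * Fv (s • X) = s ^ (2 k + 1) * (c * Fv X)` (adjugate_smul,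
see `Fv_smul` in S2). Compare the coefficients of `s ^ (2 k + 1)` of these polynomials in `s` (`Polynomial.funext`): some `π` has exactly `2 k + 1` columns with
`w' (π a) ≠ w a` and `∏ a, (L + N X) (π a) a ≠ 0`. Put `v a = single i 1 + single j 1` with `N (single i j 1) (π a) a ≠ 0` on these columns, `v a = 0` on the others (there
`L (π a) a ≠ 0`, `gL`). The total sum of the entries of `v` is `2 (2 k + 1)`; for each `l` the number `∑ a, v a l` is `2` modulo `3` (`tw`, `Equiv.sum_comp`), so it is at least `2`; so it is `2`.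
-/

set_option autoImplicit false

namespace PadDet.Eq

open Matrix

private theorem chnA_Fv_smul {k : ℕ} (s : ℂ)
    (X : Matrix (Fin (2 * k + 1)) (Fin (2 * k + 1)) ℂ) :
    Fv (s • X) = s ^ (2 * k + 1) * Fv X := by
  unfold Fv
  rw [Matrix.transpose_smul, ← smul_sub, ← smul_add, Matrix.adjugate_smul, Matrix.smul_mul,
    Matrix.mul_smul, Matrix.trace_smul, Matrix.trace_smul, Fintype.card_fin, smul_eq_mul,
    smul_eq_mul, Nat.add_sub_cancel]
  ring

private theorem chnA_single_ne {n : ℕ} (i j : Fin n) :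
    (Pi.single i 1 + Pi.single j 1 : Fin n → ZMod 3) ≠ 0 := by
  intro h
  have h1 : ∑ l, (Pi.single i 1 + Pi.single j 1 : Fin n → ZMod 3) l = 2 := by
    simp only [Pi.add_apply, Finset.sum_add_distrib, Finset.sum_pi_single', Finset.mem_univ,
      if_true]
    norm_num
  rw [h] at h1
  simp only [Pi.zero_apply, Finset.sum_const_zero] at h1
  exact absurd h1 (by decide)

private theorem chnA_N {n m : ℕ} {N : Matrix (Fin n) (Fin n) ℂ →ₗ[ℂ] Matrix (Fin m) (Fin m) ℂ}
    (X : Matrix (Fin n) (Fin n) ℂ) (b a : Fin m) :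
    N X b a = ∑ i, ∑ j, X i j * N (Matrix.single i j 1) b a := by
  conv_lhs => rw [Matrix.matrix_eq_sum_single X]
  rw [map_sum, Matrix.sum_apply]
  refine Finset.sum_congr rfl fun i _ => ?_
  rw [map_sum, Matrix.sum_apply]
  refine Finset.sum_congr rfl fun j _ => ?_
  have : Matrix.single i j (X i j) = X i j • Matrix.single i j (1 : ℂ) := by
    rw [Matrix.smul_single, smul_eq_mul, mul_one]
  rw [this, map_smul, Matrix.smul_apply, smul_eq_mul]

theorem chnA {k m : ℕ} {c : ℂ} {L : Matrix (Fin m) (Fin m) ℂ}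
    {N : Matrix (Fin (2 * k + 1)) (Fin (2 * k + 1)) ℂ →ₗ[ℂ] Matrix (Fin m) (Fin m) ℂ}
    {w w' : Fin m → Fin (2 * k + 1) → ZMod 3} (G : Gz (2 * k + 1) m c L N w w')
    {X : Matrix (Fin (2 * k + 1)) (Fin (2 * k + 1)) ℂ} (hX : Fv X ≠ 0) :
    ∃ (π : Equiv.Perm (Fin m)) (v : Fin m → Fin (2 * k + 1) → ℕ),
      (∀ a, v a = 0 ∨ ∃ i j, v a = Pi.single i 1 + Pi.single j 1) ∧
      (∀ a i, w' (π a) i = w a i + (v a i : ZMod 3)) ∧ ∀ i, ∑ a, v a i = 2 := by
  classical
  -- the two kinds of entries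
  have hN0 : ∀ b a, w' b = w a → ∀ i j, N (Matrix.single i j 1) b a = 0 := by
    intro b a hba i j
    by_contra hne
    have h := G.gE b a i j hne
    rw [hba, add_assoc] at h
    exact chnA_single_ne i j (left_eq_add.1 h)
  have hNX0 : ∀ b a, w' b = w a → N X b a = 0 := by
    intro b a hba
    rw [chnA_N]
    refine Finset.sum_eq_zero fun i _ => Finset.sum_eq_zero fun j _ => ?_
    rw [hN0 b a hba, mul_zero]
  have hL0 : ∀ b a, w' b ≠ w a → L b a = 0 := by
    intro b a hba
    by_contra hne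
    exact hba (G.gL b a hne)
  have hent : ∀ (s : ℂ) b a, (L + N (s • X)) b a =
      s ^ (if w' b ≠ w a then 1 else 0) * (L + N X) b a := by
    intro s b a
    rw [map_smul, Matrix.add_apply, Matrix.add_apply, Matrix.smul_apply, smul_eq_mul]
    by_cases hba : w' b = w a
    · simp [hba, hNX0 b a hba]
    · simp [hba, hL0 b a hba]
  set cnt : Equiv.Perm (Fin m) → ℕ := fun π => ∑ a, (if w' (π a) ≠ w a then 1 else 0) with hcnt
  set cf : Equiv.Perm (Fin m) → ℂ := fun π =>
    ((Equiv.Perm.sign π : ℤ) : ℂ) * ∏ a, (L + N X) (π a) a with hcf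
  have hdet : ∀ s : ℂ, ∑ π, cf π * s ^ cnt π = c * Fv X * s ^ (2 * k + 1) := by
    intro s
    have h1 := G.det (s • X)
    rw [chnA_Fv_smul, Matrix.det_apply'] at h1
    rw [show c * Fv X * s ^ (2 * k + 1) = c * (s ^ (2 * k + 1) * Fv X) by ring, ← h1]
    refine Finset.sum_congr rfl fun π _ => ?_
    simp only [hent, Finset.prod_mul_distrib, Finset.prod_pow_eq_pow_sum, hcf, hcnt]
    ring
  have hpol : ∑ π, Polynomial.C (cf π) * Polynomial.X ^ cnt π =
      Polynomial.C (c * Fv X) * Polynomial.X ^ (2 * k + 1) := by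
    apply Polynomial.funext
    intro s
    rw [Polynomial.eval_finsetSum]
    simp only [Polynomial.eval_mul, Polynomial.eval_C, Polynomial.eval_pow, Polynomial.eval_X]
    exact hdet s
  have hco := congrArg (fun p => Polynomial.coeff p (2 * k + 1)) hpol
  simp only [Polynomial.finsetSum_coeff, Polynomial.coeff_C_mul, Polynomial.coeff_X_pow] at hco
  rw [if_pos trivial, mul_one] at hco
  have hne : c * Fv X ≠ 0 := mul_ne_zero G.c0 hX
  rw [← hco] at hne
  obtain ⟨π, -, hπ⟩ := Finset.exists_ne_zero_of_sum_ne_zero hne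
  have hπc : cnt π = 2 * k + 1 := by
    by_contra hcon
    apply hπ
    rw [if_neg (fun h => hcon h.symm), mul_zero]
  have hπp : ∏ a, (L + N X) (π a) a ≠ 0 := by
    intro hcon
    apply hπ
    have : cf π = 0 := by
      rw [hcf]
      beta_reduce
      rw [hcon, mul_zero]
    rw [this, zero_mul]
  have hπa : ∀ a, (L + N X) (π a) a ≠ 0 := fun a => Finset.prod_ne_zero_iff.1 hπp a (Finset.mem_univ a)
  have hex : ∀ a, ∃ u : Fin (2 * k + 1) → ℕ, (u = 0 ∨ ∃ i j, u = Pi.single i 1 + Pi.single j 1) ∧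
      (∀ i, w' (π a) i = w a i + (u i : ZMod 3)) ∧
      ∑ l, u l = 2 * (if w' (π a) ≠ w a then 1 else 0) := by
    intro a
    by_cases hba : w' (π a) = w a
    · refine ⟨0, Or.inl rfl, fun i => ?_, ?_⟩
      · rw [hba]
        simp
      · simp [hba]
    · have h1 : N X (π a) a ≠ 0 := by
        have := hπa a
        rwa [Matrix.add_apply, hL0 _ _ hba, zero_add] at this
      rw [chnA_N] at h1
      obtain ⟨i, -, hi⟩ := Finset.exists_ne_zero_of_sum_ne_zero h1
      obtain ⟨j, -, hj⟩ := Finset.exists_ne_zero_of_sum_ne_zero hi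
      have h2 := G.gE _ _ i j (right_ne_zero_of_mul hj)
      refine ⟨Pi.single i 1 + Pi.single j 1, Or.inr ⟨i, j, rfl⟩, fun l => ?_, ?_⟩
      · rw [h2]
        simp only [Pi.add_apply, Pi.single_apply]
        split_ifs <;> push_cast <;> ring
      · rw [if_pos hba]
        simp only [Pi.add_apply, Finset.sum_add_distrib, Finset.sum_pi_single', Finset.mem_univ,
          if_true]
  choose v hv1 hv2 hv3 using hex
  refine ⟨π, v, hv1, hv2, ?_⟩
  have hge : ∀ i ∈ (Finset.univ : Finset (Fin (2 * k + 1))), 2 ≤ ∑ a, v a i := by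
    intro i _
    have h1 : ((∑ a, v a i : ℕ) : ZMod 3) = 2 := by
      have h2 : ∑ a, w' (π a) i = ∑ a, w a i + ((∑ a, v a i : ℕ) : ZMod 3) := by
        rw [Nat.cast_sum, ← Finset.sum_add_distrib]
        exact Finset.sum_congr rfl fun a _ => hv2 a i
      rw [Equiv.sum_comp π (fun b => w' b i), G.tw i] at h2
      exact (add_left_cancel h2).symm
    by_contra hcon
    have h3 : ∑ a, v a i = 0 ∨ ∑ a, v a i = 1 := by omega
    rcases h3 with h3 | h3
    · rw [h3] at h1
      exact absurd h1 (by decide)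
    · rw [h3] at h1
      exact absurd h1 (by decide)
  have htot : ∑ i : Fin (2 * k + 1), 2 = ∑ i, ∑ a, v a i := by
    rw [Finset.sum_comm, Finset.sum_congr rfl (fun a _ => hv3 a), ← Finset.mul_sum]
    have : ∑ a, (if w' (π a) ≠ w a then 1 else 0) = 2 * k + 1 := hπc
    rw [this, Finset.sum_const, Finset.card_univ, Fintype.card_fin, smul_eq_mul, mul_comm]
  have := (Finset.sum_eq_sum_iff_of_le hge).1 htot
  intro i
  exact (this i (Finset.mem_univ i)).symm

end PadDet.Eq
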