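import Mathlib

/-!
# MP_d7db32_ag, Eq/ChnB: a segment of a cycle from a constant weight to a constant weight

Some `a` has `v a ≠ 0` (`hs`). Follow the cycle of `a` under `θ`, `P` its length; the elements `θ ^ s a`, `s < P`, are distinct, so the sum of `v` over them is at most `2` at every place.
If no element of the cycle has a constant weight, then `w (θ (θ ^ s a)) = w'' (θ (θ ^ s a)) = w (θ ^ s a) + v (θ ^ s a)` for all `s`, the sum of `v` over the cycle is `0` modulo `3` and at most `2`,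
so it is `0`, against `v a ≠ 0`. Otherwise go back from `a` to the first element `a₁ = θ ^ (-s₁) a`, `s₁ ≥ 0`, with `w a₁` constant, and on from `a` to the first `θ ^ s₂ a`, `s₂ ≥ 1`, with
`w (θ ^ s₂ a)` constant; `p = s₁ + s₂ ≤ P`. For `0 < s < p` the weight of `θ ^ s a₁` is not constant, so by induction `w (θ ^ s a₁) = w a₁ + (sum over r < s of v (θ ^ r a₁))`; for `s = p` this holds
for `w'' (θ ^ p a₁)`, which is constant (`h0'`). So the sum over `r < p` is a constant function modulo `3` with values in `{0, 1, 2}`, so it is constant `j`; `j ≠ 0` because of `a`; the sum of its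
entries is `(2 k + 1) j` and even, so `j = 2`.
-/

set_option autoImplicit false

namespace PadDet.Eq

/-- Along a segment without constant weights in its interior the weights add up. -/
private theorem ChnB_seg {k m : ℕ} (w w'' : Fin m → Fin (2 * k + 1) → ZMod 3)
    (hL : ∀ a, (∃ i j, w a i ≠ w a j) → w'' a = w a)
    (θ : Equiv.Perm (Fin m)) (v : Fin m → Fin (2 * k + 1) → ℕ)
    (hθ : ∀ a i, w'' (θ a) i = w a i + (v a i : ZMod 3)) (a₀ : Fin m) (p : ℕ)
    (hne : ∀ s, 0 < s → s < p → ∃ i j, w ((θ ^ s) a₀) i ≠ w ((θ ^ s) a₀) j) :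
    ∀ s < p, ∀ i, w ((θ ^ s) a₀) i =
      w a₀ i + ((∑ r ∈ Finset.range s, v ((θ ^ r) a₀) i : ℕ) : ZMod 3) := by
  intro s
  induction s with
  | zero => intro _ i; simp
  | succ s ih =>
    intro hs i
    have h1 := ih (by omega) i
    have h2 := hθ ((θ ^ s) a₀) i
    rw [← Equiv.Perm.mul_apply, ← pow_succ'] at h2
    rw [hL _ (hne (s + 1) (by omega) hs)] at h2
    rw [h2, h1, Finset.sum_range_succ]
    push_cast
    ring

/-- The weight `w''` at the end of the segment. -/
private theorem ChnB_end {k m : ℕ} (w w'' : Fin m → Fin (2 * k + 1) → ZMod 3)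
    (hL : ∀ a, (∃ i j, w a i ≠ w a j) → w'' a = w a)
    (θ : Equiv.Perm (Fin m)) (v : Fin m → Fin (2 * k + 1) → ℕ)
    (hθ : ∀ a i, w'' (θ a) i = w a i + (v a i : ZMod 3)) (a₀ : Fin m) (p : ℕ) (hp : 0 < p)
    (hne : ∀ s, 0 < s → s < p → ∃ i j, w ((θ ^ s) a₀) i ≠ w ((θ ^ s) a₀) j) (i : Fin (2 * k + 1)) :
    w'' ((θ ^ p) a₀) i =
      w a₀ i + ((∑ r ∈ Finset.range p, v ((θ ^ r) a₀) i : ℕ) : ZMod 3) := by
  obtain ⟨s, rfl⟩ : ∃ s, p = s + 1 := ⟨p - 1, by omega⟩
  have h1 := ChnB_seg w w'' hL θ v hθ a₀ (s + 1) hne s (by omega) i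
  have h2 := hθ ((θ ^ s) a₀) i
  rw [← Equiv.Perm.mul_apply, ← pow_succ'] at h2
  rw [h2, h1, Finset.sum_range_succ]
  push_cast
  ring

/-- The sum over a segment of a cycle is at most the sum over everything. -/
private theorem ChnB_le {m n : ℕ} (θ : Equiv.Perm (Fin m)) (v : Fin m → Fin n → ℕ)
    (hs : ∀ i, ∑ a, v a i = 2) (a₀ : Fin m) (p : ℕ)
    (hp : p ≤ Function.minimalPeriod θ a₀) (i : Fin n) :
    ∑ s ∈ Finset.range p, v ((θ ^ s) a₀) i ≤ 2 := by
  have hinj : Set.InjOn (fun s : ℕ => (θ ^ s) a₀) (Finset.range p : Set ℕ) := by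
    intro s hs t ht hst
    have h1 : s < p := by simpa using hs
    have h2 : t < p := by simpa using ht
    refine Function.iterate_injOn_Iio_minimalPeriod (f := θ) (x := a₀)
      (Set.mem_Iio.2 (by omega)) (Set.mem_Iio.2 (by omega)) ?_
    show (θ : Fin m → Fin m)^[s] a₀ = (θ : Fin m → Fin m)^[t] a₀
    rw [Equiv.Perm.iterate_eq_pow, Equiv.Perm.iterate_eq_pow]
    exact hst
  have h1 := Finset.sum_image (f := fun b => v b i) hinj
  calc ∑ s ∈ Finset.range p, v ((θ ^ s) a₀) i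
      = ∑ b ∈ (Finset.range p).image (fun s : ℕ => (θ ^ s) a₀), v b i := h1.symm
    _ ≤ ∑ b, v b i := Finset.sum_le_sum_of_subset (Finset.subset_univ _)
    _ = 2 := hs i

theorem chnB {k m : ℕ} (w w'' : Fin m → Fin (2 * k + 1) → ZMod 3)
    (hL : ∀ a, (∃ i j, w a i ≠ w a j) → w'' a = w a)
    (h0' : ∀ a, (∀ i j, w a i = w a j) → ∀ i j, w'' a i = w'' a j)
    (θ : Equiv.Perm (Fin m)) (v : Fin m → Fin (2 * k + 1) → ℕ)
    (hv : ∀ a, v a = 0 ∨ ∃ i j, v a = Pi.single i 1 + Pi.single j 1)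
    (hθ : ∀ a i, w'' (θ a) i = w a i + (v a i : ZMod 3)) (hs : ∀ i, ∑ a, v a i = 2) :
    ∃ (a₁ : Fin m) (p : ℕ), (∀ i j, w a₁ i = w a₁ j) ∧
      (∀ i, ∑ s ∈ Finset.range p, v ((θ ^ s) a₁) i = 2) ∧
      ∀ s < p, ∀ i, w ((θ ^ s) a₁) i =
        w a₁ i + ((∑ r ∈ Finset.range s, v ((θ ^ r) a₁) i : ℕ) : ZMod 3) := by
  classical
  -- an element with `v a ≠ 0`
  obtain ⟨a, ha⟩ : ∃ a, v a ≠ 0 := by
    by_contra h
    push Not at h
    have h1 := hs 0
    simp [h] at h1
  obtain ⟨i₀, hi₀⟩ : ∃ i, v a i ≠ 0 := by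
    by_contra h
    push Not at h
    exact ha (funext h)
  have hper : ∀ b : Fin m, 0 < Function.minimalPeriod θ b ∧
      (θ ^ Function.minimalPeriod θ b) b = b := by
    intro b
    refine ⟨Function.minimalPeriod_pos_of_mem_periodicPts
      (Function.Injective.mem_periodicPts θ.injective b), ?_⟩
    have h := Function.iterate_minimalPeriod (f := θ) (x := b)
    rwa [Equiv.Perm.iterate_eq_pow] at h
  by_cases hC : ∃ s, ∀ i j, w ((θ⁻¹ ^ s) a) i = w ((θ⁻¹ ^ s) a) j
  · -- go back to the first constant weight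
    set s₁ := Nat.find hC with hs₁
    have hs1 := Nat.find_spec hC
    rw [← hs₁] at hs1
    set a₁ := (θ⁻¹ ^ s₁) a with ha₁
    have hback : ∀ s ≤ s₁, (θ ^ s) a₁ = (θ⁻¹ ^ (s₁ - s)) a := by
      intro s hs
      have h1 : θ ^ s * θ⁻¹ ^ s₁ = θ⁻¹ ^ (s₁ - s) := by
        have h2 : s₁ = s + (s₁ - s) := by omega
        conv_lhs => rw [h2]
        rw [pow_add, ← mul_assoc, inv_pow, mul_inv_cancel, one_mul]
      rw [ha₁, ← Equiv.Perm.mul_apply, h1]
    obtain ⟨hP0, hP1⟩ := hper a₁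
    have hC' : ∃ p, 0 < p ∧ ∀ i j, w ((θ ^ p) a₁) i = w ((θ ^ p) a₁) j :=
      ⟨Function.minimalPeriod θ a₁, hP0, by rw [hP1]; exact hs1⟩
    set p := Nat.find hC' with hp
    have hp1 := Nat.find_spec hC'
    rw [← hp] at hp1
    obtain ⟨hp0, hpc⟩ := hp1
    have hpP : p ≤ Function.minimalPeriod θ a₁ := Nat.find_min' hC' ⟨hP0, by rw [hP1]; exact hs1⟩
    have hne : ∀ s, 0 < s → s < p → ∃ i j, w ((θ ^ s) a₁) i ≠ w ((θ ^ s) a₁) j := by
      intro s hs0 hsp
      have h1 := Nat.find_min hC' hsp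
      by_contra h2
      push Not at h2
      exact h1 ⟨hs0, h2⟩
    have hs1p : s₁ < p := by
      by_contra h1
      have h1' : p ≤ s₁ := by omega
      have h2 := hback p h1'
      have h3 := Nat.find_min hC (m := s₁ - p) (by omega)
      apply h3
      rw [← h2]
      exact hpc
    have haa : (θ ^ s₁) a₁ = a := by
      rw [hback s₁ le_rfl]; simp
    have hseg := ChnB_seg w w'' hL θ v hθ a₁ p hne
    have hend := ChnB_end w w'' hL θ v hθ a₁ p hp0 hne
    have hle := ChnB_le θ v hs a₁ p hpP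
    have hcc := h0' _ hpc
    -- the sum is constant
    have hconst : ∀ i j, ∑ r ∈ Finset.range p, v ((θ ^ r) a₁) i =
        ∑ r ∈ Finset.range p, v ((θ ^ r) a₁) j := by
      intro i j
      have h1 := hend i
      have h2 := hend j
      rw [hcc i j, h2, hs1 j i] at h1
      have h3 := add_left_cancel h1
      rw [ZMod.natCast_eq_natCast_iff'] at h3
      have h4 := hle i
      have h5 := hle j
      omega
    refine ⟨a₁, p, hs1, ?_, hseg⟩
    -- the sum is not zero
    have hpos : 0 < ∑ r ∈ Finset.range p, v ((θ ^ r) a₁) i₀ := by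
      refine lt_of_lt_of_le (Nat.pos_of_ne_zero hi₀) ?_
      have h1 := Finset.single_le_sum (f := fun r => v ((θ ^ r) a₁) i₀)
        (fun r _ => Nat.zero_le _) (Finset.mem_range.2 hs1p)
      simpa only [haa] using h1
    -- the sum is even
    have heven : Even (∑ i, ∑ r ∈ Finset.range p, v ((θ ^ r) a₁) i) := by
      rw [Finset.sum_comm]
      refine Finset.even_sum _ fun r _ => ?_
      rcases hv ((θ ^ r) a₁) with h1 | ⟨i, j, h1⟩
      · rw [h1]; simp
      · rw [h1]
        have h2 : ∑ l, (Pi.single i 1 + Pi.single j 1 : Fin (2 * k + 1) → ℕ) l = 2 := by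
          simp [Finset.sum_add_distrib]
        rw [h2]
        exact even_two
    have hsum : ∑ i, ∑ r ∈ Finset.range p, v ((θ ^ r) a₁) i =
        (2 * k + 1) * ∑ r ∈ Finset.range p, v ((θ ^ r) a₁) i₀ := by
      rw [Finset.sum_congr rfl fun i _ => hconst i i₀]
      simp
    rw [hsum, Nat.even_mul] at heven
    have hodd : ¬ Even (2 * k + 1) := by
      rw [Nat.not_even_iff_odd]; exact odd_two_mul_add_one k
    have h2 := heven.resolve_left hodd
    have h3 := hle i₀
    intro i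
    rw [hconst i i₀]
    obtain ⟨t, ht⟩ := h2
    omega
  · -- no constant weight on the cycle
    exfalso
    push Not at hC
    obtain ⟨hP0, hP1⟩ := hper a
    set P := Function.minimalPeriod θ a with hP
    have hne : ∀ s, 0 < s → s < P → ∃ i j, w ((θ ^ s) a) i ≠ w ((θ ^ s) a) j := by
      intro s _ hsP
      have h1 : (θ ^ s) a = (θ⁻¹ ^ (P - s)) a := by
        have h2 : θ⁻¹ ^ (P - s) * θ ^ P = θ ^ s := by
          have h3 : P = (P - s) + s := by omega
          conv_lhs => rw [h3]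
          rw [Nat.add_sub_cancel, pow_add, ← mul_assoc, inv_pow, inv_mul_cancel, one_mul]
        rw [← h2, Equiv.Perm.mul_apply, hP1]
      obtain ⟨i, j, h⟩ := hC (P - s)
      exact ⟨i, j, by rw [h1]; exact h⟩
    have hend := ChnB_end w w'' hL θ v hθ a P hP0 hne i₀
    have hle := ChnB_le θ v hs a P le_rfl i₀
    rw [hP1, hL a (by simpa using hC 0)] at hend
    have h1 : ((∑ r ∈ Finset.range P, v ((θ ^ r) a) i₀ : ℕ) : ZMod 3) = 0 := by
      have h2 : w a i₀ + 0 = w a i₀ +
          ((∑ r ∈ Finset.range P, v ((θ ^ r) a) i₀ : ℕ) : ZMod 3) := by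
        rw [add_zero]; exact hend
      exact (add_left_cancel h2).symm
    rw [ZMod.natCast_eq_zero_iff] at h1
    have h2 : v a i₀ ≤ ∑ r ∈ Finset.range P, v ((θ ^ r) a) i₀ := by
      have h3 := Finset.single_le_sum (f := fun r => v ((θ ^ r) a) i₀)
        (fun r _ => Nat.zero_le _) (Finset.mem_range.2 hP0)
      simpa using h3
    have h3 : 0 < v a i₀ := Nat.pos_of_ne_zero hi₀
    obtain ⟨t, ht⟩ := h1
    omega

end PadDet.Eq
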