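import Mathlib

/-!
# MP_d7db32_ag, Eq/Cnt: the number of vectors of a given type

For `Z : Finset (Fin n)` of `nz α` elements and `B ⊆ Z` of `nb α` elements there is a permutation `σ` with `α (σ i) ≠ 0 ↔ i ∈ Z` and `α (σ i) = 2 ↔ i ∈ B` (put together bijections of `B`, `Z \ B`, `Zᶜ` with
`{i | α i = 2}`, `{i | α i = 1}`, `{i | α i = 0}`), and `α ∘ σ` determines `Z` and `B`. The number of pairs is `C(n, z) C(z, b)` (`Finset.card_sigma`, `Finset.card_powersetCard`).
-/

set_option autoImplicit false

namespace PadDet.Eq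

/-- The number of nonzero entries. -/
def nz {n : ℕ} (α : Fin n → ℕ) : ℕ := (Finset.univ.filter fun i => α i ≠ 0).card

/-- The number of entries `2`. -/
def nb {n : ℕ} (α : Fin n → ℕ) : ℕ := (Finset.univ.filter fun i => α i = 2).card

/-- The vector with entries `2` on `B`, `1` on `Z \ B`, `0` elsewhere. -/
private def cntVec {n : ℕ} (Z B : Finset (Fin n)) : Fin n → ℕ := fun i =>
  if i ∈ B then 2 else if i ∈ Z then 1 else 0

private theorem cntVec_le {n : ℕ} (Z B : Finset (Fin n)) (i : Fin n) : cntVec Z B i ≤ 2 := by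
  unfold cntVec; split_ifs <;> omega

private theorem cntVec_supp {n : ℕ} (Z B : Finset (Fin n)) (h : B ⊆ Z) :
    (Finset.univ.filter fun i => cntVec Z B i ≠ 0) = Z := by
  ext i
  simp only [Finset.mem_filter, Finset.mem_univ, true_and]
  unfold cntVec
  constructor
  · intro hi
    by_contra hZ
    exact hi (by rw [if_neg (fun hB => hZ (h hB)), if_neg hZ])
  · intro hi
    split_ifs <;> omega

private theorem cntVec_two {n : ℕ} (Z B : Finset (Fin n)) :
    (Finset.univ.filter fun i => cntVec Z B i = 2) = B := by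
  ext i
  simp only [Finset.mem_filter, Finset.mem_univ, true_and]
  unfold cntVec
  constructor
  · intro hi
    by_contra hB
    rw [if_neg hB] at hi
    split_ifs at hi <;> omega
  · intro hi
    rw [if_pos hi]

private theorem cnt_nz {n : ℕ} (Z B : Finset (Fin n)) (h : B ⊆ Z) : nz (cntVec Z B) = Z.card := by
  unfold nz; rw [cntVec_supp Z B h]

private theorem cnt_nb {n : ℕ} (Z B : Finset (Fin n)) : nb (cntVec Z B) = B.card := by
  unfold nb; rw [cntVec_two Z B]

private theorem cnt_fib {n : ℕ} (α : Fin n → ℕ) (h : ∀ i, α i ≤ 2) :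
    (Finset.univ.filter fun i => α i = 1).card + nb α = nz α ∧
      (Finset.univ.filter fun i => α i = 0).card + nz α = n := by
  constructor
  · unfold nb nz
    rw [← Finset.card_union_of_disjoint]
    · congr 1
      ext i
      simp only [Finset.mem_union, Finset.mem_filter, Finset.mem_univ, true_and]
      have := h i
      omega
    · rw [Finset.disjoint_left]
      intro i hi hj
      simp only [Finset.mem_filter, Finset.mem_univ, true_and] at hi hj
      omega
  · unfold nz
    have := Finset.card_filter_add_card_filter_not (s := (Finset.univ : Finset (Fin n)))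
      (fun i => α i = 0)
    simpa using this

private theorem cnt_perm {n : ℕ} (α β : Fin n → ℕ) (hα : ∀ i, α i ≤ 2) (hβ : ∀ i, β i ≤ 2)
    (h1 : nz β = nz α) (h2 : nb β = nb α) : ∃ σ : Equiv.Perm (Fin n), α ∘ σ = β := by
  classical
  have hcard : ∀ v, Fintype.card {i // β i = v} = Fintype.card {i // α i = v} := by
    intro v
    rw [Fintype.card_subtype, Fintype.card_subtype]
    have ha := cnt_fib α hα
    have hb := cnt_fib β hβ
    rcases Nat.lt_or_ge 2 v with hv | hv
    · rw [Finset.filter_false_of_mem, Finset.filter_false_of_mem]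
      · intro i _ hi
        have := hα i
        omega
      · intro i _ hi
        have := hβ i
        omega
    · interval_cases v
      · omega
      · omega
      · exact h2
  let e : ∀ v, {i // β i = v} ≃ {i // α i = v} := fun v => Fintype.equivOfCardEq (hcard v)
  let σ : Fin n ≃ Fin n := (Equiv.sigmaFiberEquiv β).symm.trans
    ((Equiv.sigmaCongrRight e).trans (Equiv.sigmaFiberEquiv α))
  refine ⟨σ, ?_⟩
  funext i
  exact (e (β i) ⟨i, rfl⟩).2

theorem cnt {n : ℕ} (A : Finset (Fin n → ℕ))
    (hst : ∀ (σ : Equiv.Perm (Fin n)), ∀ α ∈ A, α ∘ σ ∈ A) (α : Fin n → ℕ) (hα : α ∈ A)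
    (h2 : ∀ i, α i ≤ 2) :
    n.choose (nz α) * (nz α).choose (nb α) ≤
      (A.filter fun β => nz β + nb β = nz α + nb α).card := by
  classical
  set S : Finset (Σ _ : Finset (Fin n), Finset (Fin n)) :=
    (Finset.powersetCard (nz α) (Finset.univ : Finset (Fin n))).sigma
      (fun Z => Finset.powersetCard (nb α) Z) with hS
  have hcS : S.card = n.choose (nz α) * (nz α).choose (nb α) := by
    rw [hS, Finset.card_sigma]
    rw [Finset.sum_congr rfl (g := fun _ => (nz α).choose (nb α))]
    · simp
    · intro Z hZ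
      rw [Finset.card_powersetCard, (Finset.mem_powersetCard.1 hZ).2]
  rw [← hcS]
  have hmem : ∀ P ∈ S, P.1.card = nz α ∧ P.2 ⊆ P.1 ∧ P.2.card = nb α := by
    intro P hP
    rw [hS, Finset.mem_sigma, Finset.mem_powersetCard, Finset.mem_powersetCard] at hP
    exact ⟨hP.1.2, hP.2.1, hP.2.2⟩
  refine Finset.card_le_card_of_injOn (fun P => cntVec P.1 P.2) ?_ ?_
  · intro P hP
    obtain ⟨h1, h3, h4⟩ := hmem P hP
    have hz := cnt_nz P.1 P.2 h3
    have hb := cnt_nb P.1 P.2
    obtain ⟨σ, hσ⟩ := cnt_perm α (cntVec P.1 P.2) h2 (cntVec_le _ _) (by rw [hz, h1])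
      (by rw [hb, h4])
    have hmA : cntVec P.1 P.2 ∈ A := by
      have := hst σ α hα
      rwa [hσ] at this
    simp only [Finset.coe_filter, Set.mem_ofPred_eq]
    exact ⟨hmA, by rw [hz, hb, h1, h4]⟩
  · intro P hP Q hQ hPQ
    have hP' := hmem P hP
    have hQ' := hmem Q hQ
    have e1 : P.1 = Q.1 := by
      rw [← cntVec_supp P.1 P.2 hP'.2.1, ← cntVec_supp Q.1 Q.2 hQ'.2.1]
      simp only at hPQ
      rw [hPQ]
    have e2 : P.2 = Q.2 := by
      rw [← cntVec_two P.1 P.2, ← cntVec_two Q.1 Q.2]
      simp only at hPQ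
      rw [hPQ]
    obtain ⟨a, b⟩ := P
    obtain ⟨c, d⟩ := Q
    simp only at e1 e2
    subst e1
    subst e2
    rfl

end PadDet.Eq
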