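import Pool.Agent.H.MP_d7db32_ag.Eq.Pot
import Pool.Agent.H.MP_d7db32_ag.Eq.Cnt

/-!
# MP_d7db32_ag, Eq/Comb: chains of weights

The entries of `α s` are nondecreasing in `s`, so at most `2`. `step`: if `β = α + single i 1 + single j 1` with entries at most `2`, then the pair `(nz, nb)` increases by `(2, 0)` (two entries `0`), `(1, 1)` (one entry `0`
and one entry `1`, or `i = j` and entry `0`) or `(0, 2)` (two entries `1`). By induction on `s ≤ p`:
`Ph (nz (α 0)) (nb (α 0)) ≤ Ph (nz (α s)) (nb (α s)) + card (A.filter (nz β + nb β < nz (α s) + nb (α s)))`, with `ph_step`, `cnt`: the elements with `nz β + nb β = nz (α s) + nb (α s)` are new. At `s = p`: `ph_top`,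
at `s = 0`: `ph_zero`.
-/

set_option autoImplicit false

namespace PadDet.Eq

private theorem Comb_nz {n : ℕ} (α : Fin n → ℕ) :
    nz α = ∑ l, if α l ≠ 0 then 1 else 0 := by
  unfold nz
  rw [Finset.card_filter]

private theorem Comb_nb {n : ℕ} (α : Fin n → ℕ) :
    nb α = ∑ l, if α l = 2 then 1 else 0 := by
  unfold nb
  rw [Finset.card_filter]

private theorem Comb_le {n : ℕ} (α : Fin n → ℕ) : nb α ≤ nz α := by
  unfold nz nb
  refine Finset.card_le_card fun l hl => ?_
  rw [Finset.mem_filter] at hl ⊢
  exact ⟨hl.1, by rw [hl.2]; decide⟩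

private theorem Comb_nz_le {n : ℕ} (α : Fin n → ℕ) : nz α ≤ n := by
  unfold nz
  exact (Finset.card_le_univ _).trans (Fintype.card_fin n).le

theorem step {n : ℕ} (α β : Fin n → ℕ) (i j : Fin n)
    (h : β = α + (Pi.single i 1 + Pi.single j 1)) (h2 : ∀ l, β l ≤ 2) :
    (nz β = nz α + 2 ∧ nb β = nb α) ∨ (nz β = nz α + 1 ∧ nb β = nb α + 1) ∨
      (nz β = nz α ∧ nb β = nb α + 2) := by
  have hb : ∀ l, β l = α l + ((if l = i then 1 else 0) + (if l = j then 1 else 0)) := by
    intro l
    rw [h, Pi.add_apply, Pi.add_apply, Pi.single_apply, Pi.single_apply]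
  by_cases hij : i = j
  · subst hij
    have h0 : α i = 0 := by
      have h3 := h2 i
      rw [hb i, if_pos rfl] at h3
      omega
    have e1 : nz β = nz α + 1 := by
      rw [Comb_nz, Comb_nz]
      have e : ∀ l, (if β l ≠ 0 then 1 else 0) = (if α l ≠ 0 then 1 else 0)
          + (if l = i then 1 else 0) := by
        intro l
        rw [hb l]
        by_cases hl : l = i
        · subst hl
          simp [h0]
        · simp [hl]
      rw [Finset.sum_congr rfl fun l _ => e l, Finset.sum_add_distrib, Finset.sum_ite_eq' Finset.univ i,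
        if_pos (Finset.mem_univ i)]
    have e2 : nb β = nb α + 1 := by
      rw [Comb_nb, Comb_nb]
      have e : ∀ l, (if β l = 2 then 1 else 0) = (if α l = 2 then 1 else 0)
          + (if l = i then 1 else 0) := by
        intro l
        rw [hb l]
        by_cases hl : l = i
        · subst hl
          simp [h0]
        · simp [hl]
      rw [Finset.sum_congr rfl fun l _ => e l, Finset.sum_add_distrib, Finset.sum_ite_eq' Finset.univ i,
        if_pos (Finset.mem_univ i)]
    exact Or.inr (Or.inl ⟨e1, e2⟩)
  · have hji : j ≠ i := fun h => hij h.symm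
    have hi : α i + 1 ≤ 2 := by
      have h3 := h2 i
      rw [hb i, if_pos rfl, if_neg hij] at h3
      omega
    have hj : α j + 1 ≤ 2 := by
      have h3 := h2 j
      rw [hb j, if_pos rfl, if_neg hji] at h3
      omega
    have e1 : nz β = nz α + (if α i = 0 then 1 else 0) + (if α j = 0 then 1 else 0) := by
      rw [Comb_nz, Comb_nz]
      have e : ∀ l, (if β l ≠ 0 then 1 else 0) = (if α l ≠ 0 then 1 else 0)
          + (if l = i then (if α i = 0 then 1 else 0) else 0)
          + (if l = j then (if α j = 0 then 1 else 0) else 0) := by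
        intro l
        rw [hb l]
        by_cases hl : l = i
        · subst hl
          rw [if_neg hij]
          by_cases h0 : α l = 0
          · simp [h0, hij]
          · simp [h0, hij]
        · by_cases hl' : l = j
          · subst hl'
            by_cases h0 : α l = 0
            · simp [h0, hji]
            · simp [h0, hji]
          · simp [hl, hl']
      rw [Finset.sum_congr rfl fun l _ => e l, Finset.sum_add_distrib, Finset.sum_add_distrib,
        Finset.sum_ite_eq' Finset.univ i, Finset.sum_ite_eq' Finset.univ j,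
        if_pos (Finset.mem_univ i), if_pos (Finset.mem_univ j)]
    have e2 : nb β = nb α + (if α i = 1 then 1 else 0) + (if α j = 1 then 1 else 0) := by
      rw [Comb_nb, Comb_nb]
      have e : ∀ l, (if β l = 2 then 1 else 0) = (if α l = 2 then 1 else 0)
          + (if l = i then (if α i = 1 then 1 else 0) else 0)
          + (if l = j then (if α j = 1 then 1 else 0) else 0) := by
        intro l
        rw [hb l]
        by_cases hl : l = i
        · subst hl
          rw [if_neg hij]
          have h3 : α l = 0 ∨ α l = 1 := by omega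
          rcases h3 with h0 | h0
          · simp [h0, hij]
          · simp [h0, hij]
        · by_cases hl' : l = j
          · subst hl'
            have h3 : α l = 0 ∨ α l = 1 := by omega
            rcases h3 with h0 | h0
            · simp [h0, hji]
            · simp [h0, hji]
          · simp [hl, hl']
      rw [Finset.sum_congr rfl fun l _ => e l, Finset.sum_add_distrib, Finset.sum_add_distrib,
        Finset.sum_ite_eq' Finset.univ i, Finset.sum_ite_eq' Finset.univ j,
        if_pos (Finset.mem_univ i), if_pos (Finset.mem_univ j)]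
    have hi' : α i = 0 ∨ α i = 1 := by omega
    have hj' : α j = 0 ∨ α j = 1 := by omega
    rcases hi' with h3 | h3 <;> rcases hj' with h4 | h4 <;> rw [h3, h4] at e1 e2 <;>
      simp at e1 e2 <;> omega

theorem comb {k : ℕ} (A : Finset (Fin (2 * k + 1) → ℕ))
    (hst : ∀ (σ : Equiv.Perm (Fin (2 * k + 1))), ∀ α ∈ A, α ∘ σ ∈ A)
    (α : ℕ → Fin (2 * k + 1) → ℕ) (p : ℕ) (h0 : α 0 = 0) (hp : ∀ i, α p i = 2)
    (hstep : ∀ s < p, α (s + 1) = α s ∨ ∃ i j, α (s + 1) = α s + (Pi.single i 1 + Pi.single j 1))
    (hA : ∀ s < p, α s ∈ A) : 2 ^ (2 * k + 1) - 1 ≤ A.card := by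
  have hmono : ∀ s < p, ∀ l, α s l ≤ α (s + 1) l := by
    intro s hs l
    rcases hstep s hs with e | ⟨i, j, e⟩
    · rw [e]
    · rw [e, Pi.add_apply]
      exact Nat.le_add_right _ _
  have hle : ∀ d s, s + d = p → ∀ l, α s l ≤ 2 := by
    intro d
    induction d with
    | zero =>
      intro s hs l
      rw [Nat.add_zero] at hs
      rw [hs, hp l]
    | succ d ih =>
      intro s hs l
      exact (hmono s (by omega) l).trans (ih (s + 1) (by omega) l)
  have hle' : ∀ s ≤ p, ∀ l, α s l ≤ 2 := fun s hs => hle (p - s) s (by omega)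
  have z0 : nz (α 0) = 0 := by
    rw [h0, Comb_nz]
    simp
  have b0 : nb (α 0) = 0 := by
    rw [h0, Comb_nb]
    simp
  have zp : nz (α p) = 2 * k + 1 := by
    rw [Comb_nz]
    simp [hp]
  have bp : nb (α p) = 2 * k + 1 := by
    rw [Comb_nb]
    simp [hp]
  have main : ∀ s ≤ p, (nz (α s) + nb (α s)) % 2 = 0 ∧
      Ph (2 * k + 1) 0 0 ≤ Ph (2 * k + 1) (nz (α s)) (nb (α s))
        + (A.filter fun β => nz β + nb β < nz (α s) + nb (α s)).card := by
    intro s
    induction s with
    | zero =>
      intro _
      rw [z0, b0]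
      exact ⟨rfl, Nat.le_add_right _ _⟩
    | succ s ih =>
      intro hs
      obtain ⟨hpar, h1⟩ := ih (by omega)
      rcases hstep s (by omega) with e | ⟨i, j, e⟩
      · rw [e]
        exact ⟨hpar, h1⟩
      · have h3 := step (α s) (α (s + 1)) i j e (hle' (s + 1) hs)
        have hsum : nz (α (s + 1)) + nb (α (s + 1)) = nz (α s) + nb (α s) + 2 := by omega
        refine ⟨by omega, ?_⟩
        have h4 := ph_step k (nz (α s)) (nb (α s)) (nz (α (s + 1))) (nb (α (s + 1)))
          (Comb_le _) hpar (Comb_nz_le _) (Comb_le _) h3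
        have h5 := cnt A hst (α s) (hA s (by omega)) (hle' s (by omega))
        have h6 : (A.filter fun β => nz β + nb β < nz (α s) + nb (α s)).card
            + (A.filter fun β => nz β + nb β = nz (α s) + nb (α s)).card
            ≤ (A.filter fun β => nz β + nb β < nz (α (s + 1)) + nb (α (s + 1))).card := by
          rw [← Finset.card_union_of_disjoint]
          · refine Finset.card_le_card fun β hβ => ?_
            rw [Finset.mem_union, Finset.mem_filter, Finset.mem_filter] at hβ
            rw [Finset.mem_filter]
            rcases hβ with hβ | hβ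
            · exact ⟨hβ.1, by omega⟩
            · exact ⟨hβ.1, by omega⟩
          · rw [Finset.disjoint_left]
            intro β hβ hβ'
            rw [Finset.mem_filter] at hβ hβ'
            omega
        omega
  obtain ⟨-, h1⟩ := main p le_rfl
  rw [zp, bp, ph_top, Nat.zero_add] at h1
  have h2 := ph_zero (2 * k + 1)
  have h3 : (A.filter fun β => nz β + nb β < 2 * k + 1 + (2 * k + 1)).card ≤ A.card :=
    Finset.card_le_card (Finset.filter_subset _ _)
  omega

end PadDet.Eq
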