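import Mathlib

/-!
# MP_d7db32_ag, Eq/Cork: a simple zero of the determinant has corank at most one

If `x, y` are independent kernel vectors of `P`, let `S` be an invertible matrix with two columns `x`, `y` (extend to a basis).
The columns of `(P + τ N) S` at `x`, `y` are `τ N x`, `τ N y`, so `det (P + τ N) det S = τ ^ 2 * (polynomial in τ)`
(`Matrix.det` of `updateCol` with a smul, twice; or compare coefficients of the polynomial `det (P + X N)`). So `c * det S = τ * g τ` for all
`τ ≠ 0`, hence `c = 0` (a polynomial identity, or continuity at `0`).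
-/

set_option autoImplicit false

namespace PadDet.Eq

open Matrix

/-- Two independent vectors are two different columns of a matrix with nonzero determinant. -/
private theorem cork_ext {m : ℕ} (x y : Fin m → ℂ) (hli : LinearIndependent ℂ ![x, y]) :
    ∃ (S : Matrix (Fin m) (Fin m) ℂ) (i j : Fin m), i ≠ j ∧ S.det ≠ 0 ∧ S.col i = x ∧
      S.col j = y := by
  classical
  have hs : LinearIndepOn ℂ id (Set.range ![x, y]) := hli.linearIndepOn_id
  let b := Module.Basis.extend hs
  let e := b.indexEquiv (Pi.basisFun ℂ (Fin m))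
  let b' := b.reindex e
  have hx : x ∈ hs.extend (Set.subset_univ _) := hs.subset_extend _ ⟨0, rfl⟩
  have hy : y ∈ hs.extend (Set.subset_univ _) := hs.subset_extend _ ⟨1, rfl⟩
  have hxy : x ≠ y := by
    intro h
    have := hli.injective (a₁ := 0) (a₂ := 1) (by simpa using h)
    exact absurd this (by decide)
  refine ⟨(Pi.basisFun ℂ (Fin m)).toMatrix b', e ⟨x, hx⟩, e ⟨y, hy⟩, ?_, ?_, ?_, ?_⟩
  · intro h
    have := e.injective h
    exact hxy (congrArg Subtype.val this)
  · intro h0
    have := congrArg Matrix.det ((Pi.basisFun ℂ (Fin m)).toMatrix_mul_toMatrix_flip b')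
    rw [Matrix.det_mul, h0, zero_mul, Matrix.det_one] at this
    exact zero_ne_one this
  · funext r
    simp [Matrix.col, Module.Basis.toMatrix_apply, b', b]
  · funext r
    simp [Matrix.col, Module.Basis.toMatrix_apply, b', b]

theorem cork {m : ℕ} (P N : Matrix (Fin m) (Fin m) ℂ) (c : ℂ) (hc : c ≠ 0)
    (h : ∀ τ : ℂ, (P + τ • N).det = τ * c) (x y : Fin m → ℂ) (hx : P *ᵥ x = 0)
    (hy : P *ᵥ y = 0) : ¬ LinearIndependent ℂ ![x, y] := by
  classical
  intro hli
  obtain ⟨S, i, j, hij, hS, hi, hj⟩ := cork_ext x y hli
  -- the matrix with the columns divided by τ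
  let G : ℂ → Matrix (Fin m) (Fin m) ℂ := fun τ =>
    (((P + τ • N) * S).updateCol i (N *ᵥ x)).updateCol j (N *ᵥ y)
  have hGc : Continuous fun τ => (G τ).det := by
    apply Continuous.matrix_det
    refine continuous_matrix fun a b => ?_
    by_cases hb : b = j
    · subst hb
      simp only [G, Matrix.updateCol_self]
      exact continuous_const
    · by_cases hb' : b = i
      · subst hb'
        simp only [G, Matrix.updateCol_ne hb, Matrix.updateCol_self]
        exact continuous_const
      · simp only [G, Matrix.updateCol_ne hb, Matrix.updateCol_ne hb']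
        simp only [Matrix.mul_apply, Matrix.add_apply, Matrix.smul_apply]
        fun_prop
  have hcol : ∀ τ : ℂ, (P + τ • N) * S =
      (((P + τ • N) * S).updateCol i (τ • (N *ᵥ x))).updateCol j (τ • (N *ᵥ y)) := by
    intro τ
    have key : ∀ (z : Fin m → ℂ) (k : Fin m), P *ᵥ z = 0 → S.col k = z → ∀ a,
        ((P + τ • N) * S) a k = (τ • (N *ᵥ z)) a := by
      intro z k hz hk a
      have h1 : ((P + τ • N) * S) a k = ((P + τ • N) *ᵥ z) a := by
        rw [← hk]; rfl
      rw [h1, Matrix.add_mulVec, hz, Matrix.smul_mulVec, zero_add]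
    ext a b
    by_cases hb : b = j
    · subst hb
      rw [Matrix.updateCol_self]
      exact key y b hy hj a
    · rw [Matrix.updateCol_ne hb]
      by_cases hb' : b = i
      · subst hb'
        rw [Matrix.updateCol_self]
        exact key x b hx hi a
      · rw [Matrix.updateCol_ne hb']
  have hdet : ∀ τ : ℂ, τ * c * S.det = τ * (τ * (G τ).det) := by
    intro τ
    rw [← h τ, ← Matrix.det_mul, hcol τ, Matrix.det_updateCol_smul,
      Matrix.updateCol_comm _ hij, Matrix.det_updateCol_smul, Matrix.updateCol_comm _ hij.symm]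
  have hfun : (fun τ : ℂ => τ * (G τ).det) = fun _ => c * S.det := by
    refine Continuous.ext_on (dense_compl_singleton (0 : ℂ)) (continuous_id.mul hGc)
      continuous_const ?_
    intro τ hτ
    have hτ' : τ ≠ 0 := hτ
    have := hdet τ
    rw [mul_assoc] at this
    exact (mul_left_cancel₀ hτ' this).symm
  have h0 := congrFun hfun 0
  simp only [zero_mul] at h0
  exact mul_ne_zero hc hS h0.symm

end PadDet.Eq
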