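import Pool.Agent.H.MP_d7db32_ag.Eq.Hb
import Pool.Agent.H.MP_d7db32_ag.Eq.Tri
import Pool.Agent.H.MP_d7db32_ag.Eq.Cork
import Pool.Agent.H.MP_d7db32_ag.Eq.Blk

/-!
# MP_d7db32_ag, Eq/CoreA: the constant matrix has corank one

(i) Some `z` has `card {a | t a = z} ≠ card {b | t' b = z}`: otherwise `∏ t' = ∏ t` (group the products by values,
`Finset.prod_fiberwise` or multisets), against `tt`, `t0`, `q1`. The total number is `m` on both sides; so for `α a := (t a = z)`, `β b := (t' b = z)` or for their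
negations `card β < card α`.
(ii) `P p = L + N (tri k p)` is block diagonal: `P p b a ≠ 0 → (β b ↔ α a)` (`gL`, `gA` with `tri_skew`). It is `(Pol).map (eval p)`, `Pol = L.map C + ∑ i, X i • (N (tri k (Pi.single i 1))).map C`
(`tri_lin`).
(iii) For `p ≠ 0`: `tri_adj` gives `i`; `det (P p + τ • N (single i i 1)) = c * Fv (tri k p + τ • single i i 1) = τ * (c * 2 ^ (2 k + 1) * adj)` (`Fv_add`), so `cork` gives the hypothesis `hk` of
`blk`.
(iv) `blk`: `card α = card β + 1`, the rows of the first block are independent and the second block has trivial kernel, at every `p ≠ 0`. `hb_match` for the first block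
(`J = {b // β b}`, `I = {a // α a}`) and for the transpose of the second block (`J = {a // ¬ α a}`, `I = {b // ¬ β b}`; `card = card + 1` since both sides have `m` elements).
(v) The two injections and the two missing indices `a₀`, `b₀` make a permutation `π` with `π a₀ = b₀` and `L (π a) a ≠ 0` for `a ≠ a₀` (`eval 0 Pol = L`).
-/

set_option autoImplicit false

namespace PadDet.Eq

open MvPolynomial Matrix

/-- the two matchings and the missing index make a permutation -/
private theorem CoreA_perm {m : ℕ} (L : Matrix (Fin m) (Fin m) ℂ) (α β : Fin m → Prop)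
    [DecidablePred α] [DecidablePred β]
    (h1 : Fintype.card {a // α a} = Fintype.card {b // β b} + 1)
    (φ : {b // β b} ↪ {a // α a}) (hφ : ∀ b : {b // β b}, L (b : Fin m) (φ b : Fin m) ≠ 0)
    (ψ : {a // ¬ α a} ↪ {b // ¬ β b})
    (hψ : ∀ a : {a // ¬ α a}, L (ψ a : Fin m) (a : Fin m) ≠ 0) :
    ∃ (π : Equiv.Perm (Fin m)) (a₀ : Fin m), ∀ a, a ≠ a₀ → L (π a) a ≠ 0 := by
  classical
  obtain ⟨a₀, ha₀⟩ : ∃ a₀ : {a // α a}, ∀ a, a ≠ a₀ → ∃ b, φ b = a := by
    have hc : (Finset.univ.image φ)ᶜ.card = 1 := by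
      rw [Finset.card_compl, Finset.card_image_of_injective _ φ.injective, Finset.card_univ, h1]
      omega
    obtain ⟨a₀, ha₀⟩ := Finset.card_eq_one.1 hc
    refine ⟨a₀, fun a ha => ?_⟩
    have h2 : a ∉ (Finset.univ.image φ)ᶜ := by
      rw [ha₀, Finset.mem_singleton]
      exact ha
    rw [Finset.mem_compl, not_not, Finset.mem_image] at h2
    obtain ⟨b, _, hb⟩ := h2
    exact ⟨b, hb⟩
  have hex : ∀ a : Fin m, a ≠ a₀ → ∃ b : Fin m, L b a ≠ 0 ∧
      ((∃ (hb : β b) (ha : α a), φ ⟨b, hb⟩ = ⟨a, ha⟩) ∨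
        ∃ (ha : ¬ α a) , (ψ ⟨a, ha⟩ : Fin m) = b) := by
    intro a ha
    by_cases h : α a
    · obtain ⟨b, hb⟩ := ha₀ ⟨a, h⟩ (fun h' => ha (by rw [← h']))
      refine ⟨b, ?_, Or.inl ⟨b.2, h, hb⟩⟩
      have h2 := hφ b
      rw [hb] at h2
      exact h2
    · exact ⟨ψ ⟨a, h⟩, hψ ⟨a, h⟩, Or.inr ⟨h, rfl⟩⟩
  choose! f hf1 hf2 using hex
  obtain ⟨g, hg⟩ := Finset.exists_equiv_extend_of_card_eq (α := Fin m) (β := Fin m)
    (t := Finset.univ) (by rw [Finset.card_univ]) (s := Finset.univ.erase (a₀ : Fin m)) (f := f)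
    (Finset.subset_univ _) (by
      intro a ha a' ha' he
      rw [Finset.coe_erase, Set.mem_sdiff, Set.mem_singleton_iff] at ha ha'
      rcases hf2 a ha.2 with ⟨hb, hα, h2⟩ | ⟨hα, h2⟩ <;>
        rcases hf2 a' ha'.2 with ⟨hb', hα', h3⟩ | ⟨hα', h3⟩
      · have h4 : (⟨f a, hb⟩ : {b // β b}) = ⟨f a', hb'⟩ := Subtype.ext he
        rw [h4, h3] at h2
        exact (congrArg Subtype.val h2).symm
      · exfalso
        have h4 := (ψ ⟨a', hα'⟩).2
        rw [h3, ← he] at h4
        exact h4 hb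
      · exfalso
        have h4 := (ψ ⟨a, hα⟩).2
        rw [h2, he] at h4
        exact h4 hb'
      · have h4 : ψ ⟨a, hα⟩ = ψ ⟨a', hα'⟩ := Subtype.ext (by rw [h2, h3, he])
        exact congrArg Subtype.val (ψ.injective h4))
  refine ⟨g.trans (Equiv.subtypeUnivEquiv fun x => Finset.mem_univ x), a₀, fun a ha => ?_⟩
  have h2 := hg a (Finset.mem_erase.2 ⟨ha, Finset.mem_univ a⟩)
  have h3 : (g.trans (Equiv.subtypeUnivEquiv fun x => Finset.mem_univ x)) a = f a := h2
  rw [h3]
  exact hf1 a ha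

private theorem CoreA_aux {k m : ℕ} {q c : ℂ} {L : Matrix (Fin m) (Fin m) ℂ}
    {N : Matrix (Fin (2 * k + 1)) (Fin (2 * k + 1)) ℂ →ₗ[ℂ] Matrix (Fin m) (Fin m) ℂ}
    {w w' : Fin m → Fin (2 * k + 1) → ℂ} {t t' : Fin m → ℂ}
    (G : Grd (2 * k + 1) m q c L N w w' t t') (α β : Fin m → Prop) [DecidablePred α]
    [DecidablePred β] (hab : ∀ b a, t' b = t a → (β b ↔ α a))
    (hlt : Fintype.card {b // β b} < Fintype.card {a // α a}) :
    ∃ (π : Equiv.Perm (Fin m)) (a₀ : Fin m), ∀ a, a ≠ a₀ → L (π a) a ≠ 0 := by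
  classical
  obtain ⟨P, hP⟩ : ∃ P : (Fin 3 → ℂ) → Matrix (Fin m) (Fin m) ℂ,
      P = fun p => L + N (tri k p) := ⟨_, rfl⟩
  have hPe : ∀ p, P p = L + N (tri k p) := fun p => by rw [hP]
  have hPb : ∀ p b a, P p b a ≠ 0 → (β b ↔ α a) := by
    intro p b a h
    refine hab b a ?_
    rw [hPe] at h
    by_cases h1 : L b a = 0
    · refine G.gA (tri k p) (tri_skew k p) b a fun h2 => h ?_
      rw [Matrix.add_apply, h1, h2, add_zero]
    · exact (G.gL b a h1).2
  have hPk : ∀ p : Fin 3 → ℂ, p ≠ 0 → ∀ x y : Fin m → ℂ, P p *ᵥ x = 0 → P p *ᵥ y = 0 →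
      ¬ LinearIndependent ℂ ![x, y] := by
    intro p hp x y hx hy
    obtain ⟨i, hi⟩ := tri_adj k p hp
    refine cork (P p) (N (Matrix.single i i 1)) (c * (2 ^ (2 * k + 1) * (tri k p).adjugate i i))
      (mul_ne_zero G.c0 (mul_ne_zero (pow_ne_zero _ two_ne_zero) hi)) (fun τ => ?_) x y hx hy
    have h1 : P p + τ • N (Matrix.single i i 1) = L + N (tri k p + τ • Matrix.single i i 1) := by
      rw [hPe, map_add, map_smul, add_assoc]
    rw [h1, G.det, Fv_add k _ (tri_skew k p)]
    ring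
  have hblk := fun p (hp : p ≠ 0) => blk (P p) α β (hPb p) (hPk p hp) hlt
  have hp1 : (Pi.single 0 1 : Fin 3 → ℂ) ≠ 0 := by
    intro h
    have := congrFun h 0
    rw [Pi.single_eq_same, Pi.zero_apply] at this
    exact one_ne_zero this
  have hc := (hblk _ hp1).1
  -- the polynomial matrix
  obtain ⟨Q, hQ⟩ : ∃ Q : Matrix (Fin m) (Fin m) (MvPolynomial (Fin 3) ℂ),
      Q = Matrix.of fun b a => C (L b a) + ∑ i, X i * C (N (tri k (Pi.single i 1)) b a) := ⟨_, rfl⟩
  have hQe : ∀ p b a, eval p (Q b a) = P p b a := by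
    intro p b a
    rw [hQ, hPe]
    simp only [Matrix.of_apply, map_add, map_sum, map_mul, eval_C, eval_X, Matrix.add_apply]
    congr 1
    conv_rhs => rw [tri_lin k p]
    rw [map_sum, Matrix.sum_apply]
    refine Finset.sum_congr rfl fun i _ => ?_
    rw [map_smul, Matrix.smul_apply, smul_eq_mul]
  have hQ0 : ∀ b a, eval 0 (Q b a) = L b a := by
    intro b a
    rw [hQ]
    simp
  obtain ⟨φ, hφ⟩ := hb_match hc (Q.submatrix (fun b : {b // β b} => (b : Fin m))
      (fun a : {a // α a} => (a : Fin m))) (by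
    intro p hp u hu
    refine (hblk p hp).2.1 u ?_
    rw [← hu]
    congr 1
    ext b a
    rw [Matrix.submatrix_apply, Matrix.map_apply, Matrix.submatrix_apply, hQe])
  have hc2 : Fintype.card {b // ¬ β b} = Fintype.card {a // ¬ α a} + 1 := by
    have h1 := Fintype.card_subtype_compl β
    have h2 := Fintype.card_subtype_compl α
    have h3 := Fintype.card_subtype_le β
    have h4 := Fintype.card_subtype_le α
    rw [Fintype.card_fin] at h1 h2 h3 h4
    omega
  obtain ⟨ψ, hψ⟩ := hb_match hc2 ((Q.submatrix (fun b : {b // ¬ β b} => (b : Fin m))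
      (fun a : {a // ¬ α a} => (a : Fin m)))ᵀ) (by
    intro p hp u hu
    refine (hblk p hp).2.2 u ?_
    rw [← hu, ← Matrix.vecMul_transpose]
    congr 1
    ext a b
    rw [Matrix.transpose_apply, Matrix.submatrix_apply, Matrix.map_apply, Matrix.transpose_apply,
      Matrix.submatrix_apply, hQe])
  refine CoreA_perm L α β hc φ (fun b => ?_) ψ (fun a => ?_)
  · have h := hφ b
    rwa [Matrix.submatrix_apply, hQ0] at h
  · have h := hψ a
    rwa [Matrix.transpose_apply, Matrix.submatrix_apply, hQ0] at h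

theorem coreA {k m : ℕ} {q c : ℂ} {L : Matrix (Fin m) (Fin m) ℂ}
    {N : Matrix (Fin (2 * k + 1)) (Fin (2 * k + 1)) ℂ →ₗ[ℂ] Matrix (Fin m) (Fin m) ℂ}
    {w w' : Fin m → Fin (2 * k + 1) → ℂ} {t t' : Fin m → ℂ}
    (G : Grd (2 * k + 1) m q c L N w w' t t') :
    ∃ (π : Equiv.Perm (Fin m)) (a₀ : Fin m), ∀ a, a ≠ a₀ → L (π a) a ≠ 0 := by
  classical
  obtain ⟨z, hz⟩ : ∃ z : ℂ, Fintype.card {b // t' b = z} ≠ Fintype.card {a // t a = z} := by
    by_contra hcon
    push Not at hcon
    have h1 : (Finset.univ : Finset (Fin m)).val.map t' = (Finset.univ : Finset (Fin m)).val.map t := by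
      ext z
      have e : ∀ s : Fin m → ℂ, Multiset.count z ((Finset.univ : Finset (Fin m)).val.map s) =
          Fintype.card {a // s a = z} := by
        intro s
        rw [Multiset.count_map, Fintype.card_subtype]
        change (Finset.univ.filter fun a => z = s a).card = _
        congr 1
        ext a
        simp only [Finset.mem_filter, Finset.mem_univ, true_and]
        exact eq_comm
      rw [e, e, hcon z]
    have h2 : ∏ b, t' b = ∏ a, t a := by
      change ((Finset.univ : Finset (Fin m)).val.map t').prod = _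
      rw [h1]
      rfl
    have h3 : ∏ a, t a ≠ 0 := Finset.prod_ne_zero_iff.2 fun a _ => G.t0 a
    have h4 := G.tt
    rw [h2] at h4
    refine G.q1 (mul_right_cancel₀ h3 ?_)
    rw [one_mul]
    exact h4.symm
  rcases lt_or_gt_of_ne hz with h | h
  · exact CoreA_aux G (fun a => t a = z) (fun b => t' b = z) (fun b a hb => by rw [hb]) h
  · refine CoreA_aux G (fun a => ¬ t a = z) (fun b => ¬ t' b = z) (fun b a hb => by rw [hb]) ?_
    have h1 := Fintype.card_subtype_compl (fun b => t' b = z)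
    have h2 := Fintype.card_subtype_compl (fun a => t a = z)
    have h3 := Fintype.card_subtype_le (fun b => t' b = z)
    have h4 := Fintype.card_subtype_le (fun a => t a = z)
    rw [Fintype.card_fin] at h1 h2 h3 h4
    omega

end PadDet.Eq
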