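import Mathlib

/-!
# MP_d7db32_ag, Eq/Orb: weights with a small orbit have a majority value

`fac_le`: for a finite family of numbers `f i ≤ M` with sum `q M + r`, `r < M`: `∏ (f i)! ≤ M! ^ q * r!`. Induction on the finite set: adding a
number `a ≤ M` to the remainder `r`: if `r + a < M` then `r! * a! ≤ (r + a)!`; if `r + a ≥ M` then `r! * a! ≤ M! * (r + a - M)!`
(`a! / (a - (M - r))! ≤ M! / r!`: `Nat.descFactorial` of `M - r` factors is monotone).

`orb`: the functions `χ a ∘ σ`, `σ` a permutation, all occur among the `χ a'` (`hst` with `σ⁻¹`), so `m` is at least the number of these functions; this number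
times `∏ z, (fiber of z)!` is `(2 k + 1)!` (`DomMulAct.stabilizer_card` and orbit-stabilizer, or count `σ ↦ χ a ∘ σ` fiberwise: every fiber of this map
is a coset of the stabilizer). The sum of the fibers is `2 k + 1 = 1 * (k + 1) + k`: `∏ ≤ (k + 1)! * k!`, so `m ≥ (2 k + 1)! / ((k + 1)! k!)`.
-/

set_option autoImplicit false

namespace PadDet.Eq

open scoped Nat

private theorem Orb_add_fac (b u v : ℕ) : (b + u)! * (b + v)! ≤ (b + u + v)! * b ! := by
  induction u with
  | zero => simp [Nat.mul_comm]
  | succ u ih =>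
    have h1 : (b + (u + 1))! = (b + u + 1) * (b + u)! := by
      rw [← Nat.add_assoc, Nat.factorial_succ]
    have h2 : (b + (u + 1) + v)! = (b + u + v + 1) * (b + u + v)! := by
      rw [show b + (u + 1) + v = (b + u + v) + 1 by ring, Nat.factorial_succ]
    rw [h1, h2, Nat.mul_assoc, Nat.mul_assoc]
    exact Nat.mul_le_mul (by omega) ih

private theorem Orb_step (M a r : ℕ) (ha : a ≤ M) (hr : r < M) :
    a ! * r ! ≤ M ! ^ ((r + a) / M) * ((r + a) % M)! := by
  rcases Nat.lt_or_ge (r + a) M with h | h
  · rw [Nat.div_eq_of_lt h, Nat.mod_eq_of_lt h]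
    simp only [pow_zero, one_mul]
    rw [Nat.mul_comm]
    exact Nat.le_of_dvd (Nat.factorial_pos _) (Nat.factorial_mul_factorial_dvd_factorial_add r a)
  · have hM : 0 < M := by omega
    have h1 : (r + a) / M = 1 := by
      rw [Nat.div_eq_iff hM]
      constructor <;> omega
    have h2 : (r + a) % M = r + a - M := by
      rw [Nat.mod_eq_sub_mod h, Nat.mod_eq_of_lt (by omega)]
    rw [h1, h2, pow_one]
    have := Orb_add_fac (r + a - M) (M - r) (M - a)
    rw [show r + a - M + (M - r) = a by omega, show r + a - M + (M - a) = r by omega,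
      show a + (M - a) = M by omega] at this
    exact this

theorem fac_le {ι : Type} (s : Finset ι) (f : ι → ℕ) (M : ℕ) (hM : 0 < M)
    (hf : ∀ i ∈ s, f i ≤ M) :
    ∏ i ∈ s, (f i)! ≤ M ! ^ ((∑ i ∈ s, f i) / M) * ((∑ i ∈ s, f i) % M)! := by
  classical
  induction s using Finset.induction_on with
  | empty => simp
  | insert i s hi ih =>
    have ih' := ih (fun j hj => hf j (Finset.mem_insert_of_mem hj))
    rw [Finset.prod_insert hi, Finset.sum_insert hi]
    set S := ∑ j ∈ s, f j with hS
    have hfi := hf i (Finset.mem_insert_self i s)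
    have h1 := Orb_step M (f i) (S % M) hfi (Nat.mod_lt _ hM)
    have hdiv : (f i + S) / M = S / M + (S % M + f i) / M := by
      conv_lhs => rw [show f i + S = (S % M + f i) + M * (S / M) by
        have := Nat.div_add_mod S M; omega]
      rw [Nat.add_mul_div_left _ _ hM, Nat.add_comm]
    have hmod : (f i + S) % M = (S % M + f i) % M := by
      conv_lhs => rw [show f i + S = (S % M + f i) + M * (S / M) by
        have := Nat.div_add_mod S M; omega]
      rw [Nat.add_mul_mod_self_left]
    rw [hdiv, hmod, pow_add]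
    calc (f i)! * ∏ j ∈ s, (f j)! ≤ (f i)! * (M ! ^ (S / M) * (S % M)!) :=
          Nat.mul_le_mul_left _ ih'
      _ = M ! ^ (S / M) * ((f i)! * (S % M)!) := by ring
      _ ≤ M ! ^ (S / M) * (M ! ^ ((S % M + f i) / M) * ((S % M + f i) % M)!) :=
          Nat.mul_le_mul_left _ h1
      _ = _ := by ring

private theorem Orb_gen {k m n : ℕ} (hn : n = 2 * k + 1) (χ : Fin m → Fin n → ℂ)
    (hst : ∀ (σ : Equiv.Perm (Fin n)) a, ∃ a', ∀ i, χ a' (σ i) = χ a i) (a : Fin m)
    (ha : ∀ z : ℂ, (Finset.univ.filter fun i => χ a i = z).card ≤ k + 1) :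
    n.choose k ≤ m := by
  classical
  obtain ⟨f, hf⟩ : ∃ f : Fin n → ℂ, f = χ a := ⟨_, rfl⟩
  rw [← hf] at ha
  -- the set of functions `f ∘ σ`
  set R : Finset (Fin n → ℂ) :=
    Finset.univ.image (fun σ : Equiv.Perm (Fin n) => f ∘ σ) with hR
  have hRm : R.card ≤ m := by
    have hsub : R ⊆ Finset.univ.image χ := by
      intro y hy
      rw [hR, Finset.mem_image] at hy
      obtain ⟨σ, -, rfl⟩ := hy
      obtain ⟨a', ha'⟩ := hst σ⁻¹ a
      rw [Finset.mem_image]
      refine ⟨a', Finset.mem_univ _, ?_⟩
      funext i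
      have := ha' (σ i)
      simpa [hf] using this
    calc R.card ≤ (Finset.univ.image χ).card := Finset.card_le_card hsub
      _ ≤ (Finset.univ : Finset (Fin m)).card := Finset.card_image_le
      _ = m := by simp
  -- stabilizer
  have hstab : Fintype.card {g : Equiv.Perm (Fin n) // f ∘ g = f} =
      ∏ z ∈ Finset.univ.image f, (Fintype.card {i // f i = z})! :=
    DomMulAct.stabilizer_card' f
  have hfib : ∀ y ∈ R, (Finset.univ.filter fun σ : Equiv.Perm (Fin n) => f ∘ σ = y).card =
      Fintype.card {g : Equiv.Perm (Fin n) // f ∘ g = f} := by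
    intro y hy
    rw [hR, Finset.mem_image] at hy
    obtain ⟨σ₀, -, rfl⟩ := hy
    rw [Fintype.card_subtype]
    refine Finset.card_bij (fun σ _ => σ * σ₀⁻¹) ?_ ?_ ?_
    · intro σ hσ
      simp only [Finset.mem_filter, Finset.mem_univ, true_and] at hσ ⊢
      funext i
      have := congrFun hσ (σ₀⁻¹ i)
      simpa using this
    · intro σ _ τ _ h
      exact mul_right_cancel h
    · intro g hg
      simp only [Finset.mem_filter, Finset.mem_univ, true_and] at hg
      refine ⟨g * σ₀, ?_, by simp⟩
      simp only [Finset.mem_filter, Finset.mem_univ, true_and]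
      funext i
      have := congrFun hg (σ₀ i)
      simpa using this
  have hcard : n ! = R.card * ∏ z ∈ Finset.univ.image f, (Fintype.card {i // f i = z})! := by
    have h1 : (Finset.univ : Finset (Equiv.Perm (Fin n))).card =
        ∑ y ∈ R, (Finset.univ.filter fun σ : Equiv.Perm (Fin n) => f ∘ σ = y).card :=
      Finset.card_eq_sum_card_fiberwise (fun σ _ => by
        simp only [hR, Finset.coe_image, Finset.coe_univ, Set.image_univ, Set.mem_range]
        exact ⟨σ, rfl⟩)
    rw [Finset.sum_congr rfl hfib, Finset.sum_const, smul_eq_mul, hstab, Finset.card_univ,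
      Fintype.card_perm, Fintype.card_fin] at h1
    exact h1
  have hsum : ∑ z ∈ Finset.univ.image f, Fintype.card {i // f i = z} = n := by
    have h1 : (Finset.univ : Finset (Fin n)).card =
        ∑ z ∈ Finset.univ.image f, (Finset.univ.filter fun i => f i = z).card :=
      Finset.card_eq_sum_card_fiberwise (fun i _ => by
        simp only [Finset.coe_image, Finset.coe_univ, Set.image_univ, Set.mem_range]
        exact ⟨i, rfl⟩)
    rw [Finset.card_univ, Fintype.card_fin] at h1
    exact (Finset.sum_congr rfl fun z _ => Fintype.card_subtype _).trans h1.symm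
  have hle : ∏ z ∈ Finset.univ.image f, (Fintype.card {i // f i = z})! ≤ (k + 1)! * k ! := by
    have h1 := fac_le (Finset.univ.image f) (fun z => Fintype.card {i // f i = z}) (k + 1)
      (Nat.succ_pos k) (fun z _ => by
        rw [Fintype.card_subtype]; exact ha z)
    rw [hsum] at h1
    have h2 : n / (k + 1) = 1 := by
      rw [Nat.div_eq_iff (Nat.succ_pos k)]
      constructor <;> omega
    have h3 : n % (k + 1) = k := by
      rw [Nat.mod_eq_sub_mod (by omega), Nat.mod_eq_of_lt (by omega)]
      omega
    rw [h2, h3, pow_one] at h1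
    exact h1
  have hch : n.choose k * k ! * (k + 1)! = n ! := by
    have := Nat.choose_mul_factorial_mul_factorial (n := n) (k := k) (by omega)
    rwa [show n - k = k + 1 by omega] at this
  have hpos : 0 < (k + 1)! * k ! := Nat.mul_pos (Nat.factorial_pos _) (Nat.factorial_pos _)
  refine Nat.le_of_mul_le_mul_right ?_ hpos
  calc n.choose k * ((k + 1)! * k !) = n ! := by rw [← hch]; ring
    _ = R.card * ∏ z ∈ Finset.univ.image f, (Fintype.card {i // f i = z})! := hcard
    _ ≤ m * ((k + 1)! * k !) := Nat.mul_le_mul hRm hle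

theorem orb {k m : ℕ} (χ : Fin m → Fin (2 * k + 1) → ℂ)
    (hst : ∀ (σ : Equiv.Perm (Fin (2 * k + 1))) a, ∃ a', ∀ i, χ a' (σ i) = χ a i) (a : Fin m)
    (ha : ∀ z : ℂ, (Finset.univ.filter fun i => χ a i = z).card ≤ k + 1) :
    (2 * k + 1).choose k ≤ m :=
  Orb_gen rfl χ hst a (fun z => by convert ha z)

end PadDet.Eq
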