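import Pool.Agent.H.MP_d7db32_ag.Eq.Def
import Pool.Agent.H.MP_d7db32_ag.Eq.Orb

/-!
# MP_d7db32_ag, Eq/CoreB: the contradiction of weights

Suppose `m < C(2k+1, k)`. (1) `L (π a) a ≠ 0` gives `w' (π a) = w a` for `a ≠ a₀` (`gL`); with `tw` and `w0`: `w' (π a₀) l = q ^ 2 * w a₀ l` for all `l`.
(2) `orb` (with `st`, `st'`): every `w a` and every `w' b` takes some value at least `k + 2` times, its majority value `μ a`, `μ' b` (unique since
`2 (k + 2) > 2 k + 1`).
(3) If `(L + N X) b a ≠ 0` then `μ' b = μ a`: `L b a ≠ 0` or `N (single i j 1) b a ≠ 0` for some `i, j` (`X` is the sum of its entries times `single i j 1`), so by `gL`, `gE`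
`w' b` and `w a` agree off `{i, j}`; the two majority sets have at least `2 (k + 2) - (2 k + 1) = 3` common elements, one of them is not in `{i, j}`.
(4) `det (L + N X) ≠ 0` for some `X` (`det`, `hne`): a permutation `π₂` with `(L + N X) (π₂ a) a ≠ 0` for all `a`, so `μ' (π₂ a) = μ a`: every value is taken equally often by `μ` and `μ'`.
(5) `μ' (π a) = μ a` for `a ≠ a₀`; by counting `μ' (π a₀) = μ a₀`. So `w' (π a₀)` and `w a₀` have a common majority value, they agree at some `l`: `q ^ 2 = 1`, with `q ^ 3 = 1`: `q = 1`.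
-/

set_option autoImplicit false

namespace PadDet.Eq

open Matrix

/-- Two sets with at least `k + 2` elements in `Fin (2 k + 1)` meet in at least three elements. -/
private theorem CoreB_three {k : ℕ} (S S' : Finset (Fin (2 * k + 1))) (h : k + 2 ≤ S.card)
    (h' : k + 2 ≤ S'.card) : 3 ≤ (S ∩ S').card := by
  have h1 := Finset.card_union_add_card_inter S S'
  have h2 : (S ∪ S').card ≤ 2 * k + 1 := by
    simpa using Finset.card_le_univ (S ∪ S')
  omega

/-- A common element off two given points. -/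
private theorem CoreB_off {k : ℕ} (S S' : Finset (Fin (2 * k + 1))) (h : k + 2 ≤ S.card)
    (h' : k + 2 ≤ S'.card) (i j : Fin (2 * k + 1)) : ∃ l ∈ S, l ∈ S' ∧ l ≠ i ∧ l ≠ j := by
  have h1 : 0 < ((S ∩ S') \ {i, j}).card := by
    have h2 := Finset.le_card_sdiff {i, j} (S ∩ S')
    have h3 : ({i, j} : Finset (Fin (2 * k + 1))).card ≤ 2 := Finset.card_le_two
    have h4 := CoreB_three S S' h h'
    omega
  obtain ⟨l, hl⟩ := Finset.card_pos.1 h1
  rw [Finset.mem_sdiff, Finset.mem_inter, Finset.mem_insert, Finset.mem_singleton] at hl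
  push Not at hl
  exact ⟨l, hl.1.1, hl.1.2, hl.2.1, hl.2.2⟩

theorem coreB {k m : ℕ} {q c : ℂ} {L : Matrix (Fin m) (Fin m) ℂ}
    {N : Matrix (Fin (2 * k + 1)) (Fin (2 * k + 1)) ℂ →ₗ[ℂ] Matrix (Fin m) (Fin m) ℂ}
    {w w' : Fin m → Fin (2 * k + 1) → ℂ} {t t' : Fin m → ℂ}
    (G : Grd (2 * k + 1) m q c L N w w' t t')
    (hne : ∃ X : Matrix (Fin (2 * k + 1)) (Fin (2 * k + 1)) ℂ, Fv X ≠ 0)
    (π : Equiv.Perm (Fin m)) (a₀ : Fin m) (hπ : ∀ a, a ≠ a₀ → L (π a) a ≠ 0) :
    (2 * k + 1).choose k ≤ m := by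
  by_contra hlt
  have hmaj : ∀ a, ∃ z : ℂ, k + 2 ≤ (Finset.univ.filter fun i => w a i = z).card := by
    intro a
    by_contra hc
    push Not at hc
    exact hlt (orb w G.st a fun z => by have := hc z; omega)
  have hmaj' : ∀ b, ∃ z : ℂ, k + 2 ≤ (Finset.univ.filter fun i => w' b i = z).card := by
    intro b
    by_contra hc
    push Not at hc
    exact hlt (orb w' G.st' b fun z => by have := hc z; omega)
  choose μ hμ using hmaj
  choose μ' hμ' using hmaj'
  -- related rows and columns have the same majority value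
  have key : ∀ (X : Matrix (Fin (2 * k + 1)) (Fin (2 * k + 1)) ℂ) b a, (L + N X) b a ≠ 0 →
      μ' b = μ a := by
    intro X b a h
    by_cases hL : L b a = 0
    · have h1 : N X b a ≠ 0 := by
        rw [Matrix.add_apply, hL, zero_add] at h
        exact h
      have h2 : ∃ i j, N (Matrix.single i j 1) b a ≠ 0 := by
        by_contra hc
        push Not at hc
        apply h1
        have h3 : X = ∑ i, ∑ j, X i j • Matrix.single i j (1 : ℂ) := by
          conv_lhs => rw [Matrix.matrix_eq_sum_single X]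
          refine Finset.sum_congr rfl fun i _ => Finset.sum_congr rfl fun j _ => ?_
          rw [Matrix.smul_single, smul_eq_mul, mul_one]
        rw [h3, map_sum, Matrix.sum_apply]
        refine Finset.sum_eq_zero fun i _ => ?_
        rw [map_sum, Matrix.sum_apply]
        refine Finset.sum_eq_zero fun j _ => ?_
        rw [map_smul, Matrix.smul_apply, hc i j, smul_zero]
      obtain ⟨i, j, h4⟩ := h2
      obtain ⟨l, hl1, hl2, hl3, hl4⟩ := CoreB_off _ _ (hμ a) (hμ' b) i j
      rw [Finset.mem_filter] at hl1 hl2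
      have h5 := G.gE b a i j h4 l
      rw [if_neg (Ne.symm hl3), if_neg (Ne.symm hl4), one_mul, one_mul] at h5
      rw [← hl1.2, ← hl2.2, h5]
    · obtain ⟨h1, -⟩ := G.gL b a hL
      obtain ⟨l, hl1, hl2, -, -⟩ := CoreB_off _ _ (hμ a) (hμ' b) 0 0
      rw [Finset.mem_filter] at hl1 hl2
      rw [← hl1.2, ← hl2.2, h1]
  -- the sums of the majority values
  obtain ⟨X, hX⟩ := hne
  have hdet : (L + N X).det ≠ 0 := by
    rw [G.det X]
    exact mul_ne_zero G.c0 hX
  rw [Matrix.det_apply] at hdet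
  obtain ⟨π₂, -, hπ₂⟩ := Finset.exists_ne_zero_of_sum_ne_zero hdet
  have h2 : ∀ a, (L + N X) (π₂ a) a ≠ 0 := by
    intro a h
    apply hπ₂
    have h' : ∏ i, (L + N X) (π₂ i) i = 0 :=
      Finset.prod_eq_zero (f := fun i => (L + N X) (π₂ i) i) (Finset.mem_univ a) h
    rw [h', smul_zero]
  have h3 : ∑ a, μ' (π a) = ∑ a, μ a := by
    rw [Equiv.sum_comp π μ', ← Equiv.sum_comp π₂ μ']
    exact Finset.sum_congr rfl fun a _ => key X _ _ (h2 a)
  have h4 : ∀ a, a ≠ a₀ → μ' (π a) = μ a := by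
    intro a ha
    refine key 0 _ _ ?_
    rw [map_zero, add_zero]
    exact hπ a ha
  have h5 : μ' (π a₀) = μ a₀ := by
    rw [← Finset.add_sum_erase _ _ (Finset.mem_univ a₀),
      ← Finset.add_sum_erase _ (fun a => μ a) (Finset.mem_univ a₀)] at h3
    have h6 : ∑ a ∈ Finset.univ.erase a₀, μ' (π a) = ∑ a ∈ Finset.univ.erase a₀, μ a :=
      Finset.sum_congr rfl fun a ha => h4 a (Finset.ne_of_mem_erase ha)
    rw [h6] at h3
    exact add_right_cancel h3
  -- the weights at the exceptional place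
  have h6 : ∀ l, w' (π a₀) l = q ^ 2 * w a₀ l := by
    intro l
    have h7 := G.tw l
    rw [← Equiv.prod_comp π (fun b => w' b l),
      ← Finset.mul_prod_erase _ _ (Finset.mem_univ a₀),
      ← Finset.mul_prod_erase _ (fun a => w a l) (Finset.mem_univ a₀)] at h7
    have h8 : ∏ a ∈ Finset.univ.erase a₀, w' (π a) l = ∏ a ∈ Finset.univ.erase a₀, w a l :=
      Finset.prod_congr rfl fun a ha => by
        rw [(G.gL _ _ (hπ a (Finset.ne_of_mem_erase ha))).1]
    rw [h8, ← mul_assoc] at h7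
    refine mul_right_cancel₀ ?_ h7
    exact Finset.prod_ne_zero_iff.2 fun a _ => G.w0 a l
  obtain ⟨l, hl1, hl2, -, -⟩ := CoreB_off _ _ (hμ a₀) (hμ' (π a₀)) 0 0
  rw [Finset.mem_filter] at hl1 hl2
  have h7 := h6 l
  rw [hl2.2, h5, ← hl1.2] at h7
  have h8 : q ^ 2 = 1 := by
    refine mul_right_cancel₀ (G.w0 a₀ l) ?_
    rw [one_mul, ← h7]
  refine G.q1 ?_
  have h9 : q = q ^ 3 := by rw [pow_succ, h8, one_mul]
  rw [h9, G.q3]

end PadDet.Eq
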