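import Pool.Agent.H.MP_d7db32_ag.Eq.Mtc
import Pool.Agent.H.MP_d7db32_ag.Eq.ChnA
import Pool.Agent.H.MP_d7db32_ag.Eq.ChnB
import Pool.Agent.H.MP_d7db32_ag.Eq.Comb

/-!
# MP_d7db32_ag, Eq/CstZ: the bound in the constant case
-/

set_option autoImplicit false

namespace PadDet.Eq

open Matrix

theorem cstZ {k m : ℕ} {c : ℂ} {L : Matrix (Fin m) (Fin m) ℂ}
    {N : Matrix (Fin (2 * k + 1)) (Fin (2 * k + 1)) ℂ →ₗ[ℂ] Matrix (Fin m) (Fin m) ℂ}
    {w w' : Fin m → Fin (2 * k + 1) → ZMod 3} (G : Gz (2 * k + 1) m c L N w w')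
    {X : Matrix (Fin (2 * k + 1)) (Fin (2 * k + 1)) ℂ} (hX : Fv X ≠ 0) :
    2 ^ (2 * k + 1) - 1 ≤ m := by
  classical
  obtain ⟨π, hπ, hπ'⟩ := mtc w w' G.cd
  obtain ⟨π₂, v, hv, hπ₂, hs⟩ := chnA G hX
  obtain ⟨a₁, p, ha₁, hp, hw⟩ := chnB w (fun a => w' (π a)) hπ hπ' (π₂.trans π.symm) v hv
    (fun a i => by
      rw [Equiv.trans_apply, Equiv.apply_symm_apply]
      exact hπ₂ a i) hs
  obtain ⟨θ, hθ⟩ : ∃ θ : Equiv.Perm (Fin m), θ = π₂.trans π.symm := ⟨_, rfl⟩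
  rw [← hθ] at hp hw
  obtain ⟨α, hα⟩ : ∃ α : ℕ → Fin (2 * k + 1) → ℕ,
      α = fun s i => ∑ r ∈ Finset.range s, v ((θ ^ r) a₁) i := ⟨_, rfl⟩
  have hαe : ∀ s i, α s i = ∑ r ∈ Finset.range s, v ((θ ^ r) a₁) i := fun s i => by rw [hα]
  have hα1 : ∀ s, α (s + 1) = α s + v ((θ ^ s) a₁) := by
    intro s
    funext i
    rw [hαe, Finset.sum_range_succ, Pi.add_apply, hαe]
  obtain ⟨A, hA⟩ : ∃ A : Finset (Fin (2 * k + 1) → ℕ),
      A = (Finset.univ : Finset (Fin m)).image (fun a i => (w a i - w a₁ 0).val) := ⟨_, rfl⟩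
  have hcard : A.card ≤ m := by
    rw [hA]
    refine le_trans Finset.card_image_le ?_
    simp
  refine le_trans (comb A ?_ α p ?_ ?_ ?_ ?_) hcard
  · intro σ β hβ
    rw [hA, Finset.mem_image] at hβ ⊢
    obtain ⟨a, -, rfl⟩ := hβ
    obtain ⟨a', ha'⟩ := G.st σ⁻¹ a
    refine ⟨a', Finset.mem_univ _, ?_⟩
    funext i
    have h1 := ha' (σ i)
    rw [Equiv.Perm.inv_def, Equiv.symm_apply_apply] at h1
    rw [Function.comp_apply, h1]
  · funext i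
    rw [hαe, Finset.range_zero, Finset.sum_empty, Pi.zero_apply]
  · intro i
    rw [hαe]
    exact hp i
  · intro s _
    rw [hα1]
    rcases hv ((θ ^ s) a₁) with h | ⟨i, j, h⟩
    · left
      rw [h, add_zero]
    · right
      exact ⟨i, j, by rw [h]⟩
  · intro s hs'
    rw [hA, Finset.mem_image]
    refine ⟨(θ ^ s) a₁, Finset.mem_univ _, ?_⟩
    funext i
    have hle : α s i ≤ 2 := by
      rw [← hp i, hαe]
      exact Finset.sum_le_sum_of_subset (Finset.range_subset_range.2 hs'.le)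
    show (w ((θ ^ s) a₁) i - w a₁ 0).val = α s i
    rw [hw s hs' i, ha₁ i 0, add_sub_cancel_left, ← hαe, ZMod.val_natCast,
      Nat.mod_eq_of_lt (by omega)]

end PadDet.Eq
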