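import Pool.Agent.H.MP_d7db32_ag.G

/-!
# MP_d7db32_ag, equivariant determinant expressions: definitions
-/

set_option autoImplicit false

namespace PadDet.Eq

open MvPolynomial Matrix

/-- The form `tr (adj (X - Xᵀ) (X + Xᵀ))` in the entries of an `n × n` matrix `X`. -/
noncomputable def skewForm (n : ℕ) : MvPolynomial (Fin n × Fin n) ℂ :=
  ((mvPolynomialX (Fin n) (Fin n) ℂ - (mvPolynomialX (Fin n) (Fin n) ℂ)ᵀ).adjugate *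
    (mvPolynomialX (Fin n) (Fin n) ℂ + (mvPolynomialX (Fin n) (Fin n) ℂ)ᵀ)).trace

/-- `(g, s)` acts on matrices: `A ↦ g A gᵀ` for skew `A`, `Y ↦ s g Y gᵀ` for symmetric `Y`. -/
noncomputable def act {n : ℕ} (h : GL (Fin n) ℂ × ℂˣ) (X : Matrix (Fin n) (Fin n) ℂ) :
    Matrix (Fin n) (Fin n) ℂ :=
  (h.1 : Matrix (Fin n) (Fin n) ℂ) *
    ((1 / 2 : ℂ) • (X - Xᵀ) + ((h.2 : ℂ) / 2) • (X + Xᵀ)) * (h.1 : Matrix (Fin n) (Fin n) ℂ)ᵀ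

/-- `H` contains the permutation matrices, the diagonal matrices with entries cube roots of unity,
and the pairs `(1, s)` with `s ^ 3 = 1`. -/
structure Rich (n : ℕ) (H : Subgroup (GL (Fin n) ℂ × ℂˣ)) : Prop where
  perm : ∀ (σ : Equiv.Perm (Fin n)) (g : GL (Fin n) ℂ),
    (g : Matrix (Fin n) (Fin n) ℂ) = σ.permMatrix ℂ → (g, 1) ∈ H
  diag : ∀ (d : Fin n → ℂ) (g : GL (Fin n) ℂ), (∀ i, d i ^ 3 = 1) →
    (g : Matrix (Fin n) (Fin n) ℂ) = Matrix.diagonal d → (g, 1) ∈ H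
  scal : ∀ s : ℂˣ, s ^ 3 = 1 → (1, s) ∈ H

/-- `f X = det (L + M X)` is a determinant expression of size `m`, equivariant under `H` by means of
the representations `ρ`, `ρ'` of `H`. -/
structure Expr {n : ℕ} (m : ℕ) (f : MvPolynomial (Fin n × Fin n) ℂ)
    (H : Subgroup (GL (Fin n) ℂ × ℂˣ)) (L : Matrix (Fin m) (Fin m) ℂ)
    (M : Matrix (Fin n) (Fin n) ℂ →ₗ[ℂ] Matrix (Fin m) (Fin m) ℂ)
    (ρ ρ' : H →* GL (Fin m) ℂ) : Prop where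
  det : ∀ X : Matrix (Fin n) (Fin n) ℂ, (L + M X).det = eval (fun p => X p.1 p.2) f
  eqv : ∀ (h : H) (X : Matrix (Fin n) (Fin n) ℂ),
    L + M (act (h : GL (Fin n) ℂ × ℂˣ) X) = (ρ' h : Matrix (Fin m) (Fin m) ℂ) * (L + M X) *
      ((ρ h)⁻¹ : GL (Fin m) ℂ)

/-- The values of the form. -/
noncomputable def Fv {n : ℕ} (X : Matrix (Fin n) (Fin n) ℂ) : ℂ :=
  ((X - Xᵀ).adjugate * (X + Xᵀ)).trace

/-- Determinant expression with weights: `w`, `t` for the columns, `w'`, `t'` for the rows; `q` is a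
primitive cube root of unity. -/
structure Grd (n m : ℕ) (q c : ℂ) (L : Matrix (Fin m) (Fin m) ℂ)
    (N : Matrix (Fin n) (Fin n) ℂ →ₗ[ℂ] Matrix (Fin m) (Fin m) ℂ)
    (w w' : Fin m → Fin n → ℂ) (t t' : Fin m → ℂ) : Prop where
  q3 : q ^ 3 = 1
  q1 : q ≠ 1
  c0 : c ≠ 0
  det : ∀ X, (L + N X).det = c * Fv X
  w0 : ∀ a i, w a i ≠ 0
  w0' : ∀ b i, w' b i ≠ 0
  t0 : ∀ a, t a ≠ 0
  t0' : ∀ b, t' b ≠ 0
  gL : ∀ b a, L b a ≠ 0 → w' b = w a ∧ t' b = t a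
  gE : ∀ b a i j, N (Matrix.single i j 1) b a ≠ 0 → ∀ l,
    w' b l = (if i = l then q else 1) * (if j = l then q else 1) * w a l
  gA : ∀ A : Matrix (Fin n) (Fin n) ℂ, Aᵀ = -A → ∀ b a, N A b a ≠ 0 → t' b = t a
  gY : ∀ Y : Matrix (Fin n) (Fin n) ℂ, Yᵀ = Y → ∀ b a, N Y b a ≠ 0 → t' b = q * t a
  st : ∀ (σ : Equiv.Perm (Fin n)) a, ∃ a', ∀ i, w a' (σ i) = w a i
  st' : ∀ (σ : Equiv.Perm (Fin n)) b, ∃ b', ∀ i, w' b' (σ i) = w' b i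
  tw : ∀ l, ∏ b, w' b l = q ^ 2 * ∏ a, w a l
  tt : ∏ b, t' b = q * ∏ a, t a

end PadDet.Eq
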