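import Pool.Agent.H.MP_d7db32_ag.Eq.Def

/-!
# MP_d7db32_ag, Eq/Def2: groups without the scaling condition; weights with values in `ZMod 3`
-/

set_option autoImplicit false

namespace PadDet.Eq

open MvPolynomial Matrix

/-- `H` contains the permutation matrices and the diagonal matrices with entries cube roots of
unity. -/
structure Rich2 (n : ℕ) (H : Subgroup (GL (Fin n) ℂ × ℂˣ)) : Prop where
  perm : ∀ (σ : Equiv.Perm (Fin n)) (g : GL (Fin n) ℂ),
    (g : Matrix (Fin n) (Fin n) ℂ) = σ.permMatrix ℂ → (g, 1) ∈ H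
  diag : ∀ (d : Fin n → ℂ) (g : GL (Fin n) ℂ), (∀ i, d i ^ 3 = 1) →
    (g : Matrix (Fin n) (Fin n) ℂ) = Matrix.diagonal d → (g, 1) ∈ H

/-- Determinant expression with weights in `ZMod 3`: `w` for the columns, `w'` for the rows; every
weight which is not constant occurs equally often in `w` and `w'`. -/
structure Gz (n m : ℕ) (c : ℂ) (L : Matrix (Fin m) (Fin m) ℂ)
    (N : Matrix (Fin n) (Fin n) ℂ →ₗ[ℂ] Matrix (Fin m) (Fin m) ℂ)
    (w w' : Fin m → Fin n → ZMod 3) : Prop where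
  c0 : c ≠ 0
  det : ∀ X, (L + N X).det = c * Fv X
  gL : ∀ b a, L b a ≠ 0 → w' b = w a
  gE : ∀ b a i j, N (Matrix.single i j 1) b a ≠ 0 → w' b = w a + Pi.single i 1 + Pi.single j 1
  st : ∀ (σ : Equiv.Perm (Fin n)) a, ∃ a', ∀ i, w a' (σ i) = w a i
  tw : ∀ i, ∑ b, w' b i = ∑ a, w a i + 2
  cd : ∀ ω : Fin n → ZMod 3, (∃ i j, ω i ≠ ω j) →
    Nat.card {a // w a = ω} = Nat.card {b // w' b = ω}

end PadDet.Eq
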