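import Mathlib

/-!
# MP_d7db32_ag, Eq/Ext: the exterior algebra of `ℂ ^ n`, its top coefficient, the action of matrices

`vs` is the coefficient of `e_0 e_1 ... e_(n-1)`: on a product of `n` vectors it is their determinant (`ExteriorAlgebra.liftAlternating_apply_ιMulti`), on products of other length `0`.
`vs_gm`: on products of vectors (`ExteriorAlgebra.ιMulti_span`, or `liftAlternating` / `hom_ext` arguments: `ExteriorAlgebra.lhom_ext`): the determinant of `g v_0, ..., g v_(n-1)`.
`gm_om`: `gm g (ex j) = ∑ i, g i j • ex i`. `yy_gm`: `(g S gᵀ) i j = ∑ a b, g i a * S a b * g j b`; `∑ i, g i a • ex i = gm g (ex a)`, so the left side is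
`∑ a b, S a b • vs (gm g (ex a) * gm g u) • gm g (ex b)`; `vs_gm`.
-/

set_option autoImplicit false

namespace PadDet.Eq

open Matrix

/-- The exterior algebra of `ℂ ^ n`. -/
abbrev Tx (n : ℕ) : Type := ExteriorAlgebra ℂ (Fin n → ℂ)

/-- The basis vectors. -/
noncomputable def ex {n : ℕ} (i : Fin n) : Tx n := ExteriorAlgebra.ι ℂ (Pi.single i 1)

/-- The coefficient of the product of all basis vectors. -/
noncomputable def vs (n : ℕ) : Tx n →ₗ[ℂ] ℂ :=
  ExteriorAlgebra.liftAlternating fun d =>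
    if h : n = d then
      (Matrix.detRowAlternating (n := Fin n) (R := ℂ)).domDomCongr (finCongr h) else 0

/-- The coefficient of `1`. -/
noncomputable def ep (n : ℕ) : Tx n →ₐ[ℂ] ℂ := ExteriorAlgebra.algebraMapInv

/-- The action of a matrix. -/
noncomputable def gm {n : ℕ} (g : Matrix (Fin n) (Fin n) ℂ) : Tx n →ₐ[ℂ] Tx n :=
  ExteriorAlgebra.map (Matrix.toLin' g)

/-- The element of degree two with the coefficients `X`. -/
noncomputable def om {n : ℕ} (X : Matrix (Fin n) (Fin n) ℂ) : Tx n :=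
  ∑ i, ∑ j, X i j • (ex i * ex j)

/-- `u ↦ ∑ S i j vs (e_i u) e_j`. -/
noncomputable def yy {n : ℕ} (S : Matrix (Fin n) (Fin n) ℂ) : Tx n →ₗ[ℂ] Tx n :=
  ∑ i, ∑ j, S i j • ((vs n ∘ₗ LinearMap.mulLeft ℂ (ex i)).smulRight (ex j))

theorem yy_apply {n : ℕ} (S : Matrix (Fin n) (Fin n) ℂ) (u : Tx n) :
    yy S u = ∑ i, ∑ j, (S i j * vs n (ex i * u)) • ex j := by
  unfold yy
  simp only [LinearMap.sum_apply, LinearMap.smul_apply, LinearMap.smulRight_apply,
    LinearMap.comp_apply, LinearMap.mulLeft_apply, smul_smul]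

theorem ex_mul {n : ℕ} (i j : Fin n) : (ex i * ex j : Tx n) = -(ex j * ex i) := by
  have h := ExteriorAlgebra.ι_add_mul_swap (R := ℂ) (Pi.single i (1 : ℂ) : Fin n → ℂ)
    (Pi.single j 1)
  exact eq_neg_of_add_eq_zero_left h

theorem om_add {n : ℕ} (X Y : Matrix (Fin n) (Fin n) ℂ) : om (X + Y) = om X + om Y := by
  unfold om
  simp only [Matrix.add_apply, add_smul, Finset.sum_add_distrib]

theorem om_smul {n : ℕ} (c : ℂ) (X : Matrix (Fin n) (Fin n) ℂ) : om (c • X) = c • om X := by
  unfold om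
  simp only [Matrix.smul_apply, smul_eq_mul, Finset.smul_sum, smul_smul]

theorem om_tr {n : ℕ} (X : Matrix (Fin n) (Fin n) ℂ) : om Xᵀ = -om X := by
  unfold om
  rw [Finset.sum_comm, ← Finset.sum_neg_distrib]
  refine Finset.sum_congr rfl fun i _ => ?_
  rw [← Finset.sum_neg_distrib]
  refine Finset.sum_congr rfl fun j _ => ?_
  rw [Matrix.transpose_apply, ex_mul j i, smul_neg]

theorem yy_add {n : ℕ} (X Y : Matrix (Fin n) (Fin n) ℂ) : yy (X + Y) = yy X + yy Y := by
  apply LinearMap.ext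
  intro u
  rw [LinearMap.add_apply, yy_apply, yy_apply, yy_apply]
  simp only [Matrix.add_apply, add_mul, add_smul, Finset.sum_add_distrib]

theorem yy_smul {n : ℕ} (c : ℂ) (X : Matrix (Fin n) (Fin n) ℂ) : yy (c • X) = c • yy X := by
  apply LinearMap.ext
  intro u
  rw [LinearMap.smul_apply, yy_apply, yy_apply]
  simp only [Matrix.smul_apply, smul_eq_mul, Finset.smul_sum, smul_smul, mul_assoc]

theorem om_comm {n : ℕ} (X : Matrix (Fin n) (Fin n) ℂ) (u : Tx n) : om X * u = u * om X := by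
  have key : ∀ i j : Fin n, ∀ u : Tx n, Commute (ex i * ex j : Tx n) u := by
    intro i j u
    induction u using ExteriorAlgebra.induction with
    | algebraMap r => exact (Algebra.commutes r _).symm
    | ι v =>
      have h1 := eq_neg_of_add_eq_zero_left
        (ExteriorAlgebra.ι_add_mul_swap (R := ℂ) (Pi.single j (1 : ℂ) : Fin n → ℂ) v)
      have h2 := eq_neg_of_add_eq_zero_left
        (ExteriorAlgebra.ι_add_mul_swap (R := ℂ) (Pi.single i (1 : ℂ) : Fin n → ℂ) v)
      show ex i * ex j * _ = _ * (ex i * ex j)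
      unfold ex
      rw [mul_assoc, h1, mul_neg, ← mul_assoc, h2, neg_mul, neg_neg, mul_assoc]
    | mul a b ha hb => exact ha.mul_right hb
    | add a b ha hb => exact ha.add_right hb
  unfold om
  rw [Finset.sum_mul, Finset.mul_sum]
  refine Finset.sum_congr rfl fun i _ => ?_
  rw [Finset.sum_mul, Finset.mul_sum]
  refine Finset.sum_congr rfl fun j _ => ?_
  rw [smul_mul_assoc, mul_smul_comm, (key i j u).eq]

theorem gm_ex {n : ℕ} (g : Matrix (Fin n) (Fin n) ℂ) (j : Fin n) :
    gm g (ex j) = ∑ i, g i j • ex i := by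
  unfold gm ex
  rw [ExteriorAlgebra.map_apply_ι, Matrix.toLin'_apply]
  have h : g.mulVec (Pi.single j 1) = ∑ i, g i j • (Pi.single i (1 : ℂ) : Fin n → ℂ) := by
    funext a
    rw [Matrix.mulVec_single_one, Finset.sum_apply]
    simp only [Pi.smul_apply, smul_eq_mul, Pi.single_apply, mul_ite, mul_one, mul_zero,
      Finset.sum_ite_eq, Finset.mem_univ, if_true]
    rfl
  rw [h, map_sum]
  simp only [map_smul]

theorem gm_om {n : ℕ} (g X : Matrix (Fin n) (Fin n) ℂ) : gm g (om X) = om (g * X * gᵀ) := by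
  have h1 : gm g (om X) = ∑ i, ∑ j, X i j • ((∑ a, g a i • ex a) * ∑ b, g b j • (ex b : Tx n)) := by
    unfold om
    simp only [map_sum, map_smul, map_mul, gm_ex]
  have h2 : ∀ i j : Fin n, X i j • ((∑ a, g a i • ex a) * ∑ b, g b j • (ex b : Tx n)) =
      ∑ a, ∑ b, (g a i * X i j * g b j) • (ex a * ex b) := by
    intro i j
    rw [Finset.sum_mul, Finset.smul_sum]
    refine Finset.sum_congr rfl fun a _ => ?_
    rw [Finset.mul_sum, Finset.smul_sum]
    refine Finset.sum_congr rfl fun b _ => ?_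
    rw [smul_mul_assoc, mul_smul_comm, smul_smul, smul_smul]
    congr 1
    ring
  rw [h1]
  simp only [h2]
  unfold om
  have h3 : ∀ i : Fin n, ∑ j, ∑ a, ∑ b, (g a i * X i j * g b j) • (ex a * ex b : Tx n) =
      ∑ a, ∑ b, ∑ j, (g a i * X i j * g b j) • (ex a * ex b) := by
    intro i
    rw [Finset.sum_comm]
    refine Finset.sum_congr rfl fun a _ => ?_
    rw [Finset.sum_comm]
  simp only [h3]
  rw [Finset.sum_comm]
  refine Finset.sum_congr rfl fun a _ => ?_
  rw [Finset.sum_comm]
  refine Finset.sum_congr rfl fun b _ => ?_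
  rw [Finset.sum_comm, Matrix.mul_apply, Finset.sum_smul]
  refine Finset.sum_congr rfl fun j _ => ?_
  rw [Matrix.mul_apply, Matrix.transpose_apply, Finset.sum_mul, Finset.sum_smul]

theorem gm_one {n : ℕ} (u : Tx n) : gm (1 : Matrix (Fin n) (Fin n) ℂ) u = u := by
  unfold gm
  rw [Matrix.toLin'_one, ExteriorAlgebra.map_id]
  rfl

theorem gm_mul {n : ℕ} (g h : Matrix (Fin n) (Fin n) ℂ) (u : Tx n) :
    gm (g * h) u = gm g (gm h u) := by
  unfold gm
  rw [Matrix.toLin'_mul, ← ExteriorAlgebra.map_comp_map]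
  rfl

theorem ep_gm {n : ℕ} (g : Matrix (Fin n) (Fin n) ℂ) (u : Tx n) : ep n (gm g u) = ep n u := by
  have h : (ep n).comp (gm g) = ep n := by
    apply ExteriorAlgebra.hom_ext
    apply LinearMap.ext
    intro v
    simp [ep, gm, ExteriorAlgebra.algebraMapInv]
  exact DFunLike.congr_fun h u

theorem vs_gm {n : ℕ} (g : Matrix (Fin n) (Fin n) ℂ) (u : Tx n) :
    vs n (gm g u) = g.det * vs n u := by
  have h : (vs n) ∘ₗ (gm g).toLinearMap = g.det • vs n := by
    apply ExteriorAlgebra.lhom_ext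
    intro d
    ext v
    show vs n (gm g (ExteriorAlgebra.ιMulti ℂ d v)) = g.det • vs n (ExteriorAlgebra.ιMulti ℂ d v)
    unfold vs gm
    rw [ExteriorAlgebra.map_apply_ιMulti, ExteriorAlgebra.liftAlternating_apply_ιMulti,
      ExteriorAlgebra.liftAlternating_apply_ιMulti]
    by_cases hd : n = d
    · subst hd
      simp only [dite_true]
      show Matrix.det (fun i => Matrix.toLin' g (v i)) = g.det • Matrix.det v
      have e : (Matrix.of fun i => Matrix.toLin' g (v i)) = (Matrix.of v) * gᵀ := by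
        ext i j
        rw [Matrix.mul_apply]
        simp [Matrix.toLin'_apply, Matrix.mulVec, dotProduct, mul_comm]
      have e2 := congrArg Matrix.det e
      rw [Matrix.det_mul, Matrix.det_transpose, mul_comm] at e2
      exact e2
    · simp [hd]
  exact DFunLike.congr_fun h u

theorem yy_gm {n : ℕ} (g S : Matrix (Fin n) (Fin n) ℂ) (u : Tx n) :
    yy (g * S * gᵀ) (gm g u) = g.det • gm g (yy S u) := by
  rw [yy_apply, yy_apply]
  have h1 : g.det • gm g (∑ a, ∑ b, (S a b * vs n (ex a * u)) • ex b) =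
      ∑ a, ∑ b, (S a b * vs n (gm g (ex a) * gm g u)) • gm g (ex b) := by
    simp only [map_sum, map_smul, Finset.smul_sum, smul_smul]
    refine Finset.sum_congr rfl fun a _ => Finset.sum_congr rfl fun b _ => ?_
    rw [← map_mul, vs_gm]
    congr 1
    ring
  rw [h1]
  have h2 : ∀ a : Fin n, vs n (gm g (ex a) * gm g u) = ∑ i, g i a * vs n (ex i * gm g u) := by
    intro a
    rw [gm_ex, Finset.sum_mul, map_sum]
    refine Finset.sum_congr rfl fun i _ => ?_
    rw [smul_mul_assoc, map_smul, smul_eq_mul]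
  have h3 : ∀ a b : Fin n, (S a b * vs n (gm g (ex a) * gm g u)) • gm g (ex b) =
      ∑ i, ∑ j, ((g i a * S a b * g j b) * vs n (ex i * gm g u)) • (ex j : Tx n) := by
    intro a b
    rw [h2, gm_ex, Finset.mul_sum, Finset.sum_smul]
    refine Finset.sum_congr rfl fun i _ => ?_
    rw [Finset.smul_sum]
    refine Finset.sum_congr rfl fun j _ => ?_
    rw [smul_smul]
    congr 1
    ring
  simp only [h3]
  have h4 : ∀ a : Fin n, ∑ b, ∑ i, ∑ j, ((g i a * S a b * g j b) * vs n (ex i * gm g u)) •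
      (ex j : Tx n) = ∑ i, ∑ j, ∑ b, ((g i a * S a b * g j b) * vs n (ex i * gm g u)) • ex j := by
    intro a
    rw [Finset.sum_comm]
    refine Finset.sum_congr rfl fun i _ => ?_
    rw [Finset.sum_comm]
  simp only [h4]
  symm
  rw [Finset.sum_comm]
  refine Finset.sum_congr rfl fun i _ => ?_
  rw [Finset.sum_comm]
  refine Finset.sum_congr rfl fun j _ => ?_
  rw [Finset.sum_comm, Matrix.mul_apply, Finset.sum_mul, Finset.sum_smul]
  refine Finset.sum_congr rfl fun b _ => ?_
  rw [Matrix.mul_apply, Matrix.transpose_apply, Finset.sum_mul, Finset.sum_mul, Finset.sum_smul]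

end PadDet.Eq
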