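import Pool.Agent.H.MP_d7db32_ag.Eq.Ext

/-!
# MP_d7db32_ag, Eq/ExtG: degrees in the exterior algebra

`Hd n d` is `⋀[ℂ]^d`. `hd_sum`: the graded decomposition (`ExteriorAlgebra.gradedAlgebra`, `DirectSum.sum_support_decompose`) together with `hd_zero`. `hd_zero`: `Hd n d` is spanned by products of `d` vectors, so
(`exteriorPower` finrank is `C(n, d)`: `exteriorPower.finrank_eq`) it is `0` for `d > n`. `vs_hd`: on a product of `d ≠ n` vectors `vs` is `0` by definition (`Submodule.pow_induction_on` or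
`ExteriorAlgebra.ιMulti_range` span). `vol` is the product of the basis vectors. `finrank_Tx`: the basis `Module.Basis.ExteriorAlgebra` indexed by `Finset (Fin n)`.
-/

set_option autoImplicit false

namespace PadDet.Eq

open Matrix

/-- Elements of degree `d`. -/
noncomputable def Hd (n d : ℕ) : Submodule ℂ (Tx n) :=
  LinearMap.range (ExteriorAlgebra.ι ℂ : (Fin n → ℂ) →ₗ[ℂ] Tx n) ^ d

/-- The product of the basis vectors. -/
noncomputable def vol (n : ℕ) : Tx n :=
  ExteriorAlgebra.ιMulti ℂ n fun i : Fin n => (Pi.single i 1 : Fin n → ℂ)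

theorem hd_mul {n a b : ℕ} {u v : Tx n} (hu : u ∈ Hd n a) (hv : v ∈ Hd n b) :
    u * v ∈ Hd n (a + b) := by
  unfold Hd at *
  rw [pow_add]
  exact Submodule.mul_mem_mul hu hv

theorem one_hd (n : ℕ) : (1 : Tx n) ∈ Hd n 0 := by
  unfold Hd
  rw [pow_zero]
  exact Submodule.one_le.1 le_rfl

theorem ex_hd {n : ℕ} (i : Fin n) : ex i ∈ Hd n 1 := by
  unfold Hd ex
  rw [pow_one]
  exact LinearMap.mem_range_self _ _

theorem om_hd {n : ℕ} (X : Matrix (Fin n) (Fin n) ℂ) : om X ∈ Hd n 2 := by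
  unfold om
  exact Submodule.sum_mem _ fun i _ => Submodule.sum_mem _ fun j _ =>
    Submodule.smul_mem _ _ (hd_mul (ex_hd i) (ex_hd j))

theorem yy_hd {n : ℕ} (S : Matrix (Fin n) (Fin n) ℂ) (u : Tx n) : yy S u ∈ Hd n 1 := by
  have h : yy S u = ∑ i, ∑ j, (S i j * vs n (ex i * u)) • ex j := by
    unfold yy
    rw [LinearMap.sum_apply]
    refine Finset.sum_congr rfl fun i _ => ?_
    rw [LinearMap.sum_apply]
    refine Finset.sum_congr rfl fun j _ => ?_
    rw [LinearMap.smul_apply, LinearMap.smulRight_apply, LinearMap.comp_apply,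
      LinearMap.mulLeft_apply, smul_smul]
  rw [h]
  exact Submodule.sum_mem _ fun i _ => Submodule.sum_mem _ fun j _ =>
    Submodule.smul_mem _ _ (ex_hd j)

private theorem ExtG_span (n d : ℕ) :
    Submodule.span ℂ (Set.range (ExteriorAlgebra.ιMulti ℂ d (M := Fin n → ℂ))) = Hd n d :=
  ExteriorAlgebra.ιMulti_span_fixedDegree ℂ d

private theorem ExtG_mem {n d : ℕ} (v : Fin d → (Fin n → ℂ)) :
    ExteriorAlgebra.ιMulti ℂ d v ∈ Hd n d := by
  rw [← ExtG_span]
  exact Submodule.subset_span ⟨v, rfl⟩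

theorem vol_hd (n : ℕ) : vol n ∈ Hd n n := ExtG_mem _

private theorem ExtG_vs {n d : ℕ} (v : Fin d → (Fin n → ℂ)) :
    vs n (ExteriorAlgebra.ιMulti ℂ d v) = (if h : n = d then
      (Matrix.detRowAlternating (n := Fin n) (R := ℂ)).domDomCongr (finCongr h) else 0) v := by
  unfold vs
  rw [ExteriorAlgebra.liftAlternating_apply_ιMulti]

theorem vs_vol (n : ℕ) : vs n (vol n) = 1 := by
  unfold vol
  rw [ExtG_vs, dif_pos rfl, AlternatingMap.domDomCongr_apply]
  have h : (fun i : Fin n => (Pi.single i 1 : Fin n → ℂ)) ∘ (finCongr (rfl : n = n)) =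
      (1 : Matrix (Fin n) (Fin n) ℂ) := by
    funext i j
    show (Pi.single i 1 : Fin n → ℂ) j = (1 : Matrix (Fin n) (Fin n) ℂ) i j
    rw [Matrix.one_apply, Pi.single_apply]
    exact if_congr eq_comm rfl rfl
  show (Matrix.detRowAlternating (n := Fin n) (R := ℂ))
    ((fun i : Fin n => (Pi.single i 1 : Fin n → ℂ)) ∘ (finCongr (rfl : n = n))) = 1
  rw [h]
  exact Matrix.det_one

theorem hd_zero {n d : ℕ} (h : n < d) {u : Tx n} (hu : u ∈ Hd n d) : u = 0 := by
  have h1 : Module.finrank ℂ (Hd n d) = Nat.choose (Module.finrank ℂ (Fin n → ℂ)) d :=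
    exteriorPower.finrank_eq (R := ℂ) (M := Fin n → ℂ) (n := d)
  rw [Module.finrank_fin_fun, Nat.choose_eq_zero_of_lt h] at h1
  have h2 : Module.Finite ℂ (Hd n d) := exteriorPower.instFinite (R := ℂ) (M := Fin n → ℂ) (n := d)
  have h3 : Hd n d = ⊥ := Submodule.finrank_eq_zero.1 h1
  rw [h3] at hu
  exact (Submodule.mem_bot ℂ).1 hu

theorem vs_hd {n d : ℕ} (h : d ≠ n) {u : Tx n} (hu : u ∈ Hd n d) : vs n u = 0 := by
  rw [← ExtG_span] at hu
  have h1 : Submodule.span ℂ (Set.range (ExteriorAlgebra.ιMulti ℂ d (M := Fin n → ℂ))) ≤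
      LinearMap.ker (vs n) := by
    rw [Submodule.span_le]
    rintro _ ⟨v, rfl⟩
    show vs n _ = 0
    rw [ExtG_vs, dif_neg fun e => h e.symm]
    rfl
  exact h1 hu

theorem ep_hd {n d : ℕ} (h : d ≠ 0) {u : Tx n} (hu : u ∈ Hd n d) : ep n u = 0 := by
  obtain ⟨d, rfl⟩ := Nat.exists_eq_succ_of_ne_zero h
  rw [← ExtG_span] at hu
  have h1 : Submodule.span ℂ (Set.range (ExteriorAlgebra.ιMulti ℂ d.succ (M := Fin n → ℂ))) ≤
      LinearMap.ker (ep n).toLinearMap := by
    rw [Submodule.span_le]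
    rintro _ ⟨v, rfl⟩
    show ep n _ = 0
    rw [ExteriorAlgebra.ιMulti_succ_apply, map_mul]
    have h2 : ep n (ExteriorAlgebra.ι ℂ (v 0)) = 0 := by
      unfold ep ExteriorAlgebra.algebraMapInv
      rw [ExteriorAlgebra.lift_ι_apply]
      rfl
    rw [h2, zero_mul]
  exact h1 hu

theorem hd_sum {n : ℕ} (u : Tx n) :
    ∃ f : ℕ → Tx n, (∀ d, f d ∈ Hd n d) ∧ u = ∑ d ∈ Finset.range (n + 1), f d := by
  induction u using DirectSum.Decomposition.inductionOn fun i => ⋀[ℂ]^i (Fin n → ℂ) with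
  | zero => exact ⟨fun _ => 0, fun d => Submodule.zero_mem _, by simp⟩
  | @homogeneous i m =>
    obtain ⟨m, hm⟩ := m
    by_cases hi : i < n + 1
    · refine ⟨fun d => if d = i then m else 0, fun d => ?_, ?_⟩
      · by_cases hd : d = i
        · subst hd
          simp only [if_true]
          exact hm
        · simp only [if_neg hd]
          exact Submodule.zero_mem _
      · rw [Finset.sum_ite_eq' , if_pos (Finset.mem_range.2 hi)]
    · refine ⟨fun _ => 0, fun d => Submodule.zero_mem _, ?_⟩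
      have h0 : m = 0 := hd_zero (d := i) (by omega) hm
      simp [h0]
  | add m m' hm hm' =>
    obtain ⟨f, hf, hf'⟩ := hm
    obtain ⟨g, hg, hg'⟩ := hm'
    refine ⟨fun d => f d + g d, fun d => Submodule.add_mem _ (hf d) (hg d), ?_⟩
    rw [Finset.sum_add_distrib, ← hf', ← hg']

theorem finrank_Tx (n : ℕ) : Module.finrank ℂ (Tx n) = 2 ^ n := by
  rw [Module.finrank_eq_card_basis ((Pi.basisFun ℂ (Fin n)).ExteriorAlgebra)]
  simp

end PadDet.Eq
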