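import Pool.Agent.H.MP_d7db32_ag.Eq.S4

/-!
# MP_d7db32_ag, Eq/S5: some weight in the kernels of the constant matrix is not constant
-/

set_option autoImplicit false

namespace PadDet.Eq

open Matrix

variable {n m : ℕ} {q c : ℂ} {L : Matrix (Fin m) (Fin m) ℂ}
  {M : Matrix (Fin n) (Fin n) ℂ →ₗ[ℂ] Matrix (Fin m) (Fin m) ℂ}
  {w w' : Fin m → Fin n → ℂ} {P P' : Equiv.Perm (Fin n) → Matrix (Fin m) (Fin m) ℂ}

theorem blk_le (L : Matrix (Fin m) (Fin m) ℂ) (w w' : Fin m → Fin n → ℂ)
    (gL : ∀ b a, L b a ≠ 0 → w' b = w a) (ω : Fin n → ℂ)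
    (h : ∀ x, L *ᵥ x = 0 → IsW w ω x → x = 0) :
    Nat.card {a // w a = ω} ≤ Nat.card {b // w' b = ω} := by
  classical
  by_contra hcon
  push Not at hcon
  let A : Matrix {b // w' b = ω} {a // w a = ω} ℂ := fun b a => L b a
  have h1 : LinearMap.ker A.mulVecLin ≠ ⊥ := by
    apply LinearMap.ker_ne_bot_of_finrank_lt
    simpa [Nat.card_eq_fintype_card] using hcon
  obtain ⟨z, hz, hz0⟩ := (Submodule.ne_bot_iff _).1 h1
  rw [LinearMap.mem_ker, Matrix.mulVecLin_apply] at hz
  let x : Fin m → ℂ := fun a => if ha : w a = ω then z ⟨a, ha⟩ else 0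
  have hx : L *ᵥ x = 0 := by
    funext b
    show ∑ a, L b a * x a = 0
    by_cases hb : w' b = ω
    · have h2 := congrFun hz ⟨b, hb⟩
      have h3 : ∑ a : {a // w a = ω}, L b a * z a = 0 := h2
      rw [← h3, ← Finset.sum_filter_add_sum_filter_not Finset.univ (fun a => w a = ω)]
      rw [Finset.sum_eq_zero (s := Finset.univ.filter fun a => ¬ w a = ω), add_zero]
      · rw [Finset.sum_subtype (Finset.univ.filter fun a => w a = ω) (p := fun a => w a = ω)
          (by simp)]
        refine Finset.sum_congr rfl (fun a _ => ?_)
        show L b a * (if ha : w a = ω then z ⟨a, ha⟩ else 0) = _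
        rw [dif_pos a.2]
      · intro a ha
        rw [Finset.mem_filter] at ha
        show L b a * (if ha : w a = ω then z ⟨a, ha⟩ else 0) = 0
        rw [dif_neg ha.2, mul_zero]
    · refine Finset.sum_eq_zero (fun a _ => ?_)
      show L b a * (if ha : w a = ω then z ⟨a, ha⟩ else 0) = 0
      by_cases hL : L b a = 0
      · rw [hL, zero_mul]
      · rw [dif_neg (fun h => hb ((gL b a hL).trans h)), mul_zero]
  have h4 := h x hx (by
    intro a ha
    by_contra hcon
    apply ha
    show (if ha : w a = ω then z ⟨a, ha⟩ else 0) = 0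
    rw [dif_neg hcon])
  apply hz0
  funext a
  have h5 := congrFun h4 a.1
  have h6 : (if ha : w a.1 = ω then z ⟨a.1, ha⟩ else 0) = 0 := h5
  rw [dif_pos a.2] at h6
  exact h6

theorem maj_eq {k : ℕ} (f g : Fin (2 * k + 1) → ℂ) (z z' : ℂ)
    (hf : k + 2 ≤ (Finset.univ.filter fun i => f i = z).card)
    (hg : k + 2 ≤ (Finset.univ.filter fun i => g i = z').card) (i j : Fin (2 * k + 1))
    (h : ∀ l, l ≠ i → l ≠ j → f l = g l) : z = z' := by
  classical
  set A := Finset.univ.filter fun i => f i = z with hA
  set B := Finset.univ.filter fun i => g i = z' with hB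
  have h1 : (A ∪ B).card + (A ∩ B).card = A.card + B.card := Finset.card_union_add_card_inter A B
  have h2 : (A ∪ B).card ≤ 2 * k + 1 := by
    have := Finset.card_le_univ (A ∪ B)
    simpa using this
  have h3 : 2 < (A ∩ B).card := by omega
  have h4 : ({i, j} : Finset (Fin (2 * k + 1))).card ≤ 2 := Finset.card_le_two
  obtain ⟨l, hl, hl'⟩ := Finset.exists_mem_notMem_of_card_lt_card (lt_of_le_of_lt h4 h3)
  rw [Finset.mem_inter, hA, hB, Finset.mem_filter, Finset.mem_filter] at hl
  simp only [Finset.mem_insert, Finset.mem_singleton, not_or] at hl'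
  rw [← hl.1.2, ← hl.2.2]
  exact h l hl'.1 hl'.2

theorem Cor.M_entry (_C : Cor n m q c L M w w' P P') (X : Matrix (Fin n) (Fin n) ℂ) (b a : Fin m)
    (h : M X b a ≠ 0) : ∃ i j, X i j ≠ 0 ∧ M (Matrix.single i j 1) b a ≠ 0 := by
  by_contra hcon
  push Not at hcon
  apply h
  conv_lhs => rw [Matrix.matrix_eq_sum_single X]
  rw [map_sum, Matrix.sum_apply]
  refine Finset.sum_eq_zero (fun i _ => ?_)
  rw [map_sum, Matrix.sum_apply]
  refine Finset.sum_eq_zero (fun j _ => ?_)
  have h1 : Matrix.single i j (X i j) = X i j • Matrix.single i j (1 : ℂ) := by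
    rw [Matrix.smul_single, smul_eq_mul, mul_one]
  rw [h1, map_smul, Matrix.smul_apply, smul_eq_mul]
  by_cases hX : X i j = 0
  · rw [hX, zero_mul]
  · rw [hcon i j hX, mul_zero]

theorem Cor.const_false {k : ℕ} {M : Matrix (Fin (2 * k + 1)) (Fin (2 * k + 1)) ℂ →ₗ[ℂ]
    Matrix (Fin m) (Fin m) ℂ} {w w' : Fin m → Fin (2 * k + 1) → ℂ}
    {P P' : Equiv.Perm (Fin (2 * k + 1)) → Matrix (Fin m) (Fin m) ℂ}
    (C : Cor (2 * k + 1) m q c L M w w' P P') (hm : m < (2 * k + 1).choose k)
    {X : Matrix (Fin (2 * k + 1)) (Fin (2 * k + 1)) ℂ} (hX : Fv X ≠ 0)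
    (hK : ∀ x ω, L *ᵥ x = 0 → x ≠ 0 → IsW w ω x → ∀ i j, ω i = ω j)
    (hK' : ∀ y ω, Lᵀ *ᵥ y = 0 → y ≠ 0 → IsW w' ω y → ∀ i j, ω i = ω j) : False := by
  classical
  -- equal numbers for weights which are not constant
  have hcard : ∀ ω : Fin (2 * k + 1) → ℂ, (∃ i j, ω i ≠ ω j) →
      Nat.card {a // w a = ω} = Nat.card {b // w' b = ω} := by
    rintro ω ⟨i, j, hij⟩
    apply le_antisymm
    · apply blk_le L w w' C.gL ω
      intro x hx hw
      by_contra hx0
      exact hij (hK x ω hx hx0 hw i j)
    · apply blk_le Lᵀ w' w (fun b a h => (C.gL a b h).symm) ω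
      intro x hx hw
      by_contra hx0
      exact hij (hK' x ω hx hx0 hw i j)
  -- majority values
  have hmaj : ∀ a, ∃ z, k + 2 ≤ (Finset.univ.filter fun i => w a i = z).card := by
    intro a
    by_contra hcon
    push Not at hcon
    have := orb w C.st a (fun z => by have := hcon z; omega)
    omega
  have hmaj' : ∀ a, ∃ z, k + 2 ≤ (Finset.univ.filter fun i => w' a i = z).card := by
    intro b
    by_contra hcon
    push Not at hcon
    have := orb w' (fun σ b => by
      obtain ⟨b', hb'⟩ := C.tr.st σ b
      exact ⟨b', fun i => inv_injective (hb' i)⟩) b (fun z => by have := hcon z; omega)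
    omega
  choose μ hμ using hmaj
  choose μ' hμ' using hmaj'
  have hblock : ∀ b a, (L + M X) b a ≠ 0 → μ' b = μ a := by
    intro b a h
    rw [Matrix.add_apply] at h
    by_cases hL : L b a = 0
    · rw [hL, zero_add] at h
      obtain ⟨i, j, -, hij⟩ := C.M_entry X b a h
      refine maj_eq _ _ _ _ (hμ' b) (hμ a) i j (fun l hi hj => ?_)
      have := C.gE b a i j hij l
      rw [if_neg (fun h => hi h.symm), if_neg (fun h => hj h.symm)] at this
      simpa using this
    · have i : Fin (2 * k + 1) := 0
      exact maj_eq _ _ _ _ (hμ' b) (hμ a) i i (fun l _ _ => congrFun (C.gL b a hL) l)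
  have hperm : ∃ π : Equiv.Perm (Fin m), ∀ a, μ' (π a) = μ a := by
    have h1 : (L + M X).det ≠ 0 := by
      rw [C.det]
      exact mul_ne_zero C.c0 hX
    rw [Matrix.det_apply] at h1
    obtain ⟨σ, -, hσ⟩ := Finset.exists_ne_zero_of_sum_ne_zero h1
    have h2 : (∏ i, (L + M X) (σ i) i) ≠ 0 := by
      intro h0
      rw [h0, smul_zero] at hσ
      exact hσ rfl
    rw [Finset.prod_ne_zero_iff] at h2
    exact ⟨σ, fun a => hblock _ _ (h2 a (Finset.mem_univ _))⟩
  obtain ⟨π, hπ⟩ := hperm
  have hcμ : ∀ z, Nat.card {a // μ a = z} = Nat.card {b // μ' b = z} := by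
    intro z
    exact Nat.card_congr (π.subtypeEquiv (fun a => by rw [hπ a]))
  -- all weights
  have hmu : ∀ a z, k + 2 ≤ (Finset.univ.filter fun i => w a i = z).card → μ a = z := by
    intro a z h
    have i : Fin (2 * k + 1) := 0
    exact maj_eq _ _ _ _ (hμ a) h i i (fun l _ _ => rfl)
  have hmu' : ∀ a z, k + 2 ≤ (Finset.univ.filter fun i => w' a i = z).card → μ' a = z := by
    intro a z h
    have i : Fin (2 * k + 1) := 0
    exact maj_eq _ _ _ _ (hμ' a) h i i (fun l _ _ => rfl)
  have hall : ∀ ω : Fin (2 * k + 1) → ℂ,
      (Finset.univ.filter fun a => w a = ω).card = (Finset.univ.filter fun b => w' b = ω).card := by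
    intro ω
    have hconv : ∀ ω : Fin (2 * k + 1) → ℂ, (∃ i j, ω i ≠ ω j) →
        (Finset.univ.filter fun a => w a = ω).card = (Finset.univ.filter fun b => w' b = ω).card := by
      intro ω h
      have := hcard ω h
      rw [Nat.card_eq_fintype_card, Nat.card_eq_fintype_card, Fintype.card_subtype,
        Fintype.card_subtype] at this
      exact this
    by_cases hω : ∃ i j, ω i ≠ ω j
    · exact hconv ω hω
    · push Not at hω
      set z := ω 0 with hz
      have hωz : ∀ i, ω i = z := fun i => hω i 0
      -- the weights with majority value `z` other than `ω`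
      let T : Finset (Fin (2 * k + 1) → ℂ) :=
        (Finset.univ.image w ∪ Finset.univ.image w').filter
          (fun η => k + 2 ≤ (Finset.univ.filter fun i => η i = z).card ∧ η ≠ ω)
      have hTnc : ∀ η ∈ T, ∃ i j, η i ≠ η j := by
        intro η hη
        rw [Finset.mem_filter] at hη
        by_contra hcon
        push Not at hcon
        apply hη.2.2
        obtain ⟨i, hi⟩ : (Finset.univ.filter fun i => η i = z).Nonempty := by
          rw [← Finset.card_pos]
          omega
        rw [Finset.mem_filter] at hi
        funext l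
        rw [hωz l, hcon l i, hi.2]
      have hsplit : (Finset.univ.filter fun a => μ a = z).card =
          (Finset.univ.filter fun a => w a = ω).card +
            ∑ η ∈ T, (Finset.univ.filter fun a => w a = η).card := by
        have h1 := Finset.card_filter_add_card_filter_not (s := Finset.univ.filter fun a => μ a = z)
          (fun a => w a = ω)
        rw [← h1]
        congr 1
        · congr 1
          ext a
          simp only [Finset.mem_filter, Finset.mem_univ, true_and]
          constructor
          · exact fun h => h.2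
          · intro h
            refine ⟨hmu a z ?_, h⟩
            rw [h]
            have : (Finset.univ.filter fun i => ω i = z) = Finset.univ := by
              ext i; simp [hωz i]
            rw [this, Finset.card_univ, Fintype.card_fin]
            have := hμ a
            have h3 := Finset.card_le_univ (Finset.univ.filter fun i => w a i = μ a)
            rw [Fintype.card_fin] at h3
            omega
        · have hmap : ∀ a ∈ (Finset.univ.filter fun a => μ a = z).filter (fun a => ¬ w a = ω),
              w a ∈ T := by
            intro a ha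
            simp only [Finset.mem_filter, Finset.mem_univ, true_and] at ha
            rw [Finset.mem_filter]
            refine ⟨Finset.mem_union_left _ (Finset.mem_image_of_mem _ (Finset.mem_univ a)), ?_,
              ha.2⟩
            rw [← ha.1]
            exact hμ a
          rw [Finset.card_eq_sum_card_fiberwise hmap]
          refine Finset.sum_congr rfl (fun η hη => ?_)
          rw [Finset.mem_filter] at hη
          congr 1
          ext a
          simp only [Finset.mem_filter, Finset.mem_univ, true_and]
          constructor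
          · exact fun h => h.2
          · intro h
            refine ⟨⟨hmu a z ?_, ?_⟩, h⟩
            · rw [h]; exact hη.2.1
            · rw [h]; exact hη.2.2
      have hsplit' : (Finset.univ.filter fun a => μ' a = z).card =
          (Finset.univ.filter fun a => w' a = ω).card +
            ∑ η ∈ T, (Finset.univ.filter fun a => w' a = η).card := by
        have h1 := Finset.card_filter_add_card_filter_not (s := Finset.univ.filter fun a => μ' a = z)
          (fun a => w' a = ω)
        rw [← h1]
        congr 1
        · congr 1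
          ext a
          simp only [Finset.mem_filter, Finset.mem_univ, true_and]
          constructor
          · exact fun h => h.2
          · intro h
            refine ⟨hmu' a z ?_, h⟩
            rw [h]
            have : (Finset.univ.filter fun i => ω i = z) = Finset.univ := by
              ext i; simp [hωz i]
            rw [this, Finset.card_univ, Fintype.card_fin]
            have := hμ' a
            have h3 := Finset.card_le_univ (Finset.univ.filter fun i => w' a i = μ' a)
            rw [Fintype.card_fin] at h3
            omega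
        · have hmap : ∀ a ∈ (Finset.univ.filter fun a => μ' a = z).filter (fun a => ¬ w' a = ω),
              w' a ∈ T := by
            intro a ha
            simp only [Finset.mem_filter, Finset.mem_univ, true_and] at ha
            rw [Finset.mem_filter]
            refine ⟨Finset.mem_union_right _ (Finset.mem_image_of_mem _ (Finset.mem_univ a)), ?_,
              ha.2⟩
            rw [← ha.1]
            exact hμ' a
          rw [Finset.card_eq_sum_card_fiberwise hmap]
          refine Finset.sum_congr rfl (fun η hη => ?_)
          rw [Finset.mem_filter] at hη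
          congr 1
          ext a
          simp only [Finset.mem_filter, Finset.mem_univ, true_and]
          constructor
          · exact fun h => h.2
          · intro h
            refine ⟨⟨hmu' a z ?_, ?_⟩, h⟩
            · rw [h]; exact hη.2.1
            · rw [h]; exact hη.2.2
      have h2 := hcμ z
      rw [Nat.card_eq_fintype_card, Nat.card_eq_fintype_card, Fintype.card_subtype,
        Fintype.card_subtype, hsplit, hsplit',
        Finset.sum_congr rfl (fun η hη => hconv η (hTnc η hη))] at h2
      omega
  -- the products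
  have hprod : ∏ b, w' b 0 = ∏ a, w a 0 := by
    let T : Finset (Fin (2 * k + 1) → ℂ) := Finset.univ.image w ∪ Finset.univ.image w'
    rw [← Finset.prod_fiberwise_of_maps_to (s := Finset.univ) (t := T) (g := w')
        (fun b _ => Finset.mem_union_right _ (Finset.mem_image_of_mem _ (Finset.mem_univ b))),
      ← Finset.prod_fiberwise_of_maps_to (s := Finset.univ) (t := T) (g := w)
        (fun a _ => Finset.mem_union_left _ (Finset.mem_image_of_mem _ (Finset.mem_univ a)))]
    refine Finset.prod_congr rfl (fun η _ => ?_)
    have h1 : ∏ b ∈ Finset.univ.filter (fun b => w' b = η), w' b 0 =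
        (η 0) ^ (Finset.univ.filter (fun b => w' b = η)).card := by
      rw [Finset.prod_congr rfl (g := fun _ => η 0), Finset.prod_const]
      intro b hb
      rw [Finset.mem_filter] at hb
      rw [hb.2]
    have h2 : ∏ a ∈ Finset.univ.filter (fun a => w a = η), w a 0 =
        (η 0) ^ (Finset.univ.filter (fun a => w a = η)).card := by
      rw [Finset.prod_congr rfl (g := fun _ => η 0), Finset.prod_const]
      intro b hb
      rw [Finset.mem_filter] at hb
      rw [hb.2]
    rw [h1, h2, hall η]
  have htw := C.tw 0
  rw [hprod] at htw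
  have hp : ∏ a, w a 0 ≠ 0 := Finset.prod_ne_zero_iff.2 (fun a _ => C.w0 a 0)
  have hq2 : q ^ 2 = 1 := by
    have : (q ^ 2 - 1) * ∏ a, w a 0 = 0 := by
      rw [sub_mul, one_mul, ← htw, sub_self]
    exact sub_eq_zero.1 ((mul_eq_zero.1 this).resolve_right hp)
  apply C.q1
  calc q = q ^ 3 * q⁻¹ ^ 2 := by
        have hq : q ≠ 0 := by
          intro h0
          rw [h0] at hq2
          norm_num at hq2
        field_simp
    _ = 1 := by rw [C.q3, inv_pow, hq2]; simp

end PadDet.Eq
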