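import Pool.Agent.H.MP_d7db32_ag.Eq.Def2
import Pool.Agent.H.MP_d7db32_ag.Eq.S5

/-!
# MP_d7db32_ag, Eq/ToZ: exponents in `ZMod 3`

The weights are cube roots of unity (`h3`, `h3'`), so `w a i = q ^ (z a i).val` for a unique `z a i : ZMod 3` (the powers of `q` are all the cube roots of unity).
`tw`: `q ^ (sum of z') = q ^ 2 * q ^ (sum of z)`. `cd`: `blk_le` twice as in `Cor.const_false` (S5), for weights which are not constant.
-/

set_option autoImplicit false

namespace PadDet.Eq

open Matrix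

theorem toZ_add {q : ℂ} (q3 : q ^ 3 = 1) (e f : ZMod 3) :
    q ^ (e + f).val = q ^ e.val * q ^ f.val := by
  rw [← pow_add, ZMod.val_add]
  conv_rhs => rw [← Nat.div_add_mod (e.val + f.val) 3]
  rw [pow_add, pow_mul, q3, one_pow, one_mul]

theorem toZ_sum {q : ℂ} (q3 : q ^ 3 = 1) {ι : Type} (s : Finset ι) (f : ι → ZMod 3) :
    q ^ (∑ i ∈ s, f i).val = ∏ i ∈ s, q ^ (f i).val := by
  classical
  induction s using Finset.induction_on with
  | empty => simp
  | insert a s ha ih => rw [Finset.sum_insert ha, Finset.prod_insert ha, toZ_add q3, ih]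

theorem toZ_inj {q : ℂ} (q3 : q ^ 3 = 1) (q1 : q ≠ 1) {e f : ZMod 3}
    (h : q ^ e.val = q ^ f.val) : e = f := by
  have hq : IsPrimitiveRoot q 3 := by
    refine IsPrimitiveRoot.mk_of_lt q (by norm_num) q3 ?_
    intro l hl0 hl
    interval_cases l
    · rw [pow_one]; exact q1
    · intro h2
      apply q1
      have h4 : q ^ 3 = q ^ 2 * q := by ring
      rw [h4, h2, one_mul] at q3
      exact q3
  have h1 := hq.pow_inj (ZMod.val_lt e) (ZMod.val_lt f) h
  exact ZMod.val_injective 3 h1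

theorem toZ_exists {q z : ℂ} (q3 : q ^ 3 = 1) (q1 : q ≠ 1) (hz : z ^ 3 = 1) :
    ∃ e : ZMod 3, q ^ e.val = z := by
  have h0 : q ^ 2 + q + 1 = 0 := by
    have h1 : (q - 1) * (q ^ 2 + q + 1) = 0 := by linear_combination q3
    exact (mul_eq_zero.1 h1).resolve_left (sub_ne_zero.2 q1)
  have h2 : (z - 1) * ((z - q) * (z - q ^ 2)) = 0 := by
    linear_combination hz - (z ^ 2 - q * z) * h0 - q3 + z * (q3 - q3)
  rcases mul_eq_zero.1 h2 with h | h
  · exact ⟨0, by rw [sub_eq_zero.1 h]; simp⟩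
  · rcases mul_eq_zero.1 h with h | h
    · exact ⟨1, by
        have hv : (1 : ZMod 3).val = 1 := rfl
        rw [hv, pow_one, sub_eq_zero.1 h]⟩
    · exact ⟨2, by
        have hv : (2 : ZMod 3).val = 2 := rfl
        rw [hv, sub_eq_zero.1 h]⟩

theorem toZ {n m : ℕ} {q c : ℂ} {L : Matrix (Fin m) (Fin m) ℂ}
    {M : Matrix (Fin n) (Fin n) ℂ →ₗ[ℂ] Matrix (Fin m) (Fin m) ℂ}
    {w w' : Fin m → Fin n → ℂ} {P P' : Equiv.Perm (Fin n) → Matrix (Fin m) (Fin m) ℂ}
    (C : Cor n m q c L M w w' P P') (h3 : ∀ a i, w a i ^ 3 = 1) (h3' : ∀ b i, w' b i ^ 3 = 1)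
    (hK : ∀ x ω, L *ᵥ x = 0 → x ≠ 0 → IsW w ω x → ∀ i j, ω i = ω j)
    (hK' : ∀ y ω, Lᵀ *ᵥ y = 0 → y ≠ 0 → IsW w' ω y → ∀ i j, ω i = ω j) :
    ∃ z z' : Fin m → Fin n → ZMod 3, Gz n m c L M z z' := by
  have q3 := C.q3
  have q1 := C.q1
  choose z hz using fun a i => toZ_exists q3 q1 (h3 a i)
  choose z' hz' using fun b i => toZ_exists q3 q1 (h3' b i)
  refine ⟨z, z', ?_⟩
  have hv1 : (1 : ZMod 3).val = 1 := rfl
  have hv2 : (2 : ZMod 3).val = 2 := rfl
  have hsing : ∀ i l : Fin n, q ^ ((Pi.single i 1 : Fin n → ZMod 3) l).val =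
      if i = l then q else 1 := by
    intro i l
    by_cases h : i = l
    · subst h
      rw [Pi.single_eq_same, if_pos rfl, hv1, pow_one]
    · rw [Pi.single_eq_of_ne (Ne.symm h), if_neg h]
      simp
  refine ⟨C.c0, C.det, ?_, ?_, ?_, ?_, ?_⟩
  · intro b a h
    funext i
    apply toZ_inj q3 q1
    rw [hz, hz', C.gL b a h]
  · intro b a i j h
    funext l
    apply toZ_inj q3 q1
    rw [Pi.add_apply, Pi.add_apply, toZ_add q3, toZ_add q3, hz, hz', hsing, hsing,
      C.gE b a i j h l]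
    ring
  · intro σ a
    obtain ⟨a', ha'⟩ := C.st σ a
    refine ⟨a', fun i => ?_⟩
    apply toZ_inj q3 q1
    rw [hz, hz]
    exact ha' i
  · intro i
    apply toZ_inj q3 q1
    rw [toZ_add q3, toZ_sum q3, toZ_sum q3, hv2]
    have h1 := C.tw i
    simp only [hz, hz']
    rw [h1]
    ring
  · intro ω hω
    obtain ⟨i, j, hij⟩ := hω
    have hconv : ∀ a, z a = ω ↔ w a = fun i => q ^ (ω i).val := by
      intro a
      constructor
      · intro h
        funext i
        rw [← hz a i, h]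
      · intro h
        funext i
        apply toZ_inj q3 q1
        rw [hz a i, h]
    have hconv' : ∀ a, z' a = ω ↔ w' a = fun i => q ^ (ω i).val := by
      intro a
      constructor
      · intro h
        funext i
        rw [← hz' a i, h]
      · intro h
        funext i
        apply toZ_inj q3 q1
        rw [hz' a i, h]
    have e1 : Nat.card {a // z a = ω} = Nat.card {a // w a = fun i => q ^ (ω i).val} :=
      Nat.card_congr (Equiv.subtypeEquivRight hconv)
    have e2 : Nat.card {a // z' a = ω} = Nat.card {a // w' a = fun i => q ^ (ω i).val} :=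
      Nat.card_congr (Equiv.subtypeEquivRight hconv')
    have hne : (fun i => q ^ (ω i).val) i ≠ (fun i => q ^ (ω i).val) j :=
      fun h => hij (toZ_inj q3 q1 h)
    rw [e1, e2]
    apply le_antisymm
    · apply blk_le L w w' C.gL
      intro x hx hw
      by_contra hx0
      exact hne (hK x _ hx hx0 hw i j)
    · apply blk_le Lᵀ w' w (fun b a h => (C.gL a b h).symm)
      intro x hx hw
      by_contra hx0
      exact hne (hK' x _ hx hx0 hw i j)

end PadDet.Eq
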