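import Pool.Agent.H.MP_d7db32_ag.Eq.S9
import Pool.Agent.H.MP_d7db32_ag.Eq.ToZ
import Pool.Agent.H.MP_d7db32_ag.Eq.CstZ

/-!
# MP_d7db32_ag, Eq/Low: the lower bound `2 ^ n - 1`
-/

set_option autoImplicit false

namespace PadDet.Eq

open MvPolynomial Matrix

theorem exists_ne (k : ℕ) : ∃ X : Matrix (Fin (2 * k + 1)) (Fin (2 * k + 1)) ℂ, Fv X ≠ 0 := by
  obtain ⟨A, -, -, -, h⟩ := exists_skew k 0
  exact ⟨_, h⟩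

theorem low (k m : ℕ) (H : Subgroup (GL (Fin (2 * k + 1)) ℂ × ℂˣ)) (hH : Rich2 (2 * k + 1) H)
    (L : Matrix (Fin m) (Fin m) ℂ)
    (M : Matrix (Fin (2 * k + 1)) (Fin (2 * k + 1)) ℂ →ₗ[ℂ] Matrix (Fin m) (Fin m) ℂ)
    (ρ ρ' : H →* GL (Fin m) ℂ) (hE : Expr m (skewForm (2 * k + 1)) H L M ρ ρ') :
    2 ^ (2 * k + 1) - 1 ≤ m := by
  obtain ⟨q, c, L', N, w, w', P, P', C⟩ := mk_cor hH hE (exists_ne k)
  obtain ⟨z, z', G⟩ := toZ C C.w3 C.w3' C.const.1 C.const.2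
  obtain ⟨X, hX⟩ := exists_ne k
  exact cstZ G hX

end PadDet.Eq
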