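import Mathlib

/-!
# MP_d7db32_ag, Eq/Wt: simultaneous diagonalization of commuting matrices with `R ^ 3 = 1`

`wt`: the endomorphisms `R i` are semisimple (`Module.End.isSemisimple_of_squarefree_aeval_eq_zero`, `X ^ 3 - 1` is squarefree) and commute; the
joint eigenspaces span (for example `Module.End.iSup_iInf_maxGenEigenspace_eq_top_of_forall_mapsTo` and
`IsFinitelySemisimple.maxGenEigenspace_eq_eigenspace`); collect a basis of joint eigenvectors (a spanning set of joint eigenvectors contains a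
basis), the columns of `S`. (Or by projections: `(1 + z R + z ^ 2 R ^ 2) / 3`, `z ^ 3 = 1`.)

`wt_st`: `g *ᵥ (column a of S)` is nonzero and an eigenvector of `R (π i)` with eigenvalue `χ a i`; expand it in the columns of `S`: some
coordinate `a'` is nonzero, then `χ a' (π i) = χ a i`.
-/

set_option autoImplicit false

namespace PadDet.Eq

open Matrix

/-- one more matrix: a joint eigenvector is a sum of joint eigenvectors -/
private theorem Wt_split {m : ℕ} (A : Matrix (Fin m) (Fin m) ℂ) (h3 : A ^ 3 = 1)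
    (q : ℂ) (hq : q ^ 3 = 1) (hq1 : q ≠ 1) (v : Fin m → ℂ) :
    ∃ w : Fin 3 → Fin m → ℂ, v = ∑ k, w k ∧
      ∀ k, A *ᵥ w k = (q ^ (k : ℕ)) • w k ∧
        ∀ (B : Matrix (Fin m) (Fin m) ℂ) (c : ℂ), A * B = B * A → B *ᵥ v = c • v →
          B *ᵥ w k = c • w k := by
  have hq2 : 1 + q + q ^ 2 = 0 := by
    have h : (q - 1) * (1 + q + q ^ 2) = 0 := by linear_combination hq
    exact (mul_eq_zero.1 h).resolve_left (sub_ne_zero.2 hq1)
  have h3' : A *ᵥ A *ᵥ A *ᵥ v = v := by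
    rw [mulVec_mulVec, mulVec_mulVec, ← pow_two, ← pow_succ, h3, one_mulVec]
  refine ⟨fun k => (1 / 3 : ℂ) • (v + (q ^ (2 * (k : ℕ))) • A *ᵥ v +
    (q ^ (k : ℕ)) • A *ᵥ A *ᵥ v), ?_, fun k => ⟨?_, fun B c hB hv => ?_⟩⟩
  · rw [Fin.sum_univ_three]
    simp only [Fin.val_zero, Fin.val_one, Fin.val_two]
    have e1 : q ^ (2 * 0) + q ^ (2 * 1) + q ^ (2 * 2) = 0 := by
      linear_combination q * hq + hq2
    have e2 : q ^ 0 + q ^ 1 + q ^ 2 = 0 := by linear_combination hq2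
    have : (1 / 3 : ℂ) • (v + q ^ (2 * 0) • A *ᵥ v + q ^ 0 • A *ᵥ A *ᵥ v) +
        (1 / 3 : ℂ) • (v + q ^ (2 * 1) • A *ᵥ v + q ^ 1 • A *ᵥ A *ᵥ v) +
        (1 / 3 : ℂ) • (v + q ^ (2 * 2) • A *ᵥ v + q ^ 2 • A *ᵥ A *ᵥ v) =
        v + ((1 / 3 : ℂ) * (q ^ (2 * 0) + q ^ (2 * 1) + q ^ (2 * 2))) • A *ᵥ v +
          ((1 / 3 : ℂ) * (q ^ 0 + q ^ 1 + q ^ 2)) • A *ᵥ A *ᵥ v := by module
    rw [this, e1, e2, mul_zero, zero_smul, zero_smul, add_zero, add_zero]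
  · simp only [mulVec_smul, mulVec_add, h3']
    have e3 : q ^ (3 * (k : ℕ)) = 1 := by rw [pow_mul, hq, one_pow]
    have e4 : q ^ (k : ℕ) * q ^ (2 * (k : ℕ)) = 1 := by rw [← pow_add, ← e3]; congr 1; ring
    have e5 : q ^ (k : ℕ) * q ^ (k : ℕ) = q ^ (2 * (k : ℕ)) := by rw [← pow_add]; congr 1; ring
    have e6 : q ^ (k : ℕ) • (1 / 3 : ℂ) • (v + q ^ (2 * (k : ℕ)) • A *ᵥ v +
        q ^ (k : ℕ) • A *ᵥ A *ᵥ v) = (1 / 3 : ℂ) • (q ^ (k : ℕ) • v +
        (q ^ (k : ℕ) * q ^ (2 * (k : ℕ))) • A *ᵥ v +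
        (q ^ (k : ℕ) * q ^ (k : ℕ)) • A *ᵥ A *ᵥ v) := by module
    rw [e6, e4, e5, one_smul]
    congr 1
    abel
  · have h1 : B *ᵥ A *ᵥ v = c • A *ᵥ v := by
      rw [mulVec_mulVec, ← hB, ← mulVec_mulVec, hv, mulVec_smul]
    have h2 : B *ᵥ A *ᵥ A *ᵥ v = c • A *ᵥ A *ᵥ v := by
      rw [mulVec_mulVec, ← hB, ← mulVec_mulVec, h1, mulVec_smul]
    simp only [mulVec_smul, mulVec_add, hv, h1, h2]
    module

private theorem Wt_span {ι : Type} {m : ℕ} (R : ι → Matrix (Fin m) (Fin m) ℂ)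
    (hc : ∀ i j, R i * R j = R j * R i) (h3 : ∀ i, R i ^ 3 = 1) (s : Finset ι) :
    Submodule.span ℂ {v : Fin m → ℂ | ∃ χ : ι → ℂ, ∀ i ∈ s, χ i ^ 3 = 1 ∧
      R i *ᵥ v = χ i • v} = ⊤ := by
  classical
  obtain ⟨q, hq⟩ : ∃ q : ℂ, IsPrimitiveRoot q 3 := ⟨_, Complex.isPrimitiveRoot_exp 3 (by norm_num)⟩
  induction s using Finset.induction_on with
  | empty =>
    rw [eq_top_iff]
    intro v _
    exact Submodule.subset_span ⟨fun _ => 1, fun i hi => absurd hi (Finset.notMem_empty i)⟩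
  | insert j s hj ih =>
    rw [eq_top_iff, ← ih, Submodule.span_le]
    rintro v ⟨χ, hχ⟩
    obtain ⟨w, hw, hw'⟩ := Wt_split (R j) (h3 j) q hq.pow_eq_one (hq.ne_one (by norm_num)) v
    rw [hw]
    refine Submodule.sum_mem _ fun k _ => Submodule.subset_span
      ⟨fun i => if i = j then q ^ (k : ℕ) else χ i, fun i hi => ?_⟩
    by_cases hij : i = j
    · subst hij
      simp only [if_true]
      exact ⟨by rw [← pow_mul, mul_comm, pow_mul, hq.pow_eq_one, one_pow], (hw' k).1⟩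
    · simp only [hij, if_false]
      have his : i ∈ s := (Finset.mem_insert.1 hi).resolve_left hij
      exact ⟨(hχ i his).1, (hw' k).2 (R i) (χ i) (hc j i) (hχ i his).2⟩

theorem wt {ι : Type} [Finite ι] {m : ℕ} (R : ι → Matrix (Fin m) (Fin m) ℂ)
    (hc : ∀ i j, R i * R j = R j * R i) (h3 : ∀ i, R i ^ 3 = 1) :
    ∃ (S : Matrix (Fin m) (Fin m) ℂ) (χ : Fin m → ι → ℂ), IsUnit S.det ∧
      (∀ i, R i * S = S * Matrix.diagonal (fun a => χ a i)) ∧ ∀ a i, χ a i ^ 3 = 1 := by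
  classical
  cases nonempty_fintype ι
  have hsp := Wt_span R hc h3 Finset.univ
  obtain ⟨b, hb, hbs, hli⟩ := exists_linearIndependent ℂ {v : Fin m → ℂ | ∃ χ : ι → ℂ,
    ∀ i ∈ (Finset.univ : Finset ι), χ i ^ 3 = 1 ∧ R i *ᵥ v = χ i • v}
  let B₀ : Module.Basis b ℂ (Fin m → ℂ) := Module.Basis.mk hli (by
    rw [Subtype.range_coe, hbs, hsp])
  let B : Module.Basis (Fin m) ℂ (Fin m → ℂ) :=
    B₀.reindex ((Pi.basisFun ℂ (Fin m)).indexEquiv B₀).symm
  have hB : ∀ a, ∃ χ : ι → ℂ, ∀ i, χ i ^ 3 = 1 ∧ R i *ᵥ (B a) = χ i • (B a) := by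
    intro a
    have h1 : B a ∈ b := by
      show B₀.reindex ((Pi.basisFun ℂ (Fin m)).indexEquiv B₀).symm a ∈ b
      rw [Module.Basis.reindex_apply, Module.Basis.mk_apply]
      exact Subtype.coe_prop _
    obtain ⟨χ, hχ⟩ := hb h1
    exact ⟨χ, fun i => hχ i (Finset.mem_univ i)⟩
  choose χ hχ using hB
  refine ⟨(Pi.basisFun ℂ (Fin m)).toMatrix B, χ, ?_, fun i => ?_, fun a i => (hχ a i).1⟩
  · exact Matrix.isUnit_det_of_right_inverse
      (Module.Basis.toMatrix_mul_toMatrix_flip (Pi.basisFun ℂ (Fin m)) B)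
  · ext k a
    rw [Matrix.mul_diagonal]
    have h1 := congrFun (hχ a i).2 k
    rw [Pi.smul_apply, smul_eq_mul] at h1
    have h2 : ∀ l, (Pi.basisFun ℂ (Fin m)).toMatrix B l a = B a l := fun l => by
      rw [Module.Basis.toMatrix_apply, Pi.basisFun_repr]
    rw [Matrix.mul_apply, h2, mul_comm, ← h1]
    simp only [h2]
    rfl

theorem wt_st {ι : Type} {m : ℕ} (R : ι → Matrix (Fin m) (Fin m) ℂ)
    (S : Matrix (Fin m) (Fin m) ℂ) (χ : Fin m → ι → ℂ) (hS : IsUnit S.det)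
    (h : ∀ i, R i * S = S * Matrix.diagonal (fun a => χ a i)) (g : Matrix (Fin m) (Fin m) ℂ)
    (hg : IsUnit g.det) (π : ι → ι) (hπ : ∀ i, g * R i = R (π i) * g) (a : Fin m) :
    ∃ a', ∀ i, χ a' (π i) = χ a i := by
  have hg' : IsUnit (S⁻¹ * g * S).det := by
    rw [det_mul, det_mul]
    exact ((Matrix.isUnit_nonsing_inv_det S hS).mul hg).mul hS
  have hD : ∀ i, Matrix.diagonal (fun a => χ a (π i)) * (S⁻¹ * g * S) =
      (S⁻¹ * g * S) * Matrix.diagonal (fun a => χ a i) := by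
    intro i
    have h1 : Matrix.diagonal (fun a => χ a (π i)) = S⁻¹ * (R (π i) * S) := by
      rw [h, ← Matrix.mul_assoc, Matrix.nonsing_inv_mul S hS, Matrix.one_mul]
    rw [h1]
    calc S⁻¹ * (R (π i) * S) * (S⁻¹ * g * S) =
        S⁻¹ * R (π i) * (S * S⁻¹) * g * S := by simp only [Matrix.mul_assoc]
      _ = S⁻¹ * (R (π i) * g) * S := by
          rw [Matrix.mul_nonsing_inv S hS, Matrix.mul_one]; simp only [Matrix.mul_assoc]
      _ = S⁻¹ * g * (R i * S) := by rw [← hπ]; simp only [Matrix.mul_assoc]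
      _ = S⁻¹ * g * S * Matrix.diagonal (fun a => χ a i) := by
          rw [h]; simp only [Matrix.mul_assoc]
  obtain ⟨a', ha'⟩ : ∃ a', (S⁻¹ * g * S) a' a ≠ 0 := by
    by_contra hne
    push Not at hne
    exact hg'.ne_zero (Matrix.det_eq_zero_of_column_eq_zero a hne)
  refine ⟨a', fun i => ?_⟩
  have h1 := congrFun (congrFun (hD i) a') a
  rw [Matrix.diagonal_mul, Matrix.mul_diagonal, mul_comm] at h1
  exact mul_left_cancel₀ ha' h1

end PadDet.Eq
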