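import Pool.Agent.H.MP_d7db32_ag.Eq.Def

/-!
# MP_d7db32_ag, Eq/FvA: values of the form and the action

`Fv_act`: `Y - Yᵀ = g (X - Xᵀ) gᵀ` and `Y + Yᵀ = s g (X + Xᵀ) gᵀ` for `Y = act (g, s) X`; `adj (g B gᵀ) = adj gᵀ adj B adj g` (`Matrix.adjugate_mul_distrib`),
`adj g * g = det g`, cyclicity of the trace.

`skew_mem`: as `limPoly_mem` (file G): `D = det (A + X Y)` as a polynomial in one variable over the ring of forms, `A = x - xᵀ`, `Y = x + xᵀ`,
`D.coeff 0 = det A = 0` (`Aᵀ = - A`, odd size), `D.coeff 1 = skewForm` (`coeff_one_det`), and for `ε ≠ 0` the form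
`ε⁻¹ D(ε)` is in the orbit: the substitution `x ↦ c ((x - xᵀ) + ε (x + xᵀ))`, `c ^ n = ε⁻¹`, is invertible. `closure_curve`.
-/

set_option autoImplicit false

namespace PadDet.Eq

open MvPolynomial Matrix

theorem eval_skew {n : ℕ} (X : Matrix (Fin n) (Fin n) ℂ) :
    eval (fun p => X p.1 p.2) (skewForm n) = Fv X := by
  unfold skewForm Fv
  rw [map_trace_adj]
  congr 3
  · ext i j
    simp [mvPolynomialX_apply]
  · ext i j
    simp [mvPolynomialX_apply]

theorem Fv_act {n : ℕ} (h : GL (Fin n) ℂ × ℂˣ) (X : Matrix (Fin n) (Fin n) ℂ) :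
    Fv (act h X) = (h.1 : Matrix (Fin n) (Fin n) ℂ).det ^ 2 * (h.2 : ℂ) * Fv X := by
  obtain ⟨g, s⟩ := h
  generalize hG : (g : Matrix (Fin n) (Fin n) ℂ) = G
  have e1 : act (g, s) X - (act (g, s) X)ᵀ = G * (X - Xᵀ) * Gᵀ := by
    unfold act
    simp only [hG, Matrix.transpose_mul, Matrix.transpose_add, Matrix.transpose_smul,
      Matrix.transpose_sub, Matrix.transpose_transpose]
    rw [← Matrix.mul_assoc, ← Matrix.sub_mul, ← Matrix.mul_sub]
    congr 2
    ext i j
    simp only [Matrix.sub_apply, Matrix.add_apply, Matrix.smul_apply, Matrix.transpose_apply,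
      smul_eq_mul]
    ring
  have e2 : act (g, s) X + (act (g, s) X)ᵀ = (s : ℂ) • (G * (X + Xᵀ) * Gᵀ) := by
    unfold act
    simp only [hG, Matrix.transpose_mul, Matrix.transpose_add, Matrix.transpose_smul,
      Matrix.transpose_sub, Matrix.transpose_transpose]
    rw [← Matrix.mul_assoc, ← Matrix.add_mul, ← Matrix.mul_add, ← Matrix.smul_mul, ← Matrix.mul_smul]
    congr 2
    ext i j
    simp only [Matrix.sub_apply, Matrix.add_apply, Matrix.smul_apply, Matrix.transpose_apply,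
      smul_eq_mul]
    ring
  have key : Fv (act (g, s) X) = (G.det ^ 2 * (s : ℂ)) * Fv X := by
    unfold Fv
    rw [e1, e2, Matrix.adjugate_mul_distrib, Matrix.adjugate_mul_distrib, Matrix.mul_smul,
      Matrix.trace_smul, smul_eq_mul]
    have h1 : Gᵀ.adjugate * ((X - Xᵀ).adjugate * G.adjugate) * (G * (X + Xᵀ) * Gᵀ) =
        G.det • (Gᵀ.adjugate * ((X - Xᵀ).adjugate * (X + Xᵀ)) * Gᵀ) := by
      calc Gᵀ.adjugate * ((X - Xᵀ).adjugate * G.adjugate) * (G * (X + Xᵀ) * Gᵀ)
          = Gᵀ.adjugate * ((X - Xᵀ).adjugate * ((G.adjugate * G) * (X + Xᵀ))) * Gᵀ := by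
            simp only [Matrix.mul_assoc]
        _ = _ := by
            rw [Matrix.adjugate_mul, Matrix.smul_mul, Matrix.one_mul, Matrix.mul_smul,
              Matrix.mul_smul, Matrix.smul_mul]
    rw [h1, Matrix.trace_smul, Matrix.trace_mul_comm, ← Matrix.mul_assoc, Matrix.mul_adjugate,
      Matrix.det_transpose, Matrix.smul_mul, Matrix.one_mul, Matrix.trace_smul, smul_eq_mul,
      smul_eq_mul]
    ring
  exact key

/-- The substitution whose image of the matrix of variables is `c ((x - xᵀ) + ε (x + xᵀ))`. -/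
private noncomputable def FvA_g (n : ℕ) (c ε : ℂ) : Matrix (Fin n × Fin n) (Fin n × Fin n) ℂ :=
  Matrix.of fun p v => c * ((if v = p then 1 else 0) - (if v = p.swap then 1 else 0) +
    ε * ((if v = p then 1 else 0) + (if v = p.swap then 1 else 0)))

private theorem FvA_mulVec {n : ℕ} (c ε : ℂ) (z : Fin n × Fin n → ℂ) (p : Fin n × Fin n) :
    (FvA_g n c ε *ᵥ z) p = c * (z p - z p.swap + ε * (z p + z p.swap)) := by
  have hs : ∀ q : Fin n × Fin n, ∑ v, (if v = q then (1 : ℂ) else 0) * z v = z q := by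
    intro q
    simp
  have h1 : (FvA_g n c ε *ᵥ z) p = ∑ v, (c * (1 + ε) * ((if v = p then (1 : ℂ) else 0) * z v) +
      c * (ε - 1) * ((if v = p.swap then (1 : ℂ) else 0) * z v)) := by
    simp only [Matrix.mulVec, dotProduct, FvA_g, Matrix.of_apply]
    exact Finset.sum_congr rfl fun v _ => by ring
  rw [h1, Finset.sum_add_distrib, ← Finset.mul_sum, ← Finset.mul_sum, hs, hs]
  ring

private theorem FvA_unit {n : ℕ} {c ε : ℂ} (hc : c ≠ 0) (hε : ε ≠ 0) :
    IsUnit (FvA_g n c ε).det := by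
  rw [isUnit_iff_ne_zero]
  intro h0
  obtain ⟨z, hz, h⟩ := Matrix.exists_mulVec_eq_zero_iff.2 h0
  apply hz
  ext p
  have h1 := congrFun h p
  have h2 := congrFun h p.swap
  rw [FvA_mulVec] at h1 h2
  rw [Prod.swap_swap] at h2
  have h3 : z p - z p.swap + ε * (z p + z p.swap) = 0 := (mul_eq_zero.1 h1).resolve_left hc
  have h4 : z p.swap - z p + ε * (z p.swap + z p) = 0 := (mul_eq_zero.1 h2).resolve_left hc
  have h5 : ε * (2 * (z p + z p.swap)) = 0 := by linear_combination h3 + h4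
  have h6 : z p + z p.swap = 0 := by
    have := (mul_eq_zero.1 h5).resolve_left hε
    exact (mul_eq_zero.1 this).resolve_left two_ne_zero
  have h7 : 2 * z p = 0 := by linear_combination h3 + (1 - ε) * h6
  exact (mul_eq_zero.1 h7).resolve_left two_ne_zero

private theorem FvA_subst {n : ℕ} (c ε : ℂ) :
    subst (FvA_g n c ε) (detPoly n) =
      C (c ^ n) * ((mvPolynomialX (Fin n) (Fin n) ℂ - (mvPolynomialX (Fin n) (Fin n) ℂ)ᵀ) +
        (C ε : MvPolynomial (Fin n × Fin n) ℂ) •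
        (mvPolynomialX (Fin n) (Fin n) ℂ + (mvPolynomialX (Fin n) (Fin n) ℂ)ᵀ)).det := by
  rw [subst_det]
  have h : (Matrix.of fun i j => ∑ v, C (FvA_g n c ε (i, j) v) * X v :
      Matrix (Fin n) (Fin n) (MvPolynomial (Fin n × Fin n) ℂ)) =
      (C c : MvPolynomial (Fin n × Fin n) ℂ) •
        ((mvPolynomialX (Fin n) (Fin n) ℂ - (mvPolynomialX (Fin n) (Fin n) ℂ)ᵀ) +
        (C ε : MvPolynomial (Fin n × Fin n) ℂ) •
        (mvPolynomialX (Fin n) (Fin n) ℂ + (mvPolynomialX (Fin n) (Fin n) ℂ)ᵀ)) := by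
    ext1 i j
    rw [Matrix.of_apply, Matrix.smul_apply, Matrix.add_apply, Matrix.smul_apply, Matrix.sub_apply,
      Matrix.add_apply, Matrix.transpose_apply, mvPolynomialX_apply, mvPolynomialX_apply,
      smul_eq_mul, smul_eq_mul]
    have hs : ∀ q : Fin n × Fin n, ∑ v, C (if v = q then (1 : ℂ) else 0) *
        (X v : MvPolynomial (Fin n × Fin n) ℂ) = X q := by
      intro q
      rw [Finset.sum_eq_single q]
      · rw [if_pos rfl, map_one, one_mul]
      · intro v _ hv
        rw [if_neg hv, map_zero, zero_mul]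
      · intro h; exact absurd (Finset.mem_univ _) h
    have h1 : ∀ v : Fin n × Fin n, (C (FvA_g n c ε (i, j) v) * X v : MvPolynomial (Fin n × Fin n) ℂ) =
        C (c * (1 + ε)) * (C (if v = (i, j) then (1 : ℂ) else 0) * X v) +
        C (c * (ε - 1)) * (C (if v = (j, i) then (1 : ℂ) else 0) * X v) := by
      intro v
      have h2 : FvA_g n c ε (i, j) v = c * (1 + ε) * (if v = (i, j) then (1 : ℂ) else 0) +
          c * (ε - 1) * (if v = (j, i) then (1 : ℂ) else 0) := by
        simp only [FvA_g, Matrix.of_apply, Prod.swap_prod_mk]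
        ring
      rw [h2, map_add, map_mul C (c * (1 + ε)), map_mul C (c * (ε - 1))]
      ring
    rw [Finset.sum_congr rfl fun v _ => h1 v, Finset.sum_add_distrib, ← Finset.mul_sum,
      ← Finset.mul_sum, hs, hs]
    simp only [map_mul, map_add, map_sub, map_one]
    ring
  rw [h, Matrix.det_smul, Fintype.card_fin, map_pow]

theorem skew_mem (k : ℕ) : skewForm (2 * k + 1) ∈ zariskiClosure (orbit (2 * k + 1)) := by
  set A := mvPolynomialX (Fin (2 * k + 1)) (Fin (2 * k + 1)) ℂ -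
    (mvPolynomialX (Fin (2 * k + 1)) (Fin (2 * k + 1)) ℂ)ᵀ with hA
  set Y := mvPolynomialX (Fin (2 * k + 1)) (Fin (2 * k + 1)) ℂ +
    (mvPolynomialX (Fin (2 * k + 1)) (Fin (2 * k + 1)) ℂ)ᵀ with hY
  let D := (A.map Polynomial.C +
    (Polynomial.X : Polynomial (MvPolynomial (Fin (2 * k + 1) × Fin (2 * k + 1)) ℂ)) •
    Y.map Polynomial.C).det
  have hD1 : D.coeff 1 = skewForm (2 * k + 1) := coeff_one_det A Y
  have hDe : ∀ a : MvPolynomial (Fin (2 * k + 1) × Fin (2 * k + 1)) ℂ,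
      D.eval a = (A + a • Y).det := by
    intro a
    have := (Polynomial.evalRingHom a).map_det
      (A.map Polynomial.C +
        (Polynomial.X : Polynomial (MvPolynomial (Fin (2 * k + 1) × Fin (2 * k + 1)) ℂ)) •
        Y.map Polynomial.C)
    rw [Polynomial.coe_evalRingHom] at this
    show Polynomial.eval a D = _
    rw [this]
    congr 1
    ext1 i j
    simp
    exact mul_comm _ _
  have hdet : A.det = 0 := by
    have h1 : Aᵀ = - A := by
      rw [hA, Matrix.transpose_sub, Matrix.transpose_transpose, neg_sub]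
    have h2 : A.det = - A.det := by
      calc A.det = Aᵀ.det := (Matrix.det_transpose A).symm
        _ = (- A).det := by rw [h1]
        _ = (-1) ^ (2 * k + 1) * A.det := by rw [Matrix.det_neg, Fintype.card_fin]
        _ = - A.det := by
          rw [Odd.neg_one_pow ⟨k, rfl⟩]
          ring
    have h3 : (2 : MvPolynomial (Fin (2 * k + 1) × Fin (2 * k + 1)) ℂ) * A.det = 0 := by
      linear_combination h2
    exact (mul_eq_zero.1 h3).resolve_left two_ne_zero
  have hD0 : D.coeff 0 = 0 := by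
    rw [Polynomial.coeff_zero_eq_eval_zero, hDe, zero_smul, add_zero]
    exact hdet
  rw [← hD1]
  refine closure_curve (fun k => D.coeff (k + 1)) D.natDegree fun ε hε => ?_
  obtain ⟨c, hc⟩ := IsAlgClosed.exists_pow_nat_eq (ε⁻¹) (n := 2 * k + 1) (by omega)
  have hc0 : c ≠ 0 := by
    rintro rfl
    rw [zero_pow (by omega)] at hc
    exact inv_ne_zero hε hc.symm
  refine ⟨FvA_g (2 * k + 1) c ε, FvA_unit hc0 hε, ?_⟩
  rw [FvA_subst, hc, ← hA, ← hY, ← hDe,
    Polynomial.eval_eq_sum_range' (n := D.natDegree + 1 + 1) (by omega),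
    Finset.sum_range_succ' _ (D.natDegree + 1), hD0, zero_mul, add_zero, Finset.mul_sum]
  refine Finset.sum_congr rfl fun j _ => ?_
  have h1 : (C ε⁻¹ : MvPolynomial (Fin (2 * k + 1) × Fin (2 * k + 1)) ℂ) * C ε = 1 := by
    rw [← map_mul, inv_mul_cancel₀ hε, map_one]
  rw [MvPolynomial.smul_eq_C_mul, map_pow, pow_succ]
  calc (C ε : MvPolynomial (Fin (2 * k + 1) × Fin (2 * k + 1)) ℂ) ^ j * D.coeff (j + 1)
      = (C ε⁻¹ * C ε) * (C ε ^ j * D.coeff (j + 1)) := by rw [h1, one_mul]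
    _ = _ := by ring

end PadDet.Eq
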