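import Pool.Agent.H.MP_d7db32_ag.Eq.Vm

/-!
# MP_d7db32_ag, Eq/Row: full row rank and maximal minors (over `ℂ`)

`row_vm`: the rows of `Q` are linearly independent vectors of `ℂ^(r+1)`; they do not span, so some `w` is not in their span and
`w, Q 0, .., Q (r-1)` are independent; the determinant of the matrix with these rows is not zero and equals `∑ a, vm Q a * w a`
(`Matrix.det_succ_row_zero`), so some `vm Q a ≠ 0`.

`vm_match`: expand `det (Q.submatrix id a.succAbove)` (`Matrix.det_apply`): some permutation has a nonzero product.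
-/

set_option autoImplicit false

namespace PadDet.Eq

open Matrix

theorem row_vm {r : ℕ} (Q : Matrix (Fin r) (Fin (r + 1)) ℂ)
    (h : ∀ u : Fin r → ℂ, u ᵥ* Q = 0 → u = 0) : ∃ a, vm Q a ≠ 0 := by
  have hli : LinearIndependent ℂ (fun i => Q i) := by
    rw [Fintype.linearIndependent_iff]
    intro g hg
    have h0 : g ᵥ* Q = 0 := by
      funext b
      have := congrFun hg b
      simp only [Finset.sum_apply, Pi.smul_apply, smul_eq_mul, Pi.zero_apply] at this
      simpa [Matrix.vecMul, dotProduct] using this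
    intro i
    exact congrFun (h g h0) i
  have hne : Submodule.span ℂ (Set.range (fun i => Q i)) ≠ ⊤ := by
    intro htop
    have h1 := finrank_span_eq_card hli
    rw [htop, finrank_top] at h1
    simp at h1
  obtain ⟨w, hw⟩ : ∃ w, w ∉ Submodule.span ℂ (Set.range (fun i => Q i)) := by
    by_contra hcon
    push Not at hcon
    exact hne (eq_top_iff.2 (fun x _ => hcon x))
  have hli2 : LinearIndependent ℂ (Fin.cons w (fun i => Q i) : Fin (r + 1) → (Fin (r + 1) → ℂ)) :=
    linearIndependent_finCons.2 ⟨hli, hw⟩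
  have hdet : (Matrix.of (Fin.cons w (fun i => Q i) : Fin (r + 1) → (Fin (r + 1) → ℂ))).det ≠ 0 := by
    have hu : IsUnit (Matrix.of (Fin.cons w (fun i => Q i) : Fin (r + 1) → (Fin (r + 1) → ℂ))) :=
      Matrix.linearIndependent_rows_iff_isUnit.1 hli2
    exact ((Matrix.isUnit_iff_isUnit_det _).1 hu).ne_zero
  by_contra hcon
  push Not at hcon
  apply hdet
  rw [Matrix.det_succ_row_zero]
  refine Finset.sum_eq_zero (fun a _ => ?_)
  have h2 := hcon a
  unfold vm at h2
  have h3 : ((Matrix.of (Fin.cons w (fun i => Q i) : Fin (r + 1) → (Fin (r + 1) → ℂ))).submatrix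
      Fin.succ a.succAbove) = Q.submatrix id a.succAbove := by
    ext i j
    simp
  rw [h3]
  calc (-1) ^ (a : ℕ) * (Matrix.of (Fin.cons w (fun i => Q i) : Fin (r + 1) → (Fin (r + 1) → ℂ))) 0 a
        * (Q.submatrix id a.succAbove).det
      = (Matrix.of (Fin.cons w (fun i => Q i) : Fin (r + 1) → (Fin (r + 1) → ℂ))) 0 a *
        ((-1) ^ (a : ℕ) * (Q.submatrix id a.succAbove).det) := by ring
    _ = 0 := by rw [h2, mul_zero]

theorem vm_match {r : ℕ} (Q : Matrix (Fin r) (Fin (r + 1)) ℂ) (a : Fin (r + 1))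
    (h : vm Q a ≠ 0) : ∃ φ : Fin r ↪ Fin (r + 1), ∀ j, Q j (φ j) ≠ 0 := by
  unfold vm at h
  have h1 : (Q.submatrix id a.succAbove).det ≠ 0 := right_ne_zero_of_mul h
  rw [Matrix.det_apply] at h1
  obtain ⟨σ, -, hσ⟩ := Finset.exists_ne_zero_of_sum_ne_zero h1
  have h2 : (∏ i, (Q.submatrix id a.succAbove) (σ i) i) ≠ 0 := by
    intro h0
    rw [h0, smul_zero] at hσ
    exact hσ rfl
  rw [Finset.prod_ne_zero_iff] at h2
  refine ⟨⟨fun j => a.succAbove (σ⁻¹ j), ?_⟩, ?_⟩
  · intro x y hxy
    have := Fin.succAbove_right_injective hxy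
    exact (σ⁻¹).injective this
  · intro j
    have := h2 (σ⁻¹ j) (Finset.mem_univ _)
    simpa using this

end PadDet.Eq
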