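import Pool.Agent.H.MP_d7db32_ag.Eq.HbB
import Pool.Agent.H.MP_d7db32_ag.Eq.Row

/-!
# MP_d7db32_ag, Eq/Hb: full rank off the origin of `ℂ^3` implies full rank at the origin

Reindex `J` to `Fin r`, `I` to `Fin (r + 1)`. Let `K = span (vm Q)`. By `row_vm` (and `vm_map`) the `vm Q a` have no common
zero `p ≠ 0`, so every `X i` vanishes on the zero locus of `K`: by the Nullstellensatz
(`MvPolynomial.vanishingIdeal_zeroLocus_eq_radical`) `X i ^ N ∈ K` for a common `N`. `hb_one`: `1 ∈ K`, evaluate at `0`: some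
`vm Q a` is nonzero at `0`; `vm_match`.
-/

set_option autoImplicit false

namespace PadDet.Eq

open MvPolynomial Matrix

private theorem Hb_fin {r : ℕ} (Q : Matrix (Fin r) (Fin (r + 1)) (MvPolynomial (Fin 3) ℂ))
    (h : ∀ p : Fin 3 → ℂ, p ≠ 0 → ∀ u : Fin r → ℂ, u ᵥ* (Q.map (eval p)) = 0 → u = 0) :
    ∃ φ : Fin r ↪ Fin (r + 1), ∀ j, eval 0 (Q j (φ j)) ≠ 0 := by
  obtain ⟨K, hK⟩ : ∃ K : Ideal (MvPolynomial (Fin 3) ℂ), K = Ideal.span (Set.range (vm Q)) :=
    ⟨_, rfl⟩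
  have hX : ∀ i : Fin 3, (X i : MvPolynomial (Fin 3) ℂ) ∈ K.radical := by
    intro i
    rw [← vanishingIdeal_zeroLocus_eq_radical (k := ℂ) (K := ℂ), mem_vanishingIdeal_iff]
    intro x hx
    rw [mem_zeroLocus_iff] at hx
    have hx0 : x = 0 := by
      by_contra hne
      obtain ⟨a, ha⟩ := row_vm (Q.map (eval x)) (h x hne)
      apply ha
      rw [vm_map]
      have h1 := hx (vm Q a) (by rw [hK]; exact Ideal.subset_span ⟨a, rfl⟩)
      rwa [aeval_eq_eval] at h1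
    rw [hx0, aeval_X]
    rfl
  choose N hN using fun i => Ideal.mem_radical_iff.1 (hX i)
  have hN' : ∀ i : Fin 3, (X i : MvPolynomial (Fin 3) ℂ) ^ (∑ j, N j) ∈
      Ideal.span (Set.range (vm Q)) := by
    intro i
    rw [← hK, ← Nat.sub_add_cancel (Finset.single_le_sum (f := N) (fun j _ => Nat.zero_le _)
      (Finset.mem_univ i)), pow_add]
    exact Ideal.mul_mem_left _ _ (hN i)
  have h1 := hb_one Q _ hN'
  obtain ⟨a, ha⟩ : ∃ a, eval (0 : Fin 3 → ℂ) (vm Q a) ≠ 0 := by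
    by_contra hcon
    push Not at hcon
    have h2 : Ideal.span (Set.range (vm Q)) ≤ RingHom.ker (eval (0 : Fin 3 → ℂ)) := by
      rw [Ideal.span_le]
      rintro _ ⟨a, rfl⟩
      exact hcon a
    have h3 := h2 h1
    rw [RingHom.mem_ker, map_one] at h3
    exact one_ne_zero h3
  rw [← vm_map] at ha
  obtain ⟨φ, hφ⟩ := vm_match _ a ha
  exact ⟨φ, hφ⟩

theorem hb_match {J I : Type} [Fintype J] [Fintype I]
    (hc : Fintype.card I = Fintype.card J + 1) (Q : Matrix J I (MvPolynomial (Fin 3) ℂ))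
    (h : ∀ p : Fin 3 → ℂ, p ≠ 0 → ∀ u : J → ℂ, u ᵥ* (Q.map (eval p)) = 0 → u = 0) :
    ∃ φ : J ↪ I, ∀ j, eval 0 (Q j (φ j)) ≠ 0 := by
  obtain ⟨eJ⟩ : Nonempty (J ≃ Fin (Fintype.card J)) := ⟨Fintype.equivFin J⟩
  obtain ⟨eI⟩ : Nonempty (I ≃ Fin (Fintype.card J + 1)) := ⟨Fintype.equivFinOfCardEq hc⟩
  obtain ⟨φ, hφ⟩ := Hb_fin (Q.submatrix eJ.symm eI.symm) (by
    intro p hp u hu
    have h1 := h p hp (fun j => u (eJ j)) (by
      funext i
      have h2 := congrFun hu (eI i)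
      simp only [Matrix.vecMul, dotProduct, Matrix.map_apply, Matrix.submatrix_apply,
        Equiv.symm_apply_apply, Pi.zero_apply] at h2 ⊢
      rw [← h2, ← Equiv.sum_comp eJ]
      simp)
    funext k
    have h3 := congrFun h1 (eJ.symm k)
    simpa using h3)
  refine ⟨eJ.toEmbedding.trans (φ.trans eI.symm.toEmbedding), fun j => ?_⟩
  have h4 := hφ (eJ j)
  simpa using h4

end PadDet.Eq
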