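import Mathlib

/-!
# MP_d7db32_ag, Eq/Vm: signed maximal minors of an `r × (r + 1)` matrix

`vm_row`: the `(r + 1) × (r + 1)` matrix with rows `Q i, Q 0, .., Q (r-1)` (`Fin.cons (Q i) Q`, `Matrix.of`) has two equal rows;
expand along row `0` (`Matrix.det_succ_row_zero`).

`vm_im`: let `B` be the matrix with rows `w, Q 0, .., Q (r-1)`; `det B = ∑ a, vm Q a * w a = 0` (`Matrix.det_succ_row_zero`).
`B.adjugate * B = 0` and `B.adjugate a 0 = vm Q a` (`Matrix.adjugate_fin_succ_eq_det_submatrix`): row `a` of the product is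
`vm Q a * w b + ∑ j, B.adjugate a (j.succ) * Q j b = 0`; take `s j = - B.adjugate a j.succ`.

`vm_inj`: delete column `a`: `s ᵥ* (Q.submatrix id a.succAbove) = 0`; multiply by the adjugate.
-/

set_option autoImplicit false

namespace PadDet.Eq

open Matrix

/-- Signed maximal minors. -/
noncomputable def vm {R : Type} [CommRing R] {r : ℕ} (Q : Matrix (Fin r) (Fin (r + 1)) R)
    (a : Fin (r + 1)) : R :=
  (-1) ^ (a : ℕ) * (Q.submatrix id a.succAbove).det

/-- Expansion of the determinant along the row `w`. -/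
theorem vm_det {R : Type} [CommRing R] {r : ℕ} (Q : Matrix (Fin r) (Fin (r + 1)) R)
    (w : Fin (r + 1) → R) :
    (Matrix.of (Fin.cons w Q : Fin (r + 1) → Fin (r + 1) → R)).det = ∑ a, vm Q a * w a := by
  rw [Matrix.det_succ_row_zero]
  refine Finset.sum_congr rfl fun a _ => ?_
  have h1 : (Matrix.of (Fin.cons w Q : Fin (r + 1) → Fin (r + 1) → R)).submatrix Fin.succ
      a.succAbove = Q.submatrix id a.succAbove := by
    ext i j
    simp
  rw [h1]
  simp only [Matrix.of_apply, Fin.cons_zero]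
  unfold vm
  ring

theorem vm_row {R : Type} [CommRing R] {r : ℕ} (Q : Matrix (Fin r) (Fin (r + 1)) R) (i : Fin r) :
    ∑ a, vm Q a * Q i a = 0 := by
  rw [← vm_det Q (Q i)]
  refine Matrix.det_zero_of_row_eq (i := 0) (j := i.succ) (Fin.succ_ne_zero i).symm ?_
  funext j
  simp

theorem vm_im {R : Type} [CommRing R] {r : ℕ} (Q : Matrix (Fin r) (Fin (r + 1)) R)
    (w : Fin (r + 1) → R) (hw : ∑ a, vm Q a * w a = 0) (a : Fin (r + 1)) :
    ∃ s : Fin r → R, ∀ b, vm Q a * w b = (s ᵥ* Q) b := by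
  set B : Matrix (Fin (r + 1)) (Fin (r + 1)) R :=
    Matrix.of (Fin.cons w Q : Fin (r + 1) → Fin (r + 1) → R) with hB
  have hdet : B.det = 0 := by rw [hB, vm_det, hw]
  have h1 : B.adjugate * B = 0 := by rw [Matrix.adjugate_mul, hdet, zero_smul]
  have h0 : B.adjugate a 0 = vm Q a := by
    rw [Matrix.adjugate_fin_succ_eq_det_submatrix]
    have h2 : B.submatrix (Fin.succAbove 0) a.succAbove = Q.submatrix id a.succAbove := by
      ext i j
      simp [hB]
    rw [h2]
    unfold vm
    simp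
  refine ⟨fun j => - B.adjugate a j.succ, fun b => ?_⟩
  have h3 : (B.adjugate * B) a b = 0 := by rw [h1]; rfl
  rw [Matrix.mul_apply, Fin.sum_univ_succ, h0] at h3
  have h4 : B 0 b = w b := by simp [hB]
  have h5 : ∀ j : Fin r, B j.succ b = Q j b := fun j => by simp [hB]
  rw [h4] at h3
  simp only [h5] at h3
  have h6 : ((fun j => - B.adjugate a j.succ) ᵥ* Q) b =
      - ∑ j : Fin r, B.adjugate a j.succ * Q j b := by
    simp only [Matrix.vecMul, dotProduct, neg_mul, Finset.sum_neg_distrib]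
  rw [h6]
  exact eq_neg_of_add_eq_zero_left h3

theorem vm_inj {R : Type} [CommRing R] {r : ℕ} (Q : Matrix (Fin r) (Fin (r + 1)) R)
    (s : Fin r → R) (hs : s ᵥ* Q = 0) (a : Fin (r + 1)) (i : Fin r) : vm Q a * s i = 0 := by
  set C := Q.submatrix id a.succAbove with hC
  have h1 : s ᵥ* C = 0 := by
    funext j
    have h2 := congrFun hs (a.succAbove j)
    simpa [hC, Matrix.vecMul, dotProduct] using h2
  have h2 : s ᵥ* (C * C.adjugate) = 0 := by
    rw [← Matrix.vecMul_vecMul, h1, Matrix.zero_vecMul]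
  rw [Matrix.mul_adjugate] at h2
  have h3 := congrFun h2 i
  have h4 : (s ᵥ* (C.det • (1 : Matrix (Fin r) (Fin r) R))) i = C.det * s i := by
    rw [Matrix.vecMul_smul, Matrix.vecMul_one, Pi.smul_apply, smul_eq_mul]
  rw [h4] at h3
  unfold vm
  rw [mul_assoc, ← hC, h3]
  simp

theorem vm_map {R S : Type} [CommRing R] [CommRing S] (f : R →+* S) {r : ℕ}
    (Q : Matrix (Fin r) (Fin (r + 1)) R) (a : Fin (r + 1)) : vm (Q.map f) a = f (vm Q a) := by
  unfold vm
  rw [map_mul, map_pow, map_neg, map_one, RingHom.map_det]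
  rfl

end PadDet.Eq
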