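import Pool.Agent.H.MP_d7db32_ag.Eq.Kos
import Pool.Agent.H.MP_d7db32_ag.Eq.Vm

/-!
# MP_d7db32_ag, Eq/HbB: the ideal of maximal minors is not supported at the origin of `ℂ^3` (Hilbert-Burch)

`I = span (vm Q)`, `v = vm Q`. (i) `s ᵥ* Q = 0` implies `s = 0`: `vm_inj`, so `g * s i = 0` for all `g ∈ I`, take `g = X 0 ^ N`.
(ii) `∑ v a * w a = 0` implies `w = s ᵥ* Q`: by `vm_im` and linearity for every `g ∈ I` some `s` has `g • w = s ᵥ* Q`; for
`g = X 0 ^ N`, `X 1 ^ N`: `X 0 ^ N • w = s ᵥ* Q`, `X 1 ^ N • w = s' ᵥ* Q`, so `X 1 ^ N • s = X 0 ^ N • s'` by (i), `cop`: `s = X 0 ^ N • u`,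
cancel `X 0 ^ N`.
(iii) `X i * r ∈ I` for `i = 0, 1, 2` implies `r ∈ I`: `X i * r = ∑ v a * w_i a`. `X 1 • w_0 - X 0 • w_1 = s_01 ᵥ* Q`,
`X 2 • w_0 - X 0 • w_2 = s_02 ᵥ* Q`, `X 2 • w_1 - X 1 • w_2 = s_12 ᵥ* Q` by (ii); by (i) `X 2 • s_01 - X 1 • s_02 + X 0 • s_12 = 0`; `kos`
(coordinatewise, with `s 0 = s_12`, `s 1 = - s_02`, `s 2 = s_01`): `s_12 = X 1 • a + X 2 • b`, `s_02 = X 0 • a - X 2 • c`, `s_01 = - X 0 • b - X 1 • c`.
So `X 1 • (w_0 + c ᵥ* Q) = X 0 • (w_1 - b ᵥ* Q)`, `cop` with `N = 1`: `w_0 + c ᵥ* Q = X 0 • u`; then `X 0 * r = ∑ v a * w_0 a = X 0 * ∑ v a * u a` (`vm_row`).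
(iv) `X 0 ^ i * X 1 ^ j * X 2 ^ l ∈ I` for all `i j l`: true if one exponent is `≥ N`, else by (iii) and induction on `3 N - (i + j + l)`.
-/

set_option autoImplicit false

namespace PadDet.Eq

open MvPolynomial Matrix

private theorem HbB_X (i : Fin 3) (N : ℕ) : (X i : MvPolynomial (Fin 3) ℂ) ^ N ≠ 0 :=
  pow_ne_zero N (X_ne_zero i)

private theorem HbB_mem {r : ℕ} (Q : Matrix (Fin r) (Fin (r + 1)) (MvPolynomial (Fin 3) ℂ))
    (f : MvPolynomial (Fin 3) ℂ) : f ∈ Ideal.span (Set.range (vm Q)) ↔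
      ∃ w : Fin (r + 1) → MvPolynomial (Fin 3) ℂ, ∑ a, vm Q a * w a = f := by
  rw [Ideal.mem_span_range_iff_exists_fun]
  constructor
  · rintro ⟨c, hc⟩
    refine ⟨c, ?_⟩
    rw [← hc]
    exact Finset.sum_congr rfl fun a _ => mul_comm _ _
  · rintro ⟨c, hc⟩
    refine ⟨c, ?_⟩
    rw [← hc]
    exact Finset.sum_congr rfl fun a _ => mul_comm _ _

/-- step (i) -/
private theorem HbB_inj {r : ℕ} (Q : Matrix (Fin r) (Fin (r + 1)) (MvPolynomial (Fin 3) ℂ))
    (N : ℕ) (hN : ∀ i : Fin 3, X i ^ N ∈ Ideal.span (Set.range (vm Q)))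
    (s : Fin r → MvPolynomial (Fin 3) ℂ) (hs : ∀ b, ∑ i, s i * Q i b = 0) (i : Fin r) :
    s i = 0 := by
  obtain ⟨w, hw⟩ := (HbB_mem Q _).1 (hN 0)
  have h0 : s ᵥ* Q = 0 := by
    funext b
    exact hs b
  have h1 : (X 0 : MvPolynomial (Fin 3) ℂ) ^ N * s i = 0 := by
    rw [← hw, Finset.sum_mul]
    refine Finset.sum_eq_zero fun a _ => ?_
    have h2 := vm_inj Q s h0 a i
    calc vm Q a * w a * s i = w a * (vm Q a * s i) := by ring
      _ = 0 := by rw [h2, mul_zero]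
  exact (mul_eq_zero.1 h1).resolve_left (HbB_X 0 N)

/-- for all elements of the ideal -/
private theorem HbB_im {r : ℕ} (Q : Matrix (Fin r) (Fin (r + 1)) (MvPolynomial (Fin 3) ℂ))
    (w : Fin (r + 1) → MvPolynomial (Fin 3) ℂ) (hw : ∑ a, vm Q a * w a = 0)
    (g : MvPolynomial (Fin 3) ℂ) (hg : g ∈ Ideal.span (Set.range (vm Q))) :
    ∃ s : Fin r → MvPolynomial (Fin 3) ℂ, ∀ b, g * w b = ∑ i, s i * Q i b := by
  obtain ⟨c, hc⟩ := (HbB_mem Q g).1 hg
  choose s hs using fun a => vm_im Q w hw a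
  refine ⟨fun i => ∑ a, c a * s a i, fun b => ?_⟩
  have h1 : ∀ a, vm Q a * w b = ∑ i, s a i * Q i b := fun a => hs a b
  calc g * w b = ∑ a, c a * (vm Q a * w b) := by
        rw [← hc, Finset.sum_mul]
        exact Finset.sum_congr rfl fun a _ => by ring
    _ = ∑ a, c a * ∑ i, s a i * Q i b := Finset.sum_congr rfl fun a _ => by rw [h1 a]
    _ = ∑ a, ∑ i, c a * s a i * Q i b := Finset.sum_congr rfl fun a _ => by
        rw [Finset.mul_sum]
        exact Finset.sum_congr rfl fun i _ => by ring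
    _ = ∑ i, ∑ a, c a * s a i * Q i b := Finset.sum_comm
    _ = ∑ i, (∑ a, c a * s a i) * Q i b := Finset.sum_congr rfl fun i _ => by
        rw [Finset.sum_mul]

/-- step (ii) -/
private theorem HbB_ex {r : ℕ} (Q : Matrix (Fin r) (Fin (r + 1)) (MvPolynomial (Fin 3) ℂ))
    (N : ℕ) (hN : ∀ i : Fin 3, X i ^ N ∈ Ideal.span (Set.range (vm Q)))
    (w : Fin (r + 1) → MvPolynomial (Fin 3) ℂ) (hw : ∑ a, vm Q a * w a = 0) :
    ∃ s : Fin r → MvPolynomial (Fin 3) ℂ, ∀ b, w b = ∑ i, s i * Q i b := by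
  obtain ⟨s, hs⟩ := HbB_im Q w hw _ (hN 0)
  obtain ⟨t, ht⟩ := HbB_im Q w hw _ (hN 1)
  have h1 : ∀ i, X 0 ^ N * t i = X 1 ^ N * s i := by
    intro i
    have h2 := HbB_inj Q N hN (fun i => X 0 ^ N * t i - X 1 ^ N * s i) (fun b => ?_) i
    · exact sub_eq_zero.1 h2
    · have e1 : ∑ i, (X 0 ^ N * t i - X 1 ^ N * s i) * Q i b =
          X 0 ^ N * ∑ i, t i * Q i b - X 1 ^ N * ∑ i, s i * Q i b := by
        rw [Finset.mul_sum, Finset.mul_sum, ← Finset.sum_sub_distrib]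
        exact Finset.sum_congr rfl fun i _ => by ring
      rw [e1, ← hs b, ← ht b]
      ring
  choose u hu1 hu2 using fun i => cop N (t i) (s i) (h1 i)
  refine ⟨u, fun b => ?_⟩
  have h3 : (X 0 : MvPolynomial (Fin 3) ℂ) ^ N * w b = X 0 ^ N * ∑ i, u i * Q i b := by
    rw [hs b, Finset.mul_sum]
    refine Finset.sum_congr rfl fun i _ => ?_
    rw [hu2 i]
    ring
  exact mul_left_cancel₀ (HbB_X 0 N) h3

/-- step (iii) -/
private theorem HbB_kos {r : ℕ} (Q : Matrix (Fin r) (Fin (r + 1)) (MvPolynomial (Fin 3) ℂ))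
    (N : ℕ) (hN : ∀ i : Fin 3, X i ^ N ∈ Ideal.span (Set.range (vm Q)))
    (f : MvPolynomial (Fin 3) ℂ) (hf : ∀ i : Fin 3, X i * f ∈ Ideal.span (Set.range (vm Q))) :
    f ∈ Ideal.span (Set.range (vm Q)) := by
  choose w hw using fun i => (HbB_mem Q _).1 (hf i)
  have key : ∀ i j : Fin 3, ∃ s : Fin r → MvPolynomial (Fin 3) ℂ,
      ∀ b, X j * w i b - X i * w j b = ∑ l, s l * Q l b := by
    intro i j
    refine HbB_ex Q N hN (fun b => X j * w i b - X i * w j b) ?_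
    have e1 : ∑ a, vm Q a * (X j * w i a - X i * w j a) =
        X j * ∑ a, vm Q a * w i a - X i * ∑ a, vm Q a * w j a := by
      rw [Finset.mul_sum, Finset.mul_sum, ← Finset.sum_sub_distrib]
      exact Finset.sum_congr rfl fun a _ => by ring
    rw [e1, hw i, hw j]
    ring
  obtain ⟨s01, h01⟩ := key 0 1
  obtain ⟨s02, h02⟩ := key 0 2
  obtain ⟨s12, h12⟩ := key 1 2
  have h1 : ∀ i, X 0 * s12 i + X 1 * (- s02 i) + X 2 * s01 i = 0 := by
    intro i
    refine HbB_inj Q N hN (fun i => X 0 * s12 i + X 1 * (- s02 i) + X 2 * s01 i) (fun b => ?_) i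
    have e1 : ∑ i, (X 0 * s12 i + X 1 * (- s02 i) + X 2 * s01 i) * Q i b =
        X 0 * ∑ i, s12 i * Q i b - X 1 * ∑ i, s02 i * Q i b + X 2 * ∑ i, s01 i * Q i b := by
      rw [Finset.mul_sum, Finset.mul_sum, Finset.mul_sum, ← Finset.sum_sub_distrib,
        ← Finset.sum_add_distrib]
      exact Finset.sum_congr rfl fun i _ => by ring
    rw [e1, ← h01 b, ← h02 b, ← h12 b]
    ring
  choose a b c ha hb hc using fun i => kos ![s12 i, - s02 i, s01 i] (by simpa using h1 i)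
  have hc' : ∀ i, s01 i = -(X 0 * b i) - X 1 * c i := by
    intro i
    simpa using hc i
  have h2 : ∀ e, X 0 ^ 1 * (w 1 e - ∑ i, b i * Q i e) = X 1 ^ 1 * (w 0 e + ∑ i, c i * Q i e) := by
    intro e
    have e1 : ∑ i, s01 i * Q i e = -(X 0 * ∑ i, b i * Q i e) - X 1 * ∑ i, c i * Q i e := by
      rw [Finset.mul_sum, Finset.mul_sum, ← Finset.sum_neg_distrib, ← Finset.sum_sub_distrib]
      refine Finset.sum_congr rfl fun i _ => ?_
      rw [hc' i]
      ring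
    have e2 := h01 e
    rw [e1] at e2
    linear_combination -e2
  choose u hu1 hu2 using fun e => cop 1 _ _ (h2 e)
  rw [HbB_mem]
  refine ⟨u, ?_⟩
  have h3 : (X 0 : MvPolynomial (Fin 3) ℂ) * ∑ e, vm Q e * u e = X 0 * f := by
    have e1 : ∑ e, vm Q e * ∑ i, c i * Q i e = 0 := by
      have e2 : ∑ e, vm Q e * ∑ i, c i * Q i e = ∑ i, c i * ∑ e, vm Q e * Q i e := by
        calc ∑ e, vm Q e * ∑ i, c i * Q i e = ∑ e, ∑ i, vm Q e * (c i * Q i e) :=
              Finset.sum_congr rfl fun e _ => Finset.mul_sum _ _ _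
          _ = ∑ i, ∑ e, vm Q e * (c i * Q i e) := Finset.sum_comm
          _ = _ := Finset.sum_congr rfl fun i _ => by
              rw [Finset.mul_sum]
              exact Finset.sum_congr rfl fun e _ => by ring
      rw [e2]
      exact Finset.sum_eq_zero fun i _ => by rw [vm_row Q i, mul_zero]
    calc (X 0 : MvPolynomial (Fin 3) ℂ) * ∑ e, vm Q e * u e
        = ∑ e, vm Q e * (X 0 ^ 1 * u e) := by
          rw [Finset.mul_sum]
          exact Finset.sum_congr rfl fun e _ => by ring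
      _ = ∑ e, vm Q e * (w 0 e + ∑ i, c i * Q i e) :=
          Finset.sum_congr rfl fun e _ => by rw [← hu2 e]
      _ = ∑ e, vm Q e * w 0 e + ∑ e, vm Q e * ∑ i, c i * Q i e := by
          rw [← Finset.sum_add_distrib]
          exact Finset.sum_congr rfl fun e _ => by ring
      _ = X 0 * f := by rw [e1, add_zero, hw 0]
  exact mul_left_cancel₀ (X_ne_zero 0) h3

theorem hb_one {r : ℕ} (Q : Matrix (Fin r) (Fin (r + 1)) (MvPolynomial (Fin 3) ℂ)) (N : ℕ)
    (hN : ∀ i : Fin 3, X i ^ N ∈ Ideal.span (Set.range (vm Q))) :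
    (1 : MvPolynomial (Fin 3) ℂ) ∈ Ideal.span (Set.range (vm Q)) := by
  have key : ∀ n i j l : ℕ, 3 * N ≤ i + j + l + n →
      (X 0 ^ i * X 1 ^ j * X 2 ^ l : MvPolynomial (Fin 3) ℂ) ∈ Ideal.span (Set.range (vm Q)) := by
    intro n
    induction n with
    | zero =>
      intro i j l h
      rcases le_or_gt N i with h1 | h1
      · have e : (X 0 ^ i * X 1 ^ j * X 2 ^ l : MvPolynomial (Fin 3) ℂ) =
            (X 0 ^ (i - N) * X 1 ^ j * X 2 ^ l) * X 0 ^ N := by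
          rw [show X 0 ^ i = (X 0 : MvPolynomial (Fin 3) ℂ) ^ (i - N) * X 0 ^ N by
            rw [← pow_add, Nat.sub_add_cancel h1]]
          ring
        rw [e]
        exact Ideal.mul_mem_left _ _ (hN 0)
      rcases le_or_gt N j with h2 | h2
      · have e : (X 0 ^ i * X 1 ^ j * X 2 ^ l : MvPolynomial (Fin 3) ℂ) =
            (X 0 ^ i * X 1 ^ (j - N) * X 2 ^ l) * X 1 ^ N := by
          rw [show X 1 ^ j = (X 1 : MvPolynomial (Fin 3) ℂ) ^ (j - N) * X 1 ^ N by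
            rw [← pow_add, Nat.sub_add_cancel h2]]
          ring
        rw [e]
        exact Ideal.mul_mem_left _ _ (hN 1)
      · have h3 : N ≤ l := by omega
        have e : (X 0 ^ i * X 1 ^ j * X 2 ^ l : MvPolynomial (Fin 3) ℂ) =
            (X 0 ^ i * X 1 ^ j * X 2 ^ (l - N)) * X 2 ^ N := by
          rw [show X 2 ^ l = (X 2 : MvPolynomial (Fin 3) ℂ) ^ (l - N) * X 2 ^ N by
            rw [← pow_add, Nat.sub_add_cancel h3]]
          ring
        rw [e]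
        exact Ideal.mul_mem_left _ _ (hN 2)
    | succ n ih =>
      intro i j l h
      refine HbB_kos Q N hN _ fun k => ?_
      have h0 := ih (i + 1) j l (by omega)
      have h1 := ih i (j + 1) l (by omega)
      have h2 := ih i j (l + 1) (by omega)
      fin_cases k
      · have e : (X 0 * (X 0 ^ i * X 1 ^ j * X 2 ^ l) : MvPolynomial (Fin 3) ℂ) =
            X 0 ^ (i + 1) * X 1 ^ j * X 2 ^ l := by ring
        exact e ▸ h0
      · have e : (X 1 * (X 0 ^ i * X 1 ^ j * X 2 ^ l) : MvPolynomial (Fin 3) ℂ) =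
            X 0 ^ i * X 1 ^ (j + 1) * X 2 ^ l := by ring
        exact e ▸ h1
      · have e : (X 2 * (X 0 ^ i * X 1 ^ j * X 2 ^ l) : MvPolynomial (Fin 3) ℂ) =
            X 0 ^ i * X 1 ^ j * X 2 ^ (l + 1) := by ring
        exact e ▸ h2
  have h := key (3 * N) 0 0 0 (by omega)
  simpa using h

end PadDet.Eq
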