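import Mathlib

/-!
# MP_d7db32_ag, Eq/Kos: the variables of `ℂ[x, y, z]` are a regular sequence

`kos`: let `e` be the ring map `X 0 ↦ X 0, X 1 ↦ X 1, X 2 ↦ 0` (`aeval`); `X 2 ∣ f - e f` for all `f`. Apply `e` to the
relation: `X 0 * e (s 0) + X 1 * e (s 1) = 0`, so (`X 0`, `X 1` are primes, not associated) `e (s 0) = X 1 * a`,
`e (s 1) = - X 0 * a`. Write `s 0 = X 1 * a + X 2 * b`, `s 1 = - X 0 * a + X 2 * c`; then `X 2 * (X 0 * b + X 1 * c + s 2) = 0`.
-/

set_option autoImplicit false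

namespace PadDet.Eq

open MvPolynomial

/-- The map which sends the last variable to `0`. -/
private noncomputable def kosE : MvPolynomial (Fin 3) ℂ →ₐ[ℂ] MvPolynomial (Fin 3) ℂ :=
  aeval ![X 0, X 1, 0]

private theorem kos_dvd (f : MvPolynomial (Fin 3) ℂ) : X 2 ∣ f - kosE f := by
  induction f using MvPolynomial.induction_on with
  | C a =>
    have h : kosE (C a) = C a := by
      rw [kosE, aeval_C]
      rfl
    rw [h, sub_self]
    exact dvd_zero _
  | add p q hp hq =>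
    have h : p + q - kosE (p + q) = (p - kosE p) + (q - kosE q) := by
      rw [map_add]
      ring
    rw [h]
    exact dvd_add hp hq
  | mul_X p i hp =>
    have h : p * X i - kosE (p * X i) = (p - kosE p) * X i + kosE p * (X i - kosE (X i)) := by
      rw [map_mul]
      ring
    rw [h]
    refine dvd_add (Dvd.dvd.mul_right hp _) (Dvd.dvd.mul_left ?_ _)
    rw [kosE, aeval_X]
    fin_cases i
    · show X 2 ∣ X 0 - X 0
      rw [sub_self]
      exact dvd_zero _
    · show X 2 ∣ X 1 - X 1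
      rw [sub_self]
      exact dvd_zero _
    · show X 2 ∣ X 2 - 0
      rw [sub_zero]

private theorem kos_prime (i : Fin 3) : Prime (X i : MvPolynomial (Fin 3) ℂ) :=
  MvPolynomial.X_prime

private theorem kos_ndvd : ¬ (X 1 : MvPolynomial (Fin 3) ℂ) ∣ X 0 := by
  rw [MvPolynomial.X_dvd_X]
  decide

theorem kos (s : Fin 3 → MvPolynomial (Fin 3) ℂ)
    (h : X 0 * s 0 + X 1 * s 1 + X 2 * s 2 = 0) :
    ∃ a b c : MvPolynomial (Fin 3) ℂ, s 0 = X 1 * a + X 2 * b ∧
      s 1 = -(X 0 * a) + X 2 * c ∧ s 2 = -(X 0 * b) - X 1 * c := by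
  have h0 : kosE (X 0) = X 0 := by rw [kosE, aeval_X]; rfl
  have h1 : kosE (X 1) = X 1 := by rw [kosE, aeval_X]; rfl
  have h2 : kosE (X 2) = 0 := by rw [kosE, aeval_X]; rfl
  have he := congrArg kosE h
  rw [map_add, map_add, map_mul, map_mul, map_mul, h0, h1, h2, zero_mul, add_zero, map_zero] at he
  have hd : (X 1 : MvPolynomial (Fin 3) ℂ) ∣ X 0 * kosE (s 0) :=
    ⟨-kosE (s 1), by linear_combination he⟩
  obtain ⟨a, ha⟩ := ((kos_prime 1).dvd_or_dvd hd).resolve_left kos_ndvd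
  have hb : kosE (s 1) = -(X 0 * a) := by
    have h3 : X 1 * (X 0 * a + kosE (s 1)) = 0 := by
      rw [ha] at he
      linear_combination he
    have h4 := (mul_eq_zero.1 h3).resolve_left (kos_prime 1).ne_zero
    linear_combination h4
  obtain ⟨b, hb2⟩ := kos_dvd (s 0)
  obtain ⟨c, hc2⟩ := kos_dvd (s 1)
  refine ⟨a, b, c, by linear_combination hb2 + ha, by linear_combination hc2 + hb, ?_⟩
  have h5 : X 2 * (X 0 * b + X 1 * c + s 2) = 0 := by
    linear_combination h - X 0 * (hb2 + ha) - X 1 * (hc2 + hb)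
  have h6 := (mul_eq_zero.1 h5).resolve_left (kos_prime 2).ne_zero
  linear_combination h6

theorem cop (N : ℕ) (f g : MvPolynomial (Fin 3) ℂ) (h : X 0 ^ N * f = X 1 ^ N * g) :
    ∃ u, f = X 1 ^ N * u ∧ g = X 0 ^ N * u := by
  have h1 : (X 1 : MvPolynomial (Fin 3) ℂ) ^ N ∣ X 0 ^ N * f := ⟨g, h⟩
  have h2 : ¬ (X 1 : MvPolynomial (Fin 3) ℂ) ∣ X 0 ^ N := fun h3 =>
    kos_ndvd ((kos_prime 1).dvd_of_dvd_pow h3)
  obtain ⟨u, hu⟩ := (kos_prime 1).pow_dvd_of_dvd_mul_left N h2 h1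
  refine ⟨u, hu, ?_⟩
  have h3 : (X 1 : MvPolynomial (Fin 3) ℂ) ^ N * (g - X 0 ^ N * u) = 0 := by
    rw [hu] at h
    linear_combination -h
  have h4 := (mul_eq_zero.1 h3).resolve_left (pow_ne_zero N (kos_prime 1).ne_zero)
  linear_combination h4

end PadDet.Eq
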