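import Mathlib

/-!
# MP_d7db32_ag, Eq/S1: order of vanishing of `det (L + t M)` and the pairing of the kernels of `L`
-/

set_option autoImplicit false

namespace PadDet.Eq

open Matrix

/-- The matrix with rows `D a e_a + t M_a` for `D a ≠ 0` and `M_a` for `D a = 0`. -/
noncomputable def s1N {m : ℕ} (D : Fin m → ℂ) (M : Matrix (Fin m) (Fin m) ℂ) (t : ℂ) :
    Matrix (Fin m) (Fin m) ℂ :=
  Matrix.of fun a b => if D a = 0 then M a b else (Matrix.diagonal D + t • M) a b

theorem s1_diag {m : ℕ} (D : Fin m → ℂ) (M : Matrix (Fin m) (Fin m) ℂ) (t : ℂ) :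
    (Matrix.diagonal D + t • M).det =
      t ^ (Finset.univ.filter (fun a => D a = 0)).card * (s1N D M t).det := by
  have h : Matrix.diagonal D + t • M =
      Matrix.diagonal (fun a => if D a = 0 then t else 1) * s1N D M t := by
    ext a b
    rw [Matrix.diagonal_mul]
    unfold s1N
    simp only [Matrix.of_apply, Matrix.add_apply, Matrix.smul_apply, smul_eq_mul]
    by_cases ha : D a = 0
    · simp [ha, Matrix.diagonal_apply]
    · simp [ha]
  rw [h, Matrix.det_mul, Matrix.det_diagonal]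
  congr 1
  rw [Finset.prod_ite]
  simp

theorem s1_cont {m : ℕ} (D : Fin m → ℂ) (M : Matrix (Fin m) (Fin m) ℂ) :
    Continuous fun t : ℂ => (s1N D M t).det := by
  apply Continuous.matrix_det
  refine continuous_matrix (fun a b => ?_)
  unfold s1N
  simp only [Matrix.of_apply, Matrix.add_apply, Matrix.smul_apply, smul_eq_mul]
  split_ifs
  · exact continuous_const
  · fun_prop

theorem s1_core {m n : ℕ} (D : Fin m → ℂ) (M : Matrix (Fin m) (Fin m) ℂ) (F : ℂ)
    (h : ∀ t : ℂ, (Matrix.diagonal D + t • M).det = t ^ n * F) :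
    (n < (Finset.univ.filter (fun a => D a = 0)).card → F = 0) ∧
    ((Finset.univ.filter (fun a => D a = 0)).card = n → F = (s1N D M 0).det) := by
  set r := (Finset.univ.filter (fun a => D a = 0)).card with hr
  have key : ∀ d : ℕ, r = n + d → F = (0 : ℂ) ^ d * (s1N D M 0).det := by
    intro d hd
    have h1 : ∀ t : ℂ, t ≠ 0 → F = t ^ d * (s1N D M t).det := by
      intro t ht
      have h2 := h t
      rw [s1_diag, ← hr, hd, pow_add, mul_assoc] at h2
      exact (mul_left_cancel₀ (pow_ne_zero n ht) h2).symm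
    have h3 : Continuous fun t : ℂ => t ^ d * (s1N D M t).det :=
      (continuous_id.pow d).mul (s1_cont D M)
    have h4 : Filter.Tendsto (fun t : ℂ => t ^ d * (s1N D M t).det) (nhdsWithin 0 {0}ᶜ)
        (nhds ((0 : ℂ) ^ d * (s1N D M 0).det)) :=
      (h3.tendsto 0).mono_left nhdsWithin_le_nhds
    have h5 : Filter.Tendsto (fun t : ℂ => t ^ d * (s1N D M t).det) (nhdsWithin 0 {0}ᶜ)
        (nhds F) := by
      refine tendsto_const_nhds.congr' ?_
      filter_upwards [self_mem_nhdsWithin] with t ht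
      exact h1 t ht
    exact tendsto_nhds_unique h5 h4
  refine ⟨fun hlt => ?_, fun he => ?_⟩
  · obtain ⟨d, hd⟩ := Nat.exists_eq_add_of_lt hlt
    rw [key (d + 1) (by omega)]
    simp
  · have := key 0 (by omega)
    simpa using this

theorem s1 {m n : ℕ} (L M : Matrix (Fin m) (Fin m) ℂ) (F : ℂ)
    (h : ∀ t : ℂ, (L + t • M).det = t ^ n * F) :
    (F ≠ 0 → m ≤ L.rank + n) ∧
    (m = L.rank + n → (F ≠ 0 ↔ ∀ x, L *ᵥ x = 0 →
      (∀ y, y ᵥ* L = 0 → y ⬝ᵥ (M *ᵥ x) = 0) → x = 0)) := by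
  obtain ⟨l₁, l₂, D, hD⟩ := Matrix.Pivot.exists_list_transvec_mul_mul_list_transvec_eq_diagonal L
  set S₁ := (l₁.map TransvectionStruct.toMatrix).prod with hS₁
  set S₂ := (l₂.map TransvectionStruct.toMatrix).prod with hS₂
  have d₁ : S₁.det = 1 := TransvectionStruct.det_toMatrix_prod l₁
  have d₂ : S₂.det = 1 := TransvectionStruct.det_toMatrix_prod l₂
  have u₁ : IsUnit S₁.det := by rw [d₁]; exact isUnit_one
  have u₂ : IsUnit S₂.det := by rw [d₂]; exact isUnit_one
  have hdet : ∀ t : ℂ, (Matrix.diagonal D + t • (S₁ * M * S₂)).det = t ^ n * F := by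
    intro t
    rw [← h t, ← hD]
    have : S₁ * L * S₂ + t • (S₁ * M * S₂) = S₁ * (L + t • M) * S₂ := by
      rw [Matrix.mul_add, Matrix.add_mul, Matrix.mul_smul, Matrix.smul_mul]
    rw [this, Matrix.det_mul, Matrix.det_mul, d₁, d₂, one_mul, mul_one]
  obtain ⟨c1, c2⟩ := s1_core D (S₁ * M * S₂) F hdet
  have hrank : L.rank = Fintype.card {a // D a ≠ 0} := by
    rw [← Matrix.rank_diagonal, ← hD, Matrix.rank_mul_eq_left_of_isUnit_det _ _ u₂,
      Matrix.rank_mul_eq_right_of_isUnit_det _ _ u₁]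
  have hcard : (Finset.univ.filter (fun a => D a = 0)).card + L.rank = m := by
    rw [hrank, Fintype.card_subtype]
    have := Finset.card_filter_add_card_filter_not (s := (Finset.univ : Finset (Fin m)))
      (fun a => D a = 0)
    simpa using this
  refine ⟨fun hF => ?_, fun hm => ?_⟩
  · by_contra hcon
    exact hF (c1 (by omega))
  · rw [c2 (by omega)]
    have hinv : S₁⁻¹ * S₁ = 1 := Matrix.nonsing_inv_mul _ u₁
    have hinv2 : S₂ * S₂⁻¹ = 1 := Matrix.mul_nonsing_inv _ u₂
    have hinv2' : S₂⁻¹ * S₂ = 1 := Matrix.nonsing_inv_mul _ u₂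
    have hN : ∀ z a, D a = 0 → (s1N D (S₁ * M * S₂) 0 *ᵥ z) a = ((S₁ * M * S₂) *ᵥ z) a := by
      intro z a ha
      unfold s1N Matrix.mulVec dotProduct
      simp [ha]
    have hN' : ∀ z a, D a ≠ 0 → (s1N D (S₁ * M * S₂) 0 *ᵥ z) a = D a * z a := by
      intro z a ha
      unfold s1N Matrix.mulVec dotProduct
      simp [ha, Matrix.diagonal_apply]
    constructor
    · intro hne x hx hy
      have hz : s1N D (S₁ * M * S₂) 0 *ᵥ (S₂⁻¹ *ᵥ x) = 0 := by
        have hx2 : S₂ *ᵥ (S₂⁻¹ *ᵥ x) = x := by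
          rw [Matrix.mulVec_mulVec, hinv2, Matrix.one_mulVec]
        have hdz : Matrix.diagonal D *ᵥ (S₂⁻¹ *ᵥ x) = 0 := by
          rw [← hD, ← Matrix.mulVec_mulVec, ← Matrix.mulVec_mulVec, hx2, hx, Matrix.mulVec_zero]
        funext a
        by_cases ha : D a = 0
        · rw [hN _ a ha, ← Matrix.mulVec_mulVec, ← Matrix.mulVec_mulVec, hx2]
          have h1 : (S₁ a) ᵥ* L = 0 := by
            have h2 : (S₁ * L) = Matrix.diagonal D * S₂⁻¹ := by
              rw [← hD, Matrix.mul_assoc, hinv2, Matrix.mul_one]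
            funext b
            have h3 := congrFun (congrFun h2 a) b
            rw [Matrix.diagonal_mul, ha, zero_mul] at h3
            simpa [Matrix.mul_apply, Matrix.vecMul, dotProduct] using h3
          have h4 := hy (S₁ a) h1
          simpa [Matrix.mulVec] using h4
        · rw [hN' _ a ha]
          have h1 := congrFun hdz a
          rw [Matrix.mulVec_diagonal] at h1
          simpa using h1
      have hz0 : S₂⁻¹ *ᵥ x = 0 := by
        by_contra hcon
        exact hne (Matrix.exists_mulVec_eq_zero_iff.1 ⟨_, hcon, hz⟩)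
      calc x = S₂ *ᵥ (S₂⁻¹ *ᵥ x) := by rw [Matrix.mulVec_mulVec, hinv2, Matrix.one_mulVec]
        _ = 0 := by rw [hz0, Matrix.mulVec_zero]
    · intro hp h0
      obtain ⟨z, hz0, hz⟩ := Matrix.exists_mulVec_eq_zero_iff.2 h0
      apply hz0
      have hza : ∀ a, D a ≠ 0 → z a = 0 := by
        intro a ha
        have h1 := congrFun hz a
        rw [hN' _ a ha] at h1
        exact (mul_eq_zero.1 h1).resolve_left ha
      have hdz : Matrix.diagonal D *ᵥ z = 0 := by
        funext a
        rw [Matrix.mulVec_diagonal]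
        by_cases ha : D a = 0
        · simp [ha]
        · simp [hza a ha]
      have hx : L *ᵥ (S₂ *ᵥ z) = 0 := by
        have h1 : S₁ *ᵥ (L *ᵥ (S₂ *ᵥ z)) = 0 := by
          rw [Matrix.mulVec_mulVec, Matrix.mulVec_mulVec, hD, hdz]
        calc L *ᵥ (S₂ *ᵥ z) = S₁⁻¹ *ᵥ (S₁ *ᵥ (L *ᵥ (S₂ *ᵥ z))) := by
              rw [Matrix.mulVec_mulVec _ S₁⁻¹ S₁, hinv, Matrix.one_mulVec]
          _ = 0 := by rw [h1, Matrix.mulVec_zero]
      have hfin := hp (S₂ *ᵥ z) hx (by
        intro y hy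
        set y' := y ᵥ* S₁⁻¹ with hy'
        have hyy : y = y' ᵥ* S₁ := by
          rw [hy', Matrix.vecMul_vecMul, hinv, Matrix.vecMul_one]
        have hyD : ∀ a, D a ≠ 0 → y' a = 0 := by
          intro a ha
          have h1 : y' ᵥ* Matrix.diagonal D = 0 := by
            rw [← hD, ← Matrix.vecMul_vecMul, ← Matrix.vecMul_vecMul, ← hyy, hy,
              Matrix.zero_vecMul]
          have h2 := congrFun h1 a
          rw [Matrix.vecMul_diagonal] at h2
          exact (mul_eq_zero.1 h2).resolve_right ha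
        have h3 : y ⬝ᵥ (M *ᵥ (S₂ *ᵥ z)) = y' ⬝ᵥ ((S₁ * M * S₂) *ᵥ z) := by
          rw [hyy, ← Matrix.mulVec_mulVec, ← Matrix.mulVec_mulVec, Matrix.dotProduct_mulVec y' S₁]
        rw [h3]
        refine Finset.sum_eq_zero (fun a _ => ?_)
        by_cases ha : D a = 0
        · rw [← hN z a ha, hz]
          simp
        · rw [hyD a ha, zero_mul])
      calc z = S₂⁻¹ *ᵥ (S₂ *ᵥ z) := by rw [Matrix.mulVec_mulVec, hinv2', Matrix.one_mulVec]
        _ = 0 := by rw [hfin, Matrix.mulVec_zero]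

end PadDet.Eq
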