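import Mathlib

/-!
# MP_d7db32_ag, Eq/S3: functions with a small orbit under permutations
-/

set_option autoImplicit false

namespace PadDet.Eq

theorem lt_choose : ∀ n s : ℕ, 2 ≤ s → s + 2 ≤ n → n < n.choose s := by
  intro n
  induction n with
  | zero => intro s _ h; omega
  | succ n ih =>
    intro s h2 hs
    obtain ⟨s', rfl⟩ : ∃ s', s = s' + 1 := ⟨s - 1, by omega⟩
    rw [Nat.choose_succ_succ' n s']
    rcases Nat.lt_or_ge (s' + 1 + 1) n with h | h
    · have h1 := ih (s' + 1) h2 (by omega)
      have h3 : 0 < n.choose s' := Nat.choose_pos (by omega)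
      omega
    · have hn : n = s' + 2 := by omega
      subst hn
      have h1 : (s' + 2).choose (s' + 1) = s' + 2 := Nat.choose_succ_self_right (s' + 1)
      rw [h1]
      rcases Nat.lt_or_ge s' 2 with h4 | h4
      · have : s' = 1 := by omega
        subst this
        decide
      · have := ih s' h4 (by omega)
        omega

theorem cls {n : ℕ} (f : Fin n → ℂ) (c : ℂ)
    (h2 : 2 ≤ (Finset.univ.filter fun i => f i = c).card) (hne : ∃ i, f i ≠ c)
    (H : ∀ (ι : Type) [Fintype ι] (σ : ι → Equiv.Perm (Fin n)),
      Function.Injective (fun i => f ∘ σ i) → Fintype.card ι ≤ n) :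
    ∃ i₀, f i₀ ≠ c ∧ ∀ j, j ≠ i₀ → f j = c := by
  classical
  set s := (Finset.univ.filter fun i => f i = c).card with hs
  have hsum : s + (Finset.univ.filter fun i => ¬ f i = c).card = n := by
    have := Finset.card_filter_add_card_filter_not (s := (Finset.univ : Finset (Fin n)))
      (fun i => f i = c)
    simpa using this
  have hle : (Finset.univ.filter fun i => ¬ f i = c).card ≤ 1 := by
    by_contra hcon
    have hex : ∀ B : {B : Finset (Fin n) // B.card = s}, ∃ σ : Equiv.Perm (Fin n),
        ∀ i, i ∈ B.1 ↔ f (σ i) = c := by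
      intro B
      have hc : Fintype.card {i // i ∈ B.1} = Fintype.card {i // f i = c} := by
        rw [Fintype.card_coe, B.2, hs, Fintype.card_subtype]
      let e : {i // i ∈ B.1} ≃ {i // f i = c} := Fintype.equivOfCardEq hc
      refine ⟨e.extendSubtype, fun i => ⟨fun hi => e.extendSubtype_mem i hi, fun hi => ?_⟩⟩
      by_contra hni
      exact e.extendSubtype_not_mem i hni hi
    choose σ hσ using hex
    have hinj : Function.Injective (fun B : {B : Finset (Fin n) // B.card = s} => f ∘ σ B) := by
      intro B B' hBB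
      apply Subtype.ext
      ext i
      rw [hσ B i, hσ B' i]
      have : f (σ B i) = f (σ B' i) := congrFun hBB i
      rw [this]
    have h3 := H _ σ hinj
    rw [Fintype.card_finset_len, Fintype.card_fin] at h3
    have h4 := lt_choose n s h2 (by omega)
    omega
  obtain ⟨i₀, hi₀⟩ := hne
  refine ⟨i₀, hi₀, fun j hj => ?_⟩
  by_contra hjc
  exact hj (Finset.card_le_one.1 hle j (by simp [hjc]) i₀ (by simp [hi₀]))

end PadDet.Eq
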