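import Pool.Agent.H.MP_d7db32_ag.Eq.S2
import Pool.Agent.H.MP_d7db32_ag.Eq.S3
import Pool.Agent.H.MP_d7db32_ag.Eq.Orb

/-!
# MP_d7db32_ag, Eq/S4: weight vectors in the kernel of the constant matrix
-/

set_option autoImplicit false

namespace PadDet.Eq

open Matrix

variable {n m : ℕ} {q c : ℂ} {L : Matrix (Fin m) (Fin m) ℂ}
  {M : Matrix (Fin n) (Fin n) ℂ →ₗ[ℂ] Matrix (Fin m) (Fin m) ℂ}
  {w w' : Fin m → Fin n → ℂ} {P P' : Equiv.Perm (Fin n) → Matrix (Fin m) (Fin m) ℂ}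

theorem Cor.Pinv (C : Cor n m q c L M w w' P P') (σ : Equiv.Perm (Fin n)) :
    P σ⁻¹ * P σ = 1 := by
  rw [← C.Pm, inv_mul_cancel, C.P1]

theorem Cor.st (C : Cor n m q c L M w w' P P') (σ : Equiv.Perm (Fin n)) (a : Fin m) :
    ∃ a', ∀ i, w a' (σ i) = w a i := by
  by_contra hcon
  push Not at hcon
  have h0 : ∀ a', P σ a' a = 0 := by
    intro a'
    by_contra h
    obtain ⟨i, hi⟩ := hcon a'
    exact hi (C.gP σ a' a h i)
  have h1 := congrFun (congrFun (C.Pinv σ) a) a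
  rw [Matrix.mul_apply] at h1
  simp [h0] at h1

theorem Cor.act_ker (C : Cor n m q c L M w w' P P') (σ : Equiv.Perm (Fin n)) {x : Fin m → ℂ}
    (hx : L *ᵥ x = 0) : L *ᵥ (P σ *ᵥ x) = 0 := by
  rw [Matrix.mulVec_mulVec, ← C.PL, ← Matrix.mulVec_mulVec, hx, Matrix.mulVec_zero]

theorem Cor.act_ne (C : Cor n m q c L M w w' P P') (σ : Equiv.Perm (Fin n)) {x : Fin m → ℂ}
    (hx : x ≠ 0) : P σ *ᵥ x ≠ 0 := by
  intro h
  apply hx
  calc x = P σ⁻¹ *ᵥ (P σ *ᵥ x) := by rw [Matrix.mulVec_mulVec, C.Pinv, Matrix.one_mulVec]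
    _ = 0 := by rw [h, Matrix.mulVec_zero]

theorem Cor.act_wt (C : Cor n m q c L M w w' P P') (σ : Equiv.Perm (Fin n)) {x : Fin m → ℂ}
    {ω : Fin n → ℂ} (hx : IsW w ω x) : IsW w (fun i => ω (σ⁻¹ i)) (P σ *ᵥ x) := by
  intro a' ha'
  have ha'' : ∑ a, P σ a' a * x a ≠ 0 := ha'
  obtain ⟨a, -, ha⟩ := Finset.exists_ne_zero_of_sum_ne_zero ha''
  have h1 : P σ a' a ≠ 0 := left_ne_zero_of_mul ha
  have h2 : x a ≠ 0 := right_ne_zero_of_mul ha
  funext i
  have h3 := C.gP σ a' a h1 (σ⁻¹ i)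
  rw [hx a h2] at h3
  rw [← h3]
  congr 1
  simp

/-- The weight `c₁` with the exceptional value `c₂` at `j`. -/
def wt1 (c₁ c₂ : ℂ) (j : Fin n) : Fin n → ℂ := fun i => if i = j then c₂ else c₁

theorem wt1_inj {c₁ c₂ : ℂ} (h : c₂ ≠ c₁) :
    Function.Injective (wt1 c₁ c₂ : Fin n → Fin n → ℂ) := by
  intro i j hij
  by_contra hne
  have := congrFun hij i
  unfold wt1 at this
  rw [if_pos rfl, if_neg hne] at this
  exact h this

/-- A function with at most `n` rearrangements (`n ≥ 3`) takes some value twice. -/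
theorem fibre_two {n : ℕ} (hn : 3 ≤ n) (f : Fin n → ℂ)
    (H : ∀ (ι : Type) [Fintype ι] (σ : ι → Equiv.Perm (Fin n)),
      Function.Injective (fun i => f ∘ σ i) → Fintype.card ι ≤ n) :
    ∃ z, 2 ≤ (Finset.univ.filter fun i => f i = z).card := by
  classical
  by_contra hcon
  push Not at hcon
  have hinj : Function.Injective f := by
    intro x y hxy
    have h1 : (Finset.univ.filter fun i => f i = f x).card ≤ 1 := by
      have := hcon (f x)
      omega
    exact Finset.card_le_one.1 h1 x (by simp) y (by simp [hxy])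
  have h2 := H (Equiv.Perm (Fin n)) (fun σ => σ) (by
    intro σ τ h
    apply Equiv.ext
    intro i
    exact hinj (congrFun h i))
  rw [Fintype.card_perm, Fintype.card_fin] at h2
  have h3 : n < n.factorial := Nat.lt_factorial_self hn
  omega

/-- A nonconstant weight in the kernel. -/
theorem Cor.line {k : ℕ} {M : Matrix (Fin (2 * k + 1)) (Fin (2 * k + 1)) ℂ →ₗ[ℂ]
    Matrix (Fin m) (Fin m) ℂ} {w w' : Fin m → Fin (2 * k + 1) → ℂ}
    {P P' : Equiv.Perm (Fin (2 * k + 1)) → Matrix (Fin m) (Fin m) ℂ}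
    (C : Cor (2 * k + 1) m q c L M w w' P P') (hk : 1 ≤ k)
    {X : Matrix (Fin (2 * k + 1)) (Fin (2 * k + 1)) ℂ} (hX : Fv X ≠ 0) {x : Fin m → ℂ}
    (hx : L *ᵥ x = 0) (hx0 : x ≠ 0) {ω : Fin (2 * k + 1) → ℂ} (hω : IsW w ω x)
    {i j : Fin (2 * k + 1)} (hij : ω i ≠ ω j) :
    ∃ (c₁ c₂ : ℂ) (v : Fin (2 * k + 1) → Fin m → ℂ), c₂ ≠ c₁ ∧ m = L.rank + (2 * k + 1) ∧
      (∀ j, L *ᵥ v j = 0) ∧ (∀ j, v j ≠ 0) ∧ ∀ j, IsW w (wt1 c₁ c₂ j) (v j) := by
  classical
  have hle : m ≤ L.rank + (2 * k + 1) :=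
    (s1 L (M X) (c * Fv X) (C.pow (by omega) X)).1 (mul_ne_zero C.c0 hX)
  have hH : ∀ (ι : Type) [Fintype ι] (σ : ι → Equiv.Perm (Fin (2 * k + 1))),
      Function.Injective (fun i => ω ∘ σ i) → Fintype.card ι ≤ 2 * k + 1 := by
    intro ι _ σ hσ
    have hind := indep (fun i => P (σ i)⁻¹ *ᵥ x) (fun i => fun l => ω (((σ i)⁻¹)⁻¹ l))
      (by
        intro i i' h
        apply hσ
        funext l
        have := congrFun h l
        simpa using this)
      (fun i => C.act_ne _ hx0) (fun i => C.act_wt _ hω)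
    have := card_add_rank _ hind (fun i => C.act_ker _ hx)
    omega
  obtain ⟨z, hz⟩ := fibre_two (by omega) ω hH
  have hnz : ∃ i, ω i ≠ z := by
    by_contra hcon
    push Not at hcon
    exact hij ((hcon i).trans (hcon j).symm)
  have hcls := cls ω z (by omega) hnz hH
  obtain ⟨i₀, hi₀, hrest⟩ := hcls
  have hv : ∀ j, IsW w (wt1 z (ω i₀) j) (P (Equiv.swap i₀ j) *ᵥ x) := by
    intro j
    have h1 := C.act_wt (Equiv.swap i₀ j) hω
    have h2 : (fun i => ω ((Equiv.swap i₀ j)⁻¹ i)) = wt1 z (ω i₀) j := by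
      funext i
      unfold wt1
      rw [Equiv.swap_inv]
      by_cases hi : i = j
      · subst hi
        rw [Equiv.swap_apply_right, if_pos rfl]
      · rw [if_neg hi]
        apply hrest
        intro h
        apply hi
        have h5 := congrArg (Equiv.swap i₀ j) h
        rw [Equiv.swap_apply_self, Equiv.swap_apply_left] at h5
        exact h5
    rw [h2] at h1
    exact h1
  have hind := indep (fun j => P (Equiv.swap i₀ j) *ᵥ x) (wt1 z (ω i₀)) (wt1_inj hi₀)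
    (fun j => C.act_ne _ hx0) hv
  have hcard := card_add_rank _ hind (fun i => C.act_ker _ hx)
  rw [Fintype.card_fin] at hcard
  exact ⟨z, ω i₀, fun j => P (Equiv.swap i₀ j) *ᵥ x, hi₀, by omega, fun j => C.act_ker _ hx,
    fun j => C.act_ne _ hx0, hv⟩

/-- `n` independent vectors span a kernel of dimension `n`. -/
theorem ker_span (v : Fin n → Fin m → ℂ) (hv : LinearIndependent ℂ v) (hL : ∀ j, L *ᵥ v j = 0)
    (hr : m = L.rank + n) {x : Fin m → ℂ} (hx : L *ᵥ x = 0) : ∃ ξ : Fin n → ℂ, x = ∑ j, ξ j • v j := by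
  have h1 : ∀ i, v i ∈ LinearMap.ker L.mulVecLin := fun i => by
    rw [LinearMap.mem_ker, Matrix.mulVecLin_apply]
    exact hL i
  have h2 : LinearIndependent ℂ (fun i => (⟨v i, h1 i⟩ : LinearMap.ker L.mulVecLin)) :=
    LinearIndependent.of_comp (LinearMap.ker L.mulVecLin).subtype hv
  have h4 := LinearMap.finrank_range_add_finrank_ker L.mulVecLin
  have h5 : Module.finrank ℂ (Fin m → ℂ) = m := by simp
  have h6 : Module.finrank ℂ (LinearMap.ker L.mulVecLin) = n := by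
    unfold Matrix.rank at hr
    omega
  have h7 : Submodule.span ℂ (Set.range (fun i => (⟨v i, h1 i⟩ : LinearMap.ker L.mulVecLin))) = ⊤ := by
    rcases Nat.eq_zero_or_pos n with hn | hn
    · have h8 : Subsingleton (LinearMap.ker L.mulVecLin) :=
        Module.finrank_zero_iff.1 (h6.trans hn)
      exact Subsingleton.elim _ _
    · have : Nonempty (Fin n) := ⟨⟨0, hn⟩⟩
      exact h2.span_eq_top_of_card_eq_finrank (by rw [Fintype.card_fin, h6])
  have h8 : (⟨x, by rw [LinearMap.mem_ker, Matrix.mulVecLin_apply]; exact hx⟩ :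
      LinearMap.ker L.mulVecLin) ∈
      Submodule.span ℂ (Set.range (fun i => (⟨v i, h1 i⟩ : LinearMap.ker L.mulVecLin))) := by
    rw [h7]; trivial
  obtain ⟨ξ, hξ⟩ := (Submodule.mem_span_range_iff_exists_fun ℂ).1 h8
  refine ⟨ξ, ?_⟩
  have h9 := congrArg (LinearMap.ker L.mulVecLin).subtype hξ
  rw [map_sum] at h9
  simpa using h9.symm

/-- A weight vector of the weight of `v j` is a multiple of `v j`. -/
theorem ker_line {c₁ c₂ : ℂ} (hc : c₂ ≠ c₁) (v : Fin n → Fin m → ℂ)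
    (hv0 : ∀ j, v j ≠ 0) (hw : ∀ j, IsW w (wt1 c₁ c₂ j) (v j)) (hL : ∀ j, L *ᵥ v j = 0)
    (hr : m = L.rank + n) {x : Fin m → ℂ} (hx : L *ᵥ x = 0) {j : Fin n}
    (hxw : IsW w (wt1 c₁ c₂ j) x) : ∃ ξ : ℂ, x = ξ • v j := by
  obtain ⟨ξ, hξ⟩ := ker_span v (indep v _ (wt1_inj hc) hv0 hw) hL hr hx
  refine ⟨ξ j, ?_⟩
  funext a
  by_cases ha : w a = wt1 c₁ c₂ j
  · rw [hξ, Finset.sum_apply, Finset.sum_eq_single j]
    · intro i _ hi
      by_contra hcon
      have : v i a ≠ 0 := by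
        intro h0
        apply hcon
        simp [h0]
      exact hi (wt1_inj hc ((hw i a this).symm.trans ha))
    · intro h
      exact absurd (Finset.mem_univ j) h
  · have h1 : x a = 0 := by
      by_contra h
      exact ha (hxw a h)
    have h2 : v j a = 0 := by
      by_contra h
      exact ha (hw j a h)
    simp [h1, h2]

end PadDet.Eq
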