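import Pool.Agent.H.MP_d7db32_ag.Eq.MkG
import Pool.Agent.H.MP_d7db32_ag.Eq.CoreA
import Pool.Agent.H.MP_d7db32_ag.Eq.CoreB

/-!
# MP_d7db32_ag, Eq/Main: assembly
-/

set_option autoImplicit false

namespace PadDet.Eq

open MvPolynomial Matrix

theorem Fv_ne (k : ℕ) : ∃ X : Matrix (Fin (2 * k + 1)) (Fin (2 * k + 1)) ℂ, Fv X ≠ 0 := by
  obtain ⟨i, hi⟩ := tri_adj k (fun _ => 1) (fun h => one_ne_zero (congrFun h 0))
  refine ⟨tri k (fun _ => 1) + (1 : ℂ) • Matrix.single i i 1, ?_⟩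
  rw [Fv_add k _ (tri_skew k _) i 1, one_mul]
  exact mul_ne_zero (pow_ne_zero _ two_ne_zero) hi

theorem main (k m : ℕ) (H : Subgroup (GL (Fin (2 * k + 1)) ℂ × ℂˣ)) (hH : Rich (2 * k + 1) H)
    (L : Matrix (Fin m) (Fin m) ℂ)
    (M : Matrix (Fin (2 * k + 1)) (Fin (2 * k + 1)) ℂ →ₗ[ℂ] Matrix (Fin m) (Fin m) ℂ)
    (ρ ρ' : H →* GL (Fin m) ℂ) (hE : Expr m (skewForm (2 * k + 1)) H L M ρ ρ') :
    (2 * k + 1).choose k ≤ m := by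
  obtain ⟨q, c, L', N, w, w', t, t', G⟩ := mk_grd hH hE (Fv_ne k)
  obtain ⟨π, a₀, hπ⟩ := coreA G
  exact coreB G (Fv_ne k) π a₀ hπ

end PadDet.Eq
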