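import Pool.Agent.H.MP_d7db32_ag.Eq.FvA
import Pool.Agent.H.MP_d7db32_ag.Eq.Wt

/-!
# MP_d7db32_ag, Eq/MkG: from an equivariant expression to weights

`q = exp (2 π i / 3)` (`Complex.isPrimitiveRoot_exp`). Let `d l : GL` be the diagonal matrix with `q` at `l` and `1` elsewhere, `s` the unit `q`;
`R : Option (Fin n) → Matrix`, `R (some l) = ρ (d l, 1)`, `R none = ρ (1, s)`, `R'` the same with `ρ'`. They commute and `R ^ 3 = 1`. `wt` gives `S`, `χ` and
`S'`, `χ'`. Put `L' = S'⁻¹ L S`, `N X = S'⁻¹ (M X) S`, `c = det S / det S'`, `w a l = χ a (some l)`, `t a = χ a none`, similarly `w'`, `t'`.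
Equivariance: `(L' + N (act h X)) * diagonal (χ · i) = diagonal (χ' · i) * (L' + N X)` for the generator `h` with index `i` (S), for all `X`.
With `X = 0` (`act h 0 = 0`): `gL`. Subtract: `N (act h X) b a * χ a i = χ' b i * N X b a`. `gE`: `act (d l, 1) (single i j 1)` is `single i j 1` times the two
factors. `gA`: `act (1, s) A = A`. `gY`: `act (1, s) Y = q • Y`. `st`: `wt_st` with `g = ρ (permutation matrix, 1)` and `π = Option.map σ`
(permutation matrix times `d l` is `d (σ l)` or `d (σ⁻¹ l)` times permutation matrix: use `σ` or `σ⁻¹`). `tw`, `tt`: determinants of (S) at a point with `Fv X ≠ 0`, `Fv_act`.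
-/

set_option autoImplicit false

namespace PadDet.Eq

open MvPolynomial Matrix

/-- diagonal matrices with entries cube roots of unity -/
private noncomputable def MkG_d {n : ℕ} (d : Fin n → ℂ) (hd : ∀ i, d i ^ 3 = 1) :
    GL (Fin n) ℂ where
  val := Matrix.diagonal d
  inv := Matrix.diagonal fun i => d i ^ 2
  val_inv := by
    rw [Matrix.diagonal_mul_diagonal, ← Matrix.diagonal_one]
    congr 1
    ext i
    rw [← hd i]
    ring
  inv_val := by
    rw [Matrix.diagonal_mul_diagonal, ← Matrix.diagonal_one]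
    congr 1
    ext i
    rw [← hd i]
    ring

/-- permutation matrices -/
private noncomputable def MkG_p {n : ℕ} (σ : Equiv.Perm (Fin n)) : GL (Fin n) ℂ where
  val := σ.permMatrix ℂ
  inv := σ⁻¹.permMatrix ℂ
  val_inv := by rw [← Matrix.permMatrix_mul, inv_mul_cancel, Matrix.permMatrix_one]
  inv_val := by rw [← Matrix.permMatrix_mul, mul_inv_cancel, Matrix.permMatrix_one]

private theorem MkG_perm_diag {n : ℕ} (σ : Equiv.Perm (Fin n)) (d : Fin n → ℂ) :
    σ⁻¹.permMatrix ℂ * Matrix.diagonal d = Matrix.diagonal (fun i => d (σ⁻¹ i)) *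
      σ⁻¹.permMatrix ℂ := by
  ext i j
  rw [Matrix.mul_diagonal, Matrix.diagonal_mul]
  by_cases h : σ⁻¹ i = j
  · rw [← h, mul_comm]
  · have h0 : (σ⁻¹.permMatrix ℂ) i j = 0 := by
      rw [Equiv.Perm.permMatrix, PEquiv.toMatrix_apply, Equiv.toPEquiv_apply, if_neg]
      simpa using h
    rw [h0, zero_mul, mul_zero]

private theorem MkG_act_zero {n : ℕ} (h : GL (Fin n) ℂ × ℂˣ) :
    act h (0 : Matrix (Fin n) (Fin n) ℂ) = 0 := by
  simp [act]

private theorem MkG_act_one {n : ℕ} (g : GL (Fin n) ℂ) (X : Matrix (Fin n) (Fin n) ℂ) :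
    act (g, 1) X = (g : Matrix (Fin n) (Fin n) ℂ) * X * (g : Matrix (Fin n) (Fin n) ℂ)ᵀ := by
  have : ((1 / 2 : ℂ) • (X - Xᵀ) + (((1 : ℂˣ) : ℂ) / 2) • (X + Xᵀ)) = X := by
    rw [Units.val_one]
    module
  unfold act
  simp only [this]

private theorem MkG_act_skew {n : ℕ} (s : ℂˣ) {A : Matrix (Fin n) (Fin n) ℂ} (hA : Aᵀ = -A) :
    act (1, s) A = A := by
  have : ((1 / 2 : ℂ) • (A - Aᵀ) + ((s : ℂ) / 2) • (A + Aᵀ)) = A := by
    rw [hA]
    module
  unfold act
  simp only [this]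
  simp

private theorem MkG_act_sym {n : ℕ} (s : ℂˣ) {Y : Matrix (Fin n) (Fin n) ℂ} (hY : Yᵀ = Y) :
    act (1, s) Y = (s : ℂ) • Y := by
  have : ((1 / 2 : ℂ) • (Y - Yᵀ) + ((s : ℂ) / 2) • (Y + Yᵀ)) = (s : ℂ) • Y := by
    rw [hY]
    module
  unfold act
  simp only [this]
  simp

private theorem MkG_diag_single {n : ℕ} (d : Fin n → ℂ) (i j : Fin n) :
    Matrix.diagonal d * Matrix.single i j (1 : ℂ) * (Matrix.diagonal d)ᵀ =
      (d i * d j) • Matrix.single i j (1 : ℂ) := by
  ext a b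
  rw [Matrix.diagonal_transpose, Matrix.mul_diagonal, Matrix.diagonal_mul, Matrix.smul_apply,
    Matrix.single_apply, smul_eq_mul]
  by_cases h : i = a ∧ j = b
  · obtain ⟨rfl, rfl⟩ := h
    simp
  · rw [if_neg h]
    ring

theorem mk_grd {n m : ℕ} {H : Subgroup (GL (Fin n) ℂ × ℂˣ)} (hH : Rich n H)
    {L : Matrix (Fin m) (Fin m) ℂ} {M : Matrix (Fin n) (Fin n) ℂ →ₗ[ℂ] Matrix (Fin m) (Fin m) ℂ}
    {ρ ρ' : H →* GL (Fin m) ℂ} (hE : Expr m (skewForm n) H L M ρ ρ')
    (hne : ∃ X : Matrix (Fin n) (Fin n) ℂ, Fv X ≠ 0) :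
    ∃ (q c : ℂ) (L' : Matrix (Fin m) (Fin m) ℂ)
      (N : Matrix (Fin n) (Fin n) ℂ →ₗ[ℂ] Matrix (Fin m) (Fin m) ℂ)
      (w w' : Fin m → Fin n → ℂ) (t t' : Fin m → ℂ), Grd n m q c L' N w w' t t' := by
  classical
  obtain ⟨q, hq⟩ : ∃ q : ℂ, IsPrimitiveRoot q 3 := ⟨_, Complex.isPrimitiveRoot_exp 3 (by norm_num)⟩
  have hq3 : q ^ 3 = 1 := hq.pow_eq_one
  have hq1 : q ≠ 1 := hq.ne_one (by norm_num)
  have hq0 : q ≠ 0 := hq.ne_zero (by norm_num)
  -- the generators
  let dv : Fin n → Fin n → ℂ := fun l i => if i = l then q else 1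
  have hdv : ∀ l i, dv l i ^ 3 = 1 := by
    intro l i
    by_cases h : i = l
    · simp only [dv, if_pos h, hq3]
    · simp only [dv, if_neg h, one_pow]
  let s : ℂˣ := Units.mk0 q hq0
  have hs : (s : ℂ) = q := rfl
  have hs3 : s ^ 3 = 1 := by
    ext
    rw [Units.val_pow_eq_pow_val, hs, hq3, Units.val_one]
  let hg : Option (Fin n) → GL (Fin n) ℂ × ℂˣ := fun i =>
    Option.elim i ((1 : GL (Fin n) ℂ), s) (fun l => (MkG_d (dv l) (hdv l), (1 : ℂˣ)))
  have hgm : ∀ i, hg i ∈ H := by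
    intro i
    cases i with
    | none => exact hH.scal s hs3
    | some l => exact hH.diag (dv l) _ (hdv l) rfl
  have hdd : ∀ l l', MkG_d (dv l) (hdv l) * MkG_d (dv l') (hdv l') =
      MkG_d (dv l') (hdv l') * MkG_d (dv l) (hdv l) := by
    intro l l'
    apply Units.ext
    show Matrix.diagonal (dv l) * Matrix.diagonal (dv l') =
      Matrix.diagonal (dv l') * Matrix.diagonal (dv l)
    rw [Matrix.diagonal_mul_diagonal, Matrix.diagonal_mul_diagonal]
    congr 1
    ext i
    exact mul_comm _ _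
  have hgc : ∀ i j, hg i * hg j = hg j * hg i := by
    intro i j
    cases i with
    | none =>
      cases j with
      | none => rfl
      | some l => exact Prod.ext (by simp [hg]) (by simp [hg])
    | some l =>
      cases j with
      | none => exact Prod.ext (by simp [hg]) (by simp [hg])
      | some l' => exact Prod.ext (hdd l l') rfl
  have hg3 : ∀ i, hg i ^ 3 = 1 := by
    intro i
    cases i with
    | none => exact Prod.ext (one_pow 3) hs3
    | some l =>
      refine Prod.ext ?_ (one_pow 3)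
      apply Units.ext
      show (Matrix.diagonal (dv l)) ^ 3 = 1
      rw [Matrix.diagonal_pow, ← Matrix.diagonal_one]
      congr 1
      ext i
      exact hdv l i
  let G : Option (Fin n) → H := fun i => ⟨hg i, hgm i⟩
  have hGc : ∀ i j, G i * G j = G j * G i := fun i j => Subtype.ext (hgc i j)
  have hG3 : ∀ i, G i ^ 3 = 1 := fun i => Subtype.ext (hg3 i)
  let R : Option (Fin n) → Matrix (Fin m) (Fin m) ℂ := fun i => (ρ (G i) : Matrix _ _ ℂ)
  let R' : Option (Fin n) → Matrix (Fin m) (Fin m) ℂ := fun i => (ρ' (G i) : Matrix _ _ ℂ)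
  have key : ∀ (r : H →* GL (Fin m) ℂ),
      (∀ i j, (r (G i) : Matrix (Fin m) (Fin m) ℂ) * (r (G j) : Matrix (Fin m) (Fin m) ℂ) =
        (r (G j) : Matrix (Fin m) (Fin m) ℂ) * (r (G i) : Matrix (Fin m) (Fin m) ℂ)) ∧
      ∀ i, (r (G i) : Matrix (Fin m) (Fin m) ℂ) ^ 3 = 1 := by
    intro r
    refine ⟨fun i j => ?_, fun i => ?_⟩
    · rw [← Units.val_mul, ← Units.val_mul, ← map_mul, ← map_mul, hGc]
    · rw [← Units.val_pow_eq_pow_val, ← map_pow, hG3, map_one, Units.val_one]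
  obtain ⟨S, χ, hS, hRS, hχ⟩ := wt R (key ρ).1 (key ρ).2
  obtain ⟨S', χ', hS', hRS', hχ'⟩ := wt R' (key ρ').1 (key ρ').2
  have hχ0 : ∀ a i, χ a i ≠ 0 := by
    intro a i h
    have := hχ a i
    rw [h] at this
    norm_num at this
  have hχ0' : ∀ a i, χ' a i ≠ 0 := by
    intro a i h
    have := hχ' a i
    rw [h] at this
    norm_num at this
  let N : Matrix (Fin n) (Fin n) ℂ →ₗ[ℂ] Matrix (Fin m) (Fin m) ℂ :=
    { toFun := fun X => S'⁻¹ * M X * S
      map_add' := fun X Y => by rw [map_add, Matrix.mul_add, Matrix.add_mul]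
      map_smul' := fun c X => by
        rw [map_smul, Matrix.mul_smul, Matrix.smul_mul]
        rfl }
  have hN : ∀ X, N X = S'⁻¹ * M X * S := fun X => rfl
  have hLN : ∀ X, S'⁻¹ * L * S + N X = S'⁻¹ * (L + M X) * S := by
    intro X
    rw [hN, Matrix.mul_add, Matrix.add_mul]
  -- equivariance
  have hSS : ∀ i X, (S'⁻¹ * L * S + N (act (hg i) X)) * Matrix.diagonal (fun a => χ a i) =
      Matrix.diagonal (fun a => χ' a i) * (S'⁻¹ * L * S + N X) := by
    intro i X
    have h1 : (L + M (act (hg i) X)) * R i = R' i * (L + M X) := by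
      have h2 := hE.eqv (G i) X
      have h3 : ((ρ (G i))⁻¹ : GL (Fin m) ℂ).val * R i = 1 := (ρ (G i)).inv_mul
      show (L + M (act ((G i : H) : GL (Fin n) ℂ × ℂˣ) X)) * R i = _
      rw [h2, Matrix.mul_assoc, h3, Matrix.mul_one]
    have h4 : Matrix.diagonal (fun a => χ' a i) = S'⁻¹ * (R' i * S') := by
      rw [hRS', ← Matrix.mul_assoc, Matrix.nonsing_inv_mul S' hS', Matrix.one_mul]
    rw [hLN, hLN, h4]
    calc S'⁻¹ * (L + M (act (hg i) X)) * S * Matrix.diagonal (fun a => χ a i)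
        = S'⁻¹ * (L + M (act (hg i) X)) * (S * Matrix.diagonal (fun a => χ a i)) := by
          simp only [Matrix.mul_assoc]
      _ = S'⁻¹ * ((L + M (act (hg i) X)) * R i) * S := by
          rw [← hRS]
          simp only [Matrix.mul_assoc]
      _ = S'⁻¹ * R' i * (S' * S'⁻¹) * (L + M X) * S := by
          rw [h1, Matrix.mul_nonsing_inv S' hS', Matrix.mul_one]
          simp only [Matrix.mul_assoc]
      _ = _ := by simp only [Matrix.mul_assoc]
  have hent : ∀ i X b a, ((S'⁻¹ * L * S) b a + N (act (hg i) X) b a) * χ a i =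
      χ' b i * ((S'⁻¹ * L * S) b a + N X b a) := by
    intro i X b a
    have h1 := congrFun (congrFun (hSS i X) b) a
    rwa [Matrix.mul_diagonal, Matrix.diagonal_mul, Matrix.add_apply, Matrix.add_apply] at h1
  have hentL : ∀ i b a, (S'⁻¹ * L * S) b a * χ a i = χ' b i * (S'⁻¹ * L * S) b a := by
    intro i b a
    have h1 := hent i 0 b a
    rw [MkG_act_zero, map_zero, Matrix.zero_apply, add_zero] at h1
    exact h1
  have hentN : ∀ i X b a, N (act (hg i) X) b a * χ a i = χ' b i * N X b a := by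
    intro i X b a
    linear_combination hent i X b a - hentL i b a
  have hdet : ∀ X, (S'⁻¹ * L * S + N X).det = (S'⁻¹).det * S.det * Fv X := by
    intro X
    rw [hLN, Matrix.det_mul, Matrix.det_mul, hE.det, eval_skew]
    ring
  have hc0 : (S'⁻¹).det * S.det ≠ 0 :=
    mul_ne_zero (Matrix.isUnit_nonsing_inv_det S' hS').ne_zero hS.ne_zero
  have hprod : ∀ i, ∏ b, χ' b i =
      ((hg i).1 : Matrix (Fin n) (Fin n) ℂ).det ^ 2 * ((hg i).2 : ℂ) * ∏ a, χ a i := by
    intro i
    obtain ⟨X, hX⟩ := hne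
    have h1 := congrArg Matrix.det (hSS i X)
    rw [Matrix.det_mul, Matrix.det_mul, Matrix.det_diagonal, Matrix.det_diagonal, hdet, hdet,
      Fv_act] at h1
    have h2 : (S'⁻¹).det * S.det * Fv X ≠ 0 := mul_ne_zero hc0 hX
    apply mul_right_cancel₀ h2
    rw [← h1]
    ring
  have hst : ∀ (r : H →* GL (Fin m) ℂ) (T : Matrix (Fin m) (Fin m) ℂ)
      (ψ : Fin m → Option (Fin n) → ℂ),
      IsUnit T.det → (∀ i, (r (G i) : Matrix (Fin m) (Fin m) ℂ) * T =
        T * Matrix.diagonal (fun a => ψ a i)) →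
      ∀ (σ : Equiv.Perm (Fin n)) a, ∃ a', ∀ i : Fin n, ψ a' (some (σ i)) = ψ a (some i) := by
    intro r T ψ hT hr σ a
    have hp : ((MkG_p σ⁻¹ : GL (Fin n) ℂ), (1 : ℂˣ)) ∈ H := hH.perm σ⁻¹ _ rfl
    have hcom : ∀ i, (⟨_, hp⟩ : H) * G i = G (Option.map σ i) * ⟨_, hp⟩ := by
      intro i
      apply Subtype.ext
      cases i with
      | none => exact Prod.ext (by simp [G, hg]) (by simp [G, hg])
      | some l =>
        refine Prod.ext ?_ rfl
        apply Units.ext
        show σ⁻¹.permMatrix ℂ * Matrix.diagonal (dv l) =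
          Matrix.diagonal (dv (σ l)) * σ⁻¹.permMatrix ℂ
        rw [MkG_perm_diag]
        congr 2
        ext i
        have : σ⁻¹ i = l ↔ i = σ l := by
          rw [Equiv.Perm.inv_eq_iff_eq]
        simp only [dv, this]
    obtain ⟨a', ha'⟩ := wt_st (fun i => (r (G i) : Matrix (Fin m) (Fin m) ℂ)) T ψ hT hr
      (r ⟨_, hp⟩ : Matrix (Fin m) (Fin m) ℂ)
      ((Matrix.isUnit_iff_isUnit_det _).1 (r ⟨_, hp⟩).isUnit)
      (Option.map σ) (fun i => by
        show (r ⟨_, hp⟩ : Matrix (Fin m) (Fin m) ℂ) * (r (G i) : Matrix (Fin m) (Fin m) ℂ) =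
          (r (G (Option.map σ i)) : Matrix (Fin m) (Fin m) ℂ) *
            (r ⟨_, hp⟩ : Matrix (Fin m) (Fin m) ℂ)
        rw [← Units.val_mul, ← Units.val_mul, ← map_mul, ← map_mul, hcom]) a
    exact ⟨a', fun i => ha' (some i)⟩
  refine ⟨q, (S'⁻¹).det * S.det, S'⁻¹ * L * S, N, fun a l => χ a (some l),
    fun b l => χ' b (some l), fun a => χ a none, fun b => χ' b none, ?_⟩
  refine ⟨hq3, hq1, hc0, hdet, fun a i => hχ0 a _, fun a i => hχ0' a _, fun a => hχ0 a _,
    fun a => hχ0' a _, ?_, ?_, ?_, ?_, hst ρ S χ hS hRS, hst ρ' S' χ' hS' hRS', ?_, ?_⟩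
  · intro b a hL
    have h1 : ∀ i, χ' b i = χ a i := by
      intro i
      apply mul_right_cancel₀ hL
      rw [← hentL i b a]
      ring
    exact ⟨funext fun l => h1 (some l), h1 none⟩
  · intro b a i j hN0 l
    have h1 := hentN (some l) (Matrix.single i j 1) b a
    have h2 : act (hg (some l)) (Matrix.single i j (1 : ℂ)) =
        (dv l i * dv l j) • Matrix.single i j (1 : ℂ) := by
      show act (MkG_d (dv l) (hdv l), 1) _ = _
      rw [MkG_act_one]
      exact MkG_diag_single (dv l) i j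
    rw [h2, map_smul, Matrix.smul_apply, smul_eq_mul] at h1
    apply mul_right_cancel₀ hN0
    rw [← h1]
    show dv l i * dv l j * _ * _ = dv l i * dv l j * _ * _
    ring
  · intro A hA b a hN0
    have h1 := hentN none A b a
    have h2 : act (hg none) A = A := MkG_act_skew s hA
    rw [h2] at h1
    apply mul_right_cancel₀ hN0
    rw [← h1]
    ring
  · intro Y hY b a hN0
    have h1 := hentN none Y b a
    have h2 : act (hg none) Y = (s : ℂ) • Y := MkG_act_sym s hY
    rw [h2, map_smul, Matrix.smul_apply, smul_eq_mul, hs] at h1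
    apply mul_right_cancel₀ hN0
    rw [← h1]
    ring
  · intro l
    have h1 := hprod (some l)
    have h2 : (((hg (some l)).1 : GL (Fin n) ℂ) : Matrix (Fin n) (Fin n) ℂ).det = q := by
      show (Matrix.diagonal (dv l)).det = q
      rw [Matrix.det_diagonal, Finset.prod_ite_eq' Finset.univ l (fun _ => q)]
      simp
    have h3 : (((hg (some l)).2 : ℂˣ) : ℂ) = 1 := rfl
    rw [h2, h3, mul_one] at h1
    exact h1
  · have h1 := hprod none
    have h2 : (((hg none).1 : GL (Fin n) ℂ) : Matrix (Fin n) (Fin n) ℂ).det = 1 := by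
      show (1 : Matrix (Fin n) (Fin n) ℂ).det = 1
      exact Matrix.det_one
    have h3 : (((hg none).2 : ℂˣ) : ℂ) = q := rfl
    rw [h2, h3, one_pow, one_mul] at h1
    exact h1

end PadDet.Eq
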