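import Mathlib

/-!
# MP_d7db32_ag, Eq/Mtc: matching of rows and columns with the same weight

For every `ω` which is not constant there is a bijection of `{a // w a = ω}` with `{b // w' b = ω}` (`h`); together they are a bijection of `{a // w a is not constant}`
with `{b // w' b is not constant}` which keeps the weight; extend it to a permutation of `Fin m` (`Equiv.extendSubtype`, or the complements have the same number of
elements). The complement goes to the complement.
-/

set_option autoImplicit false

namespace PadDet.Eq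

theorem mtc {n m : ℕ} (w w' : Fin m → Fin n → ZMod 3)
    (h : ∀ ω : Fin n → ZMod 3, (∃ i j, ω i ≠ ω j) →
      Nat.card {a // w a = ω} = Nat.card {b // w' b = ω}) :
    ∃ π : Equiv.Perm (Fin m), (∀ a, (∃ i j, w a i ≠ w a j) → w' (π a) = w a) ∧
      ∀ a, (∀ i j, w a i = w a j) → ∀ i j, w' (π a) i = w' (π a) j := by
  classical
  obtain ⟨c, hc⟩ : ∃ c : (Fin n → ZMod 3) → Option (Fin n → ZMod 3),
      c = fun ω => if (∃ i j, ω i ≠ ω j) then some ω else none := ⟨_, rfl⟩
  have hcp : ∀ ω, (∃ i j, ω i ≠ ω j) → c ω = some ω := fun ω hω => by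
    rw [hc]
    exact if_pos hω
  have hcq : ∀ ω, ¬ (∃ i j, ω i ≠ ω j) → c ω = none := fun ω hω => by
    rw [hc]
    exact if_neg hω
  have hcs : ∀ ω v, c ω = some v → (∃ i j, ω i ≠ ω j) ∧ ω = v := by
    intro ω v hv
    by_cases hω : ∃ i j, ω i ≠ ω j
    · rw [hcp ω hω] at hv
      exact ⟨hω, Option.some.inj hv⟩
    · rw [hcq ω hω] at hv
      exact absurd hv (by simp)
  have hcn : ∀ ω, c ω = none → ¬ ∃ i j, ω i ≠ ω j := by
    intro ω hv hω
    rw [hcp ω hω] at hv
    exact absurd hv (by simp)
  have hsome : ∀ v, Nat.card {a // c (w a) = some v} = Nat.card {b // c (w' b) = some v} := by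
    intro v
    by_cases hv : ∃ i j, v i ≠ v j
    · have e1 : ∀ u : Fin m → Fin n → ZMod 3,
          Nat.card {a // c (u a) = some v} = Nat.card {a // u a = v} := by
        intro u
        refine Nat.card_congr (Equiv.subtypeEquivRight fun a => ⟨fun h1 => (hcs _ _ h1).2, ?_⟩)
        intro h1
        rw [h1]
        exact hcp v hv
      rw [e1, e1]
      exact h v hv
    · have e1 : ∀ u : Fin m → Fin n → ZMod 3, Nat.card {a // c (u a) = some v} = 0 := by
        intro u
        have : IsEmpty {a // c (u a) = some v} := ⟨fun a => hv (by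
          have h1 := hcs _ _ a.2
          rw [← h1.2]
          exact h1.1)⟩
        exact Nat.card_of_isEmpty
      rw [e1, e1]
  have hsum : ∀ u : Fin m → Fin n → ZMod 3,
      Nat.card {a // c (u a) = none} + ∑ v, Nat.card {a // c (u a) = some v} = m := by
    intro u
    have e1 := Nat.card_congr (Equiv.sigmaFiberEquiv fun a => c (u a))
    rw [Nat.card_sigma, Fintype.sum_option, Nat.card_fin] at e1
    exact e1
  have hall : ∀ v, Nat.card {a // c (w a) = v} = Nat.card {b // c (w' b) = v} := by
    rintro (_ | v)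
    · have h1 := hsum w
      have h2 := hsum w'
      rw [Finset.sum_congr rfl fun v _ => hsome v] at h1
      omega
    · exact hsome v
  have e : ∀ v, {a // c (w a) = v} ≃ {b // c (w' b) = v} := fun v =>
    (Finite.card_eq.1 (hall v)).some
  have hπ : ∀ a, c (w' (Equiv.ofFiberEquiv e a)) = c (w a) := fun a =>
    Equiv.ofFiberEquiv_map (f := fun a => c (w a)) (g := fun b => c (w' b)) e a
  refine ⟨Equiv.ofFiberEquiv e, fun a ha => ?_, fun a ha i j => ?_⟩
  · have h1 := hπ a
    rw [hcp _ ha] at h1
    exact (hcs _ _ h1).2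
  · have h1 := hπ a
    rw [hcq (w a) (by
      rintro ⟨i, j, hij⟩
      exact hij (ha i j))] at h1
    by_contra hij
    exact hcn _ h1 ⟨i, j, hij⟩

end PadDet.Eq
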