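import Mathlib

/-!
# MP_d7db32_ag, Eq/Nil: determinant of a unipotent map plus a map of rank one

`id + N` is invertible with determinant `1` (`LinearMap.charpoly` of a nilpotent map is `X ^ finrank`, evaluate the characteristic polynomial of `-N` at `1`; or `det (1 + N)` for matrices: `N` nilpotent).
`id + N + φ η = (id + N) ∘ (id + φ z)` because of `hz`, and `det (id + φ z) = 1 + φ z` (matrices: `Matrix.det_one_add_replicateCol_mul_replicateRow`, or a Mathlib lemma on transvections / `LinearMap.det`).
-/

set_option autoImplicit false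

namespace PadDet.Eq

theorem nil_det {V : Type} [AddCommGroup V] [Module ℂ V] [FiniteDimensional ℂ V]
    (N : V →ₗ[ℂ] V) (hN : IsNilpotent N) (φ : V →ₗ[ℂ] ℂ) (η z : V) (hz : z + N z = η) :
    LinearMap.det (LinearMap.id + N + φ.smulRight η) = 1 + φ z := by
  have h1 : LinearMap.det (LinearMap.id + N : V →ₗ[ℂ] V) = 1 := by
    have h2 : IsNilpotent (-N) := hN.neg
    have h3 := (LinearMap.isNilpotent_iff_charpoly (-N)).1 h2
    have h4 := LinearMap.eval_charpoly (-N) 1
    rw [h3] at h4
    simp only [Polynomial.eval_pow, Polynomial.eval_X, one_pow, map_one, sub_neg_eq_add] at h4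
    exact h4.symm
  have h5 : LinearMap.id + N + φ.smulRight η =
      (LinearMap.id + N) ∘ₗ LinearMap.transvection φ z := by
    ext x
    simp only [LinearMap.add_apply, LinearMap.id_apply, LinearMap.smulRight_apply,
      LinearMap.comp_apply, LinearMap.transvection.apply, map_add, map_smul, ← hz, smul_add]
  rw [h5, LinearMap.det_comp, h1, one_mul, LinearMap.transvection.det]

end PadDet.Eq
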