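import Pool.Agent.H.MP_d7db32_ag.Eq.ExtG
import Pool.Agent.H.MP_d7db32_ag.Eq.Nil

/-!
# MP_d7db32_ag, Eq/Opr: the operator between the two hyperplanes of the exterior algebra and its determinant

`n = 2 k + 1`. `tt X u = u - ep u • 1 + om X * u + yy (X + Xᵀ) u`. Both hyperplanes `Ek = ker vs`, `Fk = ker ep` have dimension `2 ^ n - 1` (`finrank_Tx`, `vs_vol`, `ep 1 = 1`).
`Θ u = u - vs u • vol + vs u • 1` is an isomorphism `Fk → Ek` with inverse `v ↦ v - ep v • 1 + ep v • vol` (`vs 1 = 0`, `ep vol = 0`). Let `bF` be a basis of `Fk` and `bE` its image under `Θ`; then the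
determinant in `opr` is the determinant of `G = tt X ∘ Θ : Fk → Fk`. Let `N u = om X * u + yy (X + Xᵀ) u` (maps everything to `Fk`). For `u` in `Fk`: `G u = u + N u + vs u • (N 1 - vol)` (`om X * vol = 0`, `yy S vol = 0`
by degrees). `N` is nilpotent: on an element of degree `d` odd: `yy` gives `0` (`vs (e_i u)`, degree `d + 1 ≠ n`), `om X * u` has degree `d + 2`, odd; on an element of even degree `d`: `om X * u` has degree `d + 2`, `yy S u` has degree `1`;
so `N ^ (2 n + 2) = 0` (`hd_sum`, `hd_zero`). `nil_det` with `φ = vs`, `η = N 1 - vol`, `z = - ∑ 1 ≤ j ≤ 2 k + 1, (-N) ^ j 1 - vol` (then `z + N z = η`, since `(-N) ^ (2 k + 2) 1 = 0` and `N vol = 0`).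
`(-N) ^ j 1 = (-om X) ^ j` for `j ≤ k`, `(-N) ^ (k + 1 + j) 1 = - (-om X) ^ j * yy S ((-om X) ^ k)` for all `j` (`(om X) ^ (k + 1) = 0`, `yy S (om X ^ j) = 0` for `j < k`; for `k = 0` directly). So
`vs z = - vs ((-N) ^ (2 k + 1) 1) - 1 = vs (om X ^ k * yy S (om X ^ k)) - 1` (all other terms have degree `≠ n`) and the determinant is `1 + vs z`.
-/

set_option autoImplicit false

namespace PadDet.Eq

open Matrix

/-- The operator. -/
noncomputable def tt {n : ℕ} (X : Matrix (Fin n) (Fin n) ℂ) : Tx n →ₗ[ℂ] Tx n :=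
  LinearMap.id - (ep n).toLinearMap.smulRight 1 + LinearMap.mulLeft ℂ (om X) + yy (X + Xᵀ)

/-- The kernel of the top coefficient. -/
noncomputable def Ek (n : ℕ) : Submodule ℂ (Tx n) := LinearMap.ker (vs n)

/-- The kernel of the coefficient of `1`. -/
noncomputable def Fk (n : ℕ) : Submodule ℂ (Tx n) := LinearMap.ker (ep n).toLinearMap

private theorem Opr_ep_om {n : ℕ} (X : Matrix (Fin n) (Fin n) ℂ) : ep n (om X) = 0 :=
  ep_hd two_ne_zero (om_hd X)

private theorem Opr_ep_yy {n : ℕ} (S : Matrix (Fin n) (Fin n) ℂ) (u : Tx n) :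
    ep n (yy S u) = 0 :=
  ep_hd one_ne_zero (yy_hd S u)

private theorem Opr_tt {n : ℕ} (X : Matrix (Fin n) (Fin n) ℂ) (u : Tx n) :
    tt X u = u - ep n u • (1 : Tx n) + om X * u + yy (X + Xᵀ) u := rfl

theorem tt_mem {n : ℕ} (X : Matrix (Fin n) (Fin n) ℂ) (u : Tx n) : tt X u ∈ Fk n := by
  show ep n (tt X u) = 0
  rw [Opr_tt, map_add, map_add, map_sub, map_smul, map_mul, Opr_ep_om, Opr_ep_yy, map_one,
    smul_eq_mul, mul_one, sub_self, zero_mul, add_zero, add_zero]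

/-- The operator from the first hyperplane to the second. -/
noncomputable def ttr {n : ℕ} (X : Matrix (Fin n) (Fin n) ℂ) : Ek n →ₗ[ℂ] Fk n :=
  ((tt X) ∘ₗ (Ek n).subtype).codRestrict (Fk n) fun u => tt_mem X u

private theorem Opr_pow {R : Type*} [Ring R] (A B : R) (h : ∀ j : ℕ, B * A ^ j * B = 0) (p : ℕ) :
    (A + B) ^ p = A ^ p + ∑ i ∈ Finset.range p, A ^ i * B * A ^ (p - 1 - i) := by
  induction p with
  | zero => simp
  | succ p ih =>
    have h1 : B * ∑ i ∈ Finset.range p, A ^ i * B * A ^ (p - 1 - i) = 0 := by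
      rw [Finset.mul_sum]
      refine Finset.sum_eq_zero fun i _ => ?_
      rw [← mul_assoc, ← mul_assoc, h, zero_mul]
    have h2 : A * ∑ i ∈ Finset.range p, A ^ i * B * A ^ (p - 1 - i) =
        ∑ i ∈ Finset.range p, A ^ (i + 1) * B * A ^ (p + 1 - 1 - (i + 1)) := by
      rw [Finset.mul_sum]
      refine Finset.sum_congr rfl fun i _ => ?_
      rw [show p + 1 - 1 - (i + 1) = p - 1 - i by omega, pow_succ' A i, mul_assoc, mul_assoc,
        mul_assoc]
    rw [pow_succ', ih, Finset.sum_range_succ', ← h2, pow_zero, one_mul, add_mul, mul_add,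
      mul_add, h1, add_zero, pow_succ' A p, show p + 1 - 1 - 0 = p by omega, add_assoc]

private theorem Opr_inv {R : Type*} [Ring R] [Algebra ℂ R] (a : R) (p : ℕ) (h : a ^ p = 0) :
    (1 + a) * ∑ i ∈ Finset.range p, ((-1 : ℂ) ^ i) • a ^ i = 1 := by
  have h1 : ∀ i : ℕ, ((-1 : ℂ) ^ i) • a ^ i = (-a) ^ i := by
    intro i
    rw [neg_pow a, Algebra.smul_def, map_pow, map_neg, map_one]
  simp only [h1]
  have h2 := mul_neg_geom_sum (-a) p
  rw [sub_neg_eq_add, neg_pow a p, h, mul_zero, sub_zero] at h2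
  exact h2

private theorem Opr_om_pow {n : ℕ} (X : Matrix (Fin n) (Fin n) ℂ) (j : ℕ) :
    om X ^ j ∈ Hd n (2 * j) := by
  induction j with
  | zero =>
    rw [pow_zero]
    exact one_hd n
  | succ j ih =>
    rw [pow_succ]
    exact hd_mul ih (om_hd X)

/-- `yy` vanishes on elements of degree `d` with `d + 1 ≠ n` -/
private theorem Opr_yy_zero {n d : ℕ} (h : 1 + d ≠ n) (S : Matrix (Fin n) (Fin n) ℂ) {u : Tx n}
    (hu : u ∈ Hd n d) : yy S u = 0 := by
  rw [yy_apply]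
  refine Finset.sum_eq_zero fun i _ => Finset.sum_eq_zero fun j _ => ?_
  rw [vs_hd h (hd_mul (ex_hd i) hu), mul_zero, zero_smul]

/-- the map `u ↦ om X * u + yy (X + Xᵀ) u` -/
private noncomputable def OprN {n : ℕ} (X : Matrix (Fin n) (Fin n) ℂ) : Module.End ℂ (Tx n) :=
  LinearMap.mulLeft ℂ (om X) + yy (X + Xᵀ)

private theorem OprN_apply {n : ℕ} (X : Matrix (Fin n) (Fin n) ℂ) (u : Tx n) :
    OprN X u = om X * u + yy (X + Xᵀ) u := rfl

private theorem Opr_ep_N {n : ℕ} (X : Matrix (Fin n) (Fin n) ℂ) (u : Tx n) :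
    ep n (OprN X u) = 0 := by
  rw [OprN_apply, map_add, map_mul, Opr_ep_om, Opr_ep_yy, zero_mul, add_zero]

private theorem Opr_key {k : ℕ} (X : Matrix (Fin (2 * k + 1)) (Fin (2 * k + 1)) ℂ) (p : ℕ) :
    OprN X ^ p = (LinearMap.mulLeft ℂ (om X) : Module.End ℂ (Tx (2 * k + 1))) ^ p +
      ∑ i ∈ Finset.range p, (LinearMap.mulLeft ℂ (om X) : Module.End ℂ (Tx (2 * k + 1))) ^ i *
        (yy (X + Xᵀ) : Module.End ℂ (Tx (2 * k + 1))) *
        (LinearMap.mulLeft ℂ (om X) : Module.End ℂ (Tx (2 * k + 1))) ^ (p - 1 - i) := by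
  refine Opr_pow _ _ (fun j => ?_) p
  apply LinearMap.ext
  intro u
  show yy (X + Xᵀ) (((LinearMap.mulLeft ℂ (om X) : Module.End ℂ (Tx (2 * k + 1))) ^ j)
    (yy (X + Xᵀ) u)) = 0
  rw [LinearMap.pow_mulLeft, LinearMap.mulLeft_apply]
  exact Opr_yy_zero (by omega) _ (hd_mul (Opr_om_pow X j) (yy_hd _ u))

private theorem Opr_om_zero {k j : ℕ} (hj : k < j)
    (X : Matrix (Fin (2 * k + 1)) (Fin (2 * k + 1)) ℂ) : om X ^ j = 0 :=
  hd_zero (by omega) (Opr_om_pow X j)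

private theorem Opr_nil {k : ℕ} (X : Matrix (Fin (2 * k + 1)) (Fin (2 * k + 1)) ℂ) :
    OprN X ^ (2 * k + 2) = 0 := by
  have hz : ∀ j, k < j → (LinearMap.mulLeft ℂ (om X) : Module.End ℂ (Tx (2 * k + 1))) ^ j = 0 := by
    intro j hj
    rw [LinearMap.pow_mulLeft, Opr_om_zero hj]
    exact LinearMap.mulLeft_zero_eq_zero ℂ (Tx (2 * k + 1))
  rw [Opr_key, hz _ (by omega), zero_add]
  refine Finset.sum_eq_zero fun i _ => ?_
  by_cases hi : k < i
  · rw [hz i hi, zero_mul, zero_mul]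
  · rw [hz (2 * k + 2 - 1 - i) (by omega), mul_zero]

private theorem Opr_N_one {k : ℕ} (X : Matrix (Fin (2 * k + 1)) (Fin (2 * k + 1)) ℂ) (p : ℕ) :
    vs (2 * k + 1) ((OprN X ^ p) 1) =
      ∑ i ∈ Finset.range p, vs (2 * k + 1) (om X ^ i * yy (X + Xᵀ) (om X ^ (p - 1 - i))) := by
  rw [Opr_key, LinearMap.add_apply, map_add, LinearMap.sum_apply, map_sum, LinearMap.pow_mulLeft,
    LinearMap.mulLeft_apply, mul_one, vs_hd (by omega) (Opr_om_pow X p), zero_add]
  refine Finset.sum_congr rfl fun i _ => ?_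
  rw [LinearMap.pow_mulLeft, LinearMap.pow_mulLeft]
  show vs (2 * k + 1) (om X ^ i * yy (X + Xᵀ) (om X ^ (p - 1 - i) * 1)) = _
  rw [mul_one]

private theorem Opr_term {k i j : ℕ} (h : i ≠ k ∨ j ≠ k)
    (X : Matrix (Fin (2 * k + 1)) (Fin (2 * k + 1)) ℂ) :
    vs (2 * k + 1) (om X ^ i * yy (X + Xᵀ) (om X ^ j)) = 0 := by
  rcases h with h | h
  · exact vs_hd (by omega) (hd_mul (Opr_om_pow X i) (yy_hd _ _))
  · rw [Opr_yy_zero (by omega) _ (Opr_om_pow X j), mul_zero, map_zero]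

private theorem Opr_low {k p : ℕ} (hp : p < 2 * k + 1)
    (X : Matrix (Fin (2 * k + 1)) (Fin (2 * k + 1)) ℂ) :
    vs (2 * k + 1) ((OprN X ^ p) 1) = 0 := by
  rw [Opr_N_one]
  refine Finset.sum_eq_zero fun i hi => Opr_term ?_ X
  have := Finset.mem_range.1 hi
  omega

private theorem Opr_top {k : ℕ} (X : Matrix (Fin (2 * k + 1)) (Fin (2 * k + 1)) ℂ) :
    vs (2 * k + 1) ((OprN X ^ (2 * k + 1)) 1) =
      vs (2 * k + 1) (om X ^ k * yy (X + Xᵀ) (om X ^ k)) := by
  rw [Opr_N_one, Finset.sum_eq_single k]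
  · rw [show 2 * k + 1 - 1 - k = k by omega]
  · intro i _ hi
    exact Opr_term (Or.inl hi) X
  · intro h
    exact absurd (Finset.mem_range.2 (by omega)) h

private instance Opr_fin (n : ℕ) : FiniteDimensional ℂ (Tx n) :=
  Module.finite_of_finrank_pos (by
    rw [finrank_Tx]
    positivity)

private theorem Opr_finrank (n : ℕ) : Module.finrank ℂ (Fk n) = 2 ^ n - 1 := by
  have h1 := LinearMap.finrank_range_add_finrank_ker (ep n).toLinearMap
  have h2 : LinearMap.range (ep n).toLinearMap = ⊤ := by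
    rw [LinearMap.range_eq_top]
    intro c
    refine ⟨c • (1 : Tx n), ?_⟩
    show ep n (c • (1 : Tx n)) = c
    rw [map_smul, map_one, smul_eq_mul, mul_one]
  rw [h2, finrank_top, Module.finrank_self, finrank_Tx] at h1
  have h3 : Module.finrank ℂ (Fk n) = Module.finrank ℂ (LinearMap.ker (ep n).toLinearMap) := rfl
  omega

private theorem Opr_vs_one {n : ℕ} (hn : n ≠ 0) : vs n 1 = 0 := vs_hd hn.symm (one_hd n)

private theorem Opr_ep_vol {n : ℕ} (hn : n ≠ 0) : ep n (vol n) = 0 := ep_hd hn (vol_hd n)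

/-- the isomorphism of the hyperplanes -/
private noncomputable def OprT {n : ℕ} (hn : n ≠ 0) : Fk n ≃ₗ[ℂ] Ek n where
  toFun u := ⟨(u : Tx n) - vs n u • vol n + vs n u • (1 : Tx n), by
    show vs n _ = 0
    rw [map_add, map_sub, map_smul, map_smul, vs_vol, Opr_vs_one hn, smul_eq_mul, mul_one,
      sub_self, smul_zero, add_zero]⟩
  map_add' u v := by
    apply Subtype.ext
    simp only [Submodule.coe_add, map_add, add_smul]
    abel
  map_smul' c u := by
    apply Subtype.ext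
    simp only [Submodule.coe_smul, map_smul, RingHom.id_apply, smul_add, smul_sub, smul_smul,
      smul_eq_mul]
  invFun v := ⟨(v : Tx n) - ep n v • (1 : Tx n) + ep n v • vol n, by
    show ep n _ = 0
    rw [map_add, map_sub, map_smul, map_smul, map_one, Opr_ep_vol hn, smul_eq_mul, mul_one,
      sub_self, smul_zero, add_zero]⟩
  left_inv u := by
    apply Subtype.ext
    have hu : ep n (u : Tx n) = 0 := u.2
    simp only [map_add, map_sub, map_smul, map_one, Opr_ep_vol hn, hu, smul_eq_mul, mul_one,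
      mul_zero, sub_zero, zero_add]
    abel
  right_inv v := by
    apply Subtype.ext
    have hv : vs n (v : Tx n) = 0 := v.2
    simp only [map_add, map_sub, map_smul, Opr_vs_one hn, vs_vol, hv, smul_eq_mul, mul_one,
      mul_zero, sub_zero, zero_add]
    abel

private theorem Opr_T_apply {n : ℕ} (hn : n ≠ 0) (u : Fk n) :
    ((OprT hn u : Ek n) : Tx n) = (u : Tx n) - vs n u • vol n + vs n u • (1 : Tx n) := rfl

/-- the restriction of `OprN` -/
private noncomputable def OprF {n : ℕ} (X : Matrix (Fin n) (Fin n) ℂ) : Fk n →ₗ[ℂ] Fk n :=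
  ((OprN X) ∘ₗ (Fk n).subtype).codRestrict (Fk n) fun u => Opr_ep_N X u

private theorem OprF_apply {n : ℕ} (X : Matrix (Fin n) (Fin n) ℂ) (u : Fk n) :
    ((OprF X u : Fk n) : Tx n) = OprN X u := rfl

private theorem OprF_pow {n : ℕ} (X : Matrix (Fin n) (Fin n) ℂ) (p : ℕ) (u : Fk n) :
    (((OprF X ^ p) u : Fk n) : Tx n) = (OprN X ^ p) (u : Tx n) := by
  induction p generalizing u with
  | zero => rfl
  | succ p ih =>
    rw [pow_succ, pow_succ]
    show (((OprF X ^ p) (OprF X u) : Fk n) : Tx n) = (OprN X ^ p) (OprN X (u : Tx n))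
    rw [ih, OprF_apply]

theorem opr (k : ℕ) :
    ∃ (bE : Module.Basis (Fin (2 ^ (2 * k + 1) - 1)) ℂ (Ek (2 * k + 1)))
      (bF : Module.Basis (Fin (2 ^ (2 * k + 1) - 1)) ℂ (Fk (2 * k + 1))),
      ∀ X : Matrix (Fin (2 * k + 1)) (Fin (2 * k + 1)) ℂ,
        (LinearMap.toMatrix bE bF (ttr X)).det =
          vs (2 * k + 1) (om X ^ k * yy (X + Xᵀ) (om X ^ k)) := by
  have hn : 2 * k + 1 ≠ 0 := by omega
  obtain ⟨bF⟩ : Nonempty (Module.Basis (Fin (2 ^ (2 * k + 1) - 1)) ℂ (Fk (2 * k + 1))) :=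
    ⟨Module.finBasisOfFinrankEq ℂ (Fk (2 * k + 1)) (Opr_finrank _)⟩
  refine ⟨bF.map (OprT hn), bF, fun X => ?_⟩
  have h1 : LinearMap.toMatrix (bF.map (OprT hn)) bF (ttr X) =
      LinearMap.toMatrix bF bF (ttr X ∘ₗ (OprT hn : Fk (2 * k + 1) →ₗ[ℂ] Ek (2 * k + 1))) := by
    ext i j
    rw [LinearMap.toMatrix_apply, LinearMap.toMatrix_apply, Module.Basis.map_apply]
    rfl
  rw [h1, LinearMap.det_toMatrix]
  -- the vectors
  have hη : OprN X 1 - vol (2 * k + 1) ∈ Fk (2 * k + 1) := by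
    show ep (2 * k + 1) _ = 0
    rw [map_sub, Opr_ep_N, Opr_ep_vol hn, sub_zero]
  have h2 : ttr X ∘ₗ (OprT hn : Fk (2 * k + 1) →ₗ[ℂ] Ek (2 * k + 1)) =
      LinearMap.id + OprF X + ((vs (2 * k + 1)) ∘ₗ (Fk (2 * k + 1)).subtype).smulRight
        (⟨_, hη⟩ : Fk (2 * k + 1)) := by
    apply LinearMap.ext
    intro u
    apply Subtype.ext
    have hu : ep (2 * k + 1) (u : Tx (2 * k + 1)) = 0 := u.2
    show tt X ((OprT hn u : Ek (2 * k + 1)) : Tx (2 * k + 1)) =
      (u : Tx (2 * k + 1)) + OprN X u + vs (2 * k + 1) u • (OprN X 1 - vol (2 * k + 1))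
    have e1 : om X * vol (2 * k + 1) = 0 :=
      hd_zero (d := 2 + (2 * k + 1)) (by omega) (hd_mul (om_hd X) (vol_hd _))
    have e2 : yy (X + Xᵀ) (vol (2 * k + 1)) = 0 :=
      Opr_yy_zero (by omega) _ (vol_hd _)
    rw [Opr_T_apply, Opr_tt, OprN_apply, OprN_apply]
    simp only [map_add, map_sub, map_smul, hu, Opr_ep_vol hn, map_one, mul_add, mul_sub,
      mul_smul_comm, e1, e2, smul_zero, sub_zero, smul_eq_mul, mul_one, mul_zero, zero_add,
      smul_add, smul_sub]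
    abel
  -- the inverse of `1 + N`
  obtain ⟨Q, hQ⟩ : ∃ Q : Module.End ℂ (Tx (2 * k + 1)),
      Q = ∑ i ∈ Finset.range (2 * k + 2), ((-1 : ℂ) ^ i) • OprN X ^ i := ⟨_, rfl⟩
  have h3 : (1 + OprN X) * Q = 1 := by
    rw [hQ]
    exact Opr_inv (OprN X) _ (Opr_nil X)
  have h5 : ∀ u, Q u + OprN X (Q u) = u := fun u => DFunLike.congr_fun h3 u
  have hNv : OprN X (vol (2 * k + 1)) = 0 := by
    rw [OprN_apply, hd_zero (d := 2 + (2 * k + 1)) (by omega) (hd_mul (om_hd X) (vol_hd _)),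
      Opr_yy_zero (by omega) _ (vol_hd _), add_zero]
  have hz : (1 : Tx (2 * k + 1)) - Q 1 - vol (2 * k + 1) ∈ Fk (2 * k + 1) := by
    show ep (2 * k + 1) _ = 0
    have h6 := congrArg (ep (2 * k + 1)) (h5 1)
    rw [map_add, Opr_ep_N, add_zero, map_one (ep (2 * k + 1))] at h6
    rw [map_sub, map_sub, h6, Opr_ep_vol hn, map_one (ep (2 * k + 1)), sub_self, sub_zero]
  have h7 := nil_det (OprF X) ⟨2 * k + 2, by
      apply LinearMap.ext
      intro u
      apply Subtype.ext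
      rw [OprF_pow, Opr_nil]
      rfl⟩ ((vs (2 * k + 1)) ∘ₗ (Fk (2 * k + 1)).subtype) (⟨_, hη⟩ : Fk (2 * k + 1))
    (⟨_, hz⟩ : Fk (2 * k + 1)) (by
      apply Subtype.ext
      show ((1 : Tx (2 * k + 1)) - Q 1 - vol (2 * k + 1)) +
        OprN X ((1 : Tx (2 * k + 1)) - Q 1 - vol (2 * k + 1)) = OprN X 1 - vol (2 * k + 1)
      rw [map_sub, map_sub, hNv]
      have h8 := h5 1
      have h9 : OprN X (Q 1) = 1 - Q 1 := by
        rw [← h8]
        abel_nf
        rw [h8]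
        abel
      rw [h9]
      abel)
  rw [h2, h7]
  show 1 + vs (2 * k + 1) ((1 : Tx (2 * k + 1)) - Q 1 - vol (2 * k + 1)) = _
  have h10 : vs (2 * k + 1) (Q 1) = - vs (2 * k + 1) (om X ^ k * yy (X + Xᵀ) (om X ^ k)) := by
    have h11 : ∀ i : ℕ, vs (2 * k + 1) ((((-1 : ℂ) ^ i) • OprN X ^ i : Module.End ℂ
        (Tx (2 * k + 1))) 1) = (-1) ^ i * vs (2 * k + 1) ((OprN X ^ i) 1) := by
      intro i
      rw [LinearMap.smul_apply, map_smul, smul_eq_mul]
    rw [hQ, LinearMap.sum_apply, map_sum, Finset.sum_range_succ, h11, Opr_top,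
      Finset.sum_eq_zero, zero_add]
    · rw [Odd.neg_one_pow ⟨k, rfl⟩]
      ring
    · intro i hi
      rw [h11, Opr_low (Finset.mem_range.1 hi), mul_zero]
  rw [map_sub, map_sub, Opr_vs_one hn, vs_vol, h10]
  ring

end PadDet.Eq
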