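import Pool.Agent.H.MP_d7db32_ag.Eq.ExtG

/-!
# MP_d7db32_ag, Eq/PfA: the vector of sub-Pfaffians, equivariance

`pf X i = vs (e_i om(X) ^ k)`. `pf_act`: `∑ i, g i j • ex i = gm g (ex j)`, `gm_om`, `vs_gm`. `pf_sym`: `om_tr`. `adj_act`: `Matrix.adjugate_mul_distrib`, `adjugate_mul`, `mul_adjugate`. `pf_poly`: induction on `k` for all linear functionals
`l` instead of `vs (ex i * ·)`: `l ((a + t • b) ^ (k + 1)) = l ((a + t • b) ^ k * a) + t * l ((a + t • b) ^ k * b)`.
`adj_poly`: entries of the adjugate of a matrix of polynomials (`RingHom.map_adjugate`). `dlt`: `yy_apply`; `om X` commutes with everything (`om_comm`).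
-/

set_option autoImplicit false

namespace PadDet.Eq

open Matrix

/-- The vector of sub-Pfaffians, up to a factor. -/
noncomputable def pf {k : ℕ} (X : Matrix (Fin (2 * k + 1)) (Fin (2 * k + 1)) ℂ)
    (i : Fin (2 * k + 1)) : ℂ :=
  vs (2 * k + 1) (ex i * om X ^ k)

theorem pf_act {k : ℕ} (g X : Matrix (Fin (2 * k + 1)) (Fin (2 * k + 1)) ℂ)
    (j : Fin (2 * k + 1)) : ∑ i, g i j * pf (g * X * gᵀ) i = g.det * pf X j := by
  unfold pf
  rw [← vs_gm, map_mul, map_pow, gm_om, gm_ex, Finset.sum_mul, map_sum]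
  refine Finset.sum_congr rfl fun i _ => ?_
  rw [smul_mul_assoc, map_smul, smul_eq_mul]

private theorem PfA_om_sym {n : ℕ} (S : Matrix (Fin n) (Fin n) ℂ) (hS : Sᵀ = S) : om S = 0 := by
  have h := om_tr S
  rw [hS] at h
  have h2 : (2 : ℂ) • om S = 0 := by
    rw [two_smul]
    nth_rewrite 1 [h]
    exact neg_add_cancel _
  exact (smul_eq_zero.1 h2).resolve_left two_ne_zero

theorem pf_sym {k : ℕ} (X S : Matrix (Fin (2 * k + 1)) (Fin (2 * k + 1)) ℂ) (hS : Sᵀ = S)
    (i : Fin (2 * k + 1)) : pf (X + S) i = pf X i := by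
  unfold pf
  rw [om_add, PfA_om_sym S hS, add_zero]

theorem adj_act {n : ℕ} (g A : Matrix (Fin n) (Fin n) ℂ) :
    gᵀ * (g * A * gᵀ).adjugate * g = g.det ^ 2 • A.adjugate := by
  have h1 : gᵀ * gᵀ.adjugate = g.det • (1 : Matrix (Fin n) (Fin n) ℂ) := by
    rw [Matrix.mul_adjugate, Matrix.det_transpose]
  have h2 : g.adjugate * g = g.det • (1 : Matrix (Fin n) (Fin n) ℂ) := Matrix.adjugate_mul g
  calc gᵀ * (g * A * gᵀ).adjugate * g
      = (gᵀ * gᵀ.adjugate) * A.adjugate * (g.adjugate * g) := by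
        rw [Matrix.adjugate_mul_distrib, Matrix.adjugate_mul_distrib]
        simp only [Matrix.mul_assoc]
    _ = g.det ^ 2 • A.adjugate := by
        rw [h1, h2, Matrix.smul_mul, Matrix.one_mul, Matrix.mul_smul, Matrix.mul_one, smul_smul,
          pow_two]

private theorem PfA_pow {n : ℕ} (a b : Tx n) (k : ℕ) :
    ∀ l : Tx n →ₗ[ℂ] ℂ, ∃ P : Polynomial ℂ, ∀ t : ℂ, P.eval t = l ((a + t • b) ^ k) := by
  induction k with
  | zero =>
    intro l
    exact ⟨Polynomial.C (l 1), fun t => by rw [Polynomial.eval_C, pow_zero]⟩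
  | succ k ih =>
    intro l
    obtain ⟨P, hP⟩ := ih (l ∘ₗ LinearMap.mulRight ℂ a)
    obtain ⟨Q, hQ⟩ := ih (l ∘ₗ LinearMap.mulRight ℂ b)
    refine ⟨P + Polynomial.X * Q, fun t => ?_⟩
    rw [Polynomial.eval_add, Polynomial.eval_mul, Polynomial.eval_X, hP, hQ, LinearMap.comp_apply,
      LinearMap.comp_apply, LinearMap.mulRight_apply, LinearMap.mulRight_apply, pow_succ, mul_add,
      map_add, mul_smul_comm, map_smul, smul_eq_mul]

theorem pf_poly {k : ℕ} (X Y : Matrix (Fin (2 * k + 1)) (Fin (2 * k + 1)) ℂ)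
    (i : Fin (2 * k + 1)) : ∃ P : Polynomial ℂ, ∀ t : ℂ, P.eval t = pf (X + t • Y) i := by
  obtain ⟨P, hP⟩ := PfA_pow (om X) (om Y) k (vs (2 * k + 1) ∘ₗ LinearMap.mulLeft ℂ (ex i))
  refine ⟨P, fun t => ?_⟩
  rw [hP, LinearMap.comp_apply, LinearMap.mulLeft_apply]
  unfold pf
  rw [om_add, om_smul]

theorem adj_poly {n : ℕ} (X Y : Matrix (Fin n) (Fin n) ℂ) (i j : Fin n) :
    ∃ P : Polynomial ℂ, ∀ t : ℂ, P.eval t = (X + t • Y).adjugate i j := by
  refine ⟨(X.map Polynomial.C + (Polynomial.X : Polynomial ℂ) • Y.map Polynomial.C).adjugate i j,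
    fun t => ?_⟩
  have h := RingHom.map_adjugate (Polynomial.evalRingHom t)
    (X.map Polynomial.C + (Polynomial.X : Polynomial ℂ) • Y.map Polynomial.C)
  have h2 : (Polynomial.evalRingHom t).mapMatrix
      (X.map Polynomial.C + (Polynomial.X : Polynomial ℂ) • Y.map Polynomial.C) = X + t • Y := by
    ext a b
    simp [RingHom.mapMatrix_apply, Matrix.map_apply, Matrix.add_apply, Matrix.smul_apply]
    exact mul_comm _ _
  rw [h2] at h
  rw [← h]
  rfl

theorem dlt {k : ℕ} (X S : Matrix (Fin (2 * k + 1)) (Fin (2 * k + 1)) ℂ) :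
    vs (2 * k + 1) (om X ^ k * yy S (om X ^ k)) = ∑ i, ∑ j, S i j * (pf X i * pf X j) := by
  have hc : ∀ j : Fin (2 * k + 1), om X ^ k * ex j = ex j * om X ^ k := fun j =>
    ((show Commute (om X) (ex j) from om_comm X (ex j)).pow_left k).eq
  rw [yy_apply, Finset.mul_sum, map_sum]
  refine Finset.sum_congr rfl fun i _ => ?_
  rw [Finset.mul_sum, map_sum]
  refine Finset.sum_congr rfl fun j _ => ?_
  rw [mul_smul_comm, map_smul, smul_eq_mul, hc]
  unfold pf
  ring

end PadDet.Eq
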