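import Mathlib

/-!
# MP_d7db32_ag, Eq/PfB: matrices near `J` are `g J gᵀ` plus a symmetric matrix

The map `(g, S) ↦ g J gᵀ + S + Sᵀ` has at `(1, 0)` the strict derivative `(B, S) ↦ B J + J Bᵀ + S + Sᵀ`, which is onto: a matrix `Y` is the sum of a skew matrix (hypothesis `hs`) and a symmetric matrix `S + Sᵀ`. By
`HasStrictFDerivAt.map_nhds_eq_of_surj` (complete normed spaces; take a local normed algebra structure on matrices, for example `Matrix.linftyOpNormedRing`, `Matrix.linftyOpNormedAlgebra`, or transfer to functions; `open scoped Matrix.Norms.Operator` in recent Mathlib)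
the image of the neighbourhood `{(g, S) | det g ≠ 0}` of `(1, 0)` is a neighbourhood of `J`; it contains `J + t • Y` for small `t` (continuity in `t`).
-/

set_option autoImplicit false

namespace PadDet.Eq

open Matrix

open scoped Topology

private theorem PfB_gen {E : Type*} [NormedRing E] [NormedAlgebra ℂ E] [CompleteSpace E]
    (T : E →L[ℂ] E) (hT : T 1 = 1) (J : E)
    (hs : ∀ Z : E, ∃ B S : E, B * J + J * T B + (S + T S) = Z) (Y : E) (U : Set E)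
    (hU : U ∈ 𝓝 (1 : E)) :
    ∃ δ : ℝ, 0 < δ ∧ ∀ t : ℂ, ‖t‖ < δ → ∃ g S : E, g ∈ U ∧ J + t • Y = g * J * T g + (S + T S) := by
  obtain ⟨f, hf⟩ : ∃ f : E × E → E, f = fun p => p.1 * J * T p.1 + (p.2 + T p.2) := ⟨_, rfl⟩
  have h1 : HasStrictFDerivAt (fun p : E × E => p.1) (ContinuousLinearMap.fst ℂ E E) ((1 : E), (0 : E)) :=
    hasStrictFDerivAt_fst
  have h2 : HasStrictFDerivAt (fun p : E × E => p.2) (ContinuousLinearMap.snd ℂ E E) ((1 : E), (0 : E)) :=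
    hasStrictFDerivAt_snd
  have h3 := T.hasStrictFDerivAt.comp ((1 : E), (0 : E)) h1
  have h4 := T.hasStrictFDerivAt.comp ((1 : E), (0 : E)) h2
  have h5 := ((h1.mul_const' J).mul' h3).add (h2.add h4)
  have h6 := h5.map_nhds_eq_of_surj (by
    rw [LinearMap.range_eq_top]
    intro Z
    obtain ⟨B, S, h⟩ := hs Z
    refine ⟨(B, S), ?_⟩
    rw [← h]
    simp [hT]
    abel)
  have h7 : Filter.map f (𝓝 ((1 : E), (0 : E))) = 𝓝 J := by
    rw [hf]
    refine Eq.trans h6 ?_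
    congr 1
    simp [hT]
  have h9 : U ×ˢ (Set.univ : Set E) ∈ 𝓝 ((1 : E), (0 : E)) := prod_mem_nhds hU Filter.univ_mem
  have h10 : f '' (U ×ˢ (Set.univ : Set E)) ∈ 𝓝 J := by
    rw [← h7]
    exact Filter.image_mem_map h9
  have h11 : Filter.Tendsto (fun t : ℂ => J + t • Y) (𝓝 0) (𝓝 J) := by
    have h : Continuous (fun t : ℂ => J + t • Y) := by fun_prop
    have h' := h.tendsto 0
    simpa using h'
  obtain ⟨δ, hδ, h12⟩ := Metric.eventually_nhds_iff.1 (h11.eventually h10)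
  refine ⟨δ, hδ, fun t ht => ?_⟩
  obtain ⟨p, hp, h13⟩ := h12 (show dist t 0 < δ by rwa [dist_zero_right])
  refine ⟨p.1, p.2, hp.1, ?_⟩
  rw [← h13, hf]

open scoped Matrix.Norms.Operator in
private theorem PfB_mat {n : ℕ} (J : Matrix (Fin n) (Fin n) ℂ)
    (hs : ∀ A : Matrix (Fin n) (Fin n) ℂ, Aᵀ = -A →
      ∃ B : Matrix (Fin n) (Fin n) ℂ, B * J + J * Bᵀ = A) (Y : Matrix (Fin n) (Fin n) ℂ) :
    ∃ δ : ℝ, 0 < δ ∧ ∀ t : ℂ, ‖t‖ < δ → ∃ g S : Matrix (Fin n) (Fin n) ℂ,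
      IsUnit g.det ∧ Sᵀ = S ∧ J + t • Y = g * J * gᵀ + S := by
  have : CompleteSpace (Matrix (Fin n) (Fin n) ℂ) := FiniteDimensional.complete ℂ _
  obtain ⟨δ, hδ, h⟩ := PfB_gen
    (LinearMap.toContinuousLinearMap (Matrix.transposeLinearEquiv (Fin n) (Fin n) ℂ ℂ).toLinearMap)
    (Matrix.transpose_one) J (fun Z => by
      obtain ⟨B, hB⟩ := hs ((1 / 2 : ℂ) • (Z - Zᵀ)) (by
        rw [Matrix.transpose_smul, Matrix.transpose_sub, Matrix.transpose_transpose, ← smul_neg,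
          neg_sub])
      refine ⟨B, (1 / 2 : ℂ) • Z, ?_⟩
      change B * J + J * Bᵀ + ((1 / 2 : ℂ) • Z + ((1 / 2 : ℂ) • Z)ᵀ) = Z
      rw [hB, Matrix.transpose_smul]
      module) Y {g | IsUnit g} (Units.isOpen.mem_nhds isUnit_one)
  refine ⟨δ, hδ, fun t ht => ?_⟩
  obtain ⟨g, S, hg, h1⟩ := h t ht
  refine ⟨g, S + Sᵀ, (Matrix.isUnit_iff_isUnit_det g).1 hg, ?_, h1⟩
  rw [Matrix.transpose_add, Matrix.transpose_transpose, add_comm]

theorem pfB {n : ℕ} (J : Matrix (Fin n) (Fin n) ℂ)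
    (hs : ∀ A : Matrix (Fin n) (Fin n) ℂ, Aᵀ = -A →
      ∃ B : Matrix (Fin n) (Fin n) ℂ, B * J + J * Bᵀ = A) (Y : Matrix (Fin n) (Fin n) ℂ) :
    ∃ δ : ℝ, 0 < δ ∧ ∀ t : ℂ, ‖t‖ < δ → ∃ g S : Matrix (Fin n) (Fin n) ℂ,
      IsUnit g.det ∧ Sᵀ = S ∧ J + t • Y = g * J * gᵀ + S :=
  PfB_mat J hs Y

end PadDet.Eq
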