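import Pool.Agent.H.MP_d7db32_ag.Eq.PfJ
import Pool.Agent.H.MP_d7db32_ag.Eq.PfB
import Pool.Agent.H.MP_d7db32_ag.Eq.Def

/-!
# MP_d7db32_ag, Eq/PfC: products of sub-Pfaffians are the entries of the adjugate

Take `J`, `C` from `pfJ`. If `Y = g J gᵀ + S`, `g` invertible, `S` symmetric, then `gᵀ (pf Y pf Yᵀ) g = det g ^ 2 pf J pf Jᵀ = C gᵀ adj (Y - Yᵀ) g` (`pf_sym`, `pf_act`, `adj_act`, `Y - Yᵀ = g (J - Jᵀ) gᵀ`), so `pf Y i * pf Y j = C * adj (Y - Yᵀ) i j`.
For any `X` apply this to `Y = J + t • (X - J)`, `t` small (`pfB`): the difference of both sides is a polynomial in `t` (`pf_poly`, `adj_poly`) with infinitely many zeros, so it is `0` at `t = 1`.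
`pffv`: `dlt` and the trace of `adj (X - Xᵀ) * (X + Xᵀ)`, `X + Xᵀ` is symmetric.
-/

set_option autoImplicit false

namespace PadDet.Eq

open Matrix

private theorem PfC_cancel {n : ℕ} {g A B : Matrix (Fin n) (Fin n) ℂ} (hg : IsUnit g.det)
    (h : gᵀ * A * g = gᵀ * B * g) : A = B := by
  have hg' : IsUnit gᵀ.det := by rwa [det_transpose]
  calc A = gᵀ⁻¹ * (gᵀ * A * g) * g⁻¹ := by
        rw [Matrix.mul_assoc gᵀ A g, Matrix.nonsing_inv_mul_cancel_left _ _ hg',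
          Matrix.mul_nonsing_inv_cancel_right _ _ hg]
    _ = B := by
        rw [h, Matrix.mul_assoc gᵀ B g, Matrix.nonsing_inv_mul_cancel_left _ _ hg',
          Matrix.mul_nonsing_inv_cancel_right _ _ hg]

private theorem PfC_near {k : ℕ} {J : Matrix (Fin (2 * k + 1)) (Fin (2 * k + 1)) ℂ} {C : ℂ}
    (hJ : ∀ i j, pf J i * pf J j = C * (J - Jᵀ).adjugate i j)
    {Y g S : Matrix (Fin (2 * k + 1)) (Fin (2 * k + 1)) ℂ} (hg : IsUnit g.det) (hS : Sᵀ = S)
    (hY : Y = g * J * gᵀ + S) (i j : Fin (2 * k + 1)) :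
    pf Y i * pf Y j = C * (Y - Yᵀ).adjugate i j := by
  have h1 : Y - Yᵀ = g * (J - Jᵀ) * gᵀ := by
    rw [hY, transpose_add, hS, transpose_mul, transpose_mul, transpose_transpose,
      Matrix.mul_sub, Matrix.sub_mul, ← Matrix.mul_assoc g Jᵀ gᵀ]
    abel
  have h2 : ∀ i, pf Y i = pf (g * J * gᵀ) i := fun i => by rw [hY, pf_sym _ _ hS]
  have h3 : (Matrix.of fun a b => pf Y a * pf Y b) = C • (Y - Yᵀ).adjugate := by
    refine PfC_cancel hg ?_
    rw [Matrix.mul_smul, Matrix.smul_mul, h1, adj_act]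
    ext a b
    rw [Matrix.smul_apply, Matrix.smul_apply, smul_eq_mul, smul_eq_mul]
    have h4 := pf_act g J a
    have h5 := pf_act g J b
    have h6 : (gᵀ * (Matrix.of fun a b => pf Y a * pf Y b) * g) a b =
        (∑ i, g i a * pf (g * J * gᵀ) i) * ∑ i, g i b * pf (g * J * gᵀ) i := by
      rw [Matrix.mul_apply, Finset.mul_sum]
      refine Finset.sum_congr rfl fun l _ => ?_
      rw [Matrix.mul_apply, Finset.sum_mul, Finset.sum_mul]
      refine Finset.sum_congr rfl fun m _ => ?_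
      rw [Matrix.transpose_apply, Matrix.of_apply, h2, h2]
      ring
    rw [h6, h4, h5]
    linear_combination g.det ^ 2 * hJ a b
  have h7 := congrFun (congrFun h3 i) j
  rwa [Matrix.of_apply, Matrix.smul_apply, smul_eq_mul] at h7

theorem pff (k : ℕ) : ∃ C : ℂ, C ≠ 0 ∧
    ∀ (X : Matrix (Fin (2 * k + 1)) (Fin (2 * k + 1)) ℂ) (i j : Fin (2 * k + 1)),
      pf X i * pf X j = C * (X - Xᵀ).adjugate i j := by
  obtain ⟨J, C, -, hC, hJ, hs⟩ := pfJ k
  refine ⟨C, hC, fun X i j => ?_⟩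
  obtain ⟨δ, hδ, hB⟩ := pfB J hs (X - J)
  obtain ⟨P, hP⟩ := pf_poly J (X - J) i
  obtain ⟨Q, hQ⟩ := pf_poly J (X - J) j
  obtain ⟨R, hR⟩ := adj_poly (J - Jᵀ) ((X - J) - (X - J)ᵀ) i j
  have hz : P * Q - Polynomial.C C * R = 0 := by
    refine Polynomial.eq_zero_of_infinite_isRoot _ ?_
    refine (infinite_of_mem_nhds (0 : ℂ) (Metric.ball_mem_nhds (0 : ℂ) hδ)).mono fun t ht => ?_
    rw [mem_ball_zero_iff] at ht
    obtain ⟨g, S, hg, hS, hY⟩ := hB t ht
    have h1 := PfC_near hJ hg hS hY i j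
    have h2 : J + t • (X - J) - (J + t • (X - J))ᵀ =
        (J - Jᵀ) + t • ((X - J) - (X - J)ᵀ) := by
      rw [transpose_add, transpose_smul]
      module
    rw [h2, ← hP, ← hQ, ← hR] at h1
    show Polynomial.IsRoot _ t
    rw [Polynomial.IsRoot.def, Polynomial.eval_sub, Polynomial.eval_mul, Polynomial.eval_mul,
      Polynomial.eval_C, h1, sub_self]
  have h3 := congrArg (Polynomial.eval 1) hz
  rw [Polynomial.eval_sub, Polynomial.eval_mul, Polynomial.eval_mul, Polynomial.eval_C, hP, hQ,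
    hR, Polynomial.eval_zero, one_smul, one_smul] at h3
  have h4 : J + (X - J) = X := by abel
  have h5 : J - Jᵀ + (X - J - (X - J)ᵀ) = X - Xᵀ := by
    rw [transpose_sub]
    abel
  rw [h4, h5] at h3
  exact sub_eq_zero.1 h3

theorem pffv (k : ℕ) : ∃ C : ℂ, C ≠ 0 ∧
    ∀ X : Matrix (Fin (2 * k + 1)) (Fin (2 * k + 1)) ℂ,
      vs (2 * k + 1) (om X ^ k * yy (X + Xᵀ) (om X ^ k)) = C * Fv X := by
  obtain ⟨C, hC, h⟩ := pff k
  refine ⟨C, hC, fun X => ?_⟩
  rw [dlt, Fv, Matrix.trace, Finset.mul_sum]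
  refine Finset.sum_congr rfl fun i _ => ?_
  rw [Matrix.diag_apply, Matrix.mul_apply, Finset.mul_sum]
  refine Finset.sum_congr rfl fun j _ => ?_
  rw [h]
  have h1 : (X + Xᵀ) j i = (X + Xᵀ) i j := by
    rw [Matrix.add_apply, Matrix.add_apply, Matrix.transpose_apply, Matrix.transpose_apply,
      add_comm]
  rw [h1]
  ring

end PadDet.Eq
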