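import Pool.Agent.H.MP_d7db32_ag.Eq.PfA

/-!
# MP_d7db32_ag, Eq/PfJ: the value at a normal form

`J` has the entries `J (2 s) (2 s + 1) = 1`, `J (2 s + 1) (2 s) = -1` for `s < k`, all others `0` (the last row and column are `0`). `om J = ∑ s, 2 • (e_(2s) e_(2s+1))`, a sum of `k` commuting elements with square `0`, so
`om J ^ k = 2 ^ k * k! • (e_0 e_1 ... e_(2k-1))` (induction: `(a + y) ^ (r + 1) = a ^ (r + 1) + (r + 1) a ^ r y` for commuting `a`, `y`, `y ^ 2 = 0`). `pf J (last) = ± 2 ^ k k! ≠ 0`, `pf J i = 0` for the other `i` (`e_i` occurs in the product,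
or `pf_act` with a diagonal matrix `g` with `g J gᵀ = J`). The adjugate of `J - Jᵀ = 2 J` has the entry `2 ^ (2 k)` at (last, last) (determinant of the block diagonal matrix, `± 1`) and `0` elsewhere (`J * adj J = 0 = adj J * J`, the kernel of `J`
is spanned by the last basis vector). Surjectivity: for `A` skew with last index `l` put `B i j = ` (entry of `(A''/2) J''⁻¹` for `j` in the first `2 k` places), so that `B J` has the first `2 k` columns `A i j / 2` (`i` not last), `A l j` (`i = l`), last column `0`;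
then `B J + J Bᵀ = B J - (B J)ᵀ = A` (`J ^ 2 = -1` on the first `2 k` places: `B = - (that matrix) * J`).
-/

set_option autoImplicit false

namespace PadDet.Eq

open Matrix

private theorem PfJ_core {k : ℕ} (J P e : Matrix (Fin (2 * k + 1)) (Fin (2 * k + 1)) ℂ)
    (hP : P = diagonal fun i => if i = 0 then 0 else 1)
    (he : e = diagonal fun i => if i = 0 then 1 else 0)
    (hT : Jᵀ = -J) (hJJ : J * J = -P) (hJe : J * e = 0) (heJ : e * J = 0)
    (hpf : pf J 0 ≠ 0) :
    ∃ C : ℂ, C ≠ 0 ∧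
      (∀ i j, pf J i * pf J j = C * (J - Jᵀ).adjugate i j) ∧
      ∀ A : Matrix (Fin (2 * k + 1)) (Fin (2 * k + 1)) ℂ, Aᵀ = -A →
        ∃ B : Matrix (Fin (2 * k + 1)) (Fin (2 * k + 1)) ℂ, B * J + J * Bᵀ = A := by
  have hPe : P + e = 1 := by
    rw [hP, he, diagonal_add, ← diagonal_one]
    congr 1
    funext i
    by_cases h : i = 0 <;> simp [h]
  have hee : e * e = e := by
    rw [he, diagonal_mul_diagonal]
    congr 1
    funext i
    by_cases h : i = 0 <;> simp [h]
  have heP : e * P = 0 := by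
    have h : e * (P + e) = e := by rw [hPe, Matrix.mul_one]
    rw [Matrix.mul_add, hee] at h
    exact add_eq_right.1 h
  have hPP : P * P = P := by
    have h : (P + e) * P = P := by rw [hPe, Matrix.one_mul]
    rw [Matrix.add_mul, heP, add_zero] at h
    exact h
  have hJP : J * P = J := by
    have h : J * (P + e) = J := by rw [hPe, Matrix.mul_one]
    rw [Matrix.mul_add, hJe, add_zero] at h
    exact h
  have heT : eᵀ = e := by rw [he, diagonal_transpose]
  have hPT : Pᵀ = P := by rw [hP, diagonal_transpose]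
  -- the vector of sub-Pfaffians
  have hg1 : (J + e) * (J + e)ᵀ = 1 := by
    rw [transpose_add, hT, heT, Matrix.mul_add, Matrix.add_mul, Matrix.add_mul, Matrix.mul_neg,
      Matrix.mul_neg, hJJ, heJ, hJe, hee, neg_neg, neg_zero, add_zero, zero_add, hPe]
  have hd : (J + e).det * (J + e).det = 1 := by
    have h := congrArg Matrix.det hg1
    rwa [det_mul, det_transpose, det_one] at h
  have hgJ : (J + e) * J * (J + e)ᵀ = J := by
    rw [transpose_add, hT, heT, Matrix.add_mul, heJ, add_zero, hJJ, Matrix.mul_add,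
      Matrix.neg_mul, Matrix.neg_mul, Matrix.mul_neg, neg_neg]
    have h1 : P * J = J := by
      have h : (P + e) * J = J := by rw [hPe, Matrix.one_mul]
      rw [Matrix.add_mul, heJ, add_zero] at h
      exact h
    have h2 : P * e = 0 := by
      have h : (P + e) * e = e := by rw [hPe, Matrix.one_mul]
      rw [Matrix.add_mul, hee] at h
      exact add_eq_right.1 h
    rw [h1, h2, neg_zero, add_zero]
  have hv1 : (J + e)ᵀ *ᵥ pf J = (J + e).det • pf J := by
    funext j
    have h := pf_act (J + e) J j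
    rw [hgJ] at h
    rw [Pi.smul_apply, smul_eq_mul, ← h]
    rfl
  have hv2 : (J + e) *ᵥ pf J = (J + e).det • pf J := by
    have h := congrArg (fun w => (J + e) *ᵥ w) hv1
    simp only [mulVec_mulVec, mulVec_smul, hg1, one_mulVec] at h
    have h' := congrArg (fun w => (J + e).det • w) h
    simp only [smul_smul, hd, one_smul] at h'
    exact h'.symm
  have hv3 : J *ᵥ pf J = 0 := by
    rw [← hv2, transpose_add, hT, heT, add_mulVec, add_mulVec, neg_mulVec] at hv1
    have h := add_right_cancel hv1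
    funext i
    have hi := congrFun h i
    rw [Pi.neg_apply] at hi
    rw [Pi.zero_apply]
    linear_combination (-1 / 2 : ℂ) * hi
  have hv4 : ∀ i, i ≠ 0 → pf J i = 0 := by
    intro i hi
    have h : P *ᵥ pf J = 0 := by
      have h1 : P = -(J * J) := by rw [hJJ, neg_neg]
      rw [h1, neg_mulVec, ← mulVec_mulVec, hv3, mulVec_zero, neg_zero]
    have h2 := congrFun h i
    rw [hP, mulVec_diagonal, if_neg hi, one_mul] at h2
    exact h2
  -- the adjugate
  have hMN : ((2 : ℂ) • J + e) * (-((1 / 2 : ℂ) • J) + e) = 1 := by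
    rw [Matrix.mul_add, Matrix.add_mul, Matrix.add_mul, Matrix.mul_neg, Matrix.mul_neg,
      Matrix.smul_mul, Matrix.mul_smul, Matrix.mul_smul, Matrix.smul_mul, hJJ, heJ, hJe, hee,
      smul_zero, smul_zero, neg_zero, add_zero, zero_add, smul_neg, smul_neg, neg_neg, smul_smul]
    norm_num
    exact hPe
  have hdM : ((2 : ℂ) • J + e).det ≠ 0 := by
    intro h0
    have h := congrArg Matrix.det hMN
    rw [det_mul, h0, zero_mul, det_one] at h
    exact zero_ne_one h
  have hadM : ((2 : ℂ) • J + e).adjugate = ((2 : ℂ) • J + e).det • (-((1 / 2 : ℂ) • J) + e) := by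
    have h : ((2 : ℂ) • J + e).adjugate * (((2 : ℂ) • J + e) * (-((1 / 2 : ℂ) • J) + e)) =
        ((2 : ℂ) • J + e).adjugate := by rw [hMN, Matrix.mul_one]
    rw [← Matrix.mul_assoc, adjugate_mul, Matrix.smul_mul, Matrix.one_mul] at h
    exact h.symm
  have hadP : P.adjugate = e := by
    rw [hP, he, adjugate_diagonal]
    congr 1
    funext i
    by_cases h : i = 0
    · subst h
      rw [if_pos rfl]
      exact Finset.prod_eq_one fun j hj => if_neg (Finset.ne_of_mem_erase hj)
    · rw [if_neg h]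
      exact Finset.prod_eq_zero (Finset.mem_erase.2 ⟨fun h' => h h'.symm, Finset.mem_univ 0⟩)
        (if_pos rfl)
  have had : (J - Jᵀ).adjugate = ((2 : ℂ) • J + e).det • e := by
    have h1 : J - Jᵀ = ((2 : ℂ) • J + e) * P := by
      rw [hT, Matrix.add_mul, heP, add_zero, Matrix.smul_mul, hJP]
      module
    rw [h1, adjugate_mul_distrib, hadP, hadM, Matrix.mul_smul, Matrix.mul_add, Matrix.mul_neg,
      Matrix.mul_smul, heJ, smul_zero, neg_zero, zero_add, hee]
  refine ⟨pf J 0 ^ 2 / ((2 : ℂ) • J + e).det, div_ne_zero (pow_ne_zero _ hpf) hdM, ?_, ?_⟩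
  · intro i j
    rw [had, Matrix.smul_apply, smul_eq_mul, ← mul_assoc, div_mul_cancel₀ _ hdM]
    by_cases hi : i = 0
    · by_cases hj : j = 0
      · subst hi
        subst hj
        rw [he, diagonal_apply_eq, if_pos rfl]
        ring
      · rw [hv4 j hj, he, hi, diagonal_apply_ne _ fun h' => hj h'.symm, mul_zero, mul_zero]
    · rw [hv4 i hi, zero_mul]
      by_cases hij : i = j
      · rw [← hij, he, diagonal_apply_eq, if_neg hi, mul_zero]
      · rw [he, diagonal_apply_ne _ hij, mul_zero]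
  · intro A hA
    have hee0 : e * A * e = 0 := by
      ext i j
      rw [he, mul_diagonal, diagonal_mul, Matrix.zero_apply]
      by_cases hi : i = 0
      · by_cases hj : j = 0
        · subst hi
          subst hj
          have h := congrFun (congrFun hA 0) 0
          rw [transpose_apply, Matrix.neg_apply] at h
          have h' : A 0 0 = 0 := by linear_combination (1 / 2 : ℂ) * h
          rw [h', mul_zero, zero_mul]
        · rw [if_neg hj, mul_zero]
      · rw [if_neg hi, zero_mul, zero_mul]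
    obtain ⟨X, hX⟩ : ∃ X, X = (1 / 2 : ℂ) • (P * A * P) + e * A * P := ⟨_, rfl⟩
    have hXP : X * P = X := by
      rw [hX, Matrix.add_mul, Matrix.smul_mul, Matrix.mul_assoc (P * A), Matrix.mul_assoc (e * A),
        hPP]
    have hXT : Xᵀ = -((1 / 2 : ℂ) • (P * A * P) + P * A * e) := by
      rw [hX, transpose_add, transpose_smul, transpose_mul, transpose_mul, transpose_mul,
        transpose_mul, hPT, heT, hA, Matrix.neg_mul, Matrix.neg_mul, Matrix.mul_neg,
        Matrix.mul_neg, smul_neg, neg_add, ← Matrix.mul_assoc, ← Matrix.mul_assoc]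
    refine ⟨-(X * J), ?_⟩
    have h1 : -(X * J) * J = X := by
      rw [Matrix.neg_mul, Matrix.mul_assoc, hJJ, Matrix.mul_neg, neg_neg, hXP]
    have h2 : J * (-(X * J))ᵀ = -Xᵀ := by
      rw [transpose_neg, transpose_mul, hT, Matrix.neg_mul, neg_neg, ← Matrix.mul_assoc, hJJ,
        Matrix.neg_mul]
      have h3 := congrArg transpose hXP
      rw [transpose_mul, hPT] at h3
      rw [h3]
    rw [h1, h2, hXT, neg_neg, hX]
    have h4 : A = (P + e) * A * (P + e) := by rw [hPe, Matrix.one_mul, Matrix.mul_one]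
    rw [Matrix.add_mul, Matrix.mul_add, Matrix.add_mul, Matrix.add_mul, hee0] at h4
    conv_rhs => rw [h4]
    module

private def PfJ_pi (k : ℕ) (i : Fin (2 * k + 1)) : Fin (2 * k + 1) :=
  if h : i.val % 2 = 1 then ⟨i.val + 1, by have := i.isLt; omega⟩
  else if i.val = 0 then i else ⟨i.val - 1, by have := i.isLt; omega⟩

private noncomputable def PfJ_s (k : ℕ) (i : Fin (2 * k + 1)) : ℂ :=
  if i.val % 2 = 1 then 1 else if i.val = 0 then 0 else -1

private theorem PfJ_pi_val (k : ℕ) (i : Fin (2 * k + 1)) : (PfJ_pi k i).val =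
    if i.val % 2 = 1 then i.val + 1 else if i.val = 0 then 0 else i.val - 1 := by
  unfold PfJ_pi
  split_ifs with h1 h2
  · rfl
  · exact h2
  · rfl

private theorem PfJ_pi_pi (k : ℕ) (i : Fin (2 * k + 1)) : PfJ_pi k (PfJ_pi k i) = i := by
  apply Fin.ext
  have h := PfJ_pi_val k i
  rw [PfJ_pi_val k (PfJ_pi k i)]
  by_cases h1 : i.val % 2 = 1
  · rw [if_pos h1] at h
    rw [h, if_neg (by omega), if_neg (by omega), Nat.add_sub_cancel]
  · by_cases h2 : i.val = 0
    · rw [if_neg h1, if_pos h2] at h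
      rw [h, h2]
      norm_num
    · rw [if_neg h1, if_neg h2] at h
      rw [h, if_pos (by omega), Nat.sub_add_cancel (by omega)]

private theorem PfJ_s_pi (k : ℕ) (i : Fin (2 * k + 1)) : PfJ_s k (PfJ_pi k i) = -PfJ_s k i := by
  unfold PfJ_s
  have h := PfJ_pi_val k i
  by_cases h1 : i.val % 2 = 1
  · rw [if_pos h1] at h
    rw [h, if_neg (by omega), if_neg (by omega), if_pos h1]
  · by_cases h2 : i.val = 0
    · rw [if_neg h1, if_pos h2] at h
      rw [h, h2]
      norm_num
    · rw [if_neg h1, if_neg h2] at h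
      rw [h, if_pos (by omega), if_neg h1, if_neg h2, neg_neg]

private theorem PfJ_pi_eq {k : ℕ} {i j : Fin (2 * k + 1)} : i = PfJ_pi k j ↔ j = PfJ_pi k i := by
  constructor
  · rintro rfl
    rw [PfJ_pi_pi]
  · rintro rfl
    rw [PfJ_pi_pi]

/-- The normal form. -/
private noncomputable def PfJ_J (k : ℕ) : Matrix (Fin (2 * k + 1)) (Fin (2 * k + 1)) ℂ :=
  Matrix.of fun i j => if j = PfJ_pi k i then PfJ_s k i else 0

private theorem PfJ_T (k : ℕ) : (PfJ_J k)ᵀ = -PfJ_J k := by
  ext i j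
  rw [transpose_apply, Matrix.neg_apply]
  unfold PfJ_J
  rw [Matrix.of_apply, Matrix.of_apply]
  by_cases h : i = PfJ_pi k j
  · rw [if_pos h, if_pos (PfJ_pi_eq.1 h), h, PfJ_s_pi, neg_neg]
  · rw [if_neg h, if_neg fun h' => h (PfJ_pi_eq.2 h'), neg_zero]

private theorem PfJ_JJ (k : ℕ) :
    PfJ_J k * PfJ_J k = -(diagonal fun i => if i = 0 then (0 : ℂ) else 1) := by
  ext i j
  rw [Matrix.mul_apply, Matrix.neg_apply]
  unfold PfJ_J
  simp only [Matrix.of_apply, ite_mul, zero_mul]
  rw [Finset.sum_ite_eq', if_pos (Finset.mem_univ _), PfJ_pi_pi, PfJ_s_pi]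
  by_cases h : i = j
  · subst h
    rw [if_pos rfl, diagonal_apply_eq]
    unfold PfJ_s
    have h0 : (i = 0) ↔ i.val = 0 := ⟨fun h => by rw [h]; rfl, fun h => Fin.ext h⟩
    simp only [h0]
    split_ifs <;> first | omega | norm_num
  · rw [if_neg fun h' => h h'.symm, diagonal_apply_ne _ h, mul_zero, neg_zero]

private theorem PfJ_Je (k : ℕ) :
    PfJ_J k * (diagonal fun i => if i = 0 then (1 : ℂ) else 0) = 0 := by
  ext i j
  rw [mul_diagonal, Matrix.zero_apply]
  by_cases hj : j = 0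
  · rw [if_pos hj, mul_one]
    unfold PfJ_J
    rw [Matrix.of_apply]
    split_ifs with h
    · have h1 := PfJ_pi_eq.1 h
      have h2 : i.val = 0 := by
        rw [h1, PfJ_pi_val, hj]
        simp
      unfold PfJ_s
      rw [h2]
      norm_num
    · rfl
  · rw [if_neg hj, mul_zero]

private theorem PfJ_eJ (k : ℕ) :
    (diagonal fun i => if i = 0 then (1 : ℂ) else 0) * PfJ_J k = 0 := by
  have h := congrArg transpose (PfJ_Je k)
  rw [transpose_mul, diagonal_transpose, PfJ_T, Matrix.mul_neg, transpose_zero] at h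
  exact neg_eq_zero.1 h

/-- Powers of a sum of commuting elements, the second one with square zero. -/
private theorem PfJ_add_pow {R : Type*} [Ring R] (x y : R) (h : Commute x y) (hy : y * y = 0)
    (m : ℕ) : (x + y) ^ (m + 1) = x ^ (m + 1) + (m + 1 : ℕ) • (x ^ m * y) := by
  induction m with
  | zero => simp
  | succ m ih =>
    rw [pow_succ, ih, add_mul, mul_add, mul_add, smul_mul_assoc, smul_mul_assoc, mul_assoc _ y x,
      mul_assoc _ y y, hy, mul_zero, smul_zero, add_zero, ← h.eq, ← mul_assoc, ← pow_succ,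
      ← pow_succ, succ_nsmul _ (m + 1)]
    abel

private noncomputable def PfJ_Q {R : Type*} [Ring R] (a : ℕ → R) : ℕ → R
  | 0 => 1
  | r + 1 => PfJ_Q a r * a r

private theorem PfJ_sum_pow {R : Type*} [Ring R] (a : ℕ → R) (h : ∀ i x, a i * x = x * a i)
    (h2 : ∀ i, a i * a i = 0) (r : ℕ) :
    (∑ s ∈ Finset.range r, a s) ^ r = r.factorial • PfJ_Q a r ∧
      (∑ s ∈ Finset.range r, a s) ^ (r + 1) = 0 := by
  induction r with
  | zero => simp [PfJ_Q]
  | succ r ih =>
    have hc : Commute (∑ s ∈ Finset.range r, a s) (a r) := (h r _).symm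
    rw [Finset.sum_range_succ, PfJ_add_pow _ _ hc (h2 r), PfJ_add_pow _ _ hc (h2 r), ih.1, ih.2,
      pow_succ _ (r + 1), ih.2, zero_mul, zero_mul, smul_zero, add_zero, zero_add]
    refine ⟨?_, rfl⟩
    rw [smul_mul_assoc, smul_smul, Nat.factorial_succ]
    rfl

private noncomputable def PfJ_e (k m : ℕ) : Tx (2 * k + 1) :=
  if h : m < 2 * k + 1 then ex ⟨m, h⟩ else 0

private theorem PfJ_ex_comm {n : ℕ} (i j : Fin n) (u : Tx n) :
    ex i * ex j * u = u * (ex i * ex j) := by
  induction u using ExteriorAlgebra.induction with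
  | algebraMap r => exact (Algebra.commutes r _).symm
  | ι v =>
    have h1 := eq_neg_of_add_eq_zero_left
      (ExteriorAlgebra.ι_add_mul_swap (R := ℂ) (Pi.single j (1 : ℂ) : Fin n → ℂ) v)
    have h2 := eq_neg_of_add_eq_zero_left
      (ExteriorAlgebra.ι_add_mul_swap (R := ℂ) (Pi.single i (1 : ℂ) : Fin n → ℂ) v)
    unfold ex
    rw [mul_assoc, h1, mul_neg, ← mul_assoc, h2, neg_mul, neg_neg, mul_assoc]
  | mul a b ha hb => exact (Commute.mul_right (a := ex i * ex j) ha hb)
  | add a b ha hb => exact (Commute.add_right (a := ex i * ex j) ha hb)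

private theorem PfJ_e_comm (k a b : ℕ) (u : Tx (2 * k + 1)) :
    PfJ_e k a * PfJ_e k b * u = u * (PfJ_e k a * PfJ_e k b) := by
  unfold PfJ_e
  split_ifs
  · exact PfJ_ex_comm _ _ u
  · simp
  · simp
  · simp

private theorem PfJ_e_swap (k a b : ℕ) : PfJ_e k a * PfJ_e k b = -(PfJ_e k b * PfJ_e k a) := by
  unfold PfJ_e
  split_ifs
  · exact ex_mul _ _
  · simp
  · simp
  · simp

private theorem PfJ_e_sq (k a : ℕ) : PfJ_e k a * PfJ_e k a = 0 := by
  unfold PfJ_e
  split_ifs
  · exact ExteriorAlgebra.ι_sq_zero _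
  · simp

private noncomputable def PfJ_a (k s : ℕ) : Tx (2 * k + 1) :=
  PfJ_e k (2 * s + 1) * PfJ_e k (2 * s + 2)

private theorem PfJ_a_sq (k s : ℕ) : PfJ_a k s * PfJ_a k s = 0 := by
  unfold PfJ_a
  have h1 : PfJ_e k (2 * s + 1) * PfJ_e k (2 * s + 2) * (PfJ_e k (2 * s + 1) *
      PfJ_e k (2 * s + 2)) = PfJ_e k (2 * s + 1) * (PfJ_e k (2 * s + 2) * PfJ_e k (2 * s + 1)) *
      PfJ_e k (2 * s + 2) := by
    simp only [mul_assoc]
  have h2 : PfJ_e k (2 * s + 1) * (PfJ_e k (2 * s + 1) * PfJ_e k (2 * s + 2)) *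
      PfJ_e k (2 * s + 2) = PfJ_e k (2 * s + 1) * PfJ_e k (2 * s + 1) *
      (PfJ_e k (2 * s + 2) * PfJ_e k (2 * s + 2)) := by
    simp only [mul_assoc]
  rw [h1, PfJ_e_swap k (2 * s + 2) (2 * s + 1), mul_neg, neg_mul, h2, PfJ_e_sq, zero_mul, neg_zero]

private theorem PfJ_om (k : ℕ) : om (PfJ_J k) = (2 : ℂ) • ∑ s ∈ Finset.range k, PfJ_a k s := by
  obtain ⟨F, hF⟩ : ∃ F : ℕ → Tx (2 * k + 1), F = fun m =>
    if m % 2 = 1 then PfJ_e k m * PfJ_e k (m + 1) else
      if m = 0 then 0 else -(PfJ_e k m * PfJ_e k (m - 1)) := ⟨_, rfl⟩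
  have h1 : om (PfJ_J k) = ∑ i : Fin (2 * k + 1), F i.val := by
    unfold om
    refine Finset.sum_congr rfl fun i _ => ?_
    unfold PfJ_J
    simp only [Matrix.of_apply, ite_smul, zero_smul]
    rw [Finset.sum_ite_eq', if_pos (Finset.mem_univ _), hF]
    have hi := i.isLt
    have h2 : ex i = PfJ_e k i.val := by
      unfold PfJ_e
      rw [dif_pos hi]
    have h3 : ex (PfJ_pi k i) = PfJ_e k (PfJ_pi k i).val := by
      unfold PfJ_e
      rw [dif_pos (PfJ_pi k i).isLt]
    rw [h2, h3, PfJ_pi_val]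
    unfold PfJ_s
    dsimp only
    split_ifs
    · rw [one_smul]
    · rw [zero_smul]
    · rw [neg_smul, one_smul]
  have h2 : ∀ r, ∑ m ∈ Finset.range (2 * r + 1), F m =
      (2 : ℂ) • ∑ s ∈ Finset.range r, PfJ_a k s := by
    intro r
    induction r with
    | zero => simp [hF]
    | succ r ih =>
      rw [show 2 * (r + 1) + 1 = 2 * r + 1 + 1 + 1 by ring, Finset.sum_range_succ,
        Finset.sum_range_succ, ih, Finset.sum_range_succ, smul_add, add_assoc]
      congr 1
      have h3 : F (2 * r + 1) = PfJ_a k r := by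
        rw [hF]
        dsimp only
        rw [if_pos (by omega)]
        rfl
      have h4 : F (2 * r + 1 + 1) = PfJ_a k r := by
        rw [hF]
        dsimp only
        rw [if_neg (by omega), if_neg (by omega), PfJ_e_swap, neg_neg]
        rfl
      rw [h3, h4, two_smul]
  rw [h1, Fin.sum_univ_eq_sum_range F, h2]

private theorem PfJ_list (k r : ℕ) : (List.ofFn fun i : Fin (2 * r + 1) => PfJ_e k i.val).prod =
    PfJ_e k 0 * PfJ_Q (PfJ_a k) r := by
  induction r with
  | zero => simp [PfJ_Q]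
  | succ r ih =>
    show (List.ofFn fun i : Fin (2 * r + 1 + 1 + 1) => PfJ_e k i.val).prod =
      PfJ_e k 0 * (PfJ_Q (PfJ_a k) r * PfJ_a k r)
    rw [List.ofFn_succ', List.concat_eq_append, List.prod_append, List.ofFn_succ',
      List.concat_eq_append, List.prod_append, List.prod_singleton, List.prod_singleton]
    have h := ih
    simp only [Fin.val_castSucc, Fin.val_last] at h ⊢
    rw [h, mul_assoc, mul_assoc]
    rfl

private theorem PfJ_pf (k : ℕ) : pf (PfJ_J k) 0 ≠ 0 := by
  have h1 := (PfJ_sum_pow (PfJ_a k) (fun i x => PfJ_e_comm k _ _ x) (PfJ_a_sq k) k).1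
  have h2 : vol (2 * k + 1) = (List.ofFn fun i : Fin (2 * k + 1) => PfJ_e k i.val).prod := by
    unfold vol
    rw [ExteriorAlgebra.ιMulti_apply]
    congr 2
    funext i
    unfold PfJ_e
    rw [dif_pos i.isLt]
    rfl
  have h3 : (ex 0 : Tx (2 * k + 1)) = PfJ_e k 0 := by
    unfold PfJ_e
    rw [dif_pos (Nat.succ_pos _)]
    rfl
  have h4 : pf (PfJ_J k) 0 = 2 ^ k * (k.factorial : ℂ) := by
    unfold pf
    rw [PfJ_om, smul_pow, h1, h3, mul_smul_comm, mul_smul_comm, ← PfJ_list, ← h2, map_smul,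
      map_nsmul, vs_vol, smul_eq_mul, nsmul_eq_mul, mul_one]
  rw [h4]
  exact mul_ne_zero (pow_ne_zero _ two_ne_zero) (Nat.cast_ne_zero.2 k.factorial_ne_zero)

theorem pfJ (k : ℕ) :
    ∃ (J : Matrix (Fin (2 * k + 1)) (Fin (2 * k + 1)) ℂ) (C : ℂ), Jᵀ = -J ∧ C ≠ 0 ∧
      (∀ i j, pf J i * pf J j = C * (J - Jᵀ).adjugate i j) ∧
      ∀ A : Matrix (Fin (2 * k + 1)) (Fin (2 * k + 1)) ℂ, Aᵀ = -A →
        ∃ B : Matrix (Fin (2 * k + 1)) (Fin (2 * k + 1)) ℂ, B * J + J * Bᵀ = A := by
  obtain ⟨C, hC, h⟩ := PfJ_core (PfJ_J k) _ _ rfl rfl (PfJ_T k) (PfJ_JJ k) (PfJ_Je k) (PfJ_eJ k)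
    (PfJ_pf k)
  exact ⟨PfJ_J k, C, PfJ_T k, hC, h⟩

end PadDet.Eq
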