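import Mathlib

/-!
# MP_d7db32_ag, Eq/Pot: the potential

`Ea n j` is the sum of `C(n, i)` over `j ≤ i < n`, `i = j` modulo `2`. `Ph n z b` is the potential of a vector with entries `0, 1, 2`, `z` of them nonzero, `b` of them `2`.
Numbers: `Ea n z = Ea n (z + 2) + C(n, z)` for `z < n`; `Ea n z + Ea n (z + 1) = ∑ z ≤ i < n, C(n, i)`; for `n` odd `Ea n z - Ea n (z + 1) = C(n - 1, z - 1) - (-1) ^ (n - z)`
(telescoping with Pascal; for `1 ≤ z ≤ n`; as integers), in particular `Ea n z - Ea n (z + 1) ≤ C(n - 1, z - 1) + 1`; `Ea n 1 = Ea n 0 = 2 ^ (n - 1)` minus or plus `1` (`n` odd: `Ea n 0 = 2 ^ (n - 1)`,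
`Ea n 1 = 2 ^ (n - 1) - 1`).
`ph_step`: the cases: `(0, 0) → (2, 0)`: `Ph = Ea 0 + Ea 1`, `Ea 2 + Ea 1`, difference `C(n, 0) = 1`. `(0, 0) → (1, 1)`: `Ea 0 + Ea 1 - (Ea 1 + Ea 2) = 1`. `(z, 0) → (z + 2, 0)`, `z ≥ 2`: difference
`C(n, z)`. `(z, 0) → (z + 1, 1)`, `z ≥ 2` even: `Ea z + Ea 1 - (Ea (z + 1) + Ea 1)`, `N = C(n, z)`. `(z, 0) → (z, 2)`, `z > 2`: `Ea 1 - Ea 2`, `N = C(n, z)`; `(2, 0) → (2, 2)`: `Ea 2 + Ea 1 - (Ea 2 + Ea 3)`,
`N = C(n, 2)`. `(z, b) → (z + 2, b)`, `0 < b < z`: `C(n, z)`; `0 < b = z`: `Ea z + Ea (z + 1) - (Ea (z + 2) + Ea z)`, `N = C(n, z)`. `(z, b) → (z + 1, b + 1)`, `0 < b < z`: `Ea z + Ea b - Ea (z + 1) - Ea (b + 1)`,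
`N = C(n, z) C(z, b)`; `b = z`: `Ea z - Ea (z + 2) = C(n, z)`. `(z, b) → (z, b + 2)`, `0 < b`: `C(n, b)` if `b + 2 < z`, and `Ea b - Ea (z + 1)` with `z = b + 2`: `C(n, b) + Ea z - Ea (z + 1)`; `N = C(n, z) C(z, b)`.
Checked by computer for odd `n ≤ 41`. `C(n, z) C(z, b) = C(n, b) C(n - b, z - b)` (`Nat.choose_mul`). Note that `z + b` is even.
-/

set_option autoImplicit false

namespace PadDet.Eq

/-- Partial sums of binomial coefficients in steps of two. -/
def Ea (n j : ℕ) : ℕ := ∑ i ∈ (Finset.Ico j n).filter (fun i => (i + j) % 2 = 0), n.choose i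

/-- The potential. -/
def Ph (n z b : ℕ) : ℕ :=
  if b = z then Ea n z + Ea n (z + 1) else if b = 0 then Ea n z + Ea n 1 else Ea n z + Ea n b

private theorem pot_rec (n z : ℕ) (h : z < n) : Ea n z = n.choose z + Ea n (z + 2) := by
  unfold Ea
  have h1 : (Finset.Ico z n).filter (fun i => (i + z) % 2 = 0)
      = insert z ((Finset.Ico (z + 2) n).filter (fun i => (i + (z + 2)) % 2 = 0)) := by
    ext i
    simp only [Finset.mem_filter, Finset.mem_Ico, Finset.mem_insert]
    constructor
    · rintro ⟨⟨h1, h2⟩, h3⟩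
      by_cases h4 : i = z
      · exact Or.inl h4
      · right
        refine ⟨⟨?_, h2⟩, ?_⟩ <;> omega
    · rintro (h1 | ⟨⟨h1, h2⟩, h3⟩)
      · subst h1
        refine ⟨⟨le_refl _, h⟩, ?_⟩
        omega
      · refine ⟨⟨?_, h2⟩, ?_⟩ <;> omega
  rw [h1, Finset.sum_insert]
  simp only [Finset.mem_filter, Finset.mem_Ico]
  omega

private theorem pot_zero (n z : ℕ) (h : n ≤ z) : Ea n z = 0 := by
  unfold Ea
  rw [Finset.Ico_eq_empty_of_le h]
  simp

private theorem pot_sum (n d : ℕ) : ∀ z, z + d = n →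
    Ea n z + Ea n (z + 1) = ∑ i ∈ Finset.Ico z n, n.choose i := by
  induction d with
  | zero =>
    intro z hz
    rw [pot_zero n z (by omega), pot_zero n (z + 1) (by omega),
      Finset.Ico_eq_empty_of_le (by omega)]
    simp
  | succ d ih =>
    intro z hz
    have h1 := ih (z + 1) (by omega)
    rw [Finset.sum_eq_sum_Ico_succ_bot (by omega), ← h1, pot_rec n z (by omega)]
    ring

private theorem pot_diff (m d : ℕ) : ∀ z, z + d = m →
    Ea (m + 1) (z + 1) + (if d % 2 = 0 then 1 else 0)
      = Ea (m + 1) (z + 2) + m.choose z + (if d % 2 = 0 then 0 else 1) := by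
  induction d with
  | zero =>
    intro z hz
    rw [pot_zero (m + 1) (z + 1) (by omega), pot_zero (m + 1) (z + 2) (by omega)]
    have : z = m := by omega
    subst this
    simp
  | succ d ih =>
    intro z hz
    have h1 := ih (z + 1) (by omega)
    have h2 := pot_rec (m + 1) (z + 1) (by omega)
    have h3 := Nat.choose_succ_succ' m z
    rw [show z + 1 + 1 = z + 2 by ring, show z + 1 + 2 = z + 3 by ring] at h1
    rw [show z + 1 + 2 = z + 3 by ring] at h2
    by_cases hd : d % 2 = 0
    · have hd' : ¬ ((d + 1) % 2 = 0) := by omega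
      rw [if_pos hd, if_pos hd] at h1
      rw [if_neg hd', if_neg hd']
      omega
    · have hd' : (d + 1) % 2 = 0 := by omega
      rw [if_neg hd, if_neg hd] at h1
      rw [if_pos hd', if_pos hd']
      omega

private theorem pot_le (n z : ℕ) (h1 : 1 ≤ z) (h2 : z < n) :
    Ea n z ≤ Ea n (z + 1) + n.choose z := by
  obtain ⟨m, rfl⟩ : ∃ m, n = m + 1 := ⟨n - 1, by omega⟩
  obtain ⟨y, rfl⟩ : ∃ y, z = y + 1 := ⟨z - 1, by omega⟩
  have h := pot_diff m (m - y) y (by omega)
  have h3 := Nat.choose_succ_succ' m y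
  have h4 : 0 < m.choose (y + 1) := Nat.choose_pos (by omega)
  rw [show y + 1 + 1 = y + 2 by ring]
  split_ifs at h <;> omega

private theorem pot_one (k : ℕ) : Ea (2 * k + 1) 1 = Ea (2 * k + 1) 2 := by
  have h := pot_diff (2 * k) (2 * k) 0 (by omega)
  rw [if_pos (by omega), if_pos (by omega)] at h
  simpa using h

/-- Intermediate binomial coefficients are at least the upper index. -/
private theorem pot_ch (n j : ℕ) (h1 : 1 ≤ j) (h2 : j < n) : n ≤ n.choose j := by
  obtain ⟨m, rfl⟩ : ∃ m, n = m + 1 := ⟨n - 1, by omega⟩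
  obtain ⟨i, rfl⟩ : ∃ i, j = i + 1 := ⟨j - 1, by omega⟩
  induction m generalizing i with
  | zero => omega
  | succ m ih =>
    rw [Nat.choose_succ_succ' (m + 1) i]
    by_cases hi : i = 0
    · subst hi
      rw [Nat.choose_zero_right, Nat.choose_one_right]
      omega
    · by_cases hj : i + 1 = m + 1
      · have : i = m := by omega
        subst this
        rw [Nat.choose_self]
        have := ih (i - 1) (by omega) (by omega)
        rw [show i - 1 + 1 = i by omega] at this
        omega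
      · have a1 := ih i (by omega) (by omega)
        have a2 : 0 < (m + 1).choose i := Nat.choose_pos (by omega)
        omega

private theorem pot_mul (n z b : ℕ) (h1 : b ≤ z) (_ : z ≤ n) :
    n.choose z * z.choose b = n.choose b * (n - b).choose (z - b) :=
  Nat.choose_mul h1

/-- The main estimate. -/
private theorem pot_big (n z b : ℕ) (h1 : 1 ≤ b) (h2 : b < z) (h3 : z < n) :
    n.choose z + n.choose b ≤ n.choose z * z.choose b := by
  have a1 : 2 ≤ z.choose b := le_trans (by omega) (pot_ch z b h1 h2)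
  have a2 : 2 ≤ (n - b).choose (z - b) := le_trans (by omega) (pot_ch (n - b) (z - b) (by omega) (by omega))
  have a3 := pot_mul n z b h2.le h3.le
  have a4 : n.choose z * 2 ≤ n.choose z * z.choose b := Nat.mul_le_mul_left _ a1
  have a5 : n.choose b * 2 ≤ n.choose b * (n - b).choose (z - b) := Nat.mul_le_mul_left _ a2
  omega

theorem ph_zero (n : ℕ) : Ph n 0 0 + 1 = 2 ^ n := by
  unfold Ph
  rw [if_pos rfl]
  have h := pot_sum n n 0 (by omega)
  rw [h, ← Nat.sum_range_choose, Finset.sum_range_succ, Nat.choose_self, Finset.range_eq_Ico]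

theorem ph_top (n : ℕ) : Ph n n n = 0 := by
  unfold Ph
  rw [if_pos rfl, pot_zero n n le_rfl, pot_zero n (n + 1) (by omega)]

theorem ph_step (k z b z' b' : ℕ) (hb : b ≤ z) (hpar : (z + b) % 2 = 0) (hz' : z' ≤ 2 * k + 1)
    (hb' : b' ≤ z')
    (h : (z' = z + 2 ∧ b' = b) ∨ (z' = z + 1 ∧ b' = b + 1) ∨ (z' = z ∧ b' = b + 2)) :
    Ph (2 * k + 1) z b ≤ Ph (2 * k + 1) z' b' + (2 * k + 1).choose z * z.choose b := by
  rcases h with ⟨rfl, rfl⟩ | ⟨rfl, rfl⟩ | ⟨rfl, rfl⟩
  · -- `z' = z + 2`
    have hr := pot_rec (2 * k + 1) z (by omega)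
    have hm := pot_mul (2 * k + 1) z b' hb (by omega)
    unfold Ph
    by_cases h1 : b' = z
    · subst h1
      rw [if_pos rfl, if_neg (by omega)]
      by_cases h2 : b' = 0
      · subst h2
        rw [if_pos rfl]
        simp at hr ⊢
        omega
      · rw [if_neg h2, Nat.choose_self]
        have hl := pot_le (2 * k + 1) b' (by omega) (by omega)
        have hl2 : Ea (2 * k + 1) (b' + 1) ≤ Ea (2 * k + 1) (b' + 2) + (2 * k + 1).choose b' := by
          have h := pot_diff (2 * k) (2 * k - b') b' (by omega)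
          obtain ⟨y, rfl⟩ : ∃ y, b' = y + 1 := ⟨b' - 1, by omega⟩
          have h3 := Nat.choose_succ_succ' (2 * k) y
          have h4 : 0 < (2 * k).choose y := Nat.choose_pos (by omega)
          split_ifs at h <;> omega
        omega
    · rw [if_neg h1, if_neg (by omega : ¬ b' = z + 2)]
      have hc : (2 * k + 1).choose z ≤ (2 * k + 1).choose z * z.choose b' :=
        Nat.le_mul_of_pos_right _ (Nat.choose_pos hb)
      by_cases h2 : b' = 0
      · rw [if_pos h2, if_pos h2]
        omega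
      · rw [if_neg h2, if_neg h2]
        omega
  · -- `z' = z + 1`
    have hr := pot_rec (2 * k + 1) z (by omega)
    unfold Ph
    by_cases h1 : b = z
    · subst h1
      rw [if_pos rfl, if_pos rfl, Nat.choose_self]
      rw [show b + 1 + 1 = b + 2 by ring]
      omega
    · rw [if_neg h1, if_neg (by omega : ¬ b + 1 = z + 1), if_neg (by omega : ¬ b + 1 = 0)]
      have hl := pot_le (2 * k + 1) z (by omega) (by omega)
      by_cases h2 : b = 0
      · subst h2
        rw [if_pos rfl]
        simp only [Nat.choose_zero_right, mul_one, zero_add]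
        omega
      · rw [if_neg h2]
        have hl2 := pot_le (2 * k + 1) b (by omega) (by omega)
        have hbig := pot_big (2 * k + 1) z b (by omega) (by omega) (by omega)
        omega
  · -- `z' = z`
    unfold Ph
    rw [if_neg (by omega : ¬ b = z')]
    have hrb := pot_rec (2 * k + 1) b (by omega)
    by_cases h2 : b = 0
    · subst h2
      rw [if_pos rfl]
      by_cases h3 : 0 + 2 = z'
      · subst h3
        rw [if_pos rfl]
        have hr1 : Ea (2 * k + 1) 1 = (2 * k + 1).choose 1 + Ea (2 * k + 1) 3 :=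
          pot_rec (2 * k + 1) 1 (by omega)
        have hc : (2 * k + 1).choose 1 ≤ (2 * k + 1).choose 2 := by
          rw [Nat.choose_one_right]
          by_cases hk : k = 0
          · subst hk
            omega
          · exact pot_ch (2 * k + 1) 2 (by omega) (by omega)
        change Ea (2 * k + 1) 2 + Ea (2 * k + 1) 1
          ≤ Ea (2 * k + 1) 2 + Ea (2 * k + 1) 3 + (2 * k + 1).choose 2 * 1
        omega
      · rw [if_neg h3, if_neg (by omega), pot_one k]
        simp
    · rw [if_neg h2, if_neg (by omega : ¬ b + 2 = 0)]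
      have hm := pot_mul (2 * k + 1) z' b hb hz'
      have hc : (2 * k + 1).choose b ≤ (2 * k + 1).choose b * (2 * k + 1 - b).choose (z' - b) :=
        Nat.le_mul_of_pos_right _ (Nat.choose_pos (by omega))
      by_cases h3 : b + 2 = z'
      · subst h3
        rw [if_pos rfl]
        by_cases h4 : b + 2 = 2 * k + 1
        · rw [h4, pot_zero (2 * k + 1) (2 * k + 1) le_rfl] at hrb
          rw [h4] at hm hc ⊢
          omega
        · have hl := pot_le (2 * k + 1) (b + 2) (by omega) (by omega)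
          have hbig := pot_big (2 * k + 1) (b + 2) b (by omega) (by omega) (by omega)
          omega
      · rw [if_neg h3]
        omega

end PadDet.Eq
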