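import Pool.Agent.H.MP_d7db32_ag.Eq.Def
import Pool.Agent.H.MP_d7db32_ag.Eq.Opr

/-!
# MP_d7db32_ag, Eq/RepX: the representation of the group on the exterior algebra

`rr (g, s) u = gm g ((1 + c)/2 • u + (1 - c)/2 • gm (-1) u)`, `c = det g * s`: on even elements `gm g`, on odd elements `c gm g`. `gm (-1)` commutes with `gm g` (`gm_mul`), its square is the identity; `gm (-1) (om X * u) = om X * gm (-1) u`,
`gm (-1) (yy S u) = - yy S u`. For `n` odd `yy S (gm (-1) u) = yy S u` (`vs (ex i * gm (-1) u) = - vs (gm (-1) (ex i * u)) = - det (-1) vs (ex i * u)`). `act (g, s) X = g (A + s Y) gᵀ` with `A = (X - Xᵀ)/2`, `Y = (X + Xᵀ)/2`: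
`om (act h X) = gm g (om X)` (`om_tr`: `om` of a symmetric matrix is `0`, `om A = om X`), `act h X + (act h X)ᵀ = s g (X + Xᵀ) gᵀ`. `rr_tt`: compare the four terms of `tt` (`yy_gm`): `yy (s g S gᵀ) (gm g x) = s det g gm g (yy S x)`,
`x = (1 + c)/2 u + (1 - c)/2 gm (-1) u`, `yy S x = yy S u`; and `rr h (yy S u) = c gm g (yy S u)`.
-/

set_option autoImplicit false

namespace PadDet.Eq

open Matrix

/-- The representation. -/
noncomputable def rr {n : ℕ} (h : GL (Fin n) ℂ × ℂˣ) : Tx n →ₗ[ℂ] Tx n :=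
  (gm (h.1 : Matrix (Fin n) (Fin n) ℂ)).toLinearMap ∘ₗ
    (((1 + (h.1 : Matrix (Fin n) (Fin n) ℂ).det * (h.2 : ℂ)) / 2) • LinearMap.id +
      ((1 - (h.1 : Matrix (Fin n) (Fin n) ℂ).det * (h.2 : ℂ)) / 2) •
        (gm (-1 : Matrix (Fin n) (Fin n) ℂ)).toLinearMap)

private theorem RepX_apply {n : ℕ} (h : GL (Fin n) ℂ × ℂˣ) (u : Tx n) :
    rr h u = gm (h.1 : Matrix (Fin n) (Fin n) ℂ)
      (((1 + (h.1 : Matrix (Fin n) (Fin n) ℂ).det * (h.2 : ℂ)) / 2) • u +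
      ((1 - (h.1 : Matrix (Fin n) (Fin n) ℂ).det * (h.2 : ℂ)) / 2) •
        gm (-1 : Matrix (Fin n) (Fin n) ℂ) u) := rfl

private theorem RepX_comm {n : ℕ} (g : Matrix (Fin n) (Fin n) ℂ) (u : Tx n) :
    gm (-1 : Matrix (Fin n) (Fin n) ℂ) (gm g u) = gm g (gm (-1 : Matrix (Fin n) (Fin n) ℂ) u) := by
  rw [← gm_mul, ← gm_mul, neg_one_mul, mul_neg_one]

private theorem RepX_sq {n : ℕ} (u : Tx n) :
    gm (-1 : Matrix (Fin n) (Fin n) ℂ) (gm (-1 : Matrix (Fin n) (Fin n) ℂ) u) = u := by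
  rw [← gm_mul, neg_one_mul, neg_neg, gm_one]

private theorem RepX_om {n : ℕ} (X : Matrix (Fin n) (Fin n) ℂ) :
    gm (-1 : Matrix (Fin n) (Fin n) ℂ) (om X) = om X := by
  rw [gm_om, transpose_neg, transpose_one, neg_one_mul, mul_neg_one, neg_neg]

private theorem RepX_ex {n : ℕ} (j : Fin n) :
    gm (-1 : Matrix (Fin n) (Fin n) ℂ) (ex j) = -ex j := by
  rw [gm_ex, Finset.sum_eq_single j]
  · rw [Matrix.neg_apply, Matrix.one_apply_eq, neg_one_smul]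
  · intro i _ hi
    rw [Matrix.neg_apply, Matrix.one_apply_ne hi, neg_zero, zero_smul]
  · intro h
    exact absurd (Finset.mem_univ j) h

private theorem RepX_yy {n : ℕ} (S : Matrix (Fin n) (Fin n) ℂ) (u : Tx n) :
    gm (-1 : Matrix (Fin n) (Fin n) ℂ) (yy S u) = -yy S u := by
  rw [yy_apply, map_sum, ← Finset.sum_neg_distrib]
  refine Finset.sum_congr rfl fun i _ => ?_
  rw [map_sum, ← Finset.sum_neg_distrib]
  refine Finset.sum_congr rfl fun j _ => ?_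
  rw [map_smul, RepX_ex, smul_neg]

private theorem RepX_yo {k : ℕ} (S : Matrix (Fin (2 * k + 1)) (Fin (2 * k + 1)) ℂ)
    (u : Tx (2 * k + 1)) :
    yy S (gm (-1 : Matrix (Fin (2 * k + 1)) (Fin (2 * k + 1)) ℂ) u) = yy S u := by
  have h1 := yy_gm (-1 : Matrix (Fin (2 * k + 1)) (Fin (2 * k + 1)) ℂ) S u
  rw [transpose_neg, transpose_one, neg_one_mul, mul_neg_one, neg_neg, RepX_yy, det_neg, det_one,
    Fintype.card_fin, mul_one] at h1
  have h2 : (-1 : ℂ) ^ (2 * k + 1) = -1 := by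
    rw [pow_succ, pow_mul]
    norm_num
  rw [h1, h2, neg_one_smul, neg_neg]

theorem rr_one (n : ℕ) (u : Tx n) : rr (1 : GL (Fin n) ℂ × ℂˣ) u = u := by
  rw [RepX_apply]
  have h1 : (((1 : GL (Fin n) ℂ × ℂˣ).1 : GL (Fin n) ℂ) : Matrix (Fin n) (Fin n) ℂ) = 1 := rfl
  have h2 : (((1 : GL (Fin n) ℂ × ℂˣ).2 : ℂˣ) : ℂ) = 1 := rfl
  rw [h1, h2, det_one, gm_one]
  norm_num

theorem rr_mul {n : ℕ} (h h' : GL (Fin n) ℂ × ℂˣ) (u : Tx n) : rr (h * h') u = rr h (rr h' u) := by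
  rw [RepX_apply, RepX_apply h, RepX_apply h']
  have h1 : (((h * h').1 : GL (Fin n) ℂ) : Matrix (Fin n) (Fin n) ℂ) =
    (h.1 : Matrix (Fin n) (Fin n) ℂ) * (h'.1 : Matrix (Fin n) (Fin n) ℂ) := rfl
  have h2 : (((h * h').2 : ℂˣ) : ℂ) = (h.2 : ℂ) * (h'.2 : ℂ) := rfl
  rw [h1, h2, det_mul, gm_mul, RepX_comm, ← map_smul (gm (h'.1 : Matrix (Fin n) (Fin n) ℂ)),
    ← map_smul (gm (h'.1 : Matrix (Fin n) (Fin n) ℂ)), ← map_add]
  congr 2
  rw [map_add, map_smul, map_smul, RepX_sq]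
  module

theorem rr_E {n : ℕ} (h : GL (Fin n) ℂ × ℂˣ) (u : Tx n) (hu : u ∈ Ek n) : rr h u ∈ Ek n := by
  unfold Ek at hu ⊢
  rw [LinearMap.mem_ker] at hu ⊢
  rw [RepX_apply, vs_gm, map_add, map_smul, map_smul, vs_gm, hu]
  simp

theorem rr_F {n : ℕ} (h : GL (Fin n) ℂ × ℂˣ) (u : Tx n) (hu : u ∈ Fk n) : rr h u ∈ Fk n := by
  unfold Fk at hu ⊢
  rw [LinearMap.mem_ker, AlgHom.toLinearMap_apply] at hu ⊢
  rw [RepX_apply, ep_gm, map_add, map_smul, map_smul, ep_gm, hu]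
  simp

private theorem RepX_tt {n : ℕ} (X : Matrix (Fin n) (Fin n) ℂ) (u : Tx n) :
    tt X u = u - ep n u • (1 : Tx n) + om X * u + yy (X + Xᵀ) u := rfl

private theorem RepX_act {n : ℕ} (h : GL (Fin n) ℂ × ℂˣ) (X : Matrix (Fin n) (Fin n) ℂ) :
    om (act h X) = gm (h.1 : Matrix (Fin n) (Fin n) ℂ) (om X) := by
  unfold act
  rw [← gm_om]
  congr 1
  rw [om_add, om_smul, om_smul, om_add, sub_eq_add_neg, om_add, ← transpose_neg, om_tr]
  have h1 : om (-X) = -om X := by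
    rw [← neg_one_smul ℂ X, om_smul, neg_one_smul]
  have h2 : om Xᵀ = -om X := om_tr X
  rw [h1, h2]
  module

private theorem RepX_sym {n : ℕ} (h : GL (Fin n) ℂ × ℂˣ) (X : Matrix (Fin n) (Fin n) ℂ) :
    act h X + (act h X)ᵀ = (h.2 : ℂ) • ((h.1 : Matrix (Fin n) (Fin n) ℂ) * (X + Xᵀ) *
      (h.1 : Matrix (Fin n) (Fin n) ℂ)ᵀ) := by
  unfold act
  rw [transpose_mul, transpose_mul, transpose_transpose, ← mul_assoc, ← add_mul, ← mul_add,
    ← smul_mul_assoc, ← mul_smul_comm]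
  congr 2
  rw [transpose_add, transpose_smul, transpose_smul, transpose_sub, transpose_add,
    transpose_transpose]
  module

theorem rr_tt {k : ℕ} (h : GL (Fin (2 * k + 1)) ℂ × ℂˣ)
    (X : Matrix (Fin (2 * k + 1)) (Fin (2 * k + 1)) ℂ) (u : Tx (2 * k + 1)) :
    tt (act h X) (rr h u) = rr h (tt X u) := by
  rw [RepX_tt, RepX_act, RepX_sym, yy_smul, LinearMap.smul_apply]
  rw [RepX_apply h (tt X u), RepX_apply h u, yy_gm, ep_gm]
  have e1 : gm (-1 : Matrix (Fin (2 * k + 1)) (Fin (2 * k + 1)) ℂ) (tt X u) =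
      gm (-1 : Matrix (Fin (2 * k + 1)) (Fin (2 * k + 1)) ℂ) u - ep _ u • (1 : Tx (2 * k + 1)) +
      om X * gm (-1 : Matrix (Fin (2 * k + 1)) (Fin (2 * k + 1)) ℂ) u - yy (X + Xᵀ) u := by
    rw [RepX_tt, map_add, map_add, map_sub, map_smul, map_one, map_mul, RepX_om, RepX_yy]
    abel
  have e2 : ep (2 * k + 1) (((1 + (h.1 : Matrix (Fin (2 * k + 1)) (Fin (2 * k + 1)) ℂ).det * (h.2 : ℂ)) / 2) • u +
      ((1 - (h.1 : Matrix (Fin (2 * k + 1)) (Fin (2 * k + 1)) ℂ).det * (h.2 : ℂ)) / 2) •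
        gm (-1 : Matrix (Fin (2 * k + 1)) (Fin (2 * k + 1)) ℂ) u) = ep (2 * k + 1) u := by
    rw [map_add, map_smul, map_smul, ep_gm, ← add_smul]
    have e3 : (1 + (h.1 : Matrix (Fin (2 * k + 1)) (Fin (2 * k + 1)) ℂ).det * (h.2 : ℂ)) / 2 +
        (1 - (h.1 : Matrix (Fin (2 * k + 1)) (Fin (2 * k + 1)) ℂ).det * (h.2 : ℂ)) / 2 = 1 := by
      ring
    rw [e3, one_smul]
  have e4 : yy (X + Xᵀ) (((1 + (h.1 : Matrix (Fin (2 * k + 1)) (Fin (2 * k + 1)) ℂ).det * (h.2 : ℂ)) / 2) • u +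
      ((1 - (h.1 : Matrix (Fin (2 * k + 1)) (Fin (2 * k + 1)) ℂ).det * (h.2 : ℂ)) / 2) •
        gm (-1 : Matrix (Fin (2 * k + 1)) (Fin (2 * k + 1)) ℂ) u) = yy (X + Xᵀ) u := by
    rw [map_add, map_smul, map_smul, RepX_yo, ← add_smul]
    have e3 : (1 + (h.1 : Matrix (Fin (2 * k + 1)) (Fin (2 * k + 1)) ℂ).det * (h.2 : ℂ)) / 2 +
        (1 - (h.1 : Matrix (Fin (2 * k + 1)) (Fin (2 * k + 1)) ℂ).det * (h.2 : ℂ)) / 2 = 1 := by
      ring
    rw [e3, one_smul]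
  rw [e2, e4, e1, RepX_tt X u, smul_smul]
  generalize hg : (h.1 : Matrix (Fin (2 * k + 1)) (Fin (2 * k + 1)) ℂ) = g
  simp only [map_add, map_sub, map_smul, map_mul, map_one, mul_add, mul_smul_comm, smul_add,
    smul_sub]
  module

end PadDet.Eq
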