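import Pool.Agent.H.MP_d7db32_ag.Eq.Def
import Pool.Agent.H.MP_d7db32_ag.Eq.S1

/-!
# MP_d7db32_ag, Eq/S2: equivariant expressions in weight coordinates, weight vectors in the kernel
-/

set_option autoImplicit false

namespace PadDet.Eq

open Matrix

/-- Determinant expression, equivariant under permutations (`P`, `P'`) and the torus `μ₃ ^ n`
(weights `w` of the columns, `w'` of the rows). -/
structure Cor (n m : ℕ) (q c : ℂ) (L : Matrix (Fin m) (Fin m) ℂ)
    (M : Matrix (Fin n) (Fin n) ℂ →ₗ[ℂ] Matrix (Fin m) (Fin m) ℂ)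
    (w w' : Fin m → Fin n → ℂ) (P P' : Equiv.Perm (Fin n) → Matrix (Fin m) (Fin m) ℂ) :
    Prop where
  q3 : q ^ 3 = 1
  q1 : q ≠ 1
  c0 : c ≠ 0
  det : ∀ X, (L + M X).det = c * Fv X
  w0 : ∀ a i, w a i ≠ 0
  w0' : ∀ b i, w' b i ≠ 0
  w3 : ∀ a i, w a i ^ 3 = 1
  w3' : ∀ b i, w' b i ^ 3 = 1
  gL : ∀ b a, L b a ≠ 0 → w' b = w a
  gE : ∀ b a i j, M (Matrix.single i j 1) b a ≠ 0 → ∀ l,
    w' b l = (if i = l then q else 1) * (if j = l then q else 1) * w a l
  gP : ∀ σ a' a, P σ a' a ≠ 0 → ∀ l, w a' (σ l) = w a l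
  gP' : ∀ σ b' b, P' σ b' b ≠ 0 → ∀ l, w' b' (σ l) = w' b l
  P1 : P 1 = 1
  P1' : P' 1 = 1
  Pm : ∀ σ τ, P (σ * τ) = P σ * P τ
  Pm' : ∀ σ τ, P' (σ * τ) = P' σ * P' τ
  PL : ∀ σ, P' σ * L = L * P σ
  PM : ∀ σ i j, P' σ * M (Matrix.single i j 1) = M (Matrix.single (σ i) (σ j) 1) * P σ
  tw : ∀ l, ∏ b, w' b l = q ^ 2 * ∏ a, w a l

variable {n m : ℕ} {q c : ℂ} {L : Matrix (Fin m) (Fin m) ℂ}
  {M : Matrix (Fin n) (Fin n) ℂ →ₗ[ℂ] Matrix (Fin m) (Fin m) ℂ}
  {w w' : Fin m → Fin n → ℂ} {P P' : Equiv.Perm (Fin n) → Matrix (Fin m) (Fin m) ℂ}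

/-- The transposed expression. -/
theorem Cor.tr (C : Cor n m q c L M w w' P P') :
    Cor n m q c Lᵀ ((Matrix.transposeLinearEquiv (Fin m) (Fin m) ℂ ℂ).toLinearMap ∘ₗ M)
      (fun b l => (w' b l)⁻¹) (fun a l => (w a l)⁻¹)
      (fun σ => (P' σ⁻¹)ᵀ) (fun σ => (P σ⁻¹)ᵀ) where
  q3 := C.q3
  q1 := C.q1
  c0 := C.c0
  det X := by
    rw [← C.det X, ← Matrix.det_transpose (L + M X)]
    rfl
  w0 b l := inv_ne_zero (C.w0' b l)
  w0' a l := inv_ne_zero (C.w0 a l)
  w3 b l := by rw [inv_pow, C.w3', inv_one]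
  w3' a l := by rw [inv_pow, C.w3, inv_one]
  gL b a h := by
    have := C.gL a b h
    simp only [this]
  gE b a i j h l := by
    have h1 := C.gE a b i j h l
    have hq : q ≠ 0 := by
      intro h0
      have := C.q3
      rw [h0] at this
      norm_num at this
    have hw := C.w0 b l
    have hw' := C.w0' a l
    have hi : (if i = l then q else 1 : ℂ) ≠ 0 := by split_ifs <;> simp [hq]
    have hj : (if j = l then q else 1 : ℂ) ≠ 0 := by split_ifs <;> simp [hq]
    rw [h1]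
    field_simp
  gP σ a' a h l := by
    have h1 := C.gP' σ⁻¹ a a' h (σ l)
    rw [Equiv.Perm.inv_def, Equiv.symm_apply_apply] at h1
    rw [h1]
  gP' σ b' b h l := by
    have h1 := C.gP σ⁻¹ b b' h (σ l)
    rw [Equiv.Perm.inv_def, Equiv.symm_apply_apply] at h1
    rw [h1]
  P1 := by simp [C.P1']
  P1' := by simp [C.P1]
  Pm σ τ := by
    rw [_root_.mul_inv_rev, C.Pm', Matrix.transpose_mul]
  Pm' σ τ := by
    rw [_root_.mul_inv_rev, C.Pm, Matrix.transpose_mul]
  PL σ := by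
    rw [← Matrix.transpose_mul, ← Matrix.transpose_mul, C.PL]
  PM σ i j := by
    have h := C.PM σ⁻¹ (σ i) (σ j)
    rw [Equiv.Perm.inv_def, Equiv.symm_apply_apply, Equiv.symm_apply_apply] at h
    show (P σ⁻¹)ᵀ * (M (Matrix.single i j 1))ᵀ = (M (Matrix.single (σ i) (σ j) 1))ᵀ * (P' σ⁻¹)ᵀ
    rw [← Matrix.transpose_mul, ← Matrix.transpose_mul]
    exact congrArg Matrix.transpose h.symm
  tw l := by
    have h := C.tw l
    have hq : q ≠ 0 := by
      intro h0
      have := C.q3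
      rw [h0] at this
      norm_num at this
    have hp : ∏ a, w a l ≠ 0 := Finset.prod_ne_zero_iff.2 (fun a _ => C.w0 a l)
    simp only [Finset.prod_inv_distrib]
    rw [h]
    field_simp

/-- `x` is a weight vector of weight `ω`. -/
def IsW (w : Fin m → Fin n → ℂ) (ω : Fin n → ℂ) (x : Fin m → ℂ) : Prop :=
  ∀ a, x a ≠ 0 → w a = ω

/-- The component of weight `ω`. -/
noncomputable def wpart (w : Fin m → Fin n → ℂ) (ω : Fin n → ℂ) (x : Fin m → ℂ) : Fin m → ℂ :=
  fun a => by classical exact if w a = ω then x a else 0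

theorem wpart_apply (w : Fin m → Fin n → ℂ) (ω : Fin n → ℂ) (x : Fin m → ℂ) (a : Fin m)
    [Decidable (w a = ω)] : wpart w ω x a = if w a = ω then x a else 0 := by
  unfold wpart
  split_ifs <;> simp_all

theorem wpart_isW (w : Fin m → Fin n → ℂ) (ω : Fin n → ℂ) (x : Fin m → ℂ) :
    IsW w ω (wpart w ω x) := by
  classical
  intro a ha
  rw [wpart_apply] at ha
  by_contra hcon
  rw [if_neg hcon] at ha
  exact ha rfl

theorem Cor.ker_part (C : Cor n m q c L M w w' P P') (ω : Fin n → ℂ) {x : Fin m → ℂ}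
    (hx : L *ᵥ x = 0) : L *ᵥ wpart w ω x = 0 := by
  classical
  funext b
  have h0 := congrFun hx b
  simp only [Matrix.mulVec, dotProduct, Pi.zero_apply] at h0 ⊢
  by_cases hb : w' b = ω
  · rw [← h0]
    refine Finset.sum_congr rfl (fun a _ => ?_)
    rw [wpart_apply]
    by_cases hL : L b a = 0
    · simp [hL]
    · rw [if_pos ((C.gL b a hL).symm.trans hb)]
  · refine Finset.sum_eq_zero (fun a _ => ?_)
    rw [wpart_apply]
    by_cases hL : L b a = 0
    · simp [hL]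
    · rw [if_neg (fun h => hb ((C.gL b a hL).trans h)), mul_zero]

theorem wpart_ne {x : Fin m → ℂ} {a : Fin m} (hx : x a ≠ 0) : wpart w (w a) x ≠ 0 := by
  classical
  intro h
  have := congrFun h a
  rw [wpart_apply, if_pos rfl] at this
  exact hx this

theorem indep {ι : Type} (x : ι → Fin m → ℂ) (ω : ι → Fin n → ℂ) (hω : Function.Injective ω)
    (hx : ∀ i, x i ≠ 0) (hw : ∀ i, IsW w (ω i) (x i)) : LinearIndependent ℂ x := by
  rw [linearIndependent_iff']
  intro s g hg i hi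
  obtain ⟨a, ha⟩ : ∃ a, x i a ≠ 0 := by
    by_contra hcon
    push Not at hcon
    exact hx i (funext hcon)
  have h1 := congrFun hg a
  simp only [Finset.sum_apply, Pi.smul_apply, smul_eq_mul, Pi.zero_apply] at h1
  rw [Finset.sum_eq_single i] at h1
  · exact (mul_eq_zero.1 h1).resolve_right ha
  · intro j _ hj
    by_contra hcon
    have hja : x j a ≠ 0 := right_ne_zero_of_mul hcon
    exact hj (hω ((hw j a hja).symm.trans (hw i a ha)))
  · intro h
    exact absurd hi h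

theorem card_add_rank {ι : Type} [Fintype ι] (x : ι → Fin m → ℂ) (hx : LinearIndependent ℂ x)
    (hL : ∀ i, L *ᵥ x i = 0) : Fintype.card ι + L.rank ≤ m := by
  have h1 : ∀ i, x i ∈ LinearMap.ker L.mulVecLin := fun i => by
    rw [LinearMap.mem_ker, Matrix.mulVecLin_apply]
    exact hL i
  have h2 : LinearIndependent ℂ (fun i => (⟨x i, h1 i⟩ : LinearMap.ker L.mulVecLin)) :=
    LinearIndependent.of_comp (LinearMap.ker L.mulVecLin).subtype hx
  have h3 := h2.fintype_card_le_finrank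
  have h4 := LinearMap.finrank_range_add_finrank_ker L.mulVecLin
  have h5 : Module.finrank ℂ (Fin m → ℂ) = m := by simp
  unfold Matrix.rank
  omega

theorem Fv_smul {n : ℕ} (hn : 0 < n) (t : ℂ) (X : Matrix (Fin n) (Fin n) ℂ) :
    Fv (t • X) = t ^ n * Fv X := by
  unfold Fv
  have h1 : (t • X - (t • X)ᵀ) = t • (X - Xᵀ) := by
    rw [Matrix.transpose_smul, smul_sub]
  have h2 : (t • X + (t • X)ᵀ) = t • (X + Xᵀ) := by
    rw [Matrix.transpose_smul, smul_add]
  rw [h1, h2, Matrix.adjugate_smul, Fintype.card_fin, Matrix.smul_mul, Matrix.mul_smul,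
    Matrix.trace_smul, Matrix.trace_smul, smul_eq_mul, smul_eq_mul, ← mul_assoc, ← pow_succ]
  congr 2
  omega

theorem Cor.pow (C : Cor n m q c L M w w' P P') (hn : 0 < n) (X : Matrix (Fin n) (Fin n) ℂ)
    (t : ℂ) : (L + t • M X).det = t ^ n * (c * Fv X) := by
  rw [← map_smul, C.det, Fv_smul hn]
  ring

end PadDet.Eq
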