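import Pool.Agent.H.MP_d7db32_ag.Eq.CaseD
import Pool.Agent.H.MP_d7db32_ag.Eq.Def2
import Pool.Agent.H.MP_d7db32_ag.Eq.Wt
import Pool.Agent.H.MP_d7db32_ag.Eq.FvA
import Pool.Agent.H.MP_d7db32_ag.Eq.Tri

/-!
# MP_d7db32_ag, Eq/S9: from an equivariant expression to weight coordinates; the theorem
-/

set_option autoImplicit false

namespace PadDet.Eq

open MvPolynomial Matrix

/-- Permutation matrices as a homomorphism. -/
noncomputable def pG (n : ℕ) (σ : Equiv.Perm (Fin n)) : GL (Fin n) ℂ where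
  val := (σ⁻¹).permMatrix ℂ
  inv := σ.permMatrix ℂ
  val_inv := by
    rw [← Matrix.permMatrix_mul, mul_inv_cancel, Matrix.permMatrix_one]
  inv_val := by
    rw [← Matrix.permMatrix_mul, inv_mul_cancel, Matrix.permMatrix_one]

theorem pG_mul (n : ℕ) (σ τ : Equiv.Perm (Fin n)) : pG n (σ * τ) = pG n σ * pG n τ := by
  apply Units.ext
  show ((σ * τ)⁻¹).permMatrix ℂ = (σ⁻¹).permMatrix ℂ * (τ⁻¹).permMatrix ℂ
  rw [← Matrix.permMatrix_mul, _root_.mul_inv_rev]

theorem pG_one (n : ℕ) : pG n 1 = 1 := by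
  apply Units.ext
  show ((1 : Equiv.Perm (Fin n))⁻¹).permMatrix ℂ = 1
  rw [inv_one, Matrix.permMatrix_one]

/-- The diagonal matrix with `q` at `l`. -/
noncomputable def dG (n : ℕ) (q : ℂˣ) (l : Fin n) : GL (Fin n) ℂ where
  val := Matrix.diagonal fun i => if i = l then (q : ℂ) else 1
  inv := Matrix.diagonal fun i => if i = l then ((q⁻¹ : ℂˣ) : ℂ) else 1
  val_inv := by
    rw [Matrix.diagonal_mul_diagonal, ← Matrix.diagonal_one]
    congr 1
    funext i
    by_cases h : i = l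
    · simp [h]
    · simp [h]
  inv_val := by
    rw [Matrix.diagonal_mul_diagonal, ← Matrix.diagonal_one]
    congr 1
    funext i
    by_cases h : i = l
    · simp [h]
    · simp [h]

theorem dG_comm (n : ℕ) (q : ℂˣ) (i j : Fin n) : dG n q i * dG n q j = dG n q j * dG n q i := by
  apply Units.ext
  show Matrix.diagonal _ * Matrix.diagonal _ = Matrix.diagonal _ * Matrix.diagonal _
  rw [Matrix.diagonal_mul_diagonal, Matrix.diagonal_mul_diagonal]
  congr 1
  funext t
  ring

theorem dG_cube (n : ℕ) (q : ℂˣ) (hq : (q : ℂ) ^ 3 = 1) (l : Fin n) : dG n q l ^ 3 = 1 := by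
  apply Units.ext
  show (Matrix.diagonal _) ^ 3 = 1
  rw [Matrix.diagonal_pow, ← Matrix.diagonal_one]
  congr 1
  funext i
  by_cases h : i = l
  · simp [h, hq]
  · simp [h]

theorem pM_apply (n : ℕ) (σ : Equiv.Perm (Fin n)) (a b : Fin n) :
    (σ⁻¹).permMatrix ℂ a b = if a = σ b then 1 else 0 := by
  have h : (σ⁻¹).permMatrix ℂ a b = if σ⁻¹ a = b then 1 else 0 := by
    simp [Equiv.Perm.permMatrix, PEquiv.toMatrix_apply, Equiv.toPEquiv_apply, eq_comm]
  rw [h]
  apply if_congr _ rfl rfl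
  rw [Equiv.Perm.inv_eq_iff_eq]

theorem pG_dG (n : ℕ) (q : ℂˣ) (σ : Equiv.Perm (Fin n)) (l : Fin n) :
    pG n σ * dG n q l = dG n q (σ l) * pG n σ := by
  apply Units.ext
  show (σ⁻¹).permMatrix ℂ * Matrix.diagonal _ = Matrix.diagonal _ * (σ⁻¹).permMatrix ℂ
  ext a b
  rw [Matrix.mul_diagonal, Matrix.diagonal_mul, pM_apply]
  by_cases h : a = σ b
  · rw [if_pos h]
    have : (b = l) ↔ (a = σ l) := by
      rw [h]
      exact (σ.injective.eq_iff).symm
    simp only [this]
    ring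
  · rw [if_neg h]
    ring

theorem act_p (n : ℕ) (σ : Equiv.Perm (Fin n)) (i j : Fin n) :
    act (pG n σ, 1) (Matrix.single i j 1) = Matrix.single (σ i) (σ j) 1 := by
  unfold act
  show (σ⁻¹).permMatrix ℂ * ((1 / 2 : ℂ) • (Matrix.single i j 1 - (Matrix.single i j 1)ᵀ) +
    (((1 : ℂˣ) : ℂ) / 2) • (Matrix.single i j 1 + (Matrix.single i j 1)ᵀ)) *
      ((σ⁻¹).permMatrix ℂ)ᵀ = _
  have h1 : ((1 / 2 : ℂ) • (Matrix.single i j 1 - (Matrix.single i j 1)ᵀ) +
    (((1 : ℂˣ) : ℂ) / 2) • (Matrix.single i j 1 + (Matrix.single i j 1)ᵀ)) =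
      Matrix.single i j (1 : ℂ) := by
    ext a b
    simp only [Matrix.add_apply, Matrix.smul_apply, Matrix.sub_apply, smul_eq_mul, Units.val_one]
    ring
  rw [h1]
  ext a b
  rw [Matrix.mul_apply, Finset.sum_eq_single j]
  · rw [Matrix.transpose_apply, pM_apply, Matrix.mul_apply, Finset.sum_eq_single i]
    · rw [pM_apply, Matrix.single_apply_same, Matrix.single_apply]
      by_cases ha : a = σ i
      · by_cases hb : b = σ j
        · simp [ha, hb]
        · simp [ha, hb, Ne.symm hb]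
      · simp [ha]
        intro h
        exact absurd h.symm ha
    · intro x _ hx
      rw [Matrix.single_apply_of_ne _ _ _ _ _ (by simp [hx.symm]), mul_zero]
    · intro h
      exact absurd (Finset.mem_univ i) h
  · intro x _ hx
    rw [Matrix.mul_apply, Finset.sum_eq_zero, zero_mul]
    intro y _
    rw [Matrix.single_apply_of_ne _ _ _ _ _ (by simp [hx.symm]), mul_zero]
  · intro h
    exact absurd (Finset.mem_univ j) h

theorem act_d (n : ℕ) (q : ℂˣ) (l i j : Fin n) :
    act (dG n q l, 1) (Matrix.single i j 1) =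
      ((if i = l then (q : ℂ) else 1) * (if j = l then (q : ℂ) else 1)) •
        Matrix.single i j (1 : ℂ) := by
  unfold act
  show (Matrix.diagonal fun i => if i = l then (q : ℂ) else 1) *
    ((1 / 2 : ℂ) • (Matrix.single i j 1 - (Matrix.single i j 1)ᵀ) +
    (((1 : ℂˣ) : ℂ) / 2) • (Matrix.single i j 1 + (Matrix.single i j 1)ᵀ)) *
      (Matrix.diagonal fun i => if i = l then (q : ℂ) else 1)ᵀ = _
  have h1 : ((1 / 2 : ℂ) • (Matrix.single i j 1 - (Matrix.single i j 1)ᵀ) +
    (((1 : ℂˣ) : ℂ) / 2) • (Matrix.single i j 1 + (Matrix.single i j 1)ᵀ)) =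
      Matrix.single i j (1 : ℂ) := by
    ext a b
    simp only [Matrix.add_apply, Matrix.smul_apply, Matrix.sub_apply, smul_eq_mul, Units.val_one]
    ring
  rw [h1, Matrix.diagonal_transpose]
  ext a b
  rw [Matrix.mul_diagonal, Matrix.diagonal_mul, Matrix.smul_apply, smul_eq_mul]
  by_cases hab : a = i ∧ b = j
  · rw [hab.1, hab.2, Matrix.single_apply_same]
    ring
  · rw [Matrix.single_apply_of_ne _ _ _ _ _ (by
      rintro ⟨h1, h2⟩
      exact hab ⟨h1.symm, h2.symm⟩)]
    ring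

/-- Weight coordinates. -/
theorem mk_cor {n m : ℕ} {H : Subgroup (GL (Fin n) ℂ × ℂˣ)} (hH : Rich2 n H)
    {L : Matrix (Fin m) (Fin m) ℂ} {M : Matrix (Fin n) (Fin n) ℂ →ₗ[ℂ] Matrix (Fin m) (Fin m) ℂ}
    {ρ ρ' : H →* GL (Fin m) ℂ} (hE : Expr m (skewForm n) H L M ρ ρ')
    (hne : ∃ X : Matrix (Fin n) (Fin n) ℂ, Fv X ≠ 0) :
    ∃ (q c : ℂ) (L' : Matrix (Fin m) (Fin m) ℂ)
      (N : Matrix (Fin n) (Fin n) ℂ →ₗ[ℂ] Matrix (Fin m) (Fin m) ℂ)
      (w w' : Fin m → Fin n → ℂ) (P P' : Equiv.Perm (Fin n) → Matrix (Fin m) (Fin m) ℂ),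
      Cor n m q c L' N w w' P P' := by
  classical
  obtain ⟨X₀, hX₀⟩ := hne
  have hprim := Complex.isPrimitiveRoot_exp 3 (by norm_num)
  set q₀ : ℂ := Complex.exp (2 * Real.pi * Complex.I / (3 : ℕ)) with hq₀
  have q3 : q₀ ^ 3 = 1 := hprim.pow_eq_one
  have q1 : q₀ ≠ 1 := hprim.ne_one (by norm_num)
  have q0 : q₀ ≠ 0 := (q_facts q3 q1).1
  let q : ℂˣ := Units.mk0 q₀ q0
  have hq : (q : ℂ) = q₀ := rfl
  -- the group elements
  have hd : ∀ l, (dG n q l, (1 : ℂˣ)) ∈ H := by
    intro l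
    refine hH.diag (fun i => if i = l then (q : ℂ) else 1) _ (fun i => ?_) rfl
    by_cases h : i = l
    · simp only [h, if_true]; exact q3
    · simp only [h, if_false]; ring
  have hp : ∀ σ, (pG n σ, (1 : ℂˣ)) ∈ H := fun σ => hH.perm σ⁻¹ _ rfl
  let dH : Fin n → H := fun l => ⟨(dG n q l, 1), hd l⟩
  let pH : Equiv.Perm (Fin n) → H := fun σ => ⟨(pG n σ, 1), hp σ⟩
  have dH_comm : ∀ i j, dH i * dH j = dH j * dH i := by
    intro i j
    apply Subtype.ext
    show ((dG n q i, (1 : ℂˣ)) * (dG n q j, 1)) = ((dG n q j, (1 : ℂˣ)) * (dG n q i, 1))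
    rw [Prod.mk_mul_mk, Prod.mk_mul_mk, dG_comm]
  have dH_cube : ∀ i, dH i ^ 3 = 1 := by
    intro i
    apply Subtype.ext
    show ((dG n q i, (1 : ℂˣ)) ^ 3) = 1
    rw [Prod.pow_mk, dG_cube n q q3, one_pow]
    rfl
  have pH_mul : ∀ σ τ, pH (σ * τ) = pH σ * pH τ := by
    intro σ τ
    apply Subtype.ext
    show ((pG n (σ * τ), (1 : ℂˣ))) = ((pG n σ, (1 : ℂˣ)) * (pG n τ, 1))
    rw [Prod.mk_mul_mk, pG_mul, one_mul]
  have pH_one : pH 1 = 1 := by
    apply Subtype.ext
    show ((pG n 1, (1 : ℂˣ))) = 1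
    rw [pG_one]
    rfl
  have pH_dH : ∀ σ l, pH σ * dH l = dH (σ l) * pH σ := by
    intro σ l
    apply Subtype.ext
    show ((pG n σ, (1 : ℂˣ)) * (dG n q l, 1)) = ((dG n q (σ l), (1 : ℂˣ)) * (pG n σ, 1))
    rw [Prod.mk_mul_mk, Prod.mk_mul_mk, pG_dG]
  -- simultaneous diagonalization
  obtain ⟨S, χ, hS, hSχ, hχ3⟩ := wt (fun l => (ρ (dH l)).1)
    (fun i j => by
      show (ρ (dH i) * ρ (dH j)).1 = (ρ (dH j) * ρ (dH i)).1
      rw [← map_mul, ← map_mul, dH_comm])
    (fun i => by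
      show (ρ (dH i) ^ 3).1 = 1
      rw [← map_pow, dH_cube, map_one]
      rfl)
  obtain ⟨S', χ', hS', hSχ', hχ3'⟩ := wt (fun l => (ρ' (dH l)).1)
    (fun i j => by
      show (ρ' (dH i) * ρ' (dH j)).1 = (ρ' (dH j) * ρ' (dH i)).1
      rw [← map_mul, ← map_mul, dH_comm])
    (fun i => by
      show (ρ' (dH i) ^ 3).1 = 1
      rw [← map_pow, dH_cube, map_one]
      rfl)
  have SS : S * S⁻¹ = 1 := Matrix.mul_nonsing_inv _ hS
  have SS2 : S⁻¹ * S = 1 := Matrix.nonsing_inv_mul _ hS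
  have SS' : S' * S'⁻¹ = 1 := Matrix.mul_nonsing_inv _ hS'
  have SS2' : S'⁻¹ * S' = 1 := Matrix.nonsing_inv_mul _ hS'
  -- equivariance of the two parts
  have act0 : ∀ h : GL (Fin n) ℂ × ℂˣ, act h (0 : Matrix (Fin n) (Fin n) ℂ) = 0 := by
    intro h
    unfold act
    simp
  have eL : ∀ h : H, (ρ' h : Matrix (Fin m) (Fin m) ℂ) * L = L * (ρ h : Matrix (Fin m) (Fin m) ℂ) := by
    intro h
    have h1 := hE.eqv h 0
    rw [act0, map_zero, add_zero] at h1
    have h2 : ((ρ h)⁻¹ : GL (Fin m) ℂ).1 * (ρ h).1 = 1 := by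
      rw [← Units.val_mul, inv_mul_cancel]; rfl
    calc (ρ' h : Matrix (Fin m) (Fin m) ℂ) * L = (ρ' h).1 * L * (((ρ h)⁻¹ : GL (Fin m) ℂ).1 * (ρ h).1) := by
          rw [h2, Matrix.mul_one]
      _ = ((ρ' h).1 * L * ((ρ h)⁻¹ : GL (Fin m) ℂ).1) * (ρ h).1 := by simp only [Matrix.mul_assoc]
      _ = L * (ρ h).1 := by rw [← h1]
  have eM : ∀ (h : H) (X : Matrix (Fin n) (Fin n) ℂ), (ρ' h : Matrix (Fin m) (Fin m) ℂ) * M X =
      M (act (h : GL (Fin n) ℂ × ℂˣ) X) * (ρ h : Matrix (Fin m) (Fin m) ℂ) := by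
    intro h X
    have h1 := hE.eqv h X
    have h2 : ((ρ h)⁻¹ : GL (Fin m) ℂ).1 * (ρ h).1 = 1 := by
      rw [← Units.val_mul, inv_mul_cancel]; rfl
    have h3 : (L + M (act (h : GL (Fin n) ℂ × ℂˣ) X)) * (ρ h).1 = (ρ' h).1 * (L + M X) := by
      rw [h1, Matrix.mul_assoc, h2, Matrix.mul_one]
    rw [Matrix.add_mul, Matrix.mul_add, eL h] at h3
    exact (add_left_cancel h3).symm
  have dS' : ∀ l, S'⁻¹ * (ρ' (dH l)).1 = Matrix.diagonal (fun a => χ' a l) * S'⁻¹ := by
    intro l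
    have h1 := hSχ' l
    calc S'⁻¹ * (ρ' (dH l)).1 = S'⁻¹ * ((ρ' (dH l)).1 * S') * S'⁻¹ := by
          rw [Matrix.mul_assoc, Matrix.mul_assoc, SS', Matrix.mul_one]
      _ = Matrix.diagonal (fun a => χ' a l) * S'⁻¹ := by
          rw [h1, ← Matrix.mul_assoc, SS2', Matrix.one_mul]
  have dS : ∀ l, (ρ (dH l)).1 * S = S * Matrix.diagonal (fun a => χ a l) := hSχ
  have hχ0 : ∀ a l, χ a l ≠ 0 := by
    intro a l h
    have := hχ3 a l
    rw [h] at this
    norm_num at this
  have hχ0' : ∀ a l, χ' a l ≠ 0 := by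
    intro a l h
    have := hχ3' a l
    rw [h] at this
    norm_num at this
  let N : Matrix (Fin n) (Fin n) ℂ →ₗ[ℂ] Matrix (Fin m) (Fin m) ℂ :=
    { toFun := fun X => S'⁻¹ * M X * S
      map_add' := fun X Y => by rw [map_add, Matrix.mul_add, Matrix.add_mul]
      map_smul' := fun t X => by
        rw [map_smul, Matrix.mul_smul, Matrix.smul_mul, RingHom.id_apply] }
  have hN : ∀ X, N X = S'⁻¹ * M X * S := fun _ => rfl
  refine ⟨q₀, S'⁻¹.det * S.det, S'⁻¹ * L * S, N, χ, χ', fun σ => S⁻¹ * (ρ (pH σ)).1 * S,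
    fun σ => S'⁻¹ * (ρ' (pH σ)).1 * S', ?_⟩
  have hdet : ∀ X, (S'⁻¹ * L * S + N X).det = S'⁻¹.det * S.det * Fv X := by
    intro X
    have h1 : S'⁻¹ * L * S + N X = S'⁻¹ * (L + M X) * S := by
      rw [hN, Matrix.mul_add, Matrix.add_mul]
    rw [h1, Matrix.det_mul, Matrix.det_mul, hE.det, eval_skew]
    ring
  exact
    { q3 := q3
      q1 := q1
      c0 := mul_ne_zero (Matrix.isUnit_nonsing_inv_det S' hS').ne_zero hS.ne_zero
      det := hdet
      w0 := hχ0
      w0' := hχ0'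
      w3 := hχ3
      w3' := hχ3'
      gL := by
        intro b a h
        funext l
        have h1 : Matrix.diagonal (fun a => χ' a l) * (S'⁻¹ * L * S) =
            (S'⁻¹ * L * S) * Matrix.diagonal (fun a => χ a l) := by
          calc Matrix.diagonal (fun a => χ' a l) * (S'⁻¹ * L * S)
              = (Matrix.diagonal (fun a => χ' a l) * S'⁻¹) * L * S := by
                simp only [Matrix.mul_assoc]
            _ = S'⁻¹ * ((ρ' (dH l)).1 * L) * S := by
                rw [← dS' l]; simp only [Matrix.mul_assoc]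
            _ = S'⁻¹ * L * ((ρ (dH l)).1 * S) := by
                rw [eL]; simp only [Matrix.mul_assoc]
            _ = (S'⁻¹ * L * S) * Matrix.diagonal (fun a => χ a l) := by
                rw [dS l]; simp only [Matrix.mul_assoc]
        have h2 := congrFun (congrFun h1 b) a
        rw [Matrix.diagonal_mul, Matrix.mul_diagonal, mul_comm] at h2
        exact mul_left_cancel₀ h h2
      gE := by
        intro b a i j h l
        have h1 : Matrix.diagonal (fun a => χ' a l) * N (Matrix.single i j 1) =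
            ((if i = l then q₀ else 1) * (if j = l then q₀ else 1)) •
              (N (Matrix.single i j 1) * Matrix.diagonal (fun a => χ a l)) := by
          calc Matrix.diagonal (fun a => χ' a l) * N (Matrix.single i j 1)
              = (Matrix.diagonal (fun a => χ' a l) * S'⁻¹) * M (Matrix.single i j 1) * S := by
                rw [hN]; simp only [Matrix.mul_assoc]
            _ = S'⁻¹ * ((ρ' (dH l)).1 * M (Matrix.single i j 1)) * S := by
                rw [← dS' l]; simp only [Matrix.mul_assoc]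
            _ = S'⁻¹ * M (act (dG n q l, 1) (Matrix.single i j 1)) * ((ρ (dH l)).1 * S) := by
                rw [eM]; simp only [Matrix.mul_assoc]; rfl
            _ = _ := by
                rw [dS l, act_d, map_smul, Matrix.mul_smul, Matrix.smul_mul, hN]
                simp only [Matrix.mul_assoc, hq]
        have h2 := congrFun (congrFun h1 b) a
        rw [Matrix.diagonal_mul, Matrix.smul_apply, Matrix.mul_diagonal, smul_eq_mul] at h2
        have h3 : N (Matrix.single i j 1) b a * χ' b l = N (Matrix.single i j 1) b a *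
            ((if i = l then q₀ else 1) * (if j = l then q₀ else 1) * χ a l) := by
          rw [mul_comm, h2]; ring
        exact mul_left_cancel₀ h h3
      gP := by
        intro σ a' a h l
        have h1 : (S⁻¹ * (ρ (pH σ)).1 * S) * Matrix.diagonal (fun a => χ a l) =
            Matrix.diagonal (fun a => χ a (σ l)) * (S⁻¹ * (ρ (pH σ)).1 * S) := by
          have h5 : S⁻¹ * (ρ (dH (σ l))).1 = Matrix.diagonal (fun a => χ a (σ l)) * S⁻¹ := by
            calc S⁻¹ * (ρ (dH (σ l))).1 = S⁻¹ * ((ρ (dH (σ l))).1 * S) * S⁻¹ := by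
                  rw [Matrix.mul_assoc, Matrix.mul_assoc, SS, Matrix.mul_one]
              _ = Matrix.diagonal (fun a => χ a (σ l)) * S⁻¹ := by
                  rw [dS, ← Matrix.mul_assoc, SS2, Matrix.one_mul]
          have h6 : (ρ (pH σ)).1 * (ρ (dH l)).1 = (ρ (dH (σ l))).1 * (ρ (pH σ)).1 := by
            rw [← Units.val_mul, ← Units.val_mul, ← map_mul, ← map_mul, pH_dH]
          calc (S⁻¹ * (ρ (pH σ)).1 * S) * Matrix.diagonal (fun a => χ a l)
              = S⁻¹ * (ρ (pH σ)).1 * (S * Matrix.diagonal (fun a => χ a l)) := by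
                simp only [Matrix.mul_assoc]
            _ = S⁻¹ * ((ρ (pH σ)).1 * (ρ (dH l)).1) * S := by
                rw [← dS]; simp only [Matrix.mul_assoc]
            _ = (S⁻¹ * (ρ (dH (σ l))).1) * (ρ (pH σ)).1 * S := by
                rw [h6]; simp only [Matrix.mul_assoc]
            _ = _ := by rw [h5]; simp only [Matrix.mul_assoc]
        have h2 := congrFun (congrFun h1 a') a
        rw [Matrix.diagonal_mul, Matrix.mul_diagonal, mul_comm] at h2
        exact (mul_right_cancel₀ h h2).symm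
      gP' := by
        intro σ a' a h l
        have dSp : ∀ l, (ρ' (dH l)).1 * S' = S' * Matrix.diagonal (fun a => χ' a l) := hSχ'
        have h1 : (S'⁻¹ * (ρ' (pH σ)).1 * S') * Matrix.diagonal (fun a => χ' a l) =
            Matrix.diagonal (fun a => χ' a (σ l)) * (S'⁻¹ * (ρ' (pH σ)).1 * S') := by
          have h6 : (ρ' (pH σ)).1 * (ρ' (dH l)).1 = (ρ' (dH (σ l))).1 * (ρ' (pH σ)).1 := by
            rw [← Units.val_mul, ← Units.val_mul, ← map_mul, ← map_mul, pH_dH]
          calc (S'⁻¹ * (ρ' (pH σ)).1 * S') * Matrix.diagonal (fun a => χ' a l)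
              = S'⁻¹ * (ρ' (pH σ)).1 * (S' * Matrix.diagonal (fun a => χ' a l)) := by
                simp only [Matrix.mul_assoc]
            _ = S'⁻¹ * ((ρ' (pH σ)).1 * (ρ' (dH l)).1) * S' := by
                rw [← dSp]; simp only [Matrix.mul_assoc]
            _ = (S'⁻¹ * (ρ' (dH (σ l))).1) * (ρ' (pH σ)).1 * S' := by
                rw [h6]; simp only [Matrix.mul_assoc]
            _ = _ := by rw [dS']; simp only [Matrix.mul_assoc]
        have h2 := congrFun (congrFun h1 a') a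
        rw [Matrix.diagonal_mul, Matrix.mul_diagonal, mul_comm] at h2
        exact (mul_right_cancel₀ h h2).symm
      P1 := by
        show S⁻¹ * (ρ (pH 1)).1 * S = 1
        rw [pH_one, map_one]
        show S⁻¹ * (1 : Matrix (Fin m) (Fin m) ℂ) * S = 1
        rw [Matrix.mul_one, SS2]
      P1' := by
        show S'⁻¹ * (ρ' (pH 1)).1 * S' = 1
        rw [pH_one, map_one]
        show S'⁻¹ * (1 : Matrix (Fin m) (Fin m) ℂ) * S' = 1
        rw [Matrix.mul_one, SS2']
      Pm := by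
        intro σ τ
        show S⁻¹ * (ρ (pH (σ * τ))).1 * S = (S⁻¹ * (ρ (pH σ)).1 * S) * (S⁻¹ * (ρ (pH τ)).1 * S)
        rw [pH_mul, map_mul, Units.val_mul]
        calc S⁻¹ * ((ρ (pH σ)).1 * (ρ (pH τ)).1) * S
            = S⁻¹ * (ρ (pH σ)).1 * 1 * (ρ (pH τ)).1 * S := by
              rw [Matrix.mul_one]; simp only [Matrix.mul_assoc]
          _ = _ := by rw [← SS]; simp only [Matrix.mul_assoc]
      Pm' := by
        intro σ τ
        show S'⁻¹ * (ρ' (pH (σ * τ))).1 * S' =
          (S'⁻¹ * (ρ' (pH σ)).1 * S') * (S'⁻¹ * (ρ' (pH τ)).1 * S')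
        rw [pH_mul, map_mul, Units.val_mul]
        calc S'⁻¹ * ((ρ' (pH σ)).1 * (ρ' (pH τ)).1) * S'
            = S'⁻¹ * (ρ' (pH σ)).1 * 1 * (ρ' (pH τ)).1 * S' := by
              rw [Matrix.mul_one]; simp only [Matrix.mul_assoc]
          _ = _ := by rw [← SS']; simp only [Matrix.mul_assoc]
      PL := by
        intro σ
        show (S'⁻¹ * (ρ' (pH σ)).1 * S') * (S'⁻¹ * L * S) = (S'⁻¹ * L * S) * (S⁻¹ * (ρ (pH σ)).1 * S)
        calc (S'⁻¹ * (ρ' (pH σ)).1 * S') * (S'⁻¹ * L * S)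
            = S'⁻¹ * (ρ' (pH σ)).1 * (S' * S'⁻¹) * L * S := by simp only [Matrix.mul_assoc]
          _ = S'⁻¹ * ((ρ' (pH σ)).1 * L) * S := by
              rw [SS', Matrix.mul_one]; simp only [Matrix.mul_assoc]
          _ = S'⁻¹ * L * 1 * (ρ (pH σ)).1 * S := by
              rw [eL, Matrix.mul_one]; simp only [Matrix.mul_assoc]
          _ = _ := by rw [← SS]; simp only [Matrix.mul_assoc]
      PM := by
        intro σ i j
        show (S'⁻¹ * (ρ' (pH σ)).1 * S') * (S'⁻¹ * M (Matrix.single i j 1) * S) =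
          (S'⁻¹ * M (Matrix.single (σ i) (σ j) 1) * S) * (S⁻¹ * (ρ (pH σ)).1 * S)
        have h1 := eM (pH σ) (Matrix.single i j 1)
        have h2 : act ((pH σ : H) : GL (Fin n) ℂ × ℂˣ) (Matrix.single i j 1) =
            Matrix.single (σ i) (σ j) 1 := act_p n σ i j
        rw [h2] at h1
        calc (S'⁻¹ * (ρ' (pH σ)).1 * S') * (S'⁻¹ * M (Matrix.single i j 1) * S)
            = S'⁻¹ * (ρ' (pH σ)).1 * (S' * S'⁻¹) * M (Matrix.single i j 1) * S := by
              simp only [Matrix.mul_assoc]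
          _ = S'⁻¹ * ((ρ' (pH σ)).1 * M (Matrix.single i j 1)) * S := by
              rw [SS', Matrix.mul_one]; simp only [Matrix.mul_assoc]
          _ = S'⁻¹ * M (Matrix.single (σ i) (σ j) 1) * 1 * (ρ (pH σ)).1 * S := by
              rw [h1, Matrix.mul_one]; simp only [Matrix.mul_assoc]
          _ = _ := by rw [← SS]; simp only [Matrix.mul_assoc]
      tw := by
        intro l
        have h1 : (ρ' (dH l)).1 * (L + M X₀) = (L + M (act (dG n q l, 1) X₀)) * (ρ (dH l)).1 := by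
          have h2 := eM (dH l) X₀
          rw [Matrix.mul_add, Matrix.add_mul, eL, h2]
        have h3 := congrArg Matrix.det h1
        rw [Matrix.det_mul, Matrix.det_mul, hE.det, hE.det, eval_skew, eval_skew, Fv_act] at h3
        have h4 : ((dG n q l : GL (Fin n) ℂ) : Matrix (Fin n) (Fin n) ℂ).det = q₀ := by
          show (Matrix.diagonal fun i => if i = l then (q : ℂ) else 1).det = q₀
          rw [Matrix.det_diagonal, Finset.prod_ite_eq' Finset.univ l (fun _ => (q : ℂ))]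
          simp [hq]
        have h5 : (ρ (dH l)).1.det = ∏ a, χ a l := by
          have h6 := congrArg Matrix.det (dS l)
          rw [Matrix.det_mul, Matrix.det_mul, Matrix.det_diagonal, mul_comm] at h6
          exact mul_left_cancel₀ hS.ne_zero h6
        have h7 : (ρ' (dH l)).1.det = ∏ a, χ' a l := by
          have h6 := congrArg Matrix.det (hSχ' l)
          rw [Matrix.det_mul, Matrix.det_mul, Matrix.det_diagonal, mul_comm] at h6
          exact mul_left_cancel₀ hS'.ne_zero h6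
        rw [h5, h7] at h3
        simp only [h4, Units.val_one, mul_one] at h3
        have h8 : (∏ a, χ' a l) * Fv X₀ = (q₀ ^ 2 * ∏ a, χ a l) * Fv X₀ := by
          rw [h3]; ring
        exact mul_right_cancel₀ hX₀ h8 }

end PadDet.Eq
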