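import Pool.Agent.H.MP_d7db32_ag.Eq.FvA
import Pool.Agent.H.MP_d7db32_ag.Eq.RepX
import Pool.Agent.H.MP_d7db32_ag.Eq.PfC

/-!
# MP_d7db32_ag, Eq/Up: an equivariant determinant expression of size `2 ^ n - 1`

`opr` gives bases `bE`, `bF`; `T X = toMatrix bE bF (ttr X)` is affine in `X`: `T X = T 0 + (T X - T 0)`, and `X ↦ T X - T 0` is linear (`om_add`, `om_smul`, `yy_add`, `yy_smul`). `ρ h` = matrix in `bE` of the restriction of `rr h` to `Ek` (`rr_E`), `ρ' h` = matrix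
in `bF` of the restriction to `Fk`; homomorphisms to the monoid of matrices (`rr_one`, `rr_mul`), so to `GL` (`MonoidHom.toHomUnits`). `rr_tt` gives `T (act h X) * ρ h = ρ' h * T X`. The determinant of `T X` is `C * Fv X` (`opr`, `pffv`); multiply the first row by
`C⁻¹` (with the diagonal matrix `D`: `L = D T 0`, `M X = D (T X - T 0)`, `ρ' ↦ D ρ' D⁻¹`). `eval_skew`.
-/

set_option autoImplicit false

namespace PadDet.Eq

open MvPolynomial Matrix

private theorem Up_om_zero (n : ℕ) : om (0 : Matrix (Fin n) (Fin n) ℂ) = 0 := by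
  have h := om_smul (0 : ℂ) (0 : Matrix (Fin n) (Fin n) ℂ)
  rwa [zero_smul, zero_smul] at h

private theorem Up_yy_zero (n : ℕ) : yy (0 : Matrix (Fin n) (Fin n) ℂ) = 0 := by
  have h := yy_smul (0 : ℂ) (0 : Matrix (Fin n) (Fin n) ℂ)
  rwa [zero_smul, zero_smul] at h

private theorem Up_ttr {n : ℕ} (X : Matrix (Fin n) (Fin n) ℂ) (u : Ek n) :
    ((ttr X u : Fk n) : Tx n) =
      (u : Tx n) - ep n (u : Tx n) • (1 : Tx n) + om X * (u : Tx n) + yy (X + Xᵀ) (u : Tx n) := rfl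

private theorem Up_sub {n : ℕ} (X : Matrix (Fin n) (Fin n) ℂ) (u : Ek n) :
    (((ttr X - ttr 0 : Ek n →ₗ[ℂ] Fk n) u : Fk n) : Tx n) =
      om X * (u : Tx n) + yy (X + Xᵀ) (u : Tx n) := by
  rw [LinearMap.sub_apply, Submodule.coe_sub, Up_ttr, Up_ttr, Up_om_zero, Matrix.transpose_zero,
    add_zero, Up_yy_zero, LinearMap.zero_apply, zero_mul]
  abel

/-- The linear part. -/
private noncomputable def Up_N (n : ℕ) :
    Matrix (Fin n) (Fin n) ℂ →ₗ[ℂ] (Ek n →ₗ[ℂ] Fk n) where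
  toFun X := ttr X - ttr 0
  map_add' X Y := by
    ext1 u
    apply Subtype.ext
    rw [LinearMap.add_apply, Submodule.coe_add, Up_sub, Up_sub, Up_sub, om_add,
      Matrix.transpose_add, show X + Y + (Xᵀ + Yᵀ) = (X + Xᵀ) + (Y + Yᵀ) by abel, yy_add,
      LinearMap.add_apply, add_mul]
    abel
  map_smul' c X := by
    ext1 u
    apply Subtype.ext
    rw [RingHom.id_apply, LinearMap.smul_apply, Submodule.coe_smul, Up_sub, Up_sub, om_smul,
      Matrix.transpose_smul, ← smul_add, yy_smul, LinearMap.smul_apply, smul_mul_assoc, smul_add]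

/-- The action on the first hyperplane. -/
private noncomputable def Up_rE (n : ℕ) : GL (Fin n) ℂ × ℂˣ →* Module.End ℂ (Ek n) where
  toFun h := (rr h).restrict (rr_E h)
  map_one' := by
    ext1 u
    apply Subtype.ext
    exact rr_one n (u : Tx n)
  map_mul' h h' := by
    ext1 u
    apply Subtype.ext
    exact rr_mul h h' (u : Tx n)

/-- The action on the second hyperplane. -/
private noncomputable def Up_rF (n : ℕ) : GL (Fin n) ℂ × ℂˣ →* Module.End ℂ (Fk n) where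
  toFun h := (rr h).restrict (rr_F h)
  map_one' := by
    ext1 u
    apply Subtype.ext
    exact rr_one n (u : Tx n)
  map_mul' h h' := by
    ext1 u
    apply Subtype.ext
    exact rr_mul h h' (u : Tx n)

private theorem Up_comm {k : ℕ} (h : GL (Fin (2 * k + 1)) ℂ × ℂˣ)
    (X : Matrix (Fin (2 * k + 1)) (Fin (2 * k + 1)) ℂ) :
    ttr (act h X) ∘ₗ (Up_rE (2 * k + 1) h) = (Up_rF (2 * k + 1) h) ∘ₗ ttr X := by
  ext1 u
  apply Subtype.ext
  exact rr_tt h X (u : Tx (2 * k + 1))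

/-- The homomorphism to the invertible matrices in a basis. -/
private noncomputable def Up_rho {m : ℕ} {G V : Type*} [Group G] [AddCommGroup V] [Module ℂ V]
    (b : Module.Basis (Fin m) ℂ V) (r : G →* Module.End ℂ V) : G →* GL (Fin m) ℂ :=
  ((LinearMap.toMatrixAlgEquiv b).toMonoidHom.comp r).toHomUnits

private theorem Up_rho_coe {m : ℕ} {G V : Type*} [Group G] [AddCommGroup V] [Module ℂ V]
    (b : Module.Basis (Fin m) ℂ V) (r : G →* Module.End ℂ V) (g : G) :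
    ((Up_rho b r g : GL (Fin m) ℂ) : Matrix (Fin m) (Fin m) ℂ) = LinearMap.toMatrix b b (r g) := rfl

private theorem Up_D {m : ℕ} (hm : 0 < m) {c : ℂ} (hc : c ≠ 0) :
    ∃ D : GL (Fin m) ℂ, (D : Matrix (Fin m) (Fin m) ℂ).det = c := by
  have h : (Matrix.diagonal (Function.update (1 : Fin m → ℂ) ⟨0, hm⟩ c)).det = c := by
    rw [Matrix.det_diagonal, Finset.prod_update_of_mem (Finset.mem_univ _)]
    simp
  exact ⟨Matrix.GeneralLinearGroup.mkOfDetNeZero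
    (Matrix.diagonal (Function.update (1 : Fin m → ℂ) ⟨0, hm⟩ c)) (h.trans_ne hc), h⟩

theorem upper (k : ℕ) :
    ∃ (L : Matrix (Fin (2 ^ (2 * k + 1) - 1)) (Fin (2 ^ (2 * k + 1) - 1)) ℂ)
      (M : Matrix (Fin (2 * k + 1)) (Fin (2 * k + 1)) ℂ →ₗ[ℂ]
        Matrix (Fin (2 ^ (2 * k + 1) - 1)) (Fin (2 ^ (2 * k + 1) - 1)) ℂ)
      (ρ ρ' : (⊤ : Subgroup (GL (Fin (2 * k + 1)) ℂ × ℂˣ)) →*
        GL (Fin (2 ^ (2 * k + 1) - 1)) ℂ),
      Expr (2 ^ (2 * k + 1) - 1) (skewForm (2 * k + 1)) ⊤ L M ρ ρ' := by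
  obtain ⟨bE, bF, hdet⟩ := opr k
  obtain ⟨C, hC, hCv⟩ := pffv k
  have hm : 0 < 2 ^ (2 * k + 1) - 1 := by
    have : 1 < 2 ^ (2 * k + 1) := Nat.one_lt_two_pow (by omega)
    omega
  obtain ⟨D, hD⟩ := Up_D hm (inv_ne_zero hC)
  generalize hmm : 2 ^ (2 * k + 1) - 1 = m at *
  have hadd : ∀ X : Matrix (Fin (2 * k + 1)) (Fin (2 * k + 1)) ℂ,
      (D : Matrix (Fin m) (Fin m) ℂ) * LinearMap.toMatrix bE bF (ttr 0) +
        (D : Matrix (Fin m) (Fin m) ℂ) * LinearMap.toMatrix bE bF (Up_N (2 * k + 1) X) =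
      (D : Matrix (Fin m) (Fin m) ℂ) * LinearMap.toMatrix bE bF (ttr X) := by
    intro X
    rw [← Matrix.mul_add, ← map_add]
    congr 2
    change ttr 0 + (ttr X - ttr 0) = ttr X
    abel
  refine ⟨(D : Matrix (Fin m) (Fin m) ℂ) * LinearMap.toMatrix bE bF (ttr 0),
    LinearMap.mulLeft ℂ (D : Matrix (Fin m) (Fin m) ℂ) ∘ₗ
      (LinearMap.toMatrix bE bF).toLinearMap ∘ₗ Up_N (2 * k + 1),
    (Up_rho bE (Up_rE (2 * k + 1))).comp (Subgroup.subtype ⊤),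
    ((MulAut.conj D).toMonoidHom.comp (Up_rho bF (Up_rF (2 * k + 1)))).comp (Subgroup.subtype ⊤),
    ?_, ?_⟩
  · intro X
    change ((D : Matrix (Fin m) (Fin m) ℂ) * LinearMap.toMatrix bE bF (ttr 0) +
        (D : Matrix (Fin m) (Fin m) ℂ) * LinearMap.toMatrix bE bF (Up_N (2 * k + 1) X)).det = _
    rw [hadd, Matrix.det_mul, hD, hdet, hCv, eval_skew, inv_mul_cancel_left₀ hC]
  · intro h X
    have key : LinearMap.toMatrix bE bF (ttr (act (h : GL (Fin (2 * k + 1)) ℂ × ℂˣ) X)) *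
        ((Up_rho bE (Up_rE (2 * k + 1)) (h : GL (Fin (2 * k + 1)) ℂ × ℂˣ) : GL (Fin m) ℂ) :
          Matrix (Fin m) (Fin m) ℂ) =
        ((Up_rho bF (Up_rF (2 * k + 1)) (h : GL (Fin (2 * k + 1)) ℂ × ℂˣ) : GL (Fin m) ℂ) :
          Matrix (Fin m) (Fin m) ℂ) * LinearMap.toMatrix bE bF (ttr X) := by
      rw [Up_rho_coe, Up_rho_coe, ← LinearMap.toMatrix_comp bE bE bF,
        ← LinearMap.toMatrix_comp bE bF bF, Up_comm]
    have key2 : LinearMap.toMatrix bE bF (ttr (act (h : GL (Fin (2 * k + 1)) ℂ × ℂˣ) X)) =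
        ((Up_rho bF (Up_rF (2 * k + 1)) (h : GL (Fin (2 * k + 1)) ℂ × ℂˣ) : GL (Fin m) ℂ) :
          Matrix (Fin m) (Fin m) ℂ) * LinearMap.toMatrix bE bF (ttr X) *
        (((Up_rho bE (Up_rE (2 * k + 1)) (h : GL (Fin (2 * k + 1)) ℂ × ℂˣ))⁻¹ : GL (Fin m) ℂ) :
          Matrix (Fin m) (Fin m) ℂ) := by
      rw [← key, Matrix.mul_assoc, ← Units.val_mul, mul_inv_cancel, Units.val_one, Matrix.mul_one]
    change (D : Matrix (Fin m) (Fin m) ℂ) * LinearMap.toMatrix bE bF (ttr 0) +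
        (D : Matrix (Fin m) (Fin m) ℂ) * LinearMap.toMatrix bE bF (Up_N (2 * k + 1)
          (act (h : GL (Fin (2 * k + 1)) ℂ × ℂˣ) X)) =
      ((D * Up_rho bF (Up_rF (2 * k + 1)) (h : GL (Fin (2 * k + 1)) ℂ × ℂˣ) * D⁻¹ :
        GL (Fin m) ℂ) : Matrix (Fin m) (Fin m) ℂ) *
      ((D : Matrix (Fin m) (Fin m) ℂ) * LinearMap.toMatrix bE bF (ttr 0) +
        (D : Matrix (Fin m) (Fin m) ℂ) * LinearMap.toMatrix bE bF (Up_N (2 * k + 1) X)) *
      (((Up_rho bE (Up_rE (2 * k + 1)) (h : GL (Fin (2 * k + 1)) ℂ × ℂˣ))⁻¹ : GL (Fin m) ℂ) :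
          Matrix (Fin m) (Fin m) ℂ)
    rw [hadd, hadd, key2, Units.val_mul, Units.val_mul]
    have hDD : ((D⁻¹ : GL (Fin m) ℂ) : Matrix (Fin m) (Fin m) ℂ) *
        (D : Matrix (Fin m) (Fin m) ℂ) = 1 := by
      rw [← Units.val_mul, inv_mul_cancel, Units.val_one]
    simp only [Matrix.mul_assoc]
    rw [← Matrix.mul_assoc ((D⁻¹ : GL (Fin m) ℂ) : Matrix (Fin m) (Fin m) ℂ)
      (D : Matrix (Fin m) (Fin m) ℂ), hDD, Matrix.one_mul]

end PadDet.Eq
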